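import Mathlib

/-!
# Basic definitions for the interpolation determinant in several variables

`K` is the set of letters different from the base letter `none : Option K`.
-/

namespace Pool.Agent.Lib.AbcZ

open Finset

variable {K : Type*} [Fintype K] [DecidableEq K]

/-- product of binomial coefficients -/
def bin (A α : K → ℕ) : ℕ := ∏ x, (A x).choose (α x)

/-- total degree -/
def tdeg (A : K → ℕ) : ℕ := ∑ x, A x

/-- the multi-indices of total degree `< n` -/
def ix (K : Type*) [Fintype K] [DecidableEq K] (n : ℕ) : Finset (K → ℕ) :=
  (Fintype.piFinset fun _ : K => range n).filter fun α => tdeg α < n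

theorem mem_ix {n : ℕ} {α : K → ℕ} : α ∈ ix K n ↔ tdeg α < n := by
  unfold ix
  rw [mem_filter, Fintype.mem_piFinset]
  constructor
  · exact fun h => h.2
  · intro h
    refine ⟨fun x => ?_, h⟩
    rw [mem_range]
    exact lt_of_le_of_lt (Finset.single_le_sum (f := α) (fun _ _ => Nat.zero_le _) (mem_univ x)) h

/-- the multi-index of a word in the letters `Option K` -/
def pt {m : ℕ} (x : Fin m → Option K) : K → ℕ := fun k => (univ.filter fun i => x i = some k).card

/-- the unit vector of a letter (`0` for the base letter) -/
def uv (x : Option K) : K → ℕ := fun k => if x = some k then 1 else 0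

/-- weight of the monomial of degree `L` with exponents `A` (and `L - tdeg A` for the base letter) -/
def wt (g : Option K → ℕ) (L : ℕ) (A : K → ℕ) : ℕ :=
  ∑ x, g (some x) * A x + g none * (L - tdeg A)

/-- `f` has degree `< m`: recursive definition by differences -/
def DegLT {R : Type*} [AddCommGroup R] : ℕ → ((K → ℕ) → R) → Prop
  | 0, f => ∀ A, f A = 0
  | m + 1, f => ∀ k : K, DegLT m (fun A => f (A + uv (some k)) - f A)

/-- rational combinations of the binomial functions of degree `< n` -/
def Bq (K : Type*) [Fintype K] [DecidableEq K] (n : ℕ) : Submodule ℚ ((K → ℕ) → ℚ) :=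
  Submodule.span ℚ {f | ∃ α ∈ ix K n, f = fun A => (bin A α : ℚ)}

end Pool.Agent.Lib.AbcZ
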