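import Mathlib
import Pool.Agent.Lib.AbcZ.Defs

/-!
# The spaces spanned by binomial functions
-/

namespace Pool.Agent.Lib.AbcZ

open Finset

variable {K : Type*} [Fintype K] [DecidableEq K]

/-! ### Products -/

theorem choose_add_mul (a y i : ℕ) :
    (a + y).choose a * y.choose i = (a + y).choose (a + i) * (a + i).choose a := by
  rcases Nat.lt_or_ge y i with h | h
  · rw [Nat.choose_eq_zero_of_lt h, Nat.choose_eq_zero_of_lt (show a + y < a + i by omega)]
    simp
  · have h1 := Nat.choose_mul (n := a + y) (k := a + i) (s := a) (by omega)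
    rw [h1]
    congr 2
    · omega
    · omega

/-- the product of two binomial coefficients in the same variable -/
theorem choose_mul_choose (a b : ℕ) : ∃ c : ℕ → ℤ, ∀ x : ℕ,
    (x.choose a : ℤ) * x.choose b = ∑ j ∈ range (a + b + 1), c j * x.choose j := by
  refine ⟨fun j => if a ≤ j then ((a.choose (b - (j - a)) * j.choose a : ℕ) : ℤ) else 0, ?_⟩
  intro x
  have e1 : ∑ j ∈ range (a + b + 1), (if a ≤ j then ((a.choose (b - (j - a)) * j.choose a : ℕ) : ℤ)
      else 0) * (x.choose j : ℤ) =
      ∑ i ∈ range (b + 1), ((a.choose (b - i) * (a + i).choose a : ℕ) : ℤ) *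
        (x.choose (a + i) : ℤ) := by
    rw [show a + b + 1 = a + (b + 1) by ring, Finset.sum_range_add]
    have e2 : ∑ j ∈ range a, (if a ≤ j then ((a.choose (b - (j - a)) * j.choose a : ℕ) : ℤ)
      else 0) * (x.choose j : ℤ) = 0 := by
      apply Finset.sum_eq_zero
      intro j hj
      rw [mem_range] at hj
      rw [if_neg (by omega), zero_mul]
    rw [e2, zero_add]
    refine Finset.sum_congr rfl fun i _ => ?_
    rw [if_pos (by omega), Nat.add_sub_cancel_left]
  rw [e1]
  rcases Nat.lt_or_ge x a with h | h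
  · rw [Nat.choose_eq_zero_of_lt h]
    symm
    rw [Nat.cast_zero, zero_mul]
    apply Finset.sum_eq_zero
    intro i _
    rw [Nat.choose_eq_zero_of_lt (show x < a + i by omega)]
    simp
  · obtain ⟨y, rfl⟩ := Nat.exists_eq_add_of_le h
    have e3 : (a + y).choose b = ∑ i ∈ range (b + 1), a.choose (b - i) * y.choose i := by
      rw [Nat.add_choose_eq, Finset.Nat.sum_antidiagonal_eq_sum_range_succ
        (fun i j => a.choose i * y.choose j) b, ← Finset.sum_range_reflect]
      refine Finset.sum_congr rfl fun i hi => ?_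
      rw [mem_range] at hi
      rw [show b + 1 - 1 - i = b - i by omega, show b - (b - i) = i by omega]
    have e4 : (a + y).choose a * (a + y).choose b =
        ∑ i ∈ range (b + 1), (a.choose (b - i) * (a + i).choose a) * (a + y).choose (a + i) := by
      rw [e3, Finset.mul_sum]
      refine Finset.sum_congr rfl fun i _ => ?_
      rw [Nat.mul_left_comm, choose_add_mul]
      ring
    exact_mod_cast e4

/-- the product of two binomial functions, integer coefficients, uniformly in `A` -/
theorem bin_mul (α β : K → ℕ) : ∃ c : (K → ℕ) → ℤ, ∀ A : K → ℕ,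
    (bin A α : ℤ) * bin A β = ∑ γ ∈ ix K (tdeg α + tdeg β + 1), c γ * bin A γ := by
  classical
  choose c hc using fun x : K => choose_mul_choose (α x) (β x)
  set P : Finset (K → ℕ) := Fintype.piFinset fun x : K => range (α x + β x + 1) with hP
  refine ⟨fun γ => if γ ∈ P then ∏ x, c x (γ x) else 0, ?_⟩
  intro A
  have e1 : (bin A α : ℤ) * bin A β = ∑ γ ∈ P, (∏ x, c x (γ x)) * bin A γ := by
    unfold bin
    push_cast
    rw [← Finset.prod_mul_distrib]
    have e2 : ∀ x, ((A x).choose (α x) : ℤ) * ((A x).choose (β x) : ℤ) =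
        ∑ j ∈ range (α x + β x + 1), c x j * ((A x).choose j : ℤ) := fun x => hc x (A x)
    rw [Finset.prod_congr rfl fun x _ => e2 x, Finset.prod_univ_sum]
    refine Finset.sum_congr rfl fun γ _ => ?_
    rw [Finset.prod_mul_distrib]
  rw [e1]
  have hsub : P ⊆ ix K (tdeg α + tdeg β + 1) := by
    intro γ hγ
    rw [mem_ix]
    rw [hP, Fintype.mem_piFinset] at hγ
    have h1 : tdeg γ ≤ tdeg α + tdeg β := by
      unfold tdeg
      rw [← Finset.sum_add_distrib]
      refine Finset.sum_le_sum fun x _ => ?_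
      have := hγ x
      rw [mem_range] at this
      omega
    omega
  rw [← Finset.sum_subset hsub]
  · refine Finset.sum_congr rfl fun γ hγ => ?_
    simp only [if_pos hγ]
  · intro γ _ hγ
    simp only [if_neg hγ, zero_mul]

/-! ### The spaces -/

theorem Bq_mono {a b : ℕ} (h : a ≤ b) : Bq K a ≤ Bq K b := by
  unfold Bq
  apply Submodule.span_mono
  rintro f ⟨α, hα, rfl⟩
  rw [mem_ix] at hα
  exact ⟨α, mem_ix.2 (by omega), rfl⟩

theorem bin_mem_Bq {n : ℕ} {α : K → ℕ} (h : tdeg α < n) :
    (fun A : K → ℕ => (bin A α : ℚ)) ∈ Bq K n :=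
  Submodule.subset_span ⟨α, mem_ix.2 h, rfl⟩

theorem mem_Bq_iff {n : ℕ} {f : (K → ℕ) → ℚ} : f ∈ Bq K n ↔
    ∃ ρ : (K → ℕ) → ℚ, ∀ A, f A = ∑ α ∈ ix K n, ρ α * bin A α := by
  constructor
  · intro h
    unfold Bq at h
    induction h using Submodule.span_induction with
    | mem f hf =>
      obtain ⟨α, hα, rfl⟩ := hf
      refine ⟨fun β => if β = α then 1 else 0, ?_⟩
      intro A
      rw [Finset.sum_eq_single α]
      · simp
      · intro β _ hne
        simp only [if_neg hne, zero_mul]
      · intro h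
        exact absurd hα h
    | zero => exact ⟨fun _ => 0, fun A => by simp⟩
    | add f g _ _ hf hg =>
      obtain ⟨ρ, hρ⟩ := hf
      obtain ⟨σ, hσ⟩ := hg
      refine ⟨fun α => ρ α + σ α, fun A => ?_⟩
      rw [Pi.add_apply, hρ, hσ, ← Finset.sum_add_distrib]
      refine Finset.sum_congr rfl fun α _ => ?_
      ring
    | smul c f _ hf =>
      obtain ⟨ρ, hρ⟩ := hf
      refine ⟨fun α => c * ρ α, fun A => ?_⟩
      rw [Pi.smul_apply, hρ, smul_eq_mul, Finset.mul_sum]
      refine Finset.sum_congr rfl fun α _ => ?_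
      ring
  · rintro ⟨ρ, hρ⟩
    have h1 : f = ∑ α ∈ ix K n, ρ α • (fun A : K → ℕ => (bin A α : ℚ)) := by
      funext A
      rw [hρ, Finset.sum_apply]
      rfl
    rw [h1]
    refine Submodule.sum_mem _ fun α hα => Submodule.smul_mem _ _ (bin_mem_Bq (mem_ix.1 hα))

/-- membership of a map which is linear in `f` has to be checked on the binomial functions -/
theorem Bq_linear {n : ℕ} (V : Submodule ℚ ((K → ℕ) → ℚ))
    (T : ((K → ℕ) → ℚ) →ₗ[ℚ] ((K → ℕ) → ℚ))
    (h : ∀ α : K → ℕ, tdeg α < n → T (fun A => (bin A α : ℚ)) ∈ V) {f : (K → ℕ) → ℚ}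
    (hf : f ∈ Bq K n) : T f ∈ V := by
  have h1 : Bq K n ≤ V.comap T := by
    unfold Bq
    rw [Submodule.span_le]
    rintro g ⟨α, hα, rfl⟩
    exact h α (mem_ix.1 hα)
  exact h1 hf

theorem Bq_mul {a b : ℕ} {f g : (K → ℕ) → ℚ} (hf : f ∈ Bq K a) (hg : g ∈ Bq K b) :
    (fun A => f A * g A) ∈ Bq K (a + b) := by
  have key : ∀ α β : K → ℕ, tdeg α < a → tdeg β < b →
      (fun A : K → ℕ => (bin A α : ℚ) * (bin A β : ℚ)) ∈ Bq K (a + b) := by
    intro α β hα hβ
    obtain ⟨c, hc⟩ := bin_mul α β
    apply Bq_mono (show tdeg α + tdeg β + 1 ≤ a + b by omega)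
    rw [mem_Bq_iff]
    refine ⟨fun γ => (c γ : ℚ), fun A => ?_⟩
    have h2 := congrArg (fun x : ℤ => (x : ℚ)) (hc A)
    push_cast at h2
    exact h2
  have h1 : ∀ α : K → ℕ, tdeg α < a → (fun A : K → ℕ => (bin A α : ℚ) * g A) ∈ Bq K (a + b) := by
    intro α hα
    let T : ((K → ℕ) → ℚ) →ₗ[ℚ] ((K → ℕ) → ℚ) :=
      { toFun := fun g A => (bin A α : ℚ) * g A
        map_add' := fun g g' => by
          funext A
          simp only [Pi.add_apply]
          ring
        map_smul' := fun c g => by
          funext A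
          simp only [Pi.smul_apply, smul_eq_mul, RingHom.id_apply]
          ring }
    exact Bq_linear _ T (fun β hβ => key α β hα hβ) hg
  let T : ((K → ℕ) → ℚ) →ₗ[ℚ] ((K → ℕ) → ℚ) :=
    { toFun := fun f A => f A * g A
      map_add' := fun f f' => by
        funext A
        simp only [Pi.add_apply]
        ring
      map_smul' := fun c f => by
        funext A
        simp only [Pi.smul_apply, smul_eq_mul, RingHom.id_apply]
        ring }
  exact Bq_linear _ T h1 hf

theorem bin_shift (A α : K → ℕ) (k : K) : (bin (A + uv (some k)) α : ℚ) =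
    (bin A α : ℚ) + if α k = 0 then 0 else (bin A (Function.update α k (α k - 1)) : ℚ) := by
  classical
  unfold bin
  push_cast
  rw [← Finset.mul_prod_erase univ _ (mem_univ k), ← Finset.mul_prod_erase univ
    (fun x => ((A x).choose (α x) : ℚ)) (mem_univ k), ← Finset.mul_prod_erase univ
    (fun x => ((A x).choose (Function.update α k (α k - 1) x) : ℚ)) (mem_univ k)]
  have e1 : ∏ x ∈ univ.erase k, (((A + uv (some k)) x).choose (α x) : ℚ) =
      ∏ x ∈ univ.erase k, ((A x).choose (α x) : ℚ) := by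
    refine Finset.prod_congr rfl fun x hx => ?_
    have hne : x ≠ k := (Finset.mem_erase.1 hx).1
    have : (uv (some k) : K → ℕ) x = 0 := by
      unfold uv
      rw [if_neg]
      intro h
      exact hne (Option.some.inj h).symm
    rw [Pi.add_apply, this, add_zero]
  have e2 : ∏ x ∈ univ.erase k, ((A x).choose (Function.update α k (α k - 1) x) : ℚ) =
      ∏ x ∈ univ.erase k, ((A x).choose (α x) : ℚ) := by
    refine Finset.prod_congr rfl fun x hx => ?_
    rw [Function.update_of_ne (Finset.mem_erase.1 hx).1]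
  rw [e1, e2, Function.update_self]
  have e3 : (uv (some k) : K → ℕ) k = 1 := by
    unfold uv
    rw [if_pos rfl]
  rw [Pi.add_apply, e3]
  rcases Nat.eq_zero_or_pos (α k) with h0 | h0
  · rw [h0, if_pos rfl]
    simp
  · rw [if_neg h0.ne']
    obtain ⟨j, hj⟩ := Nat.exists_eq_succ_of_ne_zero h0.ne'
    rw [hj, Nat.choose_succ_succ, Nat.succ_eq_add_one, Nat.add_sub_cancel]
    push_cast
    ring

theorem tdeg_update_lt {α : K → ℕ} {k : K} (h : α k ≠ 0) :
    tdeg (Function.update α k (α k - 1)) < tdeg α := by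
  unfold tdeg
  apply Finset.sum_lt_sum
  · intro x _
    rcases eq_or_ne x k with rfl | hne
    · rw [Function.update_self]
      omega
    · rw [Function.update_of_ne hne]
  · exact ⟨k, mem_univ k, by rw [Function.update_self]; omega⟩

theorem Bq_shift {a : ℕ} {f : (K → ℕ) → ℚ} (hf : f ∈ Bq K a) (k : K) :
    (fun A => f (A + uv (some k))) ∈ Bq K a := by
  let T : ((K → ℕ) → ℚ) →ₗ[ℚ] ((K → ℕ) → ℚ) :=
    { toFun := fun f A => f (A + uv (some k))
      map_add' := fun f f' => rfl
      map_smul' := fun c f => rfl }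
  refine Bq_linear _ T (fun α hα => ?_) hf
  have h1 : T (fun A => (bin A α : ℚ)) = (fun A : K → ℕ => (bin A α : ℚ)) +
      if α k = 0 then 0 else (fun A : K → ℕ => (bin A (Function.update α k (α k - 1)) : ℚ)) := by
    funext A
    show (bin (A + uv (some k)) α : ℚ) = _
    rw [bin_shift, Pi.add_apply]
    congr 1
    split_ifs <;> rfl
  rw [h1]
  apply Submodule.add_mem _ (bin_mem_Bq hα)
  split_ifs with h
  · exact Submodule.zero_mem _
  · exact bin_mem_Bq ((tdeg_update_lt h).trans hα)

/-- binomial coefficients are polynomials -/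
theorem choose_poly (a j : ℕ) : ∃ r : Polynomial ℚ, ∀ x : ℕ,
    ((a + x).choose j : ℚ) = r.eval (x : ℚ) := by
  refine ⟨Polynomial.C ((j.factorial : ℚ)⁻¹) *
    (descPochhammer ℚ j).comp (Polynomial.X + Polynomial.C (a : ℚ)), ?_⟩
  intro x
  rw [Polynomial.eval_mul, Polynomial.eval_C, Polynomial.eval_comp, Polynomial.eval_add,
    Polynomial.eval_X, Polynomial.eval_C, show (x : ℚ) + (a : ℚ) = ((a + x : ℕ) : ℚ) by
      push_cast
      ring, descPochhammer_eval_eq_descFactorial, Nat.descFactorial_eq_factorial_mul_choose]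
  have : (j.factorial : ℚ) ≠ 0 := by exact_mod_cast j.factorial_ne_zero
  push_cast
  field_simp

theorem Bq_line {a : ℕ} {f : (K → ℕ) → ℚ} (hf : f ∈ Bq K a) (k : K) (A : K → ℕ) :
    ∃ r : Polynomial ℚ, ∀ x : ℕ, f (A + x • uv (some k)) = r.eval (x : ℚ) := by
  classical
  obtain ⟨ρ, hρ⟩ := mem_Bq_iff.1 hf
  choose r hr using fun j : ℕ => choose_poly (A k) j
  refine ⟨∑ α ∈ ix K a, Polynomial.C (ρ α * ∏ x ∈ univ.erase k, ((A x).choose (α x) : ℚ)) *
    r (α k), ?_⟩
  intro x
  rw [hρ, Polynomial.eval_finsetSum]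
  refine Finset.sum_congr rfl fun α _ => ?_
  rw [Polynomial.eval_mul, Polynomial.eval_C, ← hr, mul_assoc]
  congr 1
  unfold bin
  push_cast
  rw [← Finset.mul_prod_erase univ _ (mem_univ k), mul_comm]
  have e3 : (A + x • (uv (some k) : K → ℕ)) k = A k + x := by
    rw [Pi.add_apply, Pi.smul_apply]
    unfold uv
    simp
  rw [e3]
  congr 1
  refine Finset.prod_congr rfl fun y hy => ?_
  have hne : y ≠ k := (Finset.mem_erase.1 hy).1
  have : (uv (some k) : K → ℕ) y = 0 := by
    unfold uv
    rw [if_neg]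
    intro h
    exact hne (Option.some.inj h).symm
  rw [Pi.add_apply, Pi.smul_apply, this, smul_zero, add_zero]

/-! ### Independence -/

omit [DecidableEq K] in
theorem bin_self (α : K → ℕ) : bin α α = 1 := by
  unfold bin
  simp

omit [DecidableEq K] in
theorem bin_eq_zero {A α : K → ℕ} {x : K} (h : A x < α x) : bin A α = 0 := by
  unfold bin
  exact Finset.prod_eq_zero (mem_univ x) (Nat.choose_eq_zero_of_lt h)

/-- the binomial functions are independent -/
theorem bin_indep {n : ℕ} {ρ : (K → ℕ) → ℚ} (h : ∀ A, ∑ α ∈ ix K n, ρ α * bin A α = 0) :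
    ∀ α ∈ ix K n, ρ α = 0 := by
  have key : ∀ d : ℕ, ∀ α ∈ ix K n, tdeg α = d → ρ α = 0 := by
    intro d
    induction d using Nat.strong_induction_on with
    | _ d ih =>
      intro α hα hd
      have h1 := h α
      rw [Finset.sum_eq_single α] at h1
      · rw [bin_self, Nat.cast_one, mul_one] at h1
        exact h1
      · intro β hβ hne
        by_cases hle : ∀ x, β x ≤ α x
        · have hlt : tdeg β < tdeg α := by
            unfold tdeg
            obtain ⟨x, hx⟩ := Function.ne_iff.1 hne
            exact Finset.sum_lt_sum (fun y _ => hle y)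
              ⟨x, mem_univ x, lt_of_le_of_ne (hle x) hx⟩
          rw [ih (tdeg β) (by omega) β hβ rfl, zero_mul]
        · push Not at hle
          obtain ⟨x, hx⟩ := hle
          rw [bin_eq_zero hx, Nat.cast_zero, mul_zero]
      · intro h2
        exact absurd hα h2
  exact fun α hα => key _ α hα rfl

/-- rational function argument on a line -/
theorem line_zero (r1 r2 : Polynomial ℚ) (om : ℚ) (hom : om ≠ 1)
    (h : ∀ x : ℕ, r1.eval ((x : ℚ) + 1) * r2.eval (x : ℚ) =
      om * (r1.eval (x : ℚ) * r2.eval ((x : ℚ) + 1))) : r1 * r2 = 0 := by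
  have h1 : r1.comp (Polynomial.X + Polynomial.C 1) * r2 =
      Polynomial.C om * (r1 * r2.comp (Polynomial.X + Polynomial.C 1)) := by
    apply Polynomial.eq_of_infinite_eval_eq
    apply Set.infinite_of_injective_forall_mem (f := fun x : ℕ => (x : ℚ)) Nat.cast_injective
    intro x
    show Polynomial.eval (x : ℚ) _ = Polynomial.eval (x : ℚ) _
    simp only [Polynomial.eval_mul, Polynomial.eval_comp, Polynomial.eval_add, Polynomial.eval_X,
      Polynomial.eval_C]
    exact h x
  have hX : (Polynomial.X + Polynomial.C (1 : ℚ)).natDegree ≠ 0 := by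
    rw [Polynomial.natDegree_X_add_C]
    exact one_ne_zero
  have h2 := congrArg Polynomial.leadingCoeff h1
  rw [Polynomial.leadingCoeff_mul, Polynomial.leadingCoeff_mul, Polynomial.leadingCoeff_mul,
    Polynomial.leadingCoeff_C, Polynomial.leadingCoeff_comp hX, Polynomial.leadingCoeff_comp hX,
    Polynomial.leadingCoeff_X_add_C, one_pow, one_pow, mul_one, mul_one] at h2
  have h3 : (1 - om) * (r1.leadingCoeff * r2.leadingCoeff) = 0 := by linear_combination h2
  rcases mul_eq_zero.1 h3 with h4 | h4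
  · exact absurd (sub_eq_zero.1 h4).symm hom
  · rcases mul_eq_zero.1 h4 with h5 | h5
    · rw [Polynomial.leadingCoeff_eq_zero.1 h5, zero_mul]
    · rw [Polynomial.leadingCoeff_eq_zero.1 h5, mul_zero]

end Pool.Agent.Lib.AbcZ
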