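import Mathlib
import Pool.Agent.Lib.AbcQ.Member

/-!
# Every abc-triple from Theorem S
-/

namespace Pool.Agent.Lib.AbcZ

open Finset Pool.Agent.Lib.Pabc2 Pool.Agent.Lib.AbcH Pool.Agent.Lib.AbcO Pool.Agent.Lib.AbcQ

/-- The statement of Theorem S (modulus a power of one prime, any mass, any exponent). -/
def ThmS : Prop := ∀ A kappa theta eta : ℝ, 1 ≤ A → 0 < kappa → kappa < 1 → 0 < theta →
  0 < eta → ∃ K : ℝ, 0 < K ∧ ∃ p0 : ℕ, ∀ (p u Z1 Z2 : ℕ) (s : ℤ) (T : ℝ), p.Prime → p0 ≤ p →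
    0 < Z1 → 0 < Z2 → Nat.Coprime Z1 Z2 → (s = 1 ∨ s = -1) → (Z1 : ℤ) ≠ s * Z2 →
    ((p ^ u : ℕ) : ℤ) ∣ (Z1 : ℤ) - s * Z2 → Real.log Z1 ≤ A * (u * Real.log p) →
    Real.log Z2 ≤ A * (u * Real.log p) → ∏ q ∈ (Z1 * Z2).primeFactors, (q : ℝ) ≤ T →
    (p : ℝ) ≤ T → T ^ theta ≤ p → (u : ℝ) ≤ K * (p : ℝ) ^ (1 - kappa) * T ^ eta

/-- **All triples**, composed of primes of `r`. -/
theorem sub_pair (hE : ThmE2 1) (hS : ThmS) (ε : ℝ) (hε : 0 < ε) :
    ∃ K : ℝ, 0 < K ∧ ∀ (r : ℕ) (t : ℕ × ℕ), 0 < r → IsT t →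
      (N t).primeFactors ⊆ r.primeFactors → ht t ≤ K * (r : ℝ) ^ ε := by
  classical
  set η : ℝ := min (ε / 8) (1 / 8) with hη
  have hη0 : 0 < η := lt_min (by positivity) (by norm_num)
  have hη1 : η ≤ ε / 8 := min_le_left _ _
  have hη2 : η ≤ 1 / 8 := min_le_right _ _
  set k : ℕ := ⌈1 / η⌉₊ with hk
  have hk1 : 1 ≤ k := Nat.one_le_iff_ne_zero.2 (by
    have : 0 < ⌈1 / η⌉₊ := Nat.ceil_pos.2 (by positivity)
    omega)
  have hkR : (1 : ℝ) ≤ k := by exact_mod_cast hk1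
  have hkη : 1 ≤ η * k := by
    have h1 : 1 / η ≤ k := Nat.le_ceil _
    rw [div_le_iff₀ hη0] at h1
    linarith
  set θ : ℝ := 1 / ((k : ℝ) + 1) with hθ
  have hθ0 : 0 < θ := by positivity
  have hθη : θ ≤ η := by
    rw [hθ, div_le_iff₀ (by positivity)]
    nlinarith
  obtain ⟨K1, hK1, p0, h1⟩ := hS (2 * k) (1 - η) θ η (by linarith) (by linarith) (by linarith)
    hθ0 hη0
  obtain ⟨K2, hK2, h2⟩ := small_prime (by norm_num) hE (1 / (4 * k)) η (by positivity) (by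
    rw [div_le_iff₀ (by positivity)]
    linarith) hη0
  obtain ⟨K3, hK3, h3⟩ := member_light (κ := 1) (by norm_num) hE (1 / 4) η (by norm_num)
    (by norm_num) hη0
  refine ⟨K2 * (p0 + 1) + K3 + 1000 + 2 * k * K1 / η, by positivity, ?_⟩
  intro r t hr hT hsub
  have hh := ht_pos hT
  have hr1 : (1 : ℝ) ≤ r := by exact_mod_cast hr
  have hr0 : (0 : ℝ) < r := by linarith
  have q2 : (1 : ℝ) ≤ (r : ℝ) ^ ε := Real.one_le_rpow hr1 hε.le
  have hp00 : (0 : ℝ) ≤ (p0 : ℝ) := Nat.cast_nonneg _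
  have hpow : ∀ x : ℝ, x ≤ 8 * η → (r : ℝ) ^ x ≤ (r : ℝ) ^ ε := fun x hx =>
    Real.rpow_le_rpow_of_exponent_le hr1 (by linarith)
  have hsplit : (K2 * (p0 + 1) + K3 + 1000 + 2 * k * K1 / η) * (r : ℝ) ^ ε =
      K2 * p0 * (r : ℝ) ^ ε + K2 * (r : ℝ) ^ ε + K3 * (r : ℝ) ^ ε + 1000 * (r : ℝ) ^ ε +
        2 * k * K1 / η * (r : ℝ) ^ ε := by ring
  have n1 : 0 ≤ K2 * p0 * (r : ℝ) ^ ε := by positivity
  have n2 : 0 ≤ K2 * (r : ℝ) ^ ε := by positivity
  have n3 : 0 ≤ K3 * (r : ℝ) ^ ε := by positivity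
  have n4 : 0 ≤ 1000 * (r : ℝ) ^ ε := by positivity
  have n5 : 0 ≤ 2 * k * K1 / η * (r : ℝ) ^ ε := by positivity
  rw [hsplit]
  by_contra hcon
  push Not at hcon
  have hb1 : 1000 ≤ ht t := by nlinarith
  set P : ℝ := (r : ℝ) ^ θ with hP
  have hP1 : 1 ≤ P := Real.one_le_rpow hr1 hθ0.le
  set S : Finset ℕ := r.primeFactors.filter (fun p : ℕ => P < p) with hS'
  have hScard : S.card ≤ k := card_large r k hr
  have hSP : ∀ p ∈ r.primeFactors, p ∉ S → (p : ℝ) ≤ P := by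
    intro p hp hpS
    by_contra hc
    push Not at hc
    exact hpS (Finset.mem_filter.2 ⟨hp, hc⟩)
  have hout : ∑ p ∈ (N t).primeFactors \ S, ((comp t 2).factorization p : ℝ) * Real.log p ≤
      1 / 4 * ht t := by
    by_contra hc
    push Not at hc
    have h4 := h3 r S P t 2 hr hP1 hT hsub hSP hb1 hc
    rw [pow_one] at h4
    have h5 : K3 * (r : ℝ) ^ (3 * η) * P ≤ K3 * (r : ℝ) ^ ε := by
      rw [hP, mul_assoc, ← Real.rpow_add hr0]
      exact mul_le_mul_of_nonneg_left (hpow _ (by linarith)) hK3.le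
    linarith
  have hlogc : Real.log (comp t 2 : ℝ) = ht t := by
    have : comp t 2 = t.1 + t.2 := rfl
    rw [this]
    unfold ht
    push_cast
    rfl
  have hin : 1 / 2 * ht t <
      ∑ p ∈ (N t).primeFactors ∩ S, ((comp t 2).factorization p : ℝ) * Real.log p := by
    have h4 := log_member hT 2
    rw [← Finset.sum_inter_add_sum_sdiff (N t).primeFactors S, hlogc] at h4
    linarith
  -- one prime carries a fixed proportion
  obtain ⟨p, hpS, hpm⟩ : ∃ p ∈ (N t).primeFactors ∩ S,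
      ht t / (2 * k) < ((comp t 2).factorization p : ℝ) * Real.log p := by
    by_contra hc
    push Not at hc
    have h4 := Finset.sum_le_sum hc
    rw [Finset.sum_const, nsmul_eq_mul] at h4
    have h5 : (((N t).primeFactors ∩ S).card : ℝ) ≤ k := by
      exact_mod_cast (Finset.card_le_card Finset.inter_subset_right).trans hScard
    have h6 : (((N t).primeFactors ∩ S).card : ℝ) * (ht t / (2 * k)) ≤ k * (ht t / (2 * k)) :=
      mul_le_mul_of_nonneg_right h5 (by positivity)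
    have h7 : (k : ℝ) * (ht t / (2 * k)) = 1 / 2 * ht t := by
      field_simp
    linarith
  have hpN := (Finset.mem_inter.1 hpS).1
  have hpr : p.Prime := Nat.prime_of_mem_primeFactors hpN
  have hPp : P < (p : ℝ) := (Finset.mem_filter.1 (Finset.mem_inter.1 hpS).2).2
  have hPr : p ∣ r := Nat.dvd_of_mem_primeFactors (hsub hpN)
  have hPle : (p : ℝ) ≤ r := by exact_mod_cast Nat.le_of_dvd hr hPr
  have hp1 : (1 : ℝ) ≤ (p : ℝ) := by exact_mod_cast hpr.one_lt.le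
  have hp0 : (0 : ℝ) < (p : ℝ) := by linarith
  set u : ℕ := (comp t 2).factorization p with hu
  have hmass : ht t ≤ 2 * k * ((u : ℝ) * Real.log p) := by
    have h4 := hpm.le
    rw [div_le_iff₀ (by positivity)] at h4
    linarith
  by_cases hc1 : p < p0
  · have hc1' : (p : ℝ) ≤ p0 := by exact_mod_cast hc1.le
    have h4 := h2 r t 2 p hr hT hsub hpr (by
      have h5 : 1 / (4 * (k : ℝ)) * ht t = ht t / (2 * k) / 2 := by field_simp; ring
      have h6 : 0 < ht t / (2 * k) := by positivity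
      rw [h5]
      linarith)
    rw [pow_one] at h4
    have h5 : K2 * (r : ℝ) ^ (3 * η) * (p : ℝ) ≤ K2 * p0 * (r : ℝ) ^ ε := by
      calc K2 * (r : ℝ) ^ (3 * η) * (p : ℝ) ≤ K2 * (r : ℝ) ^ ε * p0 := by
            gcongr
            linarith
        _ = _ := by ring
    linarith
  · push Not at hc1
    obtain ⟨s, hs, hne, hdvd⟩ := signs hT (l := 2) (l1 := 0) (l2 := 1) (by decide) (by decide)
      (by decide)
    have hlogle : ∀ m : Fin 3, Real.log (comp t m : ℝ) ≤ 2 * k * ((u : ℝ) * Real.log p) :=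
      fun m => (log_comp_le hT m).trans hmass
    have h4 := h1 p u (comp t 0) (comp t 1) s r hpr hc1 (comp_pos hT _) (comp_pos hT _)
      (comp_cop hT (by decide)) hs hne
      ((Int.natCast_dvd_natCast.2 (Nat.ordProj_dvd _ _)).trans hdvd) (hlogle 0) (hlogle 1) (by
        apply prod_primeFactors_le hr
        intro q hq
        apply hsub
        have hq' := Nat.mem_primeFactors.1 hq
        refine Nat.mem_primeFactors.2 ⟨hq'.1, ?_, hT.N_ne⟩
        rcases (hq'.1.dvd_mul).1 hq'.2.1 with h | h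
        · exact h.trans (comp_dvd_N t _)
        · exact h.trans (comp_dvd_N t _)) hPle hPp.le
    have h5 : Real.log p ≤ (r : ℝ) ^ η / η :=
      (Real.log_le_log hp0 hPle).trans (Real.log_le_rpow_div hr0.le hη0)
    have h6 : (p : ℝ) ^ (1 - (1 - η)) ≤ (r : ℝ) ^ η := by
      rw [show 1 - (1 - η) = η by ring]
      exact Real.rpow_le_rpow hp0.le hPle hη0.le
    have h7 : ht t ≤ 2 * k * K1 / η * (r : ℝ) ^ ε := by
      calc ht t ≤ 2 * k * ((u : ℝ) * Real.log p) := hmass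
        _ ≤ 2 * k * ((K1 * (r : ℝ) ^ η * (r : ℝ) ^ η) * ((r : ℝ) ^ η / η)) := by
            gcongr
            exact h4.trans (by gcongr)
        _ = 2 * k * K1 / η * ((r : ℝ) ^ η * (r : ℝ) ^ η * (r : ℝ) ^ η) := by
            field_simp
        _ = 2 * k * K1 / η * (r : ℝ) ^ (η + η + η) := by
            rw [Real.rpow_add hr0, Real.rpow_add hr0]
        _ ≤ _ := mul_le_mul_of_nonneg_left (hpow _ (by linarith)) (by positivity)
    linarith

/-- **All triples**, composed of primes of `r`. -/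
theorem sub_r (hE : ThmE2 1) (hS : ThmS) (ε : ℝ) (hε : 0 < ε) :
    ∃ K : ℝ, 0 < K ∧ ∀ r : ℕ, 0 < r → high r (K * (r : ℝ) ^ ε) = ∅ := by
  obtain ⟨K, hK, h1⟩ := sub_pair hE hS ε hε
  refine ⟨K, hK, ?_⟩
  intro r hr
  rw [Set.eq_empty_iff_forall_notMem]
  rintro ⟨a, b, c⟩ h
  obtain ⟨t1, t2, t3⟩ := toPair hr h
  have h3 := h1 r _ hr t1 t2
  linarith

/-- **Every abc-triple** has `log c ≤ K rad (abc) ^ ε`. -/
theorem sub_abs (hE : ThmE2 1) (hS : ThmS) (ε : ℝ) (hε : 0 < ε) :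
    ∃ K : ℝ, 0 < K ∧ ∀ a b c : ℕ, AbcTriple a b c →
      Real.log c ≤ K * (rad (a * b * c) : ℝ) ^ ε := by
  obtain ⟨K, hK, h1⟩ := sub_r hE hS ε hε
  refine ⟨K, hK, ?_⟩
  intro a b c h
  have hc : 0 < c := by have := h.1; have := h.2.2.1; omega
  have hne : a * b * c ≠ 0 := by
    have := h.1
    have := h.2.1
    positivity
  by_contra hcon
  push Not at hcon
  have h2 := h1 (rad (a * b * c)) (rad_pos _)
  rw [Set.eq_empty_iff_forall_notMem] at h2
  exact h2 (a, b, c) ⟨h, (rad_dvd_iff hne).1 dvd_rfl, hcon⟩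

end Pool.Agent.Lib.AbcZ
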