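import Pool.Agent.Lib.AbcZ.Defs

/-!
Number of multi-indices of total degree `< n`.
-/

namespace Pool.Agent.Lib.AbcZ

open Finset

variable {K : Type*} [Fintype K] [DecidableEq K]

theorem card_ix_succ (m : ℕ) :
    (ix K (m + 1)).card = (m + Fintype.card K).choose (Fintype.card K) := by
  classical
  have h1 : (ix K (m + 1)).card = Fintype.card (Sym (Option K) m) := by
    refine Finset.card_eq_of_equiv_fintype ?_
    refine Equiv.trans ?_ (Sym.equivNatSumOfFintype (Option K) m).symm
    refine
      { toFun := fun α => ⟨fun x => x.elim (m - tdeg α.1) α.1, ?_⟩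
        invFun := fun P => ⟨fun x => P.1 (some x), ?_⟩
        left_inv := ?_
        right_inv := ?_ }
    · have := mem_ix.1 α.2
      rw [Fintype.sum_option]
      show m - tdeg α.1 + ∑ x, α.1 x = m
      unfold tdeg at *
      omega
    · rw [mem_ix]
      have := P.2
      rw [Fintype.sum_option] at this
      show ∑ x, P.1 (some x) < m + 1
      omega
    · intro α
      apply Subtype.ext
      rfl
    · intro P
      apply Subtype.ext
      funext x
      cases x with
      | none =>
        have := P.2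
        rw [Fintype.sum_option] at this
        show m - ∑ x, P.1 (some x) = P.1 none
        omega
      | some x => rfl
  rw [h1, Sym.card_sym_eq_choose, Fintype.card_option]
  have h2 : Fintype.card K + 1 + m - 1 = m + Fintype.card K := by omega
  rw [h2, Nat.choose_symm_add]

theorem card_ix (n : ℕ) : (ix K n).card = if n = 0 then 0 else
    (n - 1 + Fintype.card K).choose (Fintype.card K) := by
  cases n with
  | zero =>
    rw [if_pos rfl, Finset.card_eq_zero]
    ext α
    rw [mem_ix]
    simp
  | succ m =>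
    rw [if_neg (Nat.succ_ne_zero m), card_ix_succ, Nat.add_sub_cancel]

theorem card_ix_mul (n : ℕ) (hn : 0 < n) :
    ((Fintype.card K).factorial * (ix K n).card : ℕ) = ∏ i ∈ range (Fintype.card K), (n + i) := by
  obtain ⟨m, rfl⟩ := Nat.exists_eq_succ_of_ne_zero hn.ne'
  rw [← Nat.ascFactorial_eq_prod_range, Nat.succ_eq_add_one, card_ix_succ,
    Nat.ascFactorial_eq_factorial_mul_choose]

/-- ratio of the numbers of rows -/
theorem card_ratio (N1 N2 : ℕ) (h2 : 0 < N2) (h : N2 ≤ N1) :
    ((ix K N1).card : ℝ) ≤ ((N1 : ℝ) / N2) ^ Fintype.card K * (ix K N2).card := by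
  set k := Fintype.card K with hk
  have h2' : (0 : ℝ) < N2 := by exact_mod_cast h2
  have hf : (0 : ℝ) < (k.factorial : ℝ) := by exact_mod_cast Nat.factorial_pos k
  have e1 : (k.factorial : ℝ) * (ix K N1).card = ∏ i ∈ range k, ((N1 : ℝ) + i) := by
    have := card_ix_mul (K := K) N1 (lt_of_lt_of_le h2 h)
    rw [← hk] at this
    exact_mod_cast this
  have e2 : (k.factorial : ℝ) * (ix K N2).card = ∏ i ∈ range k, ((N2 : ℝ) + i) := by
    have := card_ix_mul (K := K) N2 h2
    rw [← hk] at this
    exact_mod_cast this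
  have h3 : ∏ i ∈ range k, ((N1 : ℝ) + i) ≤
      ((N1 : ℝ) / N2) ^ k * ∏ i ∈ range k, ((N2 : ℝ) + i) := by
    rw [← Finset.card_range k, ← Finset.prod_const, Finset.card_range, ← Finset.prod_mul_distrib]
    refine Finset.prod_le_prod (fun i _ => by positivity) fun i _ => ?_
    rw [div_mul_eq_mul_div, le_div_iff₀ h2']
    have h' : (N2 : ℝ) ≤ N1 := by exact_mod_cast h
    have hi : (0 : ℝ) ≤ i := Nat.cast_nonneg i
    nlinarith [mul_le_mul_of_nonneg_left h' hi]
  rw [← e1, ← e2] at h3
  have h4 : (k.factorial : ℝ) * (ix K N1).card ≤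
      (k.factorial : ℝ) * (((N1 : ℝ) / N2) ^ k * (ix K N2).card) := by
    calc (k.factorial : ℝ) * (ix K N1).card
        ≤ ((N1 : ℝ) / N2) ^ k * ((k.factorial : ℝ) * (ix K N2).card) := h3
      _ = _ := by ring
  exact le_of_mul_le_mul_left h4 hf

omit [DecidableEq K] in
theorem bin_le (A α : K → ℕ) : bin A α ≤ 2 ^ tdeg A := by
  unfold bin tdeg
  rw [← Finset.prod_pow_eq_pow_sum]
  exact Finset.prod_le_prod (fun _ _ => Nat.zero_le _) fun x _ => Nat.choose_le_two_pow _ _

end Pool.Agent.Lib.AbcZ
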