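import Mathlib
import Pool.Agent.Lib.AbcZ.Defs

/-!
# The interpolation determinant
-/

namespace Pool.Agent.Lib.AbcZ

open Finset

/-- independent rows: some square minor with all the rows does not vanish -/
theorem exists_minor {R S : Type} [Fintype R] [DecidableEq R] [Fintype S] (M : R → S → ℤ)
    (hind : ∀ c : R → ℚ, (∀ A, ∑ i, c i * (M i A : ℚ) = 0) → ∀ i, c i = 0) :
    ∃ s : R → S, (Matrix.of fun i j => M i (s j)).det ≠ 0 := by
  classical
  set v : S → R → ℚ := fun A i => (M i A : ℚ) with hv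
  have hspan : Submodule.span ℚ (Set.range v) = ⊤ := by
    by_contra hne
    obtain ⟨f, hf0, hf⟩ := Submodule.exists_le_ker_of_lt_top _ (lt_top_iff_ne_top.2 hne)
    apply hf0
    have h1 : ∀ x : R → ℚ, f x = ∑ i, f (Pi.single i 1) * x i := by
      intro x
      conv_lhs => rw [← Finset.univ_sum_single x]
      rw [map_sum]
      refine Finset.sum_congr rfl fun i _ => ?_
      have : Pi.single i (x i) = x i • (Pi.single i (1 : ℚ) : R → ℚ) := by
        rw [← Pi.single_smul]
        simp
      rw [this, map_smul, smul_eq_mul, mul_comm]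
    have h2 : ∀ i, f (Pi.single i 1) = 0 := by
      refine hind (fun i => f (Pi.single i 1)) fun A => ?_
      have h3 : f (v A) = 0 := hf (Submodule.subset_span ⟨A, rfl⟩)
      rw [h1] at h3
      exact h3
    apply LinearMap.ext
    intro x
    rw [h1]
    simp [h2]
  obtain ⟨κ, a, -, ha2, ha3⟩ := exists_linearIndependent' ℚ v
  rw [hspan] at ha2
  set b : Module.Basis κ ℚ (R → ℚ) := Module.Basis.mk ha3 ha2.ge with hb
  have : Finite κ := Module.Finite.finite_basis b
  have : Fintype κ := Fintype.ofFinite κ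
  have hcard : Fintype.card R = Fintype.card κ := by
    rw [← Module.finrank_eq_card_basis b, Module.finrank_fintype_fun_eq_card]
  obtain ⟨e⟩ := Fintype.card_eq.1 hcard
  refine ⟨a ∘ e, ?_⟩
  set C : Matrix R R ℚ := Matrix.of fun i j => v (a (e j)) i with hC
  have hli : LinearIndependent ℚ C.col := by
    have h1 : C.col = (v ∘ a) ∘ e := by
      funext j
      funext i
      rfl
    rw [h1]
    exact ha3.comp e e.injective
  have hu : IsUnit C := Matrix.linearIndependent_cols_iff_isUnit.1 hli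
  have hdet : C.det ≠ 0 := ((Matrix.isUnit_iff_isUnit_det C).1 hu).ne_zero
  intro h0
  apply hdet
  have h1 : C = (Matrix.of fun i j => M i ((a ∘ e) j)).map (Int.castRingHom ℚ) := by
    ext i j
    rfl
  rw [h1]
  have h2 := RingHom.map_det (Int.castRingHom ℚ) (Matrix.of fun i j => M i ((a ∘ e) j))
  rw [h0, map_zero] at h2
  exact h2.symm

/-- the Leibniz bound with a bound for each row -/
theorem abs_det_le {R : Type} [Fintype R] [DecidableEq R] (M : Matrix R R ℤ) (b : R → ℤ)
    (hb : ∀ i j, |M i j| ≤ b i) :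
    |M.det| ≤ ((Fintype.card R).factorial : ℤ) * ∏ i, b i := by
  rw [Matrix.det_apply']
  refine (Finset.abs_sum_le_sum_abs _ _).trans ?_
  have h1 : ∀ σ ∈ (Finset.univ : Finset (Equiv.Perm R)),
      |((Equiv.Perm.sign σ : ℤˣ) : ℤ) * ∏ i, M (σ i) i| ≤ ∏ i, b i := by
    intro σ _
    have hsg : |((Equiv.Perm.sign σ : ℤˣ) : ℤ)| = 1 := by
      rcases Int.units_eq_one_or (Equiv.Perm.sign σ) with h | h
      · rw [h]; rfl
      · rw [h]; rfl
    rw [abs_mul, hsg, one_mul, Finset.abs_prod]
    calc ∏ i, |M (σ i) i| ≤ ∏ i, b (σ i) :=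
          Finset.prod_le_prod (fun i _ => abs_nonneg _) fun i _ => hb _ _
      _ = ∏ i, b i := Equiv.prod_comp σ b
  refine (Finset.sum_le_card_nsmul _ _ _ h1).trans (le_of_eq ?_)
  rw [Finset.card_univ, Fintype.card_perm, nsmul_eq_mul]

/-- the interpolation determinant -/
theorem det_bound {ρ1 ρ2 S : Type} [Fintype ρ1] [Fintype ρ2] [Fintype S] [DecidableEq ρ1]
    [DecidableEq ρ2] [DecidableEq S] (r : ρ1 → S → ℤ) (g : ρ2 → S → ℤ) (lam : ρ2 → ρ1 → ℤ)
    (q B B' : ℕ) (hq : ∀ α A, (q : ℤ) ∣ g α A - ∑ β, lam α β * r β A)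
    (hB : ∀ β A, |r β A| ≤ (B : ℤ)) (hB' : ∀ α A, |g α A| ≤ (B' : ℤ))
    (hind : ∀ (c : ρ1 → ℚ) (d : ρ2 → ℚ), (∀ A, ∑ β, c β * r β A + ∑ α, d α * g α A = 0) →
      (∀ β, c β = 0) ∧ (∀ α, d α = 0)) :
    q ^ Fintype.card ρ2 ≤ (Fintype.card ρ1 + Fintype.card ρ2).factorial *
      B ^ Fintype.card ρ1 * B' ^ Fintype.card ρ2 := by
  obtain ⟨s, hs⟩ := exists_minor (R := ρ1 ⊕ ρ2) (S := S) (Sum.elim r g) (by
    intro c hc
    have h1 := hind (fun β => c (Sum.inl β)) (fun α => c (Sum.inr α)) (by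
      intro A
      have h2 := hc A
      rw [Fintype.sum_sum_type] at h2
      exact h2)
    rintro (β | α)
    · exact h1.1 β
    · exact h1.2 α)
  set M : Matrix (ρ1 ⊕ ρ2) (ρ1 ⊕ ρ2) ℤ := Matrix.of fun i j => Sum.elim r g i (s j) with hM
  choose h hh using hq
  -- the row operations
  have hdvd : ((q : ℤ)) ^ Fintype.card ρ2 ∣ M.det := by
    have e1 : Matrix.fromBlocks (1 : Matrix ρ1 ρ1 ℤ) 0 (-(Matrix.of lam)) (1 : Matrix ρ2 ρ2 ℤ) * M
        = Matrix.of fun i j => (Sum.elim (fun _ => (1 : ℤ)) (fun _ => (q : ℤ)) i) *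
          (Matrix.of fun (i : ρ1 ⊕ ρ2) (j : ρ1 ⊕ ρ2) =>
            Sum.elim (fun β => r β (s j)) (fun α => h α (s j)) i) i j := by
      ext i j
      rw [Matrix.mul_apply, Fintype.sum_sum_type]
      rcases i with β | α
      · simp only [Matrix.fromBlocks_apply₁₁, Matrix.fromBlocks_apply₁₂, Matrix.zero_apply,
          zero_mul, Finset.sum_const_zero, add_zero, Matrix.of_apply, Sum.elim_inl, one_mul]
        rw [Finset.sum_eq_single β]
        · simp [hM]
        · intro b _ hb
          rw [Matrix.one_apply_ne hb.symm, zero_mul]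
        · intro hb
          exact absurd (Finset.mem_univ _) hb
      · simp only [Matrix.fromBlocks_apply₂₁, Matrix.fromBlocks_apply₂₂, Matrix.neg_apply,
          Matrix.of_apply, Sum.elim_inr]
        rw [← hh α (s j)]
        have e2 : ∑ x : ρ2, (1 : Matrix ρ2 ρ2 ℤ) α x * M (Sum.inr x) j = g α (s j) := by
          rw [Finset.sum_eq_single α]
          · simp [hM]
          · intro b _ hb
            rw [Matrix.one_apply_ne hb.symm, zero_mul]
          · intro hb
            exact absurd (Finset.mem_univ _) hb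
        rw [e2]
        have e3 : ∑ x : ρ1, -lam α x * M (Sum.inl x) j = -∑ β, lam α β * r β (s j) := by
          rw [← Finset.sum_neg_distrib]
          refine Finset.sum_congr rfl fun x _ => ?_
          simp [hM]
        rw [e3]
        ring
    have e4 := congrArg Matrix.det e1
    rw [Matrix.det_mul, Matrix.det_fromBlocks_zero₁₂, Matrix.det_one, Matrix.det_one, one_mul,
      one_mul, Matrix.det_mul_column, Fintype.prod_sum_type] at e4
    simp only [Sum.elim_inl, Sum.elim_inr, Finset.prod_const_one, one_mul, Finset.prod_const,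
      Finset.card_univ] at e4
    rw [e4]
    exact Dvd.intro _ rfl
  have hle := abs_det_le M (Sum.elim (fun _ => (B : ℤ)) (fun _ => (B' : ℤ))) (by
    rintro (β | α) j
    · exact hB β (s j)
    · exact hB' α (s j))
  rw [Fintype.prod_sum_type] at hle
  simp only [Sum.elim_inl, Sum.elim_inr, Finset.prod_const, Finset.card_univ,
    Fintype.card_sum] at hle
  have h1 : ((q : ℤ)) ^ Fintype.card ρ2 ≤ |M.det| :=
    Int.le_of_dvd (abs_pos.2 hs) ((dvd_abs _ _).2 hdvd)
  have h2 := h1.trans hle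
  rw [← mul_assoc] at h2
  exact_mod_cast h2

end Pool.Agent.Lib.AbcZ
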