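import Pool.Agent.Lib.AbcZ.Defs

/-!
Expansion of the numbers `a_A` modulo `p ^ N` in the binomial functions.
-/

namespace Pool.Agent.Lib.AbcZ.Ex

open Finset Pool.Agent.Lib.AbcZ

variable {K : Type*} [Fintype K] [DecidableEq K]

/-- coefficients of the product of two binomial functions -/
def cmul (i j k : ℕ) : ℕ := if i ≤ k then i.choose (i + j - k) * k.choose i else 0

theorem choose_mul_choose (i j a : ℕ) :
    a.choose i * a.choose j = ∑ k ∈ range (i + j + 1), cmul i j k * a.choose k := by
  have hsplit : ∑ k ∈ range (i + j + 1), cmul i j k * a.choose k =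
      ∑ t ∈ range (j + 1), i.choose (j - t) * (i + t).choose i * a.choose (i + t) := by
    rw [add_assoc, Finset.sum_range_add]
    have h0 : ∑ k ∈ range i, cmul i j k * a.choose k = 0 :=
      Finset.sum_eq_zero fun k hk => by
        have := mem_range.1 hk
        simp [cmul, not_le.2 this]
    rw [h0, zero_add]
    refine Finset.sum_congr rfl fun t ht => ?_
    have : i + j - (i + t) = j - t := by omega
    simp [cmul, this]
  rw [hsplit]
  by_cases h : a < i
  · rw [Nat.choose_eq_zero_of_lt h, zero_mul]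
    refine (Finset.sum_eq_zero fun t _ => ?_).symm
    rw [Nat.choose_eq_zero_of_lt (show a < i + t by omega), mul_zero]
  · push Not at h
    obtain ⟨b, rfl⟩ := Nat.exists_eq_add_of_le h
    have h1 : (i + b).choose j = ∑ t ∈ range (j + 1), i.choose (j - t) * b.choose t := by
      rw [Nat.add_choose_eq, ← Finset.Nat.sum_antidiagonal_swap]
      exact Finset.Nat.sum_antidiagonal_eq_sum_range_succ (fun x y => i.choose y * b.choose x) j
    rw [h1, Finset.mul_sum]
    refine Finset.sum_congr rfl fun t _ => ?_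
    have h2 : (i + b).choose (i + t) * (i + t).choose i = (i + b).choose i * b.choose t := by
      have h3 := Nat.choose_mul (n := i + b) (k := i + t) (s := i) (by omega)
      rw [h3]
      congr 2 <;> omega
    calc (i + b).choose i * (i.choose (j - t) * b.choose t)
        = i.choose (j - t) * ((i + b).choose i * b.choose t) := by ring
      _ = i.choose (j - t) * ((i + b).choose (i + t) * (i + t).choose i) := by rw [h2]
      _ = _ := by ring

/-- the product of two binomial functions, integer coefficients, uniformly in `A` -/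
theorem bin_mul (α β A : K → ℕ) : bin A α * bin A β =
    ∑ γ ∈ ix K (tdeg α + tdeg β + 1), (∏ x, if γ x ≤ α x + β x then cmul (α x) (β x) (γ x) else 0)
      * bin A γ := by
  have h1 : bin A α * bin A β =
      ∑ γ ∈ Fintype.piFinset fun x => range (α x + β x + 1),
        ∏ x, (cmul (α x) (β x) (γ x) * (A x).choose (γ x)) := by
    unfold bin
    rw [← Finset.prod_mul_distrib]
    calc ∏ x, ((A x).choose (α x) * (A x).choose (β x))
        = ∏ x, ∑ k ∈ range (α x + β x + 1), cmul (α x) (β x) k * (A x).choose k :=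
          Finset.prod_congr rfl fun x _ => choose_mul_choose _ _ _
      _ = _ := Finset.prod_univ_sum _ _
  rw [h1]
  have hsub : (Fintype.piFinset fun x => range (α x + β x + 1)) ⊆ ix K (tdeg α + tdeg β + 1) := by
    intro γ hγ
    rw [Fintype.mem_piFinset] at hγ
    rw [mem_ix]
    have : tdeg γ ≤ tdeg α + tdeg β := by
      unfold tdeg
      rw [← Finset.sum_add_distrib]
      exact Finset.sum_le_sum fun x _ => by have := mem_range.1 (hγ x); omega
    omega
  rw [← Finset.sum_subset hsub]
  · refine Finset.sum_congr rfl fun γ hγ => ?_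
    rw [Fintype.mem_piFinset] at hγ
    rw [Finset.prod_mul_distrib]
    congr 1
    refine Finset.prod_congr rfl fun x _ => ?_
    have := mem_range.1 (hγ x)
    rw [if_pos (by omega)]
  · intro γ _ hγ
    rw [Fintype.mem_piFinset] at hγ
    push Not at hγ
    obtain ⟨x, hx⟩ := hγ
    rw [mem_range] at hx
    rw [Finset.prod_eq_zero (mem_univ x) (if_neg (by omega)), zero_mul]

omit [DecidableEq K] in
theorem bin_eq_zero {A β : K → ℕ} {x : K} (h : A x < β x) : bin A β = 0 :=
  Finset.prod_eq_zero (mem_univ x) (Nat.choose_eq_zero_of_lt h)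

/-- multinomial expansion -/
theorem prod_one_add_pow {R : Type*} [CommRing R] (s : K → R) (n : ℕ)
    (hs : ∀ β : K → ℕ, n ≤ tdeg β → ∏ x, s x ^ β x = 0) (A : K → ℕ) :
    ∏ x, (1 + s x) ^ A x = ∑ β ∈ ix K n, (bin A β : R) * ∏ x, s x ^ β x := by
  have h1 : ∏ x, (1 + s x) ^ A x =
      ∑ β ∈ Fintype.piFinset fun x => range (A x + 1), (bin A β : R) * ∏ x, s x ^ β x := by
    have h2 : ∀ x, (1 + s x) ^ A x = ∑ j ∈ range (A x + 1), ((A x).choose j : R) * s x ^ j := by
      intro x
      rw [add_comm, add_pow]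
      refine Finset.sum_congr rfl fun j _ => ?_
      rw [one_pow, mul_one, mul_comm]
    calc ∏ x, (1 + s x) ^ A x = ∏ x, ∑ j ∈ range (A x + 1), ((A x).choose j : R) * s x ^ j :=
          Finset.prod_congr rfl fun x _ => h2 x
      _ = ∑ β ∈ Fintype.piFinset fun x => range (A x + 1),
            ∏ x, (((A x).choose (β x) : R) * s x ^ β x) := Finset.prod_univ_sum _ _
      _ = _ := Finset.sum_congr rfl fun β _ => by
          rw [Finset.prod_mul_distrib]
          congr 1
          unfold bin
          push_cast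
          rfl
  rw [h1]
  have hA : ∀ β : K → ℕ, β ∉ (Fintype.piFinset fun x => range (A x + 1)) → (bin A β : R) = 0 := by
    intro β hβ
    rw [Fintype.mem_piFinset] at hβ
    push Not at hβ
    obtain ⟨x, hx⟩ := hβ
    rw [mem_range] at hx
    rw [bin_eq_zero (x := x) (by omega), Nat.cast_zero]
  calc ∑ β ∈ Fintype.piFinset fun x => range (A x + 1), (bin A β : R) * ∏ x, s x ^ β x
      = ∑ β ∈ (Fintype.piFinset fun x => range (A x + 1)) ∪ ix K n,
          (bin A β : R) * ∏ x, s x ^ β x :=
        Finset.sum_subset subset_union_left fun β _ hβ => by rw [hA β hβ, zero_mul]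
    _ = _ := by
        symm
        refine Finset.sum_subset subset_union_right fun β _ hβ => ?_
        rw [mem_ix] at hβ
        rw [hs β (by omega), mul_zero]

end Pool.Agent.Lib.AbcZ.Ex

namespace Pool.Agent.Lib.AbcZ

open Finset Pool.Agent.Lib.AbcZ.Ex

variable {K : Type*} [Fintype K] [DecidableEq K]

/-- for `y (some x) = y none * (1 + p * t x)` the products `∏ y ^ A`, multiplied by a binomial
function, are modulo `p ^ N` integer combinations of the binomial functions of small degree -/
theorem expand (p N Lam N2 : ℕ) (y : Option K → ZMod (p ^ N)) (_hy : IsUnit (y none))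
    (t : K → ZMod (p ^ N)) (ht : ∀ x, y (some x) = y none * (1 + p * t x)) (V : ZMod (p ^ N))
    (α : K → ℕ) (hα : tdeg α < N2) :
    ∃ lam : (K → ℕ) → ℤ, ∀ A : K → ℕ, tdeg A ≤ Lam →
      (bin A α : ZMod (p ^ N)) * (V * (y none ^ (Lam - tdeg A) * ∏ x, y (some x) ^ A x)) =
        ∑ β ∈ ix K (N + N2), (lam β : ZMod (p ^ N)) * bin A β := by
  classical
  -- vanishing of the high terms
  have hs : ∀ β : K → ℕ, N ≤ tdeg β → ∏ x, ((p : ZMod (p ^ N)) * t x) ^ β x = 0 := by
    intro β hβ
    have h1 : ∏ x, ((p : ZMod (p ^ N)) * t x) ^ β x = (p : ZMod (p ^ N)) ^ tdeg β * ∏ x, t x ^ β x := by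
      unfold tdeg
      rw [← Finset.prod_pow_eq_pow_sum, ← Finset.prod_mul_distrib]
      exact Finset.prod_congr rfl fun x _ => mul_pow _ _ _
    have h2 : (p : ZMod (p ^ N)) ^ N = 0 := by
      have := ZMod.natCast_self (p ^ N)
      rwa [Nat.cast_pow] at this
    obtain ⟨d, hd⟩ := Nat.exists_eq_add_of_le hβ
    rw [h1, hd, pow_add, h2, zero_mul, zero_mul]
  -- the coefficients
  let c : (K → ℕ) → ZMod (p ^ N) := fun γ =>
    ∑ β ∈ ix K N, (V * y none ^ Lam * ∏ x, ((p : ZMod (p ^ N)) * t x) ^ β x) *
      (if tdeg γ < tdeg α + tdeg β + 1 then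
        ((∏ x, if γ x ≤ α x + β x then cmul (α x) (β x) (γ x) else 0 : ℕ) : ZMod (p ^ N)) else 0)
  have hlift : ∀ z : ZMod (p ^ N), ∃ m : ℤ, (m : ZMod (p ^ N)) = z := ZMod.intCast_surjective
  choose m hm using hlift
  refine ⟨fun γ => m (c γ), fun A hA => ?_⟩
  have hprod : y none ^ (Lam - tdeg A) * ∏ x, y (some x) ^ A x =
      y none ^ Lam * ∏ x, (1 + (p : ZMod (p ^ N)) * t x) ^ A x := by
    have h1 : ∏ x, y (some x) ^ A x =
        y none ^ tdeg A * ∏ x, (1 + (p : ZMod (p ^ N)) * t x) ^ A x := by
      unfold tdeg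
      rw [← Finset.prod_pow_eq_pow_sum, ← Finset.prod_mul_distrib]
      exact Finset.prod_congr rfl fun x _ => by rw [ht, mul_pow]
    rw [h1, ← mul_assoc, ← pow_add, Nat.sub_add_cancel hA]
  rw [hprod, Ex.prod_one_add_pow (fun x => (p : ZMod (p ^ N)) * t x) N hs A]
  simp only [hm]
  calc (bin A α : ZMod (p ^ N)) * (V * (y none ^ Lam *
        ∑ β ∈ ix K N, (bin A β : ZMod (p ^ N)) * ∏ x, ((p : ZMod (p ^ N)) * t x) ^ β x))
      = ∑ β ∈ ix K N, (V * y none ^ Lam * ∏ x, ((p : ZMod (p ^ N)) * t x) ^ β x) *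
          ((bin A α : ZMod (p ^ N)) * bin A β) := by
        rw [Finset.mul_sum, Finset.mul_sum, Finset.mul_sum]
        exact Finset.sum_congr rfl fun β _ => by ring
    _ = ∑ β ∈ ix K N, ∑ γ ∈ ix K (N + N2),
          (V * y none ^ Lam * ∏ x, ((p : ZMod (p ^ N)) * t x) ^ β x) *
          (if tdeg γ < tdeg α + tdeg β + 1 then
            ((∏ x, if γ x ≤ α x + β x then cmul (α x) (β x) (γ x) else 0 : ℕ) : ZMod (p ^ N))
            else 0) * bin A γ := by
        refine Finset.sum_congr rfl fun β hβ => ?_
        rw [mem_ix] at hβ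
        have h1 : (bin A α : ZMod (p ^ N)) * bin A β =
            ∑ γ ∈ ix K (tdeg α + tdeg β + 1),
              ((∏ x, if γ x ≤ α x + β x then cmul (α x) (β x) (γ x) else 0 : ℕ) :
                ZMod (p ^ N)) * bin A γ := by
          have := congrArg (fun n : ℕ => (n : ZMod (p ^ N))) (Ex.bin_mul α β A)
          push_cast at this ⊢
          exact this
        rw [h1, Finset.mul_sum]
        have hsub : ix K (tdeg α + tdeg β + 1) ⊆ ix K (N + N2) := by
          intro γ hγ
          rw [mem_ix] at hγ ⊢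
          omega
        rw [← Finset.sum_subset hsub]
        · refine Finset.sum_congr rfl fun γ hγ => ?_
          rw [mem_ix] at hγ
          rw [if_pos hγ]
          ring
        · intro γ _ hγ
          rw [mem_ix] at hγ
          rw [if_neg hγ, mul_zero, zero_mul]
    _ = _ := by
        rw [Finset.sum_comm]
        refine Finset.sum_congr rfl fun γ _ => ?_
        rw [← Finset.sum_mul]

end Pool.Agent.Lib.AbcZ
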