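import Mathlib
import Pool.Agent.Lib.AbcZ.Defs

/-!
# Unisolvence of a slab set

A polynomial in `A : κ → ℕ` of degree at most `n`, written in the binomial basis, which vanishes
at all `A` with `|A| ≤ L` whose weight `c + ∑ γ x * A x + γ₀ * (L - |A|)` lies modulo `N` in the
window `[0, om)`, is zero, if multiplication by a prime `M` of the phases `γ x` is dense enough
modulo `N`. The proof is a reduction modulo `M`: by the theorem of Lucas a polynomial of degree
`n` has degree at most `n / M` in steps of length `M`.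
-/

namespace Pool.Agent.Lib.AbcZ.Uni

open Finset

variable {κ : Type*} [Fintype κ] [DecidableEq κ]

/-- all multi-indices of degree at most `n` -/
def degs (κ : Type*) [Fintype κ] [DecidableEq κ] (n : ℕ) : Finset (κ → ℕ) :=
  (Fintype.piFinset fun _ : κ => range (n + 1)).filter fun α => ∑ x, α x ≤ n

theorem mem_degs {n : ℕ} {α : κ → ℕ} : α ∈ degs κ n ↔ ∑ x, α x ≤ n := by
  unfold degs
  rw [mem_filter, Fintype.mem_piFinset]
  refine ⟨fun h => h.2, fun h => ⟨fun x => ?_, h⟩⟩
  rw [mem_range]
  have := single_le_sum (f := α) (fun i _ => Nat.zero_le (α i)) (mem_univ x)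
  omega

/-- the step of a letter: the letter `none` does not move -/
def stp : Option κ → (κ → ℕ)
  | none => 0
  | some x => Pi.single x 1

/-- degree less than `m`, in the sense of differences -/
def Dg : ℕ → ((κ → ℕ) → ℤ) → Prop
  | 0, g => g = 0
  | (m + 1), g => ∀ x : κ, Dg m (fun B => g (Pi.single x 1 + B) - g B)

theorem Dg.zero (m : ℕ) : Dg m (fun _ : κ → ℕ => (0 : ℤ)) := by
  induction m with
  | zero => rfl
  | succ m ih =>
    intro x
    simpa using ih

theorem Dg.sub {m : ℕ} : ∀ {g h : (κ → ℕ) → ℤ}, Dg m g → Dg m h → Dg m (fun B => g B - h B) := by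
  induction m with
  | zero =>
    intro g h hg hh
    have hg' : g = 0 := hg
    have hh' : h = 0 := hh
    subst hg' hh'
    change (fun B : κ → ℕ => (0 : ℤ) - 0) = 0
    funext B
    simp
  | succ m ih =>
    intro g h hg hh x
    have := ih (hg x) (hh x)
    convert this using 1
    funext B
    ring

theorem Dg.add {m : ℕ} {g h : (κ → ℕ) → ℤ} (hg : Dg m g) (hh : Dg m h) :
    Dg m (fun B => g B + h B) := by
  have h1 := hg.sub ((Dg.zero m).sub hh)
  convert h1 using 1
  funext B
  ring

theorem Dg.smul {m : ℕ} (r : ℤ) :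
    ∀ {g : (κ → ℕ) → ℤ}, Dg m g → Dg m (fun B => r * g B) := by
  induction m with
  | zero =>
    intro g hg
    have hg' : g = 0 := hg
    subst hg'
    change (fun B : κ → ℕ => r * (0 : ℤ)) = 0
    funext B
    simp
  | succ m ih =>
    intro g hg x
    have := ih (hg x)
    convert this using 1
    funext B
    ring

theorem Dg.sum {m : ℕ} {τ : Type*} (s : Finset τ) (g : τ → (κ → ℕ) → ℤ)
    (h : ∀ i ∈ s, Dg m (g i)) : Dg m (fun B => ∑ i ∈ s, g i B) := by
  classical
  induction s using Finset.induction_on with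
  | empty => simpa using Dg.zero (κ := κ) m
  | insert i s hi ih =>
    have h1 := (h i (mem_insert_self i s)).add (ih fun j hj => h j (mem_insert_of_mem hj))
    convert h1 using 1
    funext B
    rw [sum_insert hi]

theorem Dg.shift {m : ℕ} (v : κ → ℕ) :
    ∀ {g : (κ → ℕ) → ℤ}, Dg m g → Dg m (fun B => g (v + B)) := by
  induction m with
  | zero =>
    intro g hg
    have hg' : g = 0 := hg
    subst hg'
    rfl
  | succ m ih =>
    intro g hg x
    have := ih (hg x)
    convert this using 1
    funext B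
    rw [add_left_comm]

theorem Dg.mono_succ {m : ℕ} : ∀ {g : (κ → ℕ) → ℤ}, Dg m g → Dg (m + 1) g := by
  induction m with
  | zero =>
    intro g hg x
    have hg' : g = 0 := hg
    subst hg'
    change (fun B : κ → ℕ => (0 : ℤ) - 0) = 0
    funext B
    simp
  | succ m ih =>
    intro g hg x
    exact ih (hg x)

theorem Dg.mono {m m' : ℕ} (h : m ≤ m') {g : (κ → ℕ) → ℤ} (hg : Dg m g) : Dg m' g := by
  induction m', h using Nat.le_induction with
  | base => exact hg
  | succ k _ ih => exact ih.mono_succ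

/-- Pascal's rule in one coordinate -/
theorem bin_step (x : κ) (A α : κ → ℕ) :
    (bin (Pi.single x 1 + A) α : ℤ) - bin A α =
      if α x = 0 then 0 else (bin A (α - Pi.single x 1) : ℤ) := by
  unfold bin
  have e1 : ∏ y, ((Pi.single x 1 + A : κ → ℕ) y).choose (α y) =
      ((Pi.single x 1 + A : κ → ℕ) x).choose (α x) *
        ∏ y ∈ univ.erase x, ((Pi.single x 1 + A : κ → ℕ) y).choose (α y) :=
    (mul_prod_erase univ _ (mem_univ x)).symm
  have e2 : ∏ y, (A y).choose (α y) =
      (A x).choose (α x) * ∏ y ∈ univ.erase x, (A y).choose (α y) :=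
    (mul_prod_erase univ _ (mem_univ x)).symm
  have e3 : ∏ y, (A y).choose ((α - Pi.single x 1 : κ → ℕ) y) =
      (A x).choose ((α - Pi.single x 1 : κ → ℕ) x) *
        ∏ y ∈ univ.erase x, (A y).choose ((α - Pi.single x 1 : κ → ℕ) y) :=
    (mul_prod_erase univ _ (mem_univ x)).symm
  rw [e1, e2, e3]
  have h1 : ∏ y ∈ univ.erase x, ((Pi.single x 1 + A : κ → ℕ) y).choose (α y) =
      ∏ y ∈ univ.erase x, (A y).choose (α y) := by
    refine prod_congr rfl fun y hy => ?_
    have : y ≠ x := (mem_erase.mp hy).1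
    rw [Pi.add_apply, Pi.single_eq_of_ne this, zero_add]
  have h2 : ∏ y ∈ univ.erase x, (A y).choose ((α - Pi.single x 1 : κ → ℕ) y) =
      ∏ y ∈ univ.erase x, (A y).choose (α y) := by
    refine prod_congr rfl fun y hy => ?_
    have : y ≠ x := (mem_erase.mp hy).1
    rw [Pi.sub_apply, Pi.single_eq_of_ne this, Nat.sub_zero]
  rw [h1, h2, Pi.add_apply, Pi.sub_apply, Pi.single_eq_same]
  set P := ∏ y ∈ univ.erase x, (A y).choose (α y) with hP
  push_cast
  split_ifs with h
  · rw [h, Nat.choose_zero_right, Nat.choose_zero_right]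
    ring
  · obtain ⟨j, hj⟩ := Nat.exists_eq_succ_of_ne_zero h
    rw [hj, Nat.succ_sub_one, add_comm 1 (A x), Nat.choose_succ_succ]
    push_cast
    ring

theorem Dg.binom : ∀ (m : ℕ) (α : κ → ℕ), ∑ x, α x < m →
    Dg m (fun B : κ → ℕ => (bin B α : ℤ)) := by
  intro m
  induction m with
  | zero => intro α h; omega
  | succ m ih =>
    intro α h x
    by_cases h0 : α x = 0
    · have : (fun B : κ → ℕ => (bin (Pi.single x 1 + B) α : ℤ) - bin B α) =
          fun _ => 0 := by
        funext B
        rw [bin_step, if_pos h0]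
      change Dg m (fun B : κ → ℕ => (bin (Pi.single x 1 + B) α : ℤ) - bin B α)
      rw [this]
      exact Dg.zero m
    · have : (fun B : κ → ℕ => (bin (Pi.single x 1 + B) α : ℤ) - bin B α) =
          fun B => (bin B (α - Pi.single x 1) : ℤ) := by
        funext B
        rw [bin_step, if_neg h0]
      change Dg m (fun B : κ → ℕ => (bin (Pi.single x 1 + B) α : ℤ) - bin B α)
      rw [this]
      refine ih _ ?_
      have h1 : ∑ y, α y = ∑ y, ((α - Pi.single x 1 : κ → ℕ) y + (Pi.single x 1 : κ → ℕ) y) := by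
        refine sum_congr rfl fun y _ => ?_
        by_cases hy : y = x
        · subst hy
          rw [Pi.sub_apply, Pi.single_eq_same]
          omega
        · rw [Pi.sub_apply, Pi.single_eq_of_ne hy]
          rfl
      rw [sum_add_distrib] at h1
      have h2 : ∑ y, (Pi.single x 1 : κ → ℕ) y = 1 := by
        rw [sum_pi_single']
        simp
      rw [h2] at h1
      omega

/-- one step of the cube identity -/
theorem Dg.letters {m : ℕ} {g : (κ → ℕ) → ℤ} (hg : Dg (m + 1) g) (u v : Option κ) :
    Dg m (fun B => g (stp u + B) - g (stp v + B)) := by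
  have key : ∀ u : Option κ, Dg m (fun B => g (stp u + B) - g B) := by
    intro u
    cases u with
    | none =>
      have : (fun B : κ → ℕ => g (stp none + B) - g B) = fun _ => 0 := by
        funext B
        simp [stp]
      rw [this]
      exact Dg.zero m
    | some x => exact hg x
  have := (key u).sub (key v)
  convert this using 1
  funext B
  ring

/-- **cube identity** -/
theorem cube {τ : Type*} [DecidableEq τ] (s : Finset τ) (u v : τ → Option κ) :
    ∀ g : (κ → ℕ) → ℤ, Dg s.card g →
      ∑ I ∈ s.powerset, (-1 : ℤ) ^ I.card *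
        g (∑ j ∈ s, stp (if j ∈ I then v j else u j)) = 0 := by
  induction s using Finset.induction_on with
  | empty =>
    intro g hg
    have hg' : g = 0 := hg
    subst hg'
    simp
  | insert i s hi ih =>
    intro g hg
    rw [card_insert_of_notMem hi] at hg
    have h1 := ih _ (hg.letters (u i) (v i))
    rw [sum_powerset_insert hi]
    rw [← h1, ← sum_add_distrib]
    refine sum_congr rfl fun I hI => ?_
    have hIs : I ⊆ s := mem_powerset.mp hI
    have hiI : i ∉ I := fun h => hi (hIs h)
    rw [sum_insert hi, sum_insert hi, if_neg hiI, if_pos (mem_insert_self i I),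
      card_insert_of_notMem hiI]
    have h2 : ∑ j ∈ s, stp (if j ∈ insert i I then v j else u j) =
        ∑ j ∈ s, stp (if j ∈ I then v j else u j) := by
      refine sum_congr rfl fun j hj => ?_
      have hji : j ≠ i := fun h => hi (h ▸ hj)
      simp [mem_insert, hji]
    rw [h2]
    ring

/-- every small vector is a sum of letters -/
theorem exists_letters : ∀ (m : ℕ) (B : κ → ℕ), ∑ x, B x ≤ m →
    ∃ x : Fin m → Option κ, ∑ i, stp (x i) = B := by
  intro m
  induction m with
  | zero =>
    intro B hB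
    refine ⟨Fin.elim0, ?_⟩
    have : B = 0 := by
      funext y
      have := single_le_sum (f := B) (fun i _ => Nat.zero_le (B i)) (mem_univ y)
      have h0 : B y = 0 := by omega
      exact h0
    rw [this]
    simp
  | succ m ih =>
    intro B hB
    by_cases h0 : ∃ y, B y ≠ 0
    · obtain ⟨y, hy⟩ := h0
      have hB1 : B = Pi.single y 1 + (B - Pi.single y 1) := by
        funext z
        by_cases hz : z = y
        · subst hz
          rw [Pi.add_apply, Pi.sub_apply, Pi.single_eq_same]
          omega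
        · rw [Pi.add_apply, Pi.sub_apply, Pi.single_eq_of_ne hz]
          simp
      have hs : ∑ z, B z = 1 + ∑ z, (B - Pi.single y 1 : κ → ℕ) z := by
        conv_lhs => rw [hB1]
        simp only [Pi.add_apply]
        rw [sum_add_distrib]
        congr 1
        rw [sum_pi_single']
        simp
      obtain ⟨x, hx⟩ := ih (B - Pi.single y 1) (by omega)
      refine ⟨Fin.cons (some y) x, ?_⟩
      rw [Fin.sum_univ_succ]
      simp only [Fin.cons_zero, Fin.cons_succ]
      rw [hx]
      exact hB1.symm
    · push Not at h0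
      obtain ⟨x, hx⟩ := ih B (by
        have : ∑ x, B x = 0 := sum_eq_zero fun x _ => h0 x
        omega)
      refine ⟨Fin.cons none x, ?_⟩
      rw [Fin.sum_univ_succ]
      simp only [Fin.cons_zero, Fin.cons_succ]
      rw [hx]
      simp [stp]

/-- values of the binomials at points of small degree -/
theorem bin_self (α : κ → ℕ) : bin α α = 1 := by
  unfold bin
  simp

theorem bin_eq_zero {A α : κ → ℕ} (h : ¬ α ≤ A) : bin A α = 0 := by
  rw [Pi.le_def] at h
  push Not at h
  obtain ⟨x, hx⟩ := h
  exact prod_eq_zero (mem_univ x) (Nat.choose_eq_zero_of_lt hx)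

theorem sum_lt_of_le_ne {α β : κ → ℕ} (h : α ≤ β) (hne : α ≠ β) : ∑ x, α x < ∑ x, β x := by
  refine sum_lt_sum (fun i _ => h i) ?_
  by_contra hc
  push Not at hc
  exact hne (le_antisymm h fun i => hc i (mem_univ i))

/-- triangularity modulo `M` -/
theorem dvd_of_values {M : ℤ} {τ : Type*} [DecidableEq τ] (T : Finset τ) (q : τ → κ → ℕ)
    (hq : ∀ α ∈ T, ∀ β ∈ T, q α = q β → α = β) (r : τ → ℤ) (D : ℕ)
    (hT : ∀ α ∈ T, ∑ x, q α x ≤ D)
    (h : ∀ B : κ → ℕ, ∑ x, B x ≤ D → M ∣ ∑ α ∈ T, r α * bin B (q α)) :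
    ∀ α ∈ T, M ∣ r α := by
  have key : ∀ k : ℕ, ∀ α ∈ T, ∑ x, q α x = k → M ∣ r α := by
    intro k
    induction k using Nat.strong_induction_on with
    | _ k ih =>
      intro α hα hk
      have h1 := h (q α) (hT α hα)
      rw [← add_sum_erase T _ hα, bin_self] at h1
      have h2 : M ∣ ∑ β ∈ T.erase α, r β * bin (q α) (q β) := by
        refine dvd_sum fun β hβ => ?_
        obtain ⟨hne, hβT⟩ := mem_erase.mp hβ
        by_cases hle : q β ≤ q α
        · exact dvd_mul_of_dvd_left
            (ih (∑ x, q β x) (by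
              rw [← hk]
              exact sum_lt_of_le_ne hle fun he => hne (hq β hβT α hα he)) β hβT rfl) _
        · rw [bin_eq_zero hle]
          simp
      have h3 := (dvd_add_left h2).mp h1
      simpa using h3
  exact fun α hα => key _ α hα rfl

/-- Lucas for multi-indices -/
theorem lucas_bin {M : ℕ} (hM : M.Prime) (B b α : κ → ℕ) (hb : ∀ x, b x < M) :
    (M : ℤ) ∣ (bin (fun x => M * B x + b x) α : ℤ) -
      bin b (fun x => α x % M) * bin B (fun x => α x / M) := by
  have : Fact M.Prime := ⟨hM⟩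
  unfold bin
  rw [← Nat.cast_mul, ← prod_mul_distrib]
  have h1 : ∏ x, (M * B x + b x).choose (α x) ≡
      ∏ x, (b x).choose (α x % M) * (B x).choose (α x / M) [MOD M] := by
    refine Nat.ModEq.prod fun x _ => ?_
    have h2 := Choose.choose_modEq_choose_mod_mul_choose_div_nat (n := M * B x + b x)
      (k := α x) (p := M)
    have h3 : (M * B x + b x) % M = b x := by
      rw [Nat.mul_add_mod]
      exact Nat.mod_eq_of_lt (hb x)
    have h4 : (M * B x + b x) / M = B x := by
      rw [Nat.mul_add_div hM.pos, Nat.div_eq_of_lt (hb x), add_zero]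
    rwa [h3, h4] at h2
  have h5 := (Nat.modEq_iff_dvd.mp h1.symm)
  exact h5

/-- the weight of a point of degree at most `L`; the letter `none` fills up the degree -/
def wtL (γ : Option κ → ℕ) (L : ℕ) (A : κ → ℕ) : ℕ :=
  ∑ x, γ (some x) * A x + γ none * (L - ∑ x, A x)

/-- the walk around the circle: a polynomial of degree less than `m` which vanishes modulo `M` on
the words with phase in the window `[0, om)` vanishes modulo `M` on all words of length `m` -/
theorem walk {M : ℤ} {N m om : ℕ} (hN : 0 < N) (φ : Option κ → ℕ) (σ : Option κ → Option κ)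
    (inc : Option κ → ℕ) (hs : ∀ x, (φ (σ x)) % N = (φ x + inc x) % N) (hi1 : ∀ x, 1 ≤ inc x)
    (hi2 : ∀ x, m * inc x ≤ om) (c : ℕ) (g : (κ → ℕ) → ℤ) (hg : Dg m g)
    (h : ∀ x : Fin m → Option κ, (c + ∑ i, φ (x i)) % N < om → M ∣ g (∑ i, stp (x i))) :
    ∀ x : Fin m → Option κ, M ∣ g (∑ i, stp (x i)) := by
  have key : ∀ k : ℕ, ∀ x : Fin m → Option κ, N - (c + ∑ i, φ (x i)) % N = k →
      M ∣ g (∑ i, stp (x i)) := by
    intro k
    induction k using Nat.strong_induction_on with
    | _ k ih =>
      intro x hx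
      by_cases hp : (c + ∑ i, φ (x i)) % N < om
      · exact h x hp
      push Not at hp
      have hlt : (c + ∑ i, φ (x i)) % N < N := Nat.mod_lt _ hN
      have h1 := cube (univ : Finset (Fin m)) x (fun i => σ (x i)) g (by simpa using hg)
      rw [← add_sum_erase _ _ (empty_mem_powerset (univ : Finset (Fin m)))] at h1
      have h2 : M ∣ ∑ I ∈ (univ : Finset (Fin m)).powerset.erase ∅, (-1 : ℤ) ^ I.card *
          g (∑ j, stp (if j ∈ I then σ (x j) else x j)) := by
        refine dvd_sum fun I hI => Dvd.dvd.mul_left ?_ _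
        have hne : I.Nonempty := nonempty_iff_ne_empty.mpr (mem_erase.mp hI).1
        set y : Fin m → Option κ := fun j => if j ∈ I then σ (x j) else x j with hy
        have hsum : (c + ∑ i, φ (y i)) % N = (c + ∑ i, φ (x i) + ∑ i ∈ I, inc (x i)) % N := by
          have e1 : ∑ i, φ (y i) = ∑ i ∈ I, φ (σ (x i)) + ∑ i ∈ univ \ I, φ (x i) := by
            rw [← sum_sdiff (subset_univ I), add_comm]
            congr 1
            · exact sum_congr rfl fun i hi => by simp [hy, hi]
            · exact sum_congr rfl fun i hi => by simp [hy, (mem_sdiff.mp hi).2]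
          have e2 : ∑ i, φ (x i) = ∑ i ∈ I, φ (x i) + ∑ i ∈ univ \ I, φ (x i) := by
            rw [← sum_sdiff (subset_univ I), add_comm]
          have e3 : ∑ i ∈ I, φ (σ (x i)) ≡ ∑ i ∈ I, (φ (x i) + inc (x i)) [MOD N] :=
            Nat.ModEq.sum fun i _ => hs (x i)
          rw [sum_add_distrib] at e3
          change c + ∑ i, φ (y i) ≡ c + ∑ i, φ (x i) + ∑ i ∈ I, inc (x i) [MOD N]
          rw [e1, e2]
          have e4 := (e3.add_right (∑ i ∈ univ \ I, φ (x i))).add_left c
          refine e4.trans (Nat.ModEq.refl _ |>.trans ?_)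
          have : c + (∑ i ∈ I, φ (x i) + ∑ i ∈ I, inc (x i) + ∑ i ∈ univ \ I, φ (x i)) =
            c + (∑ i ∈ I, φ (x i) + ∑ i ∈ univ \ I, φ (x i)) + ∑ i ∈ I, inc (x i) := by ring
          rw [this]
        have hs1 : 1 ≤ ∑ i ∈ I, inc (x i) := by
          obtain ⟨i, hi⟩ := hne
          exact (hi1 (x i)).trans (single_le_sum (f := fun i => inc (x i))
            (fun _ _ => Nat.zero_le _) hi)
        have hs2 : ∑ i ∈ I, inc (x i) ≤ om := by
          rcases Nat.eq_zero_or_pos m with hm | hm
          · subst hm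
            obtain ⟨i, _⟩ := hne
            exact i.elim0
          have h3 : m * ∑ i ∈ I, inc (x i) ≤ m * om := by
            rw [mul_sum]
            calc ∑ i ∈ I, m * inc (x i) ≤ ∑ _i ∈ I, om := sum_le_sum fun i _ => hi2 (x i)
              _ = I.card * om := by rw [sum_const, smul_eq_mul]
              _ ≤ m * om := by
                  gcongr
                  simpa using card_le_univ I
          exact Nat.le_of_mul_le_mul_left h3 hm
        set P := (c + ∑ i, φ (x i)) % N with hP
        set s := ∑ i ∈ I, inc (x i) with hsdef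
        have hpos : (c + ∑ i, φ (y i)) % N = (P + s) % N := by
          rw [hsum, hP, Nat.mod_add_mod]
        by_cases hw : P + s < N
        · refine ih (N - (P + s)) (by omega) y ?_
          rw [hpos, Nat.mod_eq_of_lt hw]
        · refine h y ?_
          rw [hpos]
          push Not at hw
          by_cases hsN : s < N
          · have : (P + s) % N = P + s - N := by
              rw [Nat.mod_eq_sub_mod hw]
              exact Nat.mod_eq_of_lt (by omega)
            rw [this]
            omega
          · exact lt_of_lt_of_le (Nat.mod_lt _ hN) (by omega)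
      have h3 : M ∣ (-1 : ℤ) ^ (∅ : Finset (Fin m)).card *
          g (∑ j, stp (if j ∈ (∅ : Finset (Fin m)) then σ (x j) else x j)) := by
        have h4 := eq_neg_of_add_eq_zero_left h1
        rw [h4]
        exact (dvd_neg).mpr h2
      simpa using h3
  exact fun x => key _ x rfl

/-- the sum of the coordinates of a word -/
theorem wt_word (γ : Option κ → ℕ) {m : ℕ} (x : Fin m → Option κ) :
    ∑ k, γ (some k) * (∑ i, stp (x i)) k + γ none * (m - ∑ k, (∑ i, stp (x i)) k) =
      ∑ i, γ (x i) ∧ ∑ k, (∑ i, stp (x i)) k ≤ m := by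
  induction m with
  | zero => simp
  | succ m ih =>
    obtain ⟨h1, h2⟩ := ih (fun i => x i.succ)
    rw [Fin.sum_univ_succ (f := fun i => γ (x i)), ← h1]
    have e1 : ∀ k, (∑ i, stp (x i)) k = stp (x 0) k + (∑ i : Fin m, stp (x i.succ)) k := by
      intro k
      rw [Fin.sum_univ_succ, Pi.add_apply]
    simp only [e1]
    set w : κ → ℕ := ∑ i : Fin m, stp (x i.succ) with hw
    cases hx : x 0 with
    | none =>
      have e2 : ∀ k, stp (none : Option κ) k = 0 := fun k => rfl
      simp only [e2, zero_add]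
      refine ⟨?_, by omega⟩
      have e3 : m + 1 - ∑ k, w k = (m - ∑ k, w k) + 1 := by omega
      rw [e3]
      ring
    | some y =>
      have e2 : ∀ k, stp (some y) k = (Pi.single y 1 : κ → ℕ) k := fun k => rfl
      simp only [e2, mul_add, sum_add_distrib]
      have e3 : ∑ k, (Pi.single y 1 : κ → ℕ) k = 1 := by
        rw [sum_pi_single']
        simp
      have e4 : ∑ k, γ (some k) * (Pi.single y 1 : κ → ℕ) k = γ (some y) := by
        simp [Pi.single_apply]
      rw [e3, e4]
      refine ⟨?_, by omega⟩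
      have e5 : m + 1 - (1 + ∑ k, w k) = m - ∑ k, w k := by omega
      rw [e5]
      ring

/-- the weight of `M * B + b` for a word `B` -/
theorem wtL_word (γ : Option κ → ℕ) {m : ℕ} (x : Fin m → Option κ) (M L : ℕ) (b : κ → ℕ)
    (hL : M * m + ∑ k, b k ≤ L) :
    wtL γ L (fun k => M * (∑ i, stp (x i)) k + b k) =
      (∑ k, γ (some k) * b k + γ none * (L - (M * m + ∑ k, b k))) + ∑ i, M * γ (x i) := by
  obtain ⟨h1, h2⟩ := wt_word γ x
  unfold wtL
  set w : κ → ℕ := ∑ i, stp (x i) with hw
  have e1 : ∑ k, (M * w k + b k) = M * ∑ k, w k + ∑ k, b k := by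
    rw [sum_add_distrib, mul_sum]
  have e2 : L - (M * ∑ k, w k + ∑ k, b k) =
      (L - (M * m + ∑ k, b k)) + M * (m - ∑ k, w k) := by
    have h3 : M * ∑ k, w k ≤ M * m := Nat.mul_le_mul_left M h2
    rw [Nat.mul_sub]
    omega
  have e3 : ∑ k, γ (some k) * (M * w k + b k) =
      M * ∑ k, γ (some k) * w k + ∑ k, γ (some k) * b k := by
    rw [mul_sum, ← sum_add_distrib]
    exact sum_congr rfl fun k _ => by ring
  rw [e1, e2, e3, ← mul_sum, ← h1]
  ring

/-- the reduction modulo the prime `M` -/
theorem mod_step {M N n m om L c : ℕ} (hM : M.Prime) (hN : 0 < N) (γ : Option κ → ℕ)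
    (σ : Option κ → Option κ) (inc : Option κ → ℕ)
    (hs : ∀ x, (M * γ (σ x)) % N = (M * γ x + inc x) % N) (hi1 : ∀ x, 1 ≤ inc x)
    (hi2 : ∀ x, m * inc x ≤ om) (hm : n < m * M) (hL : n + M ≤ L)
    (ρ : (κ → ℕ) → ℤ)
    (h : ∀ A : κ → ℕ, ∑ x, A x ≤ L → (c + wtL γ L A) % N < om →
      (M : ℤ) ∣ ∑ α ∈ degs κ n, ρ α * bin A α) :
    ∀ α ∈ degs κ n, (M : ℤ) ∣ ρ α := by
  have hMpos : 0 < M := hM.pos
  have key : ∀ k : ℕ, ∀ b : κ → ℕ, (∀ x, b x < M) → ∑ x, b x = k →
      ∀ α ∈ degs κ n, (∀ x, α x % M = b x) → (M : ℤ) ∣ ρ α := by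
    intro k
    induction k using Nat.strong_induction_on with
    | _ k ih =>
      intro b hb hk α₀ hα₀ hα₀b
      have hsumdeg : ∀ α ∈ degs κ n, (∀ x, α x % M = b x) →
          M * ∑ x, α x / M + ∑ x, b x ≤ n := by
        intro α hα hαb
        have h1 : ∑ x, α x = M * ∑ x, α x / M + ∑ x, b x := by
          rw [mul_sum, ← sum_add_distrib]
          refine sum_congr rfl fun x _ => ?_
          rw [← hαb x]
          exact (Nat.div_add_mod (α x) M).symm
        rw [← h1]
        exact mem_degs.mp hα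
      set T := (degs κ n).filter fun α => ∀ x, α x % M = b x with hT
      set D := (n - ∑ x, b x) / M with hD
      have hbn : ∑ x, b x ≤ n := by
        have := hsumdeg α₀ hα₀ hα₀b
        omega
      have hDM : M * D ≤ n - ∑ x, b x := Nat.mul_div_le _ _
      have hDm : D + 1 ≤ m := by
        have h1 : M * D < M * m := by
          rw [mul_comm M m]
          omega
        exact Nat.lt_of_mul_lt_mul_left h1
      have hTdeg : ∀ α ∈ T, ∑ x, α x / M ≤ D := by
        intro α hα
        obtain ⟨h1, h2⟩ := mem_filter.mp hα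
        have h3 := hsumdeg α h1 h2
        rw [hD, Nat.le_div_iff_mul_le hMpos, mul_comm]
        omega
      set g : (κ → ℕ) → ℤ := fun B => ∑ α ∈ T, ρ α * (bin B (fun x => α x / M) : ℤ) with hg
      have hgD : Dg (D + 1) g := by
        refine Dg.sum T _ fun α hα => (Dg.binom (D + 1) _ ?_).smul (ρ α)
        have := hTdeg α hα
        omega
      have hval : ∀ B : κ → ℕ, ∑ x, (M * B x + b x) ≤ L →
          (c + wtL γ L (fun x => M * B x + b x)) % N < om → (M : ℤ) ∣ g B := by
        intro B hB1 hB2
        have h1 := h _ hB1 hB2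
        have h2 : (M : ℤ) ∣ ∑ α ∈ degs κ n, ρ α * bin (fun x => M * B x + b x) α - g B := by
          rw [hg, hT]
          simp only [sum_filter]
          rw [← sum_sub_distrib]
          refine dvd_sum fun α hα => ?_
          have h3 := lucas_bin hM B b α hb
          split_ifs with hc
          · have h4 : (fun x => α x % M) = b := funext hc
            rw [h4, bin_self] at h3
            have h5 : ρ α * (bin (fun x => M * B x + b x) α : ℤ) -
                ρ α * (bin B (fun x => α x / M) : ℤ) = ρ α * ((bin (fun x => M * B x + b x) α : ℤ) -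
                  ((1 : ℕ) : ℤ) * bin B (fun x => α x / M)) := by
              push_cast
              ring
            rw [h5]
            exact Dvd.dvd.mul_left h3 _
          · rw [sub_zero]
            by_cases hle : (fun x => α x % M) ≤ b
            · refine dvd_mul_of_dvd_left ?_ _
              refine ih (∑ x, α x % M) ?_ (fun x => α x % M) (fun x => Nat.mod_lt _ hMpos) rfl
                α hα fun x => rfl
              rw [← hk]
              exact sum_lt_of_le_ne hle fun he => hc fun x => congrFun he x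
            · rw [bin_eq_zero hle] at h3
              have h5 : (M : ℤ) ∣ (bin (fun x => M * B x + b x) α : ℤ) := by simpa using h3
              exact Dvd.dvd.mul_left h5 _
        exact (dvd_sub_right h1).mp h2
      have hLb : M * (D + 1) + ∑ x, b x ≤ L := by
        rw [mul_add, mul_one]
        omega
      have hwalk := walk (M := (M : ℤ)) hN (fun x => M * γ x) σ inc hs hi1
        (m := D + 1) (fun x => (Nat.mul_le_mul_right _ hDm).trans (hi2 x))
        (c + (∑ k, γ (some k) * b k + γ none * (L - (M * (D + 1) + ∑ k, b k)))) g hgD (by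
          intro x hx
          refine hval _ ?_ ?_
          · obtain ⟨_, h2⟩ := wt_word γ x
            rw [sum_add_distrib, ← mul_sum]
            have := Nat.mul_le_mul_left M h2
            omega
          · rw [wtL_word γ x M L b hLb, ← add_assoc]
            exact hx)
      refine dvd_of_values T (fun α x => α x / M) ?_ ρ D hTdeg ?_ α₀
        (mem_filter.mpr ⟨hα₀, hα₀b⟩)
      · intro α hα β hβ he
        funext x
        have h1 := (mem_filter.mp hα).2 x
        have h2 := (mem_filter.mp hβ).2 x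
        have h3 : α x / M = β x / M := congrFun he x
        rw [← Nat.div_add_mod (α x) M, ← Nat.div_add_mod (β x) M, h1, h2, h3]
      · intro B hB
        obtain ⟨x, hx⟩ := exists_letters (D + 1) B (by omega)
        have := hwalk x
        rw [hx] at this
        exact this
  intro α hα
  exact key _ (fun x => α x % M) (fun x => Nat.mod_lt _ hMpos) rfl α hα fun x => rfl

/-- **Unisolvence**, integral coefficients. -/
theorem unisolv_int {M N n m om L c : ℕ} (hM : M.Prime) (hN : 0 < N) (γ : Option κ → ℕ)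
    (σ : Option κ → Option κ) (inc : Option κ → ℕ)
    (hs : ∀ x, (M * γ (σ x)) % N = (M * γ x + inc x) % N) (hi1 : ∀ x, 1 ≤ inc x)
    (hi2 : ∀ x, m * inc x ≤ om) (hm : n < m * M) (hL : n + M ≤ L)
    (ρ : (κ → ℕ) → ℤ)
    (h : ∀ A : κ → ℕ, ∑ x, A x ≤ L → (c + wtL γ L A) % N < om →
      ∑ α ∈ degs κ n, ρ α * bin A α = 0) :
    ∀ α ∈ degs κ n, ρ α = 0 := by
  have key : ∀ j : ℕ, ∀ ρ : (κ → ℕ) → ℤ,
      (∀ A : κ → ℕ, ∑ x, A x ≤ L → (c + wtL γ L A) % N < om →
        ∑ α ∈ degs κ n, ρ α * bin A α = 0) →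
      ∀ α ∈ degs κ n, (M : ℤ) ^ j ∣ ρ α := by
    intro j
    induction j with
    | zero =>
      intro ρ _ α _
      rw [pow_zero]
      exact one_dvd _
    | succ j ih =>
      intro ρ hρ α hα
      have h1 := mod_step hM hN γ σ inc hs hi1 hi2 hm hL ρ (fun A hA hA' => by
        rw [hρ A hA hA']
        exact dvd_zero _)
      have h2 := ih (fun β => ρ β / M) (fun A hA hA' => by
        have h3 := hρ A hA hA'
        have h4 : ∑ β ∈ degs κ n, ρ β * (bin A β : ℤ) =
            M * ∑ β ∈ degs κ n, ρ β / M * (bin A β : ℤ) := by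
          rw [mul_sum]
          refine sum_congr rfl fun β hβ => ?_
          rw [← mul_assoc, Int.mul_ediv_cancel' (h1 β hβ)]
        rw [h4] at h3
        rcases mul_eq_zero.mp h3 with h5 | h5
        · exact absurd h5 (by exact_mod_cast hM.ne_zero)
        · exact h5) α hα
      rw [pow_succ', ← Int.mul_ediv_cancel' (h1 α hα)]
      exact mul_dvd_mul_left _ h2
  intro α hα
  by_contra hne
  have h1 := key ((ρ α).natAbs) ρ h α hα
  have h2 : M ^ (ρ α).natAbs ∣ (ρ α).natAbs := by
    have := Int.natAbs_dvd_natAbs.mpr h1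
    rwa [Int.natAbs_pow, Int.natAbs_natCast] at this
  have h3 := Nat.le_of_dvd (Int.natAbs_pos.mpr hne) h2
  have h4 := Nat.lt_pow_self (n := (ρ α).natAbs) hM.one_lt
  omega

/-- **Unisolvence**, rational coefficients. -/
theorem unisolv {M N n m om L c : ℕ} (hM : M.Prime) (hN : 0 < N) (γ : Option κ → ℕ)
    (σ : Option κ → Option κ) (inc : Option κ → ℕ)
    (hs : ∀ x, (M * γ (σ x)) % N = (M * γ x + inc x) % N) (hi1 : ∀ x, 1 ≤ inc x)
    (hi2 : ∀ x, m * inc x ≤ om) (hm : n < m * M) (hL : n + M ≤ L)
    (ρ : (κ → ℕ) → ℚ)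
    (h : ∀ A : κ → ℕ, ∑ x, A x ≤ L → (c + wtL γ L A) % N < om →
      ∑ α ∈ degs κ n, ρ α * (bin A α : ℚ) = 0) :
    ∀ α ∈ degs κ n, ρ α = 0 := by
  set d : ℕ := ∏ α ∈ degs κ n, (ρ α).den with hd
  have hd0 : (d : ℚ) ≠ 0 := by
    rw [hd]
    push_cast
    exact prod_ne_zero_iff.mpr fun α _ => by exact_mod_cast (ρ α).den_nz
  have hint : ∀ α ∈ degs κ n, ∃ r : ℤ, (r : ℚ) = d * ρ α := by
    intro α hα
    obtain ⟨e, he⟩ := dvd_prod_of_mem (fun α => (ρ α).den) hα
    refine ⟨e * (ρ α).num, ?_⟩
    rw [← hd] at he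
    rw [he]
    push_cast
    have := Rat.mul_den_eq_num (ρ α)
    rw [← this]
    ring
  choose! r hr using hint
  have h1 := unisolv_int hM hN γ σ inc hs hi1 hi2 hm hL r (fun A hA hA' => by
    have h2 := h A hA hA'
    have h3 : ((∑ α ∈ degs κ n, r α * (bin A α : ℤ) : ℤ) : ℚ) =
        d * ∑ α ∈ degs κ n, ρ α * (bin A α : ℚ) := by
      push_cast
      rw [mul_sum]
      refine sum_congr rfl fun α hα => ?_
      rw [hr α hα, mul_assoc]
    rw [h2, mul_zero] at h3
    exact_mod_cast h3)
  intro α hα
  have h2 := hr α hα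
  rw [h1 α hα, Int.cast_zero] at h2
  rcases mul_eq_zero.mp h2.symm with h3 | h3
  · exact absurd h3 hd0
  · exact h3

end Pool.Agent.Lib.AbcZ.Uni

namespace Pool.Agent.Lib.AbcZ

open Finset

variable {K : Type*} [Fintype K] [DecidableEq K]

theorem ix_succ_eq (n : ℕ) : ix K (n + 1) = Uni.degs K n := by
  ext α
  rw [mem_ix, Uni.mem_degs, Nat.lt_succ_iff]
  rfl

/-- **Unisolvence modulo a prime.** -/
theorem unisolve (M n m N om L c : ℕ) (hM : M.Prime) (hN : 0 < N) (g : Option K → ℕ)
    (σ : Option K → Option K) (inc : Option K → ℕ)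
    (hinc : ∀ x, (M * g (σ x)) % N = (M * g x + inc x) % N) (h1 : ∀ x, 1 ≤ inc x)
    (h2 : ∀ x, m * inc x ≤ om) (hnm : n ≤ m * M) (hL : n + M ≤ L) (ρ : (K → ℕ) → ℤ)
    (hz : ∀ A : K → ℕ, tdeg A ≤ L → (c + wt g L A) % N < om →
      (M : ℤ) ∣ ∑ α ∈ ix K n, ρ α * bin A α) :
    ∀ α ∈ ix K n, (M : ℤ) ∣ ρ α := by
  cases n with
  | zero =>
    intro α hα
    exact absurd (mem_ix.mp hα) (Nat.not_lt_zero _)
  | succ n =>
    rw [ix_succ_eq] at *
    exact Uni.mod_step hM hN g σ inc hinc h1 h2 (by omega) (by omega) ρ hz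

/-- **Unisolvence of the slab set.** -/
theorem unisolveQ (M n m N om L c : ℕ) (hM : M.Prime) (hN : 0 < N) (g : Option K → ℕ)
    (σ : Option K → Option K) (inc : Option K → ℕ)
    (hinc : ∀ x, (M * g (σ x)) % N = (M * g x + inc x) % N) (h1 : ∀ x, 1 ≤ inc x)
    (h2 : ∀ x, m * inc x ≤ om) (hnm : n ≤ m * M) (hL : n + M ≤ L) (ρ : (K → ℕ) → ℚ)
    (hz : ∀ A : K → ℕ, tdeg A ≤ L → (c + wt g L A) % N < om →
      ∑ α ∈ ix K n, ρ α * bin A α = 0) :
    ∀ α ∈ ix K n, ρ α = 0 := by
  cases n with
  | zero =>
    intro α hα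
    exact absurd (mem_ix.mp hα) (Nat.not_lt_zero _)
  | succ n =>
    rw [ix_succ_eq] at *
    exact Uni.unisolv hM hN g σ inc hinc h1 h2 (by omega) (by omega) ρ hz

end Pool.Agent.Lib.AbcZ
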