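import Mathlib
import Pool.Agent.Lib.AbcZ.Core

/-!
# The determinant inequality from abstract data
-/

namespace Pool.Agent.Lib.AbcZ

open Finset

/-- **S11a**: the determinant inequality from abstract data. -/
theorem coreA {K : Type} [Fintype K] [DecidableEq K] (p N W L N1 N2 n m M : ℕ) (hM : M.Prime)
    (hN : 0 < N) (g : Option K → ℕ) (σ : Option K → Option K) (inc : Option K → ℕ)
    (hinc : ∀ x, (M * g (σ x)) % N = (M * g x + inc x) % N) (h1 : ∀ x, 1 ≤ inc x)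
    (k1 : K) (hg : g none < g (some k1))
    (h2 : ∀ x, m * inc x + (g (some k1) - g none) ≤ W) (hN1 : N1 = N + N2) (hn : N1 + N2 ≤ n)
    (hnm : n ≤ m * M) (hL : n + M ≤ L) (hWN : W ≤ N) (a : (K → ℕ) → ℤ) (ha0 : ∀ A, a A ≠ 0)
    (om : ℚ) (hom : om ≠ 1)
    (ha : ∀ A, tdeg A ≤ L → wt g (L + 1) A % N + (g (some k1) - g none) < W →
      (a (A + uv (some k1)) : ℚ) = om * a A)
    (y : Option K → ZMod (p ^ N)) (V : ZMod (p ^ N)) (t : K → ZMod (p ^ N))
    (hy : IsUnit (y none)) (ht : ∀ x, y (some x) = y none * (1 + p * t x))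
    (hmod : ∀ A, tdeg A ≤ L + 1 → wt g (L + 1) A % N < W →
      (a A : ZMod (p ^ N)) = V * (y none ^ (L + 1 - tdeg A) * ∏ x, y (some x) ^ A x))
    (Am : ℕ) (hAm : ∀ A, tdeg A ≤ L + 1 → wt g (L + 1) A % N < W → |a A| ≤ (Am : ℤ)) :
    (p ^ N) ^ (ix K N2).card ≤ ((ix K N1).card + (ix K N2).card).factorial *
      (2 ^ (L + 1)) ^ (ix K N1).card * (2 ^ (L + 1) * Am) ^ (ix K N2).card := by
  subst hN1
  exact core M n m N W L hM hN g σ inc hinc h1 k1 hg h2 N2 hn hnm hL hWN a om hom ha0 ha p y hy t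
    ht V hmod Am hAm

end Pool.Agent.Lib.AbcZ
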