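import Mathlib
import Pool.Agent.Lib.AbcZ.Defs

/-!
# The determinant inequality in logarithmic form, and the count for the pigeonhole
-/

namespace Pool.Agent.Lib.AbcZ

open Finset

/-- from the determinant inequality to the inequality between logarithms -/
theorem det_log {R1 R2 Lam N p Am : ℕ} (hp : 1 < p) (hR2 : 0 < R2) (hAm : 1 ≤ Am) (C1 : ℝ)
    (hR : (R1 : ℝ) ≤ C1 * R2)
    (h : (p ^ N) ^ R2 ≤ (R1 + R2).factorial * (2 ^ Lam) ^ R1 * (2 ^ Lam * Am) ^ R2) :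
    (N : ℝ) * Real.log p ≤ (C1 + 1) * (Real.log (R1 + R2) + Lam * Real.log 2) + Real.log Am := by
  have hR2' : (0 : ℝ) < R2 := by exact_mod_cast hR2
  have hR1' : (0 : ℝ) ≤ R1 := Nat.cast_nonneg _
  have hp' : (0 : ℝ) < p := by exact_mod_cast (by omega : 0 < p)
  have hAm' : (0 : ℝ) < Am := by exact_mod_cast (by omega : 0 < Am)
  have hS : (1 : ℝ) ≤ (R1 : ℝ) + R2 := by
    have : (1 : ℝ) ≤ R2 := by exact_mod_cast hR2
    linarith
  have hS0 : (0 : ℝ) < (R1 : ℝ) + R2 := by linarith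
  have h1 : ((p : ℝ) ^ N) ^ R2 ≤ ((R1 : ℝ) + R2) ^ (R1 + R2) * ((2 : ℝ) ^ Lam) ^ R1 *
      ((2 : ℝ) ^ Lam * Am) ^ R2 := by
    have h2 : (p ^ N) ^ R2 ≤ (R1 + R2) ^ (R1 + R2) * (2 ^ Lam) ^ R1 * (2 ^ Lam * Am) ^ R2 := by
      refine h.trans ?_
      gcongr
      exact Nat.factorial_le_pow _
    exact_mod_cast h2
  have h2 := Real.log_le_log (by positivity) h1
  rw [Real.log_mul (by positivity) (by positivity), Real.log_mul (by positivity) (by positivity),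
    Real.log_pow, Real.log_pow, Real.log_pow, Real.log_pow, Real.log_pow, Real.log_pow,
    Real.log_mul (by positivity) (by positivity), Real.log_pow] at h2
  have hl1 : 0 ≤ Real.log ((R1 : ℝ) + R2) := Real.log_nonneg hS
  have hl2 : 0 ≤ Real.log (2 : ℝ) := Real.log_nonneg (by norm_num)
  have hE : 0 ≤ Real.log ((R1 : ℝ) + R2) + Lam * Real.log 2 := by positivity
  have h5 : ((R1 : ℝ) + R2) * (Real.log ((R1 : ℝ) + R2) + Lam * Real.log 2) ≤
      ((C1 + 1) * R2) * (Real.log ((R1 : ℝ) + R2) + Lam * Real.log 2) :=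
    mul_le_mul_of_nonneg_right (by linarith) hE
  have h3 : (R2 : ℝ) * ((N : ℝ) * Real.log p) ≤
      R2 * ((C1 + 1) * (Real.log ((R1 : ℝ) + R2) + Lam * Real.log 2) + Real.log Am) := by
    push_cast at h2
    nlinarith [h2, h5]
  exact le_of_mul_le_mul_left h3 hR2'

theorem card_ix_le_pow {K : Type*} [Fintype K] [DecidableEq K] (n : ℕ) :
    (ix K n).card ≤ n ^ Fintype.card K := by
  unfold ix
  refine (card_filter_le _ _).trans ?_
  rw [Fintype.card_piFinset]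
  simp

/-- the count for the pigeonhole with many members -/
theorem params_count (κ η T K K2 : ℝ) (p N C P : ℕ) (hκ : 0 < κ) (hκ1 : κ < 1) (hη : 0 < η)
    (hη1 : η ≤ 1) (hp : 2 ≤ p) (hpT : (p : ℝ) ≤ T) (hC : 1 ≤ C) (hK2 : 1 ≤ K2)
    (hP : (P : ℝ) ≤ K2 * T ^ (η / 2)) (hK : (20 * C * K2) ^ 2 + 1 ≤ K)
    (hN : K * (p : ℝ) ^ (1 - κ) * T ^ η < N) :
    P * (p - 1) * (⌈(N : ℝ) ^ (η / 10)⌉₊ + 3) < (N / C + 1) * ⌊(p : ℝ) ^ κ⌋₊ := by
  have hp1 : (1 : ℝ) ≤ p := by exact_mod_cast (by omega : 1 ≤ p)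
  have hp0 : (0 : ℝ) < p := by linarith
  have hT1 : 1 ≤ T := le_trans hp1 hpT
  have hT0 : 0 < T := by linarith
  have hC1 : (1 : ℝ) ≤ C := by exact_mod_cast hC
  have hC0 : (0 : ℝ) < C := by linarith
  have hK20 : 0 < K2 := by linarith
  have hCK : 1 ≤ (C : ℝ) * K2 := one_le_mul_of_one_le_of_one_le hC1 hK2
  have hK1 : 1 ≤ K := by nlinarith [sq_nonneg (20 * (C : ℝ) * K2)]
  have hK0 : 0 < K := by linarith
  set X : ℝ := (p : ℝ) ^ (1 - κ) * T ^ η with hX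
  have hpk : 1 ≤ (p : ℝ) ^ (1 - κ) := Real.one_le_rpow hp1 (by linarith)
  have hTe : 1 ≤ T ^ η := Real.one_le_rpow hT1 hη.le
  have hX1 : 1 ≤ X := one_le_mul_of_one_le_of_one_le hpk hTe
  have hX0 : 0 < X := by linarith
  have hKX : K * X < N := by rw [hX, ← mul_assoc]; exact hN
  have hKX0 : 0 < K * X := by positivity
  have hN1 : (1 : ℝ) ≤ N := by nlinarith
  have hN0 : (0 : ℝ) < N := by linarith
  -- `N^(1 - η/10)` is large
  have hmain : 20 * C * K2 * (p : ℝ) ^ (1 - κ) * T ^ (η / 2) ≤ (N : ℝ) ^ (1 - η / 10) := by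
    have e1 : (K * X) ^ (1 - η / 10) ≤ (N : ℝ) ^ (1 - η / 10) :=
      Real.rpow_le_rpow hKX0.le hKX.le (by linarith)
    refine le_trans ?_ e1
    rw [Real.mul_rpow hK0.le hX0.le]
    have e2 : 20 * C * K2 ≤ K ^ (1 - η / 10) := by
      have a1 : (20 * C * K2) ^ 2 ≤ K := by linarith
      have a2 : 20 * C * K2 ≤ K ^ (1 / 2 : ℝ) := by
        rw [← Real.sqrt_eq_rpow]
        exact Real.le_sqrt_of_sq_le a1
      exact le_trans a2 (Real.rpow_le_rpow_of_exponent_le hK1 (by linarith))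
    have e3 : (p : ℝ) ^ (1 - κ) * T ^ (η / 2) ≤ X ^ (1 - η / 10) := by
      have b1 : X ^ (1 - η / 10) = X / X ^ (η / 10) := by
        rw [Real.rpow_sub hX0, Real.rpow_one]
      have b2 : X ^ (η / 10) ≤ T ^ (η / 2) := by
        have c1 : X ≤ T ^ (2 : ℝ) := by
          have : (p : ℝ) ^ (1 - κ) ≤ T := by
            calc (p : ℝ) ^ (1 - κ) ≤ (p : ℝ) ^ (1 : ℝ) :=
                  Real.rpow_le_rpow_of_exponent_le hp1 (by linarith)
              _ = p := Real.rpow_one _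
              _ ≤ T := hpT
          have : T ^ η ≤ T := by
            calc T ^ η ≤ T ^ (1 : ℝ) := Real.rpow_le_rpow_of_exponent_le hT1 hη1
              _ = T := Real.rpow_one _
          calc X ≤ T * T := by
                rw [hX]
                gcongr
            _ = T ^ (2 : ℝ) := by
                rw [Real.rpow_two, sq]
        calc X ^ (η / 10) ≤ (T ^ (2 : ℝ)) ^ (η / 10) := Real.rpow_le_rpow hX0.le c1 (by positivity)
          _ = T ^ (2 * (η / 10)) := by rw [← Real.rpow_mul hT0.le]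
          _ ≤ T ^ (η / 2) := Real.rpow_le_rpow_of_exponent_le hT1 (by linarith)
      have b3 : 0 < X ^ (η / 10) := Real.rpow_pos_of_pos hX0 _
      rw [b1, le_div_iff₀ b3]
      calc (p : ℝ) ^ (1 - κ) * T ^ (η / 2) * X ^ (η / 10)
          ≤ (p : ℝ) ^ (1 - κ) * T ^ (η / 2) * T ^ (η / 2) := by gcongr
        _ = (p : ℝ) ^ (1 - κ) * (T ^ (η / 2) * T ^ (η / 2)) := by ring
        _ = X := by
            rw [← Real.rpow_add hT0, hX]
            congr 2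
            ring
    calc 20 * C * K2 * (p : ℝ) ^ (1 - κ) * T ^ (η / 2)
        = (20 * C * K2) * ((p : ℝ) ^ (1 - κ) * T ^ (η / 2)) := by ring
      _ ≤ K ^ (1 - η / 10) * X ^ (1 - η / 10) := mul_le_mul e2 e3 (by positivity) (by positivity)
  have hNN : (N : ℝ) = (N : ℝ) ^ (1 - η / 10) * (N : ℝ) ^ (η / 10) := by
    rw [← Real.rpow_add hN0]
    ring_nf
    rw [Real.rpow_one]
  have hNe : 1 ≤ (N : ℝ) ^ (η / 10) := Real.one_le_rpow hN1 (by positivity)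
  have hR : ((⌈(N : ℝ) ^ (η / 10)⌉₊ + 3 : ℕ) : ℝ) ≤ 5 * (N : ℝ) ^ (η / 10) := by
    have := Nat.ceil_lt_add_one (by positivity : 0 ≤ (N : ℝ) ^ (η / 10))
    push_cast
    linarith
  have hH : (p : ℝ) ^ κ / 2 ≤ (⌊(p : ℝ) ^ κ⌋₊ : ℝ) := by
    have h1 : 1 ≤ (p : ℝ) ^ κ := Real.one_le_rpow hp1 hκ.le
    have h2 := Nat.lt_floor_add_one ((p : ℝ) ^ κ)
    have h3 : (1 : ℝ) ≤ (⌊(p : ℝ) ^ κ⌋₊ : ℝ) := by
      have : 1 ≤ ⌊(p : ℝ) ^ κ⌋₊ := Nat.le_floor (by push_cast; exact h1)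
      exact_mod_cast this
    linarith
  have hG : (N : ℝ) / C < ((N / C + 1 : ℕ) : ℝ) := by
    rw [div_lt_iff₀ hC0]
    have : N < (N / C + 1) * C := by
      have := Nat.lt_div_mul_add (a := N) (b := C) (by omega)
      linarith
    exact_mod_cast this
  have hpp : (p : ℝ) = (p : ℝ) ^ (1 - κ) * (p : ℝ) ^ κ := by
    rw [← Real.rpow_add hp0]
    ring_nf
    rw [Real.rpow_one]
  have hp1' : ((p - 1 : ℕ) : ℝ) ≤ p := by
    exact_mod_cast Nat.sub_le p 1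
  have hfin : ((P * (p - 1) * (⌈(N : ℝ) ^ (η / 10)⌉₊ + 3) : ℕ) : ℝ) <
      (((N / C + 1) * ⌊(p : ℝ) ^ κ⌋₊ : ℕ) : ℝ) := by
    rw [Nat.cast_mul, Nat.cast_mul, Nat.cast_mul]
    have hpk0 : 0 < (p : ℝ) ^ κ := Real.rpow_pos_of_pos hp0 _
    calc (P : ℝ) * ((p - 1 : ℕ) : ℝ) * ((⌈(N : ℝ) ^ (η / 10)⌉₊ + 3 : ℕ) : ℝ)
        ≤ (K2 * T ^ (η / 2)) * ((p : ℝ) ^ (1 - κ) * (p : ℝ) ^ κ) * (5 * (N : ℝ) ^ (η / 10)) := by
          rw [← hpp]
          gcongr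
      _ = (20 * C * K2 * (p : ℝ) ^ (1 - κ) * T ^ (η / 2)) * (N : ℝ) ^ (η / 10) *
            ((p : ℝ) ^ κ / (4 * C)) := by
          field_simp
          norm_num
      _ ≤ (N : ℝ) ^ (1 - η / 10) * (N : ℝ) ^ (η / 10) * ((p : ℝ) ^ κ / (4 * C)) := by gcongr
      _ = (N : ℝ) / C * ((p : ℝ) ^ κ / 4) := by
          rw [← hNN]
          field_simp
      _ ≤ (N : ℝ) / C * ((p : ℝ) ^ κ / 2) := by gcongr; norm_num
      _ < ((N / C + 1 : ℕ) : ℝ) * ((p : ℝ) ^ κ / 2) := mul_lt_mul_of_pos_right hG (by positivity)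
      _ ≤ ((N / C + 1 : ℕ) : ℝ) * (⌊(p : ℝ) ^ κ⌋₊ : ℝ) := by gcongr
  exact_mod_cast hfin

end Pool.Agent.Lib.AbcZ
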