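import Mathlib
import Pool.Agent.Lib.AbcZ.Defs

/-!
# S8b: the letters

`none` = the smallest element, `some 0` = the largest element, `some (j + 1)` = an element in the
arc `j`; the successor is the element of the next but one arc.
-/

namespace Pool.Agent.Lib.AbcZ

open Finset

/-- letters: `none` = the smallest element, `some 0` = the largest element, `some (j + 1)` = an
element in the arc `j`; the successor is the element of the next but one arc. -/
theorem letters (q N M : ℕ) (hq : 0 < q) (hN : 2 * q ≤ N) (Gam : Finset ℕ) (hG : Gam.Nonempty)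
    (hd : ∀ c < N, ∃ x ∈ Gam, q * ((M * x + (N - c)) % N) < N) :
    ∃ (g : Option (Fin (q + 1)) → ℕ) (σ : Option (Fin (q + 1)) → Option (Fin (q + 1)))
      (inc : Option (Fin (q + 1)) → ℕ), (∀ x, g x ∈ Gam) ∧
      (∀ c ∈ Gam, g none ≤ c ∧ c ≤ g (some 0)) ∧
      (∀ x, (M * g (σ x)) % N = (M * g x + inc x) % N) ∧
      ∀ x, 1 ≤ inc x ∧ q * inc x ≤ 3 * N := by
  have hN0 : 0 < N := by omega
  -- the centres of the arcs
  have hc : ∀ j : Fin q, (j : ℕ) * N / q < N := by
    intro j
    rw [Nat.div_lt_iff_lt_mul hq]
    calc (j : ℕ) * N < q * N := Nat.mul_lt_mul_of_pos_right j.2 hN0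
      _ = N * q := Nat.mul_comm _ _
  choose y hyG hy using fun j : Fin q => hd ((j : ℕ) * N / q) (hc j)
  -- the letters
  let g : Option (Fin (q + 1)) → ℕ := fun x =>
    Option.elim x (Gam.min' hG) (fun j => Fin.cases (Gam.max' hG) y j)
  have hgn : g none = Gam.min' hG := rfl
  have hg0 : g (some 0) = Gam.max' hG := rfl
  have hgs : ∀ j : Fin q, g (some j.succ) = y j := fun j => rfl
  have hgG : ∀ x, g x ∈ Gam := by
    intro x
    rcases x with _ | x
    · exact Gam.min'_mem hG
    · refine Fin.cases ?_ (fun j => ?_) x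
      · exact Gam.max'_mem hG
      · rw [hgs]; exact hyG j
  -- position and index of the successor
  let J : Option (Fin (q + 1)) → ℕ := fun x => (M * g x) % N * q / N + 2
  let j : Option (Fin (q + 1)) → Fin q := fun x => ⟨J x % q, Nat.mod_lt _ hq⟩
  let d : Fin q → ℕ := fun i => (M * y i + (N - (i : ℕ) * N / q)) % N
  have hP : ∀ x, (M * g x) % N + 1 ≤ J x * N / q := by
    intro x
    rw [Nat.le_div_iff_mul_le hq]
    have h1 : (M * g x) % N * q < ((M * g x) % N * q / N + 1) * N := by
      have := Nat.lt_div_mul_add hN0 (a := (M * g x) % N * q)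
      calc (M * g x) % N * q < (M * g x) % N * q / N * N + N := this
        _ = _ := by ring
    have h2 : J x * N = ((M * g x) % N * q / N + 1) * N + N := by
      show ((M * g x) % N * q / N + 2) * N = _
      ring
    rw [h2]
    have h3 : ((M * g x) % N + 1) * q = (M * g x) % N * q + q := by ring
    rw [h3]
    omega
  have hU : ∀ x, q * (J x * N / q) ≤ (M * g x) % N * q + 2 * N := by
    intro x
    have h1 : q * (J x * N / q) ≤ J x * N := Nat.mul_div_le _ _
    have h2 : (M * g x) % N * q / N * N ≤ (M * g x) % N * q := Nat.div_mul_le_self _ _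
    have h3 : J x * N = (M * g x) % N * q / N * N + 2 * N := by
      show ((M * g x) % N * q / N + 2) * N = _
      ring
    omega
  refine ⟨g, fun x => some (j x).succ, fun x => J x * N / q + d (j x) - (M * g x) % N, hgG, ?_, ?_,
    ?_⟩
  · intro c hc'
    rw [hgn, hg0]
    exact ⟨Gam.min'_le c hc', Gam.le_max' c hc'⟩
  · intro x
    have h1 := hP x
    show (M * g (some (j x).succ)) % N = (M * g x + (J x * N / q + d (j x) - (M * g x) % N)) % N
    rw [hgs]
    have h2 : (M * g x + (J x * N / q + d (j x) - (M * g x) % N)) % N =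
        (J x * N / q + d (j x)) % N := by
      rw [← Nat.mod_add_mod]
      congr 1
      omega
    rw [h2]
    -- c'_J = c_j + w N
    have h3 : J x * N / q = ((j x : ℕ) * N / q) + (J x / q) * N := by
      have e1 : J x = (j x : ℕ) + q * (J x / q) := by
        show J x = J x % q + q * (J x / q)
        exact (Nat.mod_add_div _ _).symm
      calc J x * N / q = ((j x : ℕ) * N + q * ((J x / q) * N)) / q := by
            congr 1
            conv_lhs => rw [e1]
            ring
        _ = _ := Nat.add_mul_div_left _ _ hq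
    rw [h3]
    have h4 := hc (j x)
    have h5 : ((j x : ℕ) * N / q + J x / q * N + d (j x)) % N =
        ((j x : ℕ) * N / q + d (j x)) % N := by
      have : (j x : ℕ) * N / q + J x / q * N + d (j x) =
        ((j x : ℕ) * N / q + d (j x)) + J x / q * N := by ring
      rw [this, Nat.add_mul_mod_self_right]
    rw [h5]
    show (M * y (j x)) % N =
      ((j x : ℕ) * N / q + (M * y (j x) + (N - (j x : ℕ) * N / q)) % N) % N
    rw [Nat.add_mod_mod]
    have h6 : (j x : ℕ) * N / q + (M * y (j x) + (N - (j x : ℕ) * N / q)) =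
        M * y (j x) + N := by omega
    rw [h6, Nat.add_mod_right]
  · intro x
    have h1 := hP x
    have h2 := hU x
    have h3 : q * d (j x) < N := hy (j x)
    refine ⟨?_, ?_⟩
    · show 1 ≤ J x * N / q + d (j x) - (M * g x) % N
      omega
    · show q * (J x * N / q + d (j x) - (M * g x) % N) ≤ 3 * N
      have h4 : q * (J x * N / q + d (j x) - (M * g x) % N) =
          q * (J x * N / q) + q * d (j x) - (M * g x) % N * q := by
        rw [Nat.mul_sub, Nat.mul_add, Nat.mul_comm ((M * g x) % N) q]
      rw [h4]
      omega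

end Pool.Agent.Lib.AbcZ
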