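import Pool.Agent.Lib.AbcZ.Omq
import Pool.Agent.Lib.AbcZ.Indep

/-!
# The numbers of the interpolation determinant

The numbers `a A = s ^ l * ∏ b x ^ A x * ∏ l i ^ (v i + E i (A))`: they are nonzero integers, small
on the slab set, exponential functions modulo `p ^ N`, and multiplied by `omq` when a letter is
replaced by another one.
-/

namespace Pool.Agent.Lib.AbcZ

open Finset Pool.Agent.AbcE

namespace Num

variable {ι : Type*} [Fintype ι] {K : Type*} [Fintype K] [DecidableEq K]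

/-- exponent of a letter in the monomial of degree `Lam` -/
def ax (Lam : ℕ) (A : K → ℕ) (x : Option K) : ℕ := x.elim (Lam - tdeg A) A

omit [DecidableEq K] in
theorem sum_ax (Lam : ℕ) (A : K → ℕ) (hA : tdeg A ≤ Lam) : ∑ x, ax Lam A x = Lam := by
  rw [Fintype.sum_option]
  unfold ax
  simp only [Option.elim]
  change Lam - tdeg A + tdeg A = Lam
  omega

omit [DecidableEq K] in
theorem wt_eq (g : Option K → ℕ) (Lam : ℕ) (A : K → ℕ) : wt g Lam A = ∑ x, g x * ax Lam A x := by
  rw [Fintype.sum_option]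
  unfold ax wt
  simp only [Option.elim]
  rw [add_comm]

/-- monomials in a commutative group -/
def mon {G : Type*} [CommGroup G] (U : ι → G) (f : ι → ℤ) : G := ∏ i, U i ^ f i

theorem mon_add {G : Type*} [CommGroup G] (U : ι → G) (f h : ι → ℤ) :
    mon U (fun i => f i + h i) = mon U f * mon U h := by
  unfold mon
  rw [← Finset.prod_mul_distrib]
  exact Finset.prod_congr rfl fun i _ => zpow_add _ _ _

theorem mon_sub {G : Type*} [CommGroup G] (U : ι → G) (f h : ι → ℤ) :
    mon U (fun i => f i - h i) = mon U f * (mon U h)⁻¹ := by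
  unfold mon
  rw [← Finset.prod_inv_distrib, ← Finset.prod_mul_distrib]
  exact Finset.prod_congr rfl fun i _ => zpow_sub _ _ _

theorem mon_smul {G : Type*} [CommGroup G] (U : ι → G) (n : ℕ) (f : ι → ℤ) :
    mon U (fun i => n * f i) = mon U f ^ n := by
  unfold mon
  rw [← Finset.prod_pow]
  refine Finset.prod_congr rfl fun i _ => ?_
  change U i ^ ((n : ℤ) * f i) = _
  rw [mul_comm (n : ℤ) (f i), zpow_mul, zpow_natCast]

theorem mon_sum {G : Type*} [CommGroup G] (U : ι → G) {X : Type*} (S : Finset X) (n : X → ℕ)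
    (f : X → ι → ℤ) : mon U (fun i => ∑ x ∈ S, (n x : ℤ) * f x i) = ∏ x ∈ S, mon U (f x) ^ n x := by
  classical
  induction S using Finset.induction_on with
  | empty =>
    simp [mon]
  | insert a S ha ih =>
    rw [Finset.prod_insert ha, ← ih, ← mon_smul, ← mon_add]
    congr 1
    funext i
    rw [Finset.sum_insert ha]

theorem mon_nat {G : Type*} [CommGroup G] (U : ι → G) (f : ι → ℤ) (hf : ∀ i, 0 ≤ f i) :
    mon U f = ∏ i, U i ^ (f i).toNat := by
  unfold mon
  refine Finset.prod_congr rfl fun i _ => ?_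
  conv_lhs => rw [← Int.toNat_of_nonneg (hf i)]
  rw [zpow_natCast]

theorem mon_split {G : Type*} [CommGroup G] (U : ι → G) (f : ι → ℤ) :
    mon U f * ∏ i, U i ^ (-f i).toNat = ∏ i, U i ^ (f i).toNat := by
  unfold mon
  rw [← Finset.prod_mul_distrib]
  refine Finset.prod_congr rfl fun i _ => ?_
  rw [← zpow_natCast, ← zpow_natCast, ← zpow_add]
  congr 1
  omega

variable (e : ι → ℤ) (N Q W Lam : ℕ) (g : Option K → ℕ)

/-- the exponents -/
def Ex (A : K → ℕ) (i : ι) : ℤ :=
  ∑ x, (ax Lam A x : ℤ) * ((g x : ℤ) * e i / N) - ((wt g Lam A / N : ℕ) : ℤ) * e i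

/-- the shift of the exponents -/
noncomputable def vx (i : ι) : ℤ :=
  ⌈(Lam : ℝ) * (((g none : ℤ) * e i % N : ℤ) : ℝ) / N + Lam / Q +
    (max (-(e i : ℝ)) 0) * W / N⌉

omit [DecidableEq K] [Fintype ι] in
theorem N_mul_Ex (A : K → ℕ) (i : ι) : (N : ℤ) * Ex e N Lam g A i =
    e i * ((wt g Lam A % N : ℕ) : ℤ) - ∑ x, (ax Lam A x : ℤ) * ((g x : ℤ) * e i % N) := by
  unfold Ex
  have h1 : ∀ x, (N : ℤ) * ((g x : ℤ) * e i / N) = (g x : ℤ) * e i - (g x : ℤ) * e i % N := by
    intro x
    have := Int.mul_ediv_add_emod ((g x : ℤ) * e i) N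
    linarith
  have h2 : (N : ℤ) * ((wt g Lam A / N : ℕ) : ℤ) = (wt g Lam A : ℤ) - ((wt g Lam A % N : ℕ) : ℤ) := by
    have := Nat.div_add_mod (wt g Lam A) N
    have h := congrArg (fun z : ℕ => (z : ℤ)) this
    push_cast at h ⊢
    linarith
  have h3 : (wt g Lam A : ℤ) = ∑ x, (g x : ℤ) * ax Lam A x := by
    rw [wt_eq]
    push_cast
    rfl
  calc (N : ℤ) * (∑ x, (ax Lam A x : ℤ) * ((g x : ℤ) * e i / N) -
        ((wt g Lam A / N : ℕ) : ℤ) * e i)
      = ∑ x, (ax Lam A x : ℤ) * ((N : ℤ) * ((g x : ℤ) * e i / N)) -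
        ((N : ℤ) * ((wt g Lam A / N : ℕ) : ℤ)) * e i := by
        rw [mul_sub, Finset.mul_sum]
        congr 1
        · exact Finset.sum_congr rfl fun x _ => by ring
        · ring
    _ = ∑ x, ((g x : ℤ) * ax Lam A x * e i - (ax Lam A x : ℤ) * ((g x : ℤ) * e i % N)) -
        ((∑ x, (g x : ℤ) * ax Lam A x) - ((wt g Lam A % N : ℕ) : ℤ)) * e i := by
        rw [h2, h3]
        congr 1
        exact Finset.sum_congr rfl fun x _ => by rw [h1]; ring
    _ = _ := by
        rw [Finset.sum_sub_distrib, ← Finset.sum_mul]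
        ring

omit [DecidableEq K] [Fintype ι] in
theorem bounds (hN : 0 < N) (hQ : 0 < Q)
    (hbox : ∀ x i, |((g x : ℤ) * e i) % N - ((g none : ℤ) * e i) % N| * Q < N)
    (A : K → ℕ) (hA : tdeg A ≤ Lam) (hw : wt g Lam A % N < W) (i : ι) :
    0 ≤ vx e N Q W Lam g i + Ex e N Lam g A i ∧
      ((vx e N Q W Lam g i + Ex e N Lam g A i : ℤ) : ℝ) ≤
        1 + 2 * Lam / Q + |(e i : ℝ)| * (W / N) := by
  have hN' : (0 : ℝ) < N := by exact_mod_cast hN
  have hQ' : (0 : ℝ) < Q := by exact_mod_cast hQ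
  set wm : ℝ := ((wt g Lam A % N : ℕ) : ℝ) with hwm
  have hwm0 : 0 ≤ wm := Nat.cast_nonneg _
  have hwmW : wm ≤ W := by
    rw [hwm]
    exact_mod_cast hw.le
  set f0 : ℝ := (((g none : ℤ) * e i % N : ℤ) : ℝ) with hf0
  set F : ℝ := ∑ x, (ax Lam A x : ℝ) * (((g x : ℤ) * e i % N : ℤ) : ℝ) with hF
  have hE : (N : ℝ) * (Ex e N Lam g A i : ℝ) = (e i : ℝ) * wm - F := by
    have h := congrArg (fun z : ℤ => (z : ℝ)) (N_mul_Ex e N Lam g A i)
    push_cast at h
    rw [hF, hwm]
    push_cast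
    exact h
  have hFd : |F - Lam * f0| ≤ Lam * (N / Q) := by
    have e1 : F - Lam * f0 = ∑ x, (ax Lam A x : ℝ) * ((((g x : ℤ) * e i % N : ℤ) : ℝ) - f0) := by
      have : (Lam : ℝ) = ∑ x, (ax Lam A x : ℝ) := by
        have := congrArg (fun z : ℕ => (z : ℝ)) (sum_ax Lam A hA)
        push_cast at this
        exact this.symm
      rw [hF, this, Finset.sum_mul, ← Finset.sum_sub_distrib]
      exact Finset.sum_congr rfl fun x _ => by ring
    have hL : (Lam : ℝ) * (N / Q) = ∑ x, (ax Lam A x : ℝ) * (N / Q) := by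
      have := congrArg (fun z : ℕ => (z : ℝ)) (sum_ax Lam A hA)
      push_cast at this
      rw [← Finset.sum_mul, this]
    rw [e1, hL]
    refine (Finset.abs_sum_le_sum_abs _ _).trans (Finset.sum_le_sum fun x _ => ?_)
    rw [abs_mul, abs_of_nonneg (Nat.cast_nonneg _)]
    refine mul_le_mul_of_nonneg_left ?_ (Nat.cast_nonneg _)
    rw [le_div_iff₀ hQ']
    have h := hbox x i
    have h' : ((|((g x : ℤ) * e i) % N - ((g none : ℤ) * e i) % N| * Q : ℤ) : ℝ) < ((N : ℤ) : ℝ) := by
      exact_mod_cast h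
    push_cast at h'
    rw [hf0]
    push_cast
    exact h'.le
  have hmax1 : -(e i : ℝ) ≤ max (-(e i : ℝ)) 0 := le_max_left _ _
  have hmax0 : 0 ≤ max (-(e i : ℝ)) 0 := le_max_right _ _
  have habs : (e i : ℝ) + max (-(e i : ℝ)) 0 ≤ |(e i : ℝ)| := by
    rcases le_total 0 (e i : ℝ) with h | h
    · rw [max_eq_right (by linarith), abs_of_nonneg h, add_zero]
    · rw [max_eq_left (by linarith), abs_of_nonpos h]
      linarith
  have habs0 : max (-(e i : ℝ)) 0 ≤ |(e i : ℝ)| := max_le (neg_le_abs _) (abs_nonneg _)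
  set mx : ℝ := max (-(e i : ℝ)) 0 with hmx
  have hEd : (Ex e N Lam g A i : ℝ) = ((e i : ℝ) * wm - F) / N := by
    rw [eq_div_iff hN'.ne']
    linarith
  set vr : ℝ := (Lam : ℝ) * f0 / N + Lam / Q + mx * W / N with hvr
  have hv1 : vr ≤ (vx e N Q W Lam g i : ℝ) := Int.le_ceil _
  have hv2 : (vx e N Q W Lam g i : ℝ) < vr + 1 := Int.ceil_lt_add_one _
  have hFlo : Lam * f0 - Lam * (N / Q) ≤ F := by linarith [(abs_le.mp hFd).1]
  have hFhi : F ≤ Lam * f0 + Lam * (N / Q) := by linarith [(abs_le.mp hFd).2]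
  have hNQ : (Lam : ℝ) * (N / Q) = N * (Lam / Q) := by ring
  constructor
  · have h1 : 0 ≤ vr + (Ex e N Lam g A i : ℝ) := by
      have e1 : vr + (Ex e N Lam g A i : ℝ) =
          ((Lam * f0 + N * (Lam / Q) - F) + (mx * W + e i * wm)) / N := by
        rw [hEd, hvr]
        field_simp
        ring
      rw [e1]
      apply div_nonneg _ hN'.le
      have h2 : 0 ≤ mx * W + e i * wm := by
        have h3 : mx * wm ≤ mx * W := mul_le_mul_of_nonneg_left hwmW hmax0
        have h4 : -(e i : ℝ) * wm ≤ mx * wm := mul_le_mul_of_nonneg_right hmax1 hwm0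
        linarith
      linarith
    have h2 : (0 : ℝ) ≤ ((vx e N Q W Lam g i + Ex e N Lam g A i : ℤ) : ℝ) := by
      push_cast
      linarith
    exact_mod_cast h2
  · push_cast
    have e1 : vr + (Ex e N Lam g A i : ℝ) =
        ((Lam * f0 + N * (Lam / Q) - F) + (mx * W + e i * wm)) / N := by
      rw [hEd, hvr]
      field_simp
      ring
    have h2 : mx * W + e i * wm ≤ |(e i : ℝ)| * W := by
      rcases le_total 0 (e i : ℝ) with h | h
      · have hm : mx = 0 := max_eq_right (by linarith)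
        rw [hm, abs_of_nonneg h, zero_mul, zero_add]
        exact mul_le_mul_of_nonneg_left hwmW h
      · have h3 : (e i : ℝ) * wm ≤ 0 := mul_nonpos_of_nonpos_of_nonneg h hwm0
        have h4 : mx * W ≤ |(e i : ℝ)| * W := mul_le_mul_of_nonneg_right habs0 (Nat.cast_nonneg _)
        linarith
    have h3 : vr + (Ex e N Lam g A i : ℝ) ≤ 2 * Lam / Q + |(e i : ℝ)| * (W / N) := by
      rw [e1, div_le_iff₀ hN']
      have e2 : (2 * Lam / Q + |(e i : ℝ)| * (W / N)) * N =
          2 * (N * (Lam / Q)) + |(e i : ℝ)| * W := by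
        field_simp
      rw [e2]
      linarith
    linarith

end Num

open Pool.Agent.Lib.AbcZ.Num

theorem numbers {ι : Type*} [Fintype ι] {K : Type*} [Fintype K] [DecidableEq K] (l : ι → ℕ)
    (hl : ∀ i, 0 < l i) (p : ℕ) (hp : p.Prime) (hcop : ∀ i, (l i).Coprime p) (e : ι → ℤ)
    (N Q H W Lam : ℕ) (hN : 0 < N) (hQ : 0 < Q) (hWN : W ≤ N) (s : ℤ) (hs : s = 1 ∨ s = -1)
    (hdvd : ((p ^ N : ℕ) : ℤ) ∣ (posP l e : ℤ) - s * negP l e) (g b : Option K → ℕ)
    (hb : ∀ x, 1 ≤ b x ∧ b x ≤ H) (hHp : H < p)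
    (hbox : ∀ x i, |((g x : ℤ) * e i) % N - ((g none : ℤ) * e i) % N| * Q < N)
    (hcong : ∀ x, (p : ℤ) ∣
      (b x : ℤ) * posP l (fun i => ((g x : ℤ) * e i) / N - ((g none : ℤ) * e i) / N) -
        b none * negP l (fun i => ((g x : ℤ) * e i) / N - ((g none : ℤ) * e i) / N)) :
    ∃ a : (K → ℕ) → ℤ, (∀ A, a A ≠ 0) ∧
      (∀ A, tdeg A ≤ Lam → wt g Lam A % N < W → Real.log |(a A : ℝ)| ≤ Lam * Real.log H +
        (W : ℝ) / N * (Real.log (posP l e) + Real.log (negP l e)) +
        (2 * Lam / Q + 1) * ∑ i, Real.log (l i)) ∧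
      (∃ (y : Option K → ZMod (p ^ N)) (V : ZMod (p ^ N)) (t : K → ZMod (p ^ N)),
        IsUnit (y none) ∧ (∀ x, y (some x) = y none * (1 + p * t x)) ∧
        ∀ A, tdeg A ≤ Lam → wt g Lam A % N < W →
          (a A : ZMod (p ^ N)) = V * (y none ^ (Lam - tdeg A) * ∏ x, y (some x) ^ A x)) ∧
      ∀ k1 : K, g none ≤ g (some k1) → ∀ A, tdeg A + 1 ≤ Lam →
        wt g Lam A % N + (g (some k1) - g none) < W →
        (a (A + uv (some k1)) : ℚ) =
          omq l e N (g (some k1)) (g none) (b (some k1)) (b none) * a A := by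
  have hs0 : s ≠ 0 := by rcases hs with h | h <;> rw [h] <;> decide
  have hs2 : s * s = 1 := by rcases hs with h | h <;> rw [h] <;> norm_num
  set v := vx e N Q W Lam g with hv
  set E := Ex e N Lam g with hE
  have hbd := fun A hA hw i => bounds e N Q W Lam g hN hQ hbox A hA hw i
  refine ⟨fun A => s ^ (wt g Lam A / N) * (∏ x, (b x : ℤ) ^ ax Lam A x) *
    ∏ i, (l i : ℤ) ^ (v i + E A i).toNat, ?_, ?_, ?_, ?_⟩
  · intro A
    refine mul_ne_zero (mul_ne_zero (pow_ne_zero _ hs0) ?_) ?_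
    · exact Finset.prod_ne_zero_iff.mpr fun x _ => pow_ne_zero _ (by have := (hb x).1; omega)
    · exact Finset.prod_ne_zero_iff.mpr fun i _ => pow_ne_zero _ (by have := hl i; omega)
  · intro A hA hw
    have hbR : ∀ x, (1 : ℝ) ≤ b x := fun x => by exact_mod_cast (hb x).1
    have hlR : ∀ i, (1 : ℝ) ≤ l i := fun i => by exact_mod_cast hl i
    have hsabs : |(s : ℝ)| = 1 := by rcases hs with h | h <;> rw [h] <;> norm_num
    have e1 : |((s ^ (wt g Lam A / N) * (∏ x, (b x : ℤ) ^ ax Lam A x) *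
        ∏ i, (l i : ℤ) ^ (v i + E A i).toNat : ℤ) : ℝ)| =
        (∏ x, (b x : ℝ) ^ ax Lam A x) * ∏ i, (l i : ℝ) ^ (v i + E A i).toNat := by
      push_cast
      rw [abs_mul, abs_mul, abs_pow, hsabs, one_pow, one_mul, abs_of_nonneg, abs_of_nonneg]
      · exact Finset.prod_nonneg fun i _ => by positivity
      · exact Finset.prod_nonneg fun i _ => by positivity
    rw [e1, Real.log_mul]
    rotate_left
    · exact Finset.prod_ne_zero_iff.mpr fun x _ => pow_ne_zero _ (by have := hbR x; linarith)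
    · exact Finset.prod_ne_zero_iff.mpr fun i _ => pow_ne_zero _ (by have := hlR i; linarith)
    rw [Real.log_prod (fun x _ => pow_ne_zero _ (by have := hbR x; linarith)),
      Real.log_prod (fun i _ => pow_ne_zero _ (by have := hlR i; linarith))]
    simp only [Real.log_pow]
    have h1 : ∑ x, (ax Lam A x : ℝ) * Real.log (b x) ≤ Lam * Real.log H := by
      have hL : (Lam : ℝ) * Real.log H = ∑ x, (ax Lam A x : ℝ) * Real.log H := by
        have := congrArg (fun z : ℕ => (z : ℝ)) (sum_ax Lam A hA)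
        push_cast at this
        rw [← Finset.sum_mul, this]
      rw [hL]
      refine Finset.sum_le_sum fun x _ => mul_le_mul_of_nonneg_left ?_ (Nat.cast_nonneg _)
      exact Real.log_le_log (by have := hbR x; linarith) (by exact_mod_cast (hb x).2)
    have h2 : ∑ i, (((v i + E A i).toNat : ℕ) : ℝ) * Real.log (l i) ≤
        (W : ℝ) / N * (Real.log (posP l e) + Real.log (negP l e)) +
        (2 * Lam / Q + 1) * ∑ i, Real.log (l i) := by
      rw [log_posP_add hl e, Finset.mul_sum, Finset.mul_sum, ← Finset.sum_add_distrib]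
      refine Finset.sum_le_sum fun i _ => ?_
      obtain ⟨hb1, hb2⟩ := hbd A hA hw i
      have e2 : (((v i + E A i).toNat : ℕ) : ℝ) = ((v i + E A i : ℤ) : ℝ) := by
        exact_mod_cast Int.toNat_of_nonneg hb1
      rw [e2]
      have hlog : 0 ≤ Real.log (l i) := Real.log_nonneg (hlR i)
      calc ((v i + E A i : ℤ) : ℝ) * Real.log (l i)
          ≤ (1 + 2 * Lam / Q + |(e i : ℝ)| * (W / N)) * Real.log (l i) :=
            mul_le_mul_of_nonneg_right hb2 hlog
        _ = _ := by ring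
    linarith
  · -- the congruence
    have hcopN : ∀ i, (l i).Coprime (p ^ N) := fun i => (hcop i).pow_right N
    have hbcop : ∀ x, (b x).Coprime (p ^ N) := by
      intro x
      apply Nat.Coprime.pow_right
      rw [Nat.coprime_comm, hp.coprime_iff_not_dvd]
      intro hd
      have := Nat.le_of_dvd (by have := (hb x).1; omega) hd
      have := (hb x).2
      omega
    let U : ι → (ZMod (p ^ N))ˣ := fun i => ZMod.unitOfCoprime (l i) (hcopN i)
    let B : Option K → (ZMod (p ^ N))ˣ := fun x => ZMod.unitOfCoprime (b x) (hbcop x)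
    have hU : ∀ i, ((U i : (ZMod (p ^ N))ˣ) : ZMod (p ^ N)) = (l i : ZMod (p ^ N)) :=
      fun i => ZMod.coe_unitOfCoprime _ _
    have hB : ∀ x, ((B x : (ZMod (p ^ N))ˣ) : ZMod (p ^ N)) = (b x : ZMod (p ^ N)) :=
      fun x => ZMod.coe_unitOfCoprime _ _
    have hposU : ∀ f : ι → ℤ, (((∏ i, U i ^ (f i).toNat : (ZMod (p ^ N))ˣ)) : ZMod (p ^ N)) =
        (posP l f : ZMod (p ^ N)) := by
      intro f
      unfold posP
      push_cast
      exact Finset.prod_congr rfl fun i _ => by rw [hU]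
    have hnegU : ∀ f : ι → ℤ, (((∏ i, U i ^ (-f i).toNat : (ZMod (p ^ N))ˣ)) : ZMod (p ^ N)) =
        (negP l f : ZMod (p ^ N)) := by
      intro f
      unfold negP
      push_cast
      exact Finset.prod_congr rfl fun i _ => by rw [hU]
    have hsU : ((mon U e : (ZMod (p ^ N))ˣ) : ZMod (p ^ N)) = (s : ZMod (p ^ N)) := by
      have h1 := congrArg (fun u : (ZMod (p ^ N))ˣ => (u : ZMod (p ^ N))) (mon_split U e)
      simp only [Units.val_mul] at h1
      rw [hnegU e, hposU e] at h1
      have h2 : (posP l e : ZMod (p ^ N)) = (s : ZMod (p ^ N)) * (negP l e : ZMod (p ^ N)) := by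
        have h3 := (ZMod.intCast_zmod_eq_zero_iff_dvd ((posP l e : ℤ) - s * negP l e) (p ^ N)).mpr
          hdvd
        push_cast at h3
        exact sub_eq_zero.mp h3
      rw [h2] at h1
      have h4 : IsUnit (negP l e : ZMod (p ^ N)) := by
        rw [← hnegU]
        exact Units.isUnit _
      exact h4.mul_right_cancel h1
    let Y : Option K → (ZMod (p ^ N))ˣ := fun x => B x * mon U (fun i => (g x : ℤ) * e i / N)
    have hex : ∀ x : K, ∃ c : ℤ, (b (some x) : ℤ) *
        posP l (fun i => ((g (some x) : ℤ) * e i) / N - ((g none : ℤ) * e i) / N) -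
        b none * negP l (fun i => ((g (some x) : ℤ) * e i) / N - ((g none : ℤ) * e i) / N) =
          p * c := fun x => hcong (some x)
    choose c hc using hex
    refine ⟨fun x => (Y x : ZMod (p ^ N)), ((mon U v : (ZMod (p ^ N))ˣ) : ZMod (p ^ N)),
      fun x => (c x : ZMod (p ^ N)) * (((∏ i, U i ^ (-(((g (some x) : ℤ) * e i) / N -
        ((g none : ℤ) * e i) / N)).toNat)⁻¹ * (B none)⁻¹ : (ZMod (p ^ N))ˣ) : ZMod (p ^ N)),
      Units.isUnit _, ?_, ?_⟩
    · intro x
      set D : ι → ℤ := fun i => ((g (some x) : ℤ) * e i) / N - ((g none : ℤ) * e i) / N with hD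
      set P : (ZMod (p ^ N))ˣ := ∏ i, U i ^ (D i).toNat with hP
      set Ng : (ZMod (p ^ N))ˣ := ∏ i, U i ^ (-D i).toNat with hNg
      have h1 : mon U D * Ng = P := mon_split U D
      have h2 : mon U (fun i => (g (some x) : ℤ) * e i / N) =
          mon U (fun i => (g none : ℤ) * e i / N) * mon U D := by
        rw [← mon_add]
        congr 1
        funext i
        rw [hD]
        ring
      have h3 : mon U D = P * Ng⁻¹ := by rw [← h1, mul_inv_cancel_right]
      have h4 : ((B (some x) * P : (ZMod (p ^ N))ˣ) : ZMod (p ^ N)) =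
          ((B none * Ng : (ZMod (p ^ N))ˣ) : ZMod (p ^ N)) + (p : ZMod (p ^ N)) * (c x) := by
        rw [Units.val_mul, Units.val_mul, hB, hB, hP, hNg, hposU, hnegU]
        have := congrArg (fun z : ℤ => (z : ZMod (p ^ N))) (hc x)
        push_cast at this
        rw [← this]
        ring
      have h5 : Y (some x) = B (some x) * P * (mon U (fun i => (g none : ℤ) * e i / N) * Ng⁻¹) := by
        change B (some x) * mon U (fun i => (g (some x) : ℤ) * e i / N) = _
        rw [h2, h3]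
        simp only [mul_assoc, mul_comm, mul_left_comm]
      have h6 : (Y (some x) : ZMod (p ^ N)) = (((B none * Ng : (ZMod (p ^ N))ˣ) : ZMod (p ^ N)) +
          (p : ZMod (p ^ N)) * (c x)) * ((mon U (fun i => (g none : ℤ) * e i / N) * Ng⁻¹ :
            (ZMod (p ^ N))ˣ) : ZMod (p ^ N)) := by
        rw [h5, Units.val_mul, h4]
      have h7 : (Y none : ZMod (p ^ N)) = ((B none * Ng * (mon U (fun i => (g none : ℤ) * e i / N) *
          Ng⁻¹) : (ZMod (p ^ N))ˣ) : ZMod (p ^ N)) := by
        congr 1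
        change B none * mon U (fun i => (g none : ℤ) * e i / N) = _
        rw [mul_mul_mul_comm, mul_inv_cancel, mul_one]
      have h8 : (mon U (fun i => (g none : ℤ) * e i / N) * Ng⁻¹) = Y none * (Ng⁻¹ * (B none)⁻¹) := by
        change _ = B none * mon U (fun i => (g none : ℤ) * e i / N) * (Ng⁻¹ * (B none)⁻¹)
        rw [mul_comm (B none), mul_assoc, mul_comm Ng⁻¹ (B none)⁻¹, mul_inv_cancel_left]
      change (Y (some x) : ZMod (p ^ N)) = (Y none : ZMod (p ^ N)) * (1 + (p : ZMod (p ^ N)) *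
        ((c x : ZMod (p ^ N)) * ((Ng⁻¹ * (B none)⁻¹ : (ZMod (p ^ N))ˣ) : ZMod (p ^ N))))
      have h7' : (Y none : ZMod (p ^ N)) = ((B none * Ng : (ZMod (p ^ N))ˣ) : ZMod (p ^ N)) *
          ((mon U (fun i => (g none : ℤ) * e i / N) * Ng⁻¹ : (ZMod (p ^ N))ˣ) : ZMod (p ^ N)) := by
        rw [h7, ← Units.val_mul]
      have h8' : ((mon U (fun i => (g none : ℤ) * e i / N) * Ng⁻¹ : (ZMod (p ^ N))ˣ) :
          ZMod (p ^ N)) = (Y none : ZMod (p ^ N)) *
          ((Ng⁻¹ * (B none)⁻¹ : (ZMod (p ^ N))ˣ) : ZMod (p ^ N)) := by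
        rw [h8, Units.val_mul]
      linear_combination h6 - h7' + (p : ZMod (p ^ N)) * (c x : ZMod (p ^ N)) * h8'
    · intro A hA hw
      have hnn : ∀ i, 0 ≤ v i + E A i := fun i => (hbd A hA hw i).1
      have e1 : ∀ x : Option K, (ax Lam A x) = x.elim (Lam - tdeg A) A := fun _ => rfl
      have e2 : ((s ^ (wt g Lam A / N) * (∏ x, (b x : ℤ) ^ ax Lam A x) *
          ∏ i, (l i : ℤ) ^ (v i + E A i).toNat : ℤ) : ZMod (p ^ N)) =
          ((mon U e ^ (wt g Lam A / N) * (∏ x, B x ^ ax Lam A x) *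
            mon U (fun i => v i + E A i) : (ZMod (p ^ N))ˣ) : ZMod (p ^ N)) := by
        rw [mon_nat U _ hnn]
        push_cast
        rw [hsU]
        simp only [hB, hU]
      have e3 : mon U e ^ (wt g Lam A / N) * (∏ x, B x ^ ax Lam A x) *
            mon U (fun i => v i + E A i) = mon U v * ∏ x, Y x ^ ax Lam A x := by
        have h1 : mon U (fun i => v i + E A i) = mon U v * ((∏ x, mon U (fun i => (g x : ℤ) * e i / N)
            ^ ax Lam A x) * (mon U e ^ (wt g Lam A / N))⁻¹) := by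
          rw [mon_add U v (E A), ← mon_smul, ← mon_sum, ← mon_sub]
          rfl
        rw [h1]
        have h2 : ∏ x, Y x ^ ax Lam A x = (∏ x, B x ^ ax Lam A x) *
            ∏ x, mon U (fun i => (g x : ℤ) * e i / N) ^ ax Lam A x := by
          rw [← Finset.prod_mul_distrib]
          exact Finset.prod_congr rfl fun x _ => mul_pow _ _ _
        rw [h2]
        set a1 := mon U e ^ (wt g Lam A / N)
        set a2 := ∏ x, B x ^ ax Lam A x
        set a3 := ∏ x, mon U (fun i => (g x : ℤ) * e i / N) ^ ax Lam A x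
        rw [show a1 * a2 * (mon U v * (a3 * a1⁻¹)) = (a1 * a1⁻¹) * (mon U v * (a2 * a3)) by
          simp only [mul_assoc, mul_comm, mul_left_comm]]
        rw [mul_inv_cancel, one_mul]
      rw [e2, e3, Units.val_mul]
      congr 1
      rw [Fintype.prod_option]
      push_cast
      rfl
  · -- the shift
    intro k1 hg A hA hw
    have hlt : wt g Lam A % N < W := by omega
    have hA' : tdeg A ≤ Lam := by omega
    have hA1 : tdeg (A + uv (some k1)) ≤ Lam := by rw [tdeg_add_uv]; exact hA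
    obtain ⟨Lm, hLm⟩ : ∃ Lm, Lam = Lm + 1 := ⟨Lam - 1, by omega⟩
    have hwt : wt g Lam (A + uv (some k1)) = wt g Lam A + (g (some k1) - g none) := by
      rw [hLm]
      exact wt_add_uv g Lm A k1 (by omega) hg
    have hmod : wt g Lam (A + uv (some k1)) % N = wt g Lam A % N + (g (some k1) - g none) ∧
        wt g Lam (A + uv (some k1)) / N = wt g Lam A / N := by
      rw [hwt]
      have h1 := Nat.div_add_mod (wt g Lam A) N
      have h2 : wt g Lam A + (g (some k1) - g none) =
          (wt g Lam A % N + (g (some k1) - g none)) + N * (wt g Lam A / N) := by omega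
      constructor
      · rw [h2, Nat.add_mul_mod_self_left, Nat.mod_eq_of_lt (by omega)]
      · rw [h2, Nat.add_mul_div_left _ _ hN, Nat.div_eq_of_lt (by omega), zero_add]
    have hEx : ∀ i, E (A + uv (some k1)) i = E A i +
        ((g (some k1) : ℤ) * e i / N - (g none : ℤ) * e i / N) := by
      intro i
      rw [hE]
      unfold Ex
      rw [hmod.2, Fintype.sum_option, Fintype.sum_option]
      unfold ax
      simp only [Option.elim]
      rw [tdeg_add_uv]
      have h1 : ∑ x, (((A + uv (some k1) : K → ℕ) x : ℕ) : ℤ) * ((g (some x) : ℤ) * e i / N) =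
          ∑ x, ((A x : ℕ) : ℤ) * ((g (some x) : ℤ) * e i / N) + (g (some k1) : ℤ) * e i / N := by
        unfold uv
        simp only [Pi.add_apply, Option.some.injEq]
        push_cast
        simp only [add_mul, Finset.sum_add_distrib]
        congr 1
        simp
      rw [h1]
      have h2 : ((Lam - tdeg A : ℕ) : ℤ) = ((Lam - (tdeg A + 1) : ℕ) : ℤ) + 1 := by omega
      rw [h2]
      ring
    have hn1 : ∀ i, 0 ≤ v i + E A i := fun i => (hbd A hA' hlt i).1
    have hn2 : ∀ i, 0 ≤ v i + E (A + uv (some k1)) i := fun i =>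
      (hbd _ hA1 (by rw [hmod.1]; exact hw) i).1
    have hlQ : ∀ i, (l i : ℚ) ≠ 0 := fun i => by exact_mod_cast (hl i).ne'
    have hbQ : ∀ x, (b x : ℚ) ≠ 0 := fun x => by have := (hb x).1; positivity
    have hl1 : ∏ i, (l i : ℚ) ^ (v i + E (A + uv (some k1)) i).toNat =
        (∏ i, (l i : ℚ) ^ (v i + E A i).toNat) *
          ∏ i, (l i : ℚ) ^ (((g (some k1) : ℤ) * e i) / N - ((g none : ℤ) * e i) / N) := by
      rw [← Finset.prod_mul_distrib]
      refine Finset.prod_congr rfl fun i _ => ?_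
      rw [← zpow_natCast, ← zpow_natCast, Int.toNat_of_nonneg (hn1 i), Int.toNat_of_nonneg (hn2 i),
        ← zpow_add₀ (hlQ i), hEx i]
      congr 1
      ring
    have hb1 : ∏ x, (b x : ℚ) ^ ax Lam (A + uv (some k1)) x =
        (b (some k1) : ℚ) / b none * ∏ x, (b x : ℚ) ^ ax Lam A x := by
      rw [Fintype.prod_option, Fintype.prod_option]
      unfold ax
      simp only [Option.elim]
      rw [tdeg_add_uv]
      have h1 : ∏ x, (b (some x) : ℚ) ^ ((A + uv (some k1) : K → ℕ) x) =
          (∏ x, (b (some x) : ℚ) ^ (A x)) * b (some k1) := by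
        unfold uv
        simp only [Pi.add_apply, Option.some.injEq, pow_add, Finset.prod_mul_distrib]
        congr 1
        simp
      rw [h1]
      have h2 : Lam - tdeg A = (Lam - (tdeg A + 1)) + 1 := by omega
      rw [h2, pow_succ]
      field_simp [hbQ none]
    push_cast
    rw [hmod.2, hb1, hl1]
    unfold omq
    ring

end Pool.Agent.Lib.AbcZ
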