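import Mathlib
import Pool.Agent.Lib.AbcE.Pigeon

/-!
# The quotient of two members of a class
-/

set_option autoImplicit false

namespace Pool.Agent.Lib.AbcZ

open Finset Pool.Agent.AbcE

/-- the quotient `y (some k1) / y none` -/
noncomputable def omq {ι : Type*} [Fintype ι] (l : ι → ℕ) (e : ι → ℤ) (N g1 g0 b1 b0 : ℕ) : ℚ :=
  (b1 : ℚ) / b0 * ∏ i, (l i : ℚ) ^ (((g1 : ℤ) * e i) / N - ((g0 : ℤ) * e i) / N)

/-- the zpow product in terms of the positive and the negative part -/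
theorem prod_zpow_mul_negP {ι : Type*} [Fintype ι] (l : ι → ℕ) (hl : ∀ i, 0 < l i) (f : ι → ℤ) :
    (∏ i, (l i : ℚ) ^ f i) * negP l f = posP l f := by
  unfold negP posP
  push_cast
  rw [← prod_mul_distrib]
  refine prod_congr rfl fun i _ => ?_
  have h0 : (l i : ℚ) ≠ 0 := by
    have := hl i
    positivity
  rw [← zpow_natCast, ← zpow_natCast, ← zpow_add₀ h0]
  congr 1
  omega

theorem omq_mul {ι : Type*} [Fintype ι] (l : ι → ℕ) (hl : ∀ i, 0 < l i) (e : ι → ℤ)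
    (N g1 g0 b1 b0 : ℕ) (hb0 : 1 ≤ b0) :
    omq l e N g1 g0 b1 b0 *
      ((b0 : ℚ) * negP l (fun i => ((g1 : ℤ) * e i) / N - ((g0 : ℤ) * e i) / N)) =
      (b1 : ℚ) * posP l (fun i => ((g1 : ℤ) * e i) / N - ((g0 : ℤ) * e i) / N) := by
  have h1 := prod_zpow_mul_negP l hl (fun i => ((g1 : ℤ) * e i) / N - ((g0 : ℤ) * e i) / N)
  have hb : (b0 : ℚ) ≠ 0 := by positivity
  unfold omq
  rw [← h1]
  field_simp

end Pool.Agent.Lib.AbcZ
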