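import Mathlib
import Pool.Agent.Lib.AbcQ.ThmPexp
import Pool.Agent.Lib.AbcZ.Omq

/-!
# Two members of a class with far multipliers are different

`ω ≠ 1`: two members `γ0`, `γ1 ≥ γ0 + 3` of one class have different numbers
`b γ * ∏ p i ^ (γ * e i / N)`, by comparison of heights.
-/

set_option autoImplicit false

namespace Pool.Agent.Lib.AbcZ

open Finset Pool.Agent.AbcE Pool.Agent.Lib.AbcQ

variable {ι : Type*} [Fintype ι]

/-- **ω ≠ 1** -/
theorem omega_ne (p : ι → ℕ) (hp : ∀ i, (p i).Prime) (hinj : Function.Injective p)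
    (e : ι → ℤ) (q N : ℕ) (hq : q.Prime) (s : ℤ) (hs : s = 1 ∨ s = -1)
    (hne : (posP p e : ℤ) ≠ s * negP p e)
    (hdvd : ((q ^ N : ℕ) : ℤ) ∣ (posP p e : ℤ) - s * negP p e)
    (γ0 γ1 Q : ℕ) (hQ : 0 < Q) (hγ : γ0 + 3 ≤ γ1)
    (hbox : ∀ i, |((γ1 : ℤ) * e i) % N - ((γ0 : ℤ) * e i) % N| * Q < N)
    (b0 b1 H : ℕ) (hb0 : 1 ≤ b0) (hb1 : 1 ≤ b1) (hb0H : b0 ≤ H) (hb1H : b1 ≤ H)
    (hH : Real.log H ≤ Real.log q)
    (hLQ : ∑ i, Real.log (p i) ≤ Q * (1 / 8 * Real.log q)) (hN : 5 ≤ N) :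
    b1 * posP p (fun i => (γ1 : ℤ) * e i / N - (γ0 : ℤ) * e i / N) ≠
      b0 * negP p (fun i => (γ1 : ℤ) * e i / N - (γ0 : ℤ) * e i / N) := by
  set f : ι → ℤ := fun i => (γ1 : ℤ) * e i / N - (γ0 : ℤ) * e i / N with hfdef
  have hpos : ∀ i, 0 < p i := fun i => (hp i).pos
  set lam : ℝ := Real.log q with hlamdef
  have hlam0 : 0 < lam := Real.log_pos (by exact_mod_cast hq.one_lt)
  have hN0 : 0 < N := by omega
  obtain ⟨γ, hγdef⟩ : ∃ γ : ℕ, γ1 = γ0 + γ := ⟨γ1 - γ0, by omega⟩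
  have hγ4 : 3 ≤ γ := by omega
  have hγR : (0 : ℝ) < γ := by
    have : 0 < γ := by omega
    exact_mod_cast this
  have hNR : (0 : ℝ) < N := by exact_mod_cast hN0
  have hQR : (0 : ℝ) < Q := by exact_mod_cast hQ
  have hf : ∀ i, |(γ : ℤ) * e i - N * f i| * Q < N := by
    intro i
    have e1 := Int.emod_add_mul_ediv ((γ1 : ℤ) * e i) N
    have e2 := Int.emod_add_mul_ediv ((γ0 : ℤ) * e i) N
    have e3 : (γ : ℤ) * e i - N * f i = ((γ1 : ℤ) * e i) % N - ((γ0 : ℤ) * e i) % N := by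
      have e4 : (γ1 : ℤ) = γ0 + γ := by exact_mod_cast hγdef
      have e5 : f i = (γ1 : ℤ) * e i / N - (γ0 : ℤ) * e i / N := rfl
      rw [e5]
      linear_combination e2 - e1 - e i * e4
    rw [e3]
    exact hbox i
  set L : ℝ := ∑ i, Real.log (p i) with hL
  have hL0 : 0 ≤ L := Finset.sum_nonneg fun i _ => Real.log_natCast_nonneg _
  set La : ℝ := 1 / 8 * lam with hLa
  have hLa0 : 0 ≤ La := by positivity
  have hkey1 : ∀ i, (γ : ℝ) * e i ≤ N * f i + N / Q := by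
    intro i
    have h1 : |(γ : ℝ) * e i - N * f i| * Q < N := by exact_mod_cast hf i
    have h2 : |(γ : ℝ) * e i - N * f i| < N / Q := by rwa [lt_div_iff₀ hQR]
    have h3 := (abs_lt.1 h2).2
    linarith
  have hkey2 : ∀ i, (N : ℝ) * f i ≤ γ * e i + N / Q := by
    intro i
    have h1 : |(γ : ℝ) * e i - N * f i| * Q < N := by exact_mod_cast hf i
    have h2 : |(γ : ℝ) * e i - N * f i| < N / Q := by rwa [lt_div_iff₀ hQR]
    have h3 := (abs_lt.1 h2).1
    linarith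
  have hNQ0 : (0 : ℝ) ≤ N / Q := by positivity
  have hNQL : (N : ℝ) / Q * L ≤ N * La := by
    rw [div_mul_eq_mul_div, div_le_iff₀ hQR]
    have : (N : ℝ) * L ≤ N * (Q * La) := mul_le_mul_of_nonneg_left hLQ hNR.le
    linarith
  have hlow1 : (γ : ℝ) * Real.log (posP p e) ≤ N * Real.log (posP p f) + N * La := by
    rw [log_posP p hpos f, log_posP p hpos e]
    have h1 := sum_cmp p hpos (fun i => (e i).toNat) (fun i => (f i).toNat) γ N (N / Q)
      (fun i => toNat_cmp _ _ _ _ _ hγR.le hNR.le hNQ0 (hkey1 i))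
    linarith
  have hlow2 : (γ : ℝ) * Real.log (negP p e) ≤ N * Real.log (negP p f) + N * La := by
    rw [log_negP p hpos f, log_negP p hpos e]
    have h1 := sum_cmp p hpos (fun i => (-e i).toNat) (fun i => (-f i).toNat) γ N (N / Q)
      (fun i => toNat_cmp _ _ _ _ _ hγR.le hNR.le hNQ0 (by
        push_cast
        have := hkey2 i
        linarith))
    linarith
  -- the modulus
  set M : ℕ := q ^ N with hM
  have hMpos : 0 < M := pow_pos hq.pos _
  have hMR : (0 : ℝ) < M := by exact_mod_cast hMpos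
  have hlogM : Real.log M = N * lam := by
    rw [hM]
    push_cast
    rw [Real.log_pow]
  have hq1 : (0.69 : ℝ) ≤ lam := by
    have h1 : Real.log 2 ≤ Real.log (q : ℝ) :=
      Real.log_le_log (by norm_num) (by exact_mod_cast hq.two_le)
    have := Real.log_two_gt_d9
    linarith
  have hzlow : (N : ℝ) * lam - 0.7 ≤ Real.log (posP p e) + Real.log (negP p e) := by
    have hpp : 0 < posP p e := posP_pos hpos e
    have hnp : 0 < negP p e := negP_pos hpos e
    have h1 : (posP p e : ℤ) - s * negP p e ≠ 0 := sub_ne_zero.2 hne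
    have h2 : M ≤ ((posP p e : ℤ) - s * negP p e).natAbs := by
      refine Nat.le_of_dvd (Int.natAbs_pos.2 h1) ?_
      have h20 := Int.natAbs_dvd_natAbs.2 hdvd
      rw [Int.natAbs_natCast] at h20
      exact h20
    have h3 : ((posP p e : ℤ) - s * negP p e).natAbs ≤ posP p e + negP p e := by
      rcases hs with h | h <;> rw [h] <;> omega
    have h4 : posP p e + negP p e ≤ 2 * (posP p e * negP p e) := by
      nlinarith only [hpp, hnp]
    have h5 : M ≤ 2 * (posP p e * negP p e) := h2.trans (h3.trans h4)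
    have h6 : (M : ℝ) ≤ 2 * (posP p e * negP p e) := by exact_mod_cast h5
    have h7 := Real.log_le_log hMR h6
    have hppR : (0 : ℝ) < posP p e := by exact_mod_cast hpp
    have hnpR : (0 : ℝ) < negP p e := by exact_mod_cast hnp
    rw [Real.log_mul (by norm_num) (by positivity), Real.log_mul hppR.ne' hnpR.ne', hlogM] at h7
    have := Real.log_two_lt_d9
    linarith
  set Bp := posP p f with hBpdef
  set Bn := negP p f with hBndef
  have hBppos : 0 < Bp := posP_pos hpos f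
  have hBnpos : 0 < Bn := negP_pos hpos f
  have hlogb1 : Real.log b1 ≤ lam :=
    (Real.log_le_log (by exact_mod_cast hb1) (by exact_mod_cast hb1H)).trans hH
  have hlogb0 : Real.log b0 ≤ lam :=
    (Real.log_le_log (by exact_mod_cast hb0) (by exact_mod_cast hb0H)).trans hH
  intro heq
  have hc := posP_coprime_negP hp hinj f
  have h1 : Bp ∣ b0 := by
    have : Bp ∣ b0 * Bn := by
      rw [← heq]
      exact Dvd.intro_left _ rfl
    exact Nat.Coprime.dvd_of_dvd_mul_right hc this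
  have h2 : Bn ∣ b1 := by
    have : Bn ∣ b1 * Bp := by
      rw [heq]
      exact Dvd.intro_left _ rfl
    exact Nat.Coprime.dvd_of_dvd_mul_right hc.symm this
  have h3 : Real.log Bp ≤ lam := by
    refine (Real.log_le_log (by exact_mod_cast hBppos) ?_).trans hlogb0
    exact_mod_cast Nat.le_of_dvd hb0 h1
  have h4 : Real.log Bn ≤ lam := by
    refine (Real.log_le_log (by exact_mod_cast hBnpos) ?_).trans hlogb1
    exact_mod_cast Nat.le_of_dvd hb1 h2
  have h5 : (γ : ℝ) * (N * lam - 0.7) ≤ N * (2 * lam + 2 * La) := by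
    have e1 := mul_le_mul_of_nonneg_left hzlow hγR.le
    have e2 := mul_le_mul_of_nonneg_left h3 hNR.le
    have e3 := mul_le_mul_of_nonneg_left h4 hNR.le
    linarith
  have h6 : (3 : ℝ) ≤ γ := by exact_mod_cast hγ4
  have hNlam : (5 : ℝ) * 0.69 ≤ N * lam := by
    have e1 : (5 : ℝ) ≤ N := by exact_mod_cast hN
    exact mul_le_mul e1 hq1 (by norm_num) hNR.le
  have h7 : 3 * (N * lam - 0.7) ≤ (γ : ℝ) * (N * lam - 0.7) :=
    mul_le_mul_of_nonneg_right h6 (by linarith)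
  have h8 : (N : ℝ) * (2 * lam + 2 * La) = 2.25 * (N * lam) := by
    rw [hLa]
    ring
  linarith

/-- **ω ≠ 1**, in terms of the quotient -/
theorem om_ne_one {ι : Type*} [Fintype ι] (l : ι → ℕ) (hl : ∀ i, (l i).Prime)
    (hinj : Function.Injective l) (p : ℕ) (hp : p.Prime) (e : ι → ℤ) (N Q H : ℕ) (hN : 5 ≤ N)
    (hQ : 0 < Q) (s : ℤ) (hs : s = 1 ∨ s = -1) (hne : (posP l e : ℤ) ≠ s * negP l e)
    (hdvd : ((p ^ N : ℕ) : ℤ) ∣ (posP l e : ℤ) - s * negP l e) (g1 g0 b1 b0 : ℕ)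
    (hg : g0 + 3 ≤ g1) (hb1 : 1 ≤ b1) (hb1H : b1 ≤ H) (hb0 : 1 ≤ b0) (hb0H : b0 ≤ H)
    (hH : Real.log H ≤ Real.log p) (hLQ : ∑ i, Real.log (l i) ≤ Q * (1 / 8 * Real.log p))
    (hbox : ∀ i, |((g1 : ℤ) * e i) % N - ((g0 : ℤ) * e i) % N| * Q < N) :
    omq l e N g1 g0 b1 b0 ≠ 1 := by
  intro h
  have h1 := omq_mul l (fun i => (hl i).pos) e N g1 g0 b1 b0 hb0
  rw [h, one_mul] at h1
  have h2 := omega_ne l hl hinj e p N hp s hs hne hdvd g0 g1 Q hQ hg hbox b0 b1 H hb0 hb1 hb0H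
    hb1H hH hLQ hN
  apply h2
  exact_mod_cast h1.symm

end Pool.Agent.Lib.AbcZ
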