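import Mathlib
import Pool.Agent.Lib.AbcE.Pigeon

/-!
# The pigeonhole step: a large class of pairs `(γ, b)`

`Γ` is a set of more than `R` multipliers `γ ≤ G`, with small integers `b γ`, such that the
remainders of `γ * e i` modulo `N` agree up to `N / Q` and all the numbers
`b γ * ∏ p i ^ (γ * e i / N)` are congruent modulo the prime `q`.
-/

set_option autoImplicit false

namespace Pool.Agent.Lib.AbcZ

open Finset Pool.Agent.AbcE

variable {ι : Type*} [Fintype ι]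

/-- **Pigeonhole**: a large class. -/
theorem pigeonK (p : ι → ℕ) (q : ℕ) (hq : q.Prime) (hcop : ∀ i, (p i).Coprime q)
    (e : ι → ℤ) (N Q H G R : ℕ) (hN : 0 < N) (hQ : 0 < Q) (hHq : H < q)
    (hG : Q ^ Fintype.card ι * (q - 1) * R < (G + 1) * H) :
    ∃ (Γ : Finset ℕ) (b : ℕ → ℕ), R < Γ.card ∧ (∀ γ ∈ Γ, γ ≤ G) ∧
      (∀ γ ∈ Γ, 1 ≤ b γ ∧ b γ ≤ H) ∧
      (∀ γ ∈ Γ, ∀ γ' ∈ Γ, ∀ i,
        |((γ' : ℤ) * e i) % N - ((γ : ℤ) * e i) % N| * Q < N) ∧
      (∀ γ ∈ Γ, ∀ γ' ∈ Γ, (q : ℤ) ∣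
        (b γ' : ℤ) * posP p (fun i => (γ' : ℤ) * e i / N - (γ : ℤ) * e i / N) -
          b γ * negP p (fun i => (γ' : ℤ) * e i / N - (γ : ℤ) * e i / N)) := by
  classical
  have : Fact q.Prime := ⟨hq⟩
  let u : ι → (ZMod q)ˣ := fun i => ZMod.unitOfCoprime (p i) (hcop i)
  have hbcop : ∀ b : Fin H, ((b : ℕ) + 1).Coprime q := by
    intro b
    rw [Nat.coprime_comm, Nat.Prime.coprime_iff_not_dvd hq]
    intro hd
    have h1 := Nat.le_of_dvd (by omega) hd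
    have h2 := b.2
    omega
  let w : Fin H → (ZMod q)ˣ := fun b => ZMod.unitOfCoprime ((b : ℕ) + 1) (hbcop b)
  have hwval : ∀ b : Fin H, ((w b : (ZMod q)ˣ) : ZMod q) = (((b : ℕ) + 1 : ℕ) : ZMod q) :=
    fun b => ZMod.coe_unitOfCoprime _ _
  have hWz : (0 : ℤ) < N := by exact_mod_cast hN
  have hQz : (0 : ℤ) < Q := by exact_mod_cast hQ
  have hbox : ∀ (g : ℕ) (i : ι), ((Q : ℤ) * (((g : ℤ) * e i) % N) / N).toNat < Q := by
    intro g i
    have h1 : 0 ≤ ((g : ℤ) * e i) % N := Int.emod_nonneg _ hWz.ne'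
    have h2 : ((g : ℤ) * e i) % N < N := Int.emod_lt_of_pos _ hWz
    have h3 : (Q : ℤ) * (((g : ℤ) * e i) % N) / N < Q := by
      apply Int.ediv_lt_of_lt_mul hWz
      exact mul_lt_mul_of_pos_left h2 hQz
    have h4 : 0 ≤ (Q : ℤ) * (((g : ℤ) * e i) % N) / N :=
      Int.ediv_nonneg (by positivity) hWz.le
    omega
  let F : Fin (G + 1) × Fin H → (ZMod q)ˣ × (ι → Fin Q) := fun x =>
    (w x.2 * ∏ i, u i ^ (((x.1 : ℕ) : ℤ) * e i / N),
      fun i => ⟨((Q : ℤ) * ((((x.1 : ℕ) : ℤ) * e i) % N) / N).toNat, hbox _ i⟩)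
  have hcard : Fintype.card ((ZMod q)ˣ × (ι → Fin Q)) * R <
      Fintype.card (Fin (G + 1) × Fin H) := by
    rw [Fintype.card_prod, Fintype.card_fun, Fintype.card_prod, Fintype.card_fin, Fintype.card_fin,
      Fintype.card_fin, ZMod.card_units_eq_totient, Nat.totient_prime hq,
      mul_comm (q - 1) (Q ^ Fintype.card ι)]
    exact hG
  obtain ⟨y, hy⟩ := Fintype.exists_lt_card_fiber_of_mul_lt_card F hcard
  set T : Finset (Fin (G + 1) × Fin H) := univ.filter fun x => F x = y with hT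
  have hTmem : ∀ x, x ∈ T ↔ F x = y := by
    intro x
    rw [hT, mem_filter]
    exact ⟨fun h => h.2, fun h => ⟨mem_univ _, h⟩⟩
  -- injectivity of the first coordinate
  have hinj : ∀ x ∈ T, ∀ x' ∈ T, (x.1 : ℕ) = (x'.1 : ℕ) → x = x' := by
    intro x hx x' hx' h
    have h0 : x.1 = x'.1 := Fin.ext h
    have hF : F x = F x' := ((hTmem x).1 hx).trans ((hTmem x').1 hx').symm
    have hF1 := congrArg Prod.fst hF
    have h1 : w x.2 * ∏ i, u i ^ (((x.1 : ℕ) : ℤ) * e i / N) =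
        w x'.2 * ∏ i, u i ^ (((x'.1 : ℕ) : ℤ) * e i / N) := hF1
    rw [h0] at h1
    have h2 := mul_right_cancel h1
    have h3 := congrArg (fun v : (ZMod q)ˣ => (v : ZMod q)) h2
    simp only [hwval] at h3
    rw [ZMod.natCast_eq_natCast_iff', Nat.mod_eq_of_lt, Nat.mod_eq_of_lt] at h3
    · refine Prod.ext h0 (Fin.ext ?_)
      omega
    · have := x'.2.2
      omega
    · have := x.2.2
      omega
  set Γ : Finset ℕ := T.image fun x => (x.1 : ℕ) with hΓ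
  have hcardΓ : Γ.card = T.card := by
    rw [hΓ]
    refine card_image_of_injOn ?_
    intro x hx x' hx' h
    exact hinj x hx x' hx' h
  have hex : ∀ γ : ℕ, ∃ b : ℕ, γ ∈ Γ → ∃ x ∈ T, (x.1 : ℕ) = γ ∧ (x.2 : ℕ) + 1 = b := by
    intro γ
    by_cases hγ : γ ∈ Γ
    · rw [hΓ, mem_image] at hγ
      obtain ⟨x, hx, hx1⟩ := hγ
      exact ⟨(x.2 : ℕ) + 1, fun _ => ⟨x, hx, hx1, rfl⟩⟩
    · exact ⟨0, fun h => absurd h hγ⟩
  choose b hb using hex
  refine ⟨Γ, b, ?_, ?_, ?_, ?_, ?_⟩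
  · rw [hcardΓ]
    exact hy
  · intro γ hγ
    obtain ⟨x, _, hx1, _⟩ := hb γ hγ
    have := x.1.2
    omega
  · intro γ hγ
    obtain ⟨x, _, _, hx2⟩ := hb γ hγ
    have := x.2.2
    omega
  · intro γ hγ γ' hγ' i
    obtain ⟨x, hx, hx1, _⟩ := hb γ hγ
    obtain ⟨x', hx', hx1', _⟩ := hb γ' hγ'
    have hF : F x = F x' := ((hTmem x).1 hx).trans ((hTmem x').1 hx').symm
    have hF2 := congrArg Prod.snd hF
    have h1 : ((Q : ℤ) * ((((x.1 : ℕ) : ℤ) * e i) % N) / N).toNat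
        = ((Q : ℤ) * ((((x'.1 : ℕ) : ℤ) * e i) % N) / N).toNat :=
      congrArg Fin.val (congrFun hF2 i)
    rw [hx1, hx1'] at h1
    have hn1 : 0 ≤ (((γ : ℕ) : ℤ) * e i) % N := Int.emod_nonneg _ hWz.ne'
    have hn2 : 0 ≤ (((γ' : ℕ) : ℤ) * e i) % N := Int.emod_nonneg _ hWz.ne'
    have hd1 : 0 ≤ (Q : ℤ) * ((((γ : ℕ) : ℤ) * e i) % N) / N :=
      Int.ediv_nonneg (by positivity) hWz.le
    have hd2 : 0 ≤ (Q : ℤ) * ((((γ' : ℕ) : ℤ) * e i) % N) / N :=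
      Int.ediv_nonneg (by positivity) hWz.le
    have h2 : (Q : ℤ) * ((((γ : ℕ) : ℤ) * e i) % N) / N
        = (Q : ℤ) * ((((γ' : ℕ) : ℤ) * e i) % N) / N := by omega
    set m1 := (((γ : ℕ) : ℤ) * e i) % N
    set m2 := (((γ' : ℕ) : ℤ) * e i) % N
    have e3 := Int.emod_add_mul_ediv ((Q : ℤ) * m1) N
    have e4 := Int.emod_add_mul_ediv ((Q : ℤ) * m2) N
    have e5 : 0 ≤ ((Q : ℤ) * m1) % N := Int.emod_nonneg _ hWz.ne'
    have e6 : ((Q : ℤ) * m1) % N < N := Int.emod_lt_of_pos _ hWz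
    have e7 : 0 ≤ ((Q : ℤ) * m2) % N := Int.emod_nonneg _ hWz.ne'
    have e8 : ((Q : ℤ) * m2) % N < N := Int.emod_lt_of_pos _ hWz
    rw [h2] at e3
    have e9 : |m2 - m1| * (Q : ℤ) = |(m2 - m1) * (Q : ℤ)| := by
      rw [abs_mul, abs_of_nonneg hQz.le]
    rw [e9, abs_lt]
    have e10 : (m2 - m1) * (Q : ℤ) = ((Q : ℤ) * m2) % N - ((Q : ℤ) * m1) % N := by
      linear_combination e3 - e4
    rw [e10]
    constructor <;> omega
  · intro γ hγ γ' hγ'
    obtain ⟨x, hx, hx1, hx2⟩ := hb γ hγ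
    obtain ⟨x', hx', hx1', hx2'⟩ := hb γ' hγ'
    have hF : F x = F x' := ((hTmem x).1 hx).trans ((hTmem x').1 hx').symm
    have hF1 := congrArg Prod.fst hF
    have h2 : w x.2 * ∏ i, u i ^ (((x.1 : ℕ) : ℤ) * e i / N) =
        w x'.2 * ∏ i, u i ^ (((x'.1 : ℕ) : ℤ) * e i / N) := hF1
    rw [hx1, hx1'] at h2
    set f : ι → ℤ := fun i => (γ' : ℤ) * e i / N - (γ : ℤ) * e i / N with hf
    have h1 : w x'.2 * ∏ i, u i ^ (f i) = w x.2 := by
      rw [hf]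
      simp only [zpow_sub]
      rw [Finset.prod_mul_distrib, Finset.prod_inv_distrib]
      rw [← mul_assoc, ← h2, mul_assoc, mul_inv_cancel, mul_one]
    have h3 : w x'.2 * ∏ i, u i ^ (f i).toNat = w x.2 * ∏ i, u i ^ (-f i).toNat := by
      have h4 : ∏ i, u i ^ (f i) = (∏ i, u i ^ (f i).toNat) * (∏ i, u i ^ (-f i).toNat)⁻¹ := by
        rw [← Finset.prod_inv_distrib, ← Finset.prod_mul_distrib]
        refine Finset.prod_congr rfl ?_
        intro i _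
        rw [← zpow_natCast, ← zpow_natCast, ← zpow_neg, ← zpow_add]
        congr 1
        omega
      rw [h4, ← mul_assoc, mul_inv_eq_iff_eq_mul] at h1
      exact h1
    rw [← ZMod.intCast_zmod_eq_zero_iff_dvd]
    have h5 := congrArg (fun v : (ZMod q)ˣ => (v : ZMod q)) h3
    simp only [Units.val_mul, Units.coe_prod, Units.val_pow_eq_pow_val] at h5
    rw [hwval, hwval, hx2, hx2'] at h5
    unfold posP negP
    push_cast
    push_cast at h5
    rw [sub_eq_zero]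
    exact h5

end Pool.Agent.Lib.AbcZ
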