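import Mathlib
import Pool.Agent.Lib.AbcE.TheoremE
import Pool.Agent.Lib.AbcZ.Pigeon
import Pool.Agent.Lib.AbcZ.Letters
import Pool.Agent.Lib.AbcZ.Omega
import Pool.Agent.Lib.AbcZ.Numbers
import Pool.Agent.Lib.AbcZ.Count
import Pool.Agent.Lib.AbcZ.FinalIneq
import Pool.Agent.Lib.AbcZ.CoreA

/-!
# Theorem S, version with exponents
-/

namespace Pool.Agent.Lib.AbcZ

open Finset Pool.Agent.AbcE

theorem thmSexp {ι : Type*} [Fintype ι] (l : ι → ℕ) (hl : ∀ i, (l i).Prime)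
    (hinj : Function.Injective l) (e : ι → ℤ) (p N : ℕ) (hp : p.Prime)
    (hcop : ∀ i, (l i).Coprime p) (s : ℤ) (hs : s = 1 ∨ s = -1)
    (hne : (posP l e : ℤ) ≠ s * negP l e)
    (hdvd : ((p ^ N : ℕ) : ℤ) ∣ (posP l e : ℤ) - s * negP l e)
    (κ A δ Ls : ℝ) (hκ0 : 0 ≤ κ) (hκ : κ ≤ 1) (hA : 0 ≤ A) (hN5 : 5 ≤ N)
    (q m Q H G R N2 W Lmax : ℕ) (hq : 0 < q) (hqN : 2 * q ≤ N) (hQ : 0 < Q) (hHp : H < p)
    (hHκ : Real.log H ≤ κ * Real.log p) (hR : 3 ≤ R)
    (hG : Q ^ Fintype.card ι * (p - 1) * R < (G + 1) * H)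
    (hdense : ∀ Γ : Finset ℕ, (∀ γ ∈ Γ, γ ≤ G) → R < Γ.card → ∃ M : ℕ, M.Prime ∧
      δ / 4 * N < M ∧ (M : ℝ) ≤ δ * N ∧ ∀ c < N, ∃ x ∈ Γ, q * ((M * x + (N - c)) % N) < N)
    (hm : ((N : ℝ) + 2 * N2) ≤ m * (δ / 4 * N))
    (hW : m * (3 * N) + q * G ≤ q * W) (hWN : W ≤ N) (hN2 : 0 < N2)
    (hLmax : ((N : ℝ) + 2 * N2) + δ * N + 1 ≤ Lmax)
    (hLs : ∑ i, Real.log (l i) ≤ Ls) (hLsQ : Ls ≤ Q * (1 / 8 * Real.log p))
    (hZ1 : Real.log (posP l e) ≤ A * (N * Real.log p))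
    (hZ2 : Real.log (negP l e) ≤ A * (N * Real.log p))
    (hfin : ((((N : ℝ) + N2) / N2) ^ (q + 1) + 1) *
        (Real.log 2 + (q + 1) * Real.log (N + N2) + Lmax * Real.log 2) +
      (Lmax * (κ * Real.log p) + 2 * W * A * Real.log p + (2 * Lmax / Q + 1) * Ls) <
      N * Real.log p) : False := by
  classical
  have hN : 0 < N := by omega
  have hNR : (0 : ℝ) < N := by exact_mod_cast hN
  have hQR : (0 : ℝ) < Q := by exact_mod_cast hQ
  have hlam : 0 < Real.log p := Real.log_pos (by exact_mod_cast hp.one_lt)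
  have hpos : ∀ i, 0 < l i := fun i => (hl i).pos
  obtain ⟨Γ, b, hcard, hΓG, hb, hbox, hcong⟩ := pigeonK l p hp hcop e N Q H G R hN hQ hHp hG
  obtain ⟨M, hM, hM1, hM2, hd⟩ := hdense Γ hΓG hcard
  have hΓne : Γ.Nonempty := Finset.card_pos.1 (by omega)
  obtain ⟨g, σ, inc, hgΓ, hgmm, hinc, hinc1⟩ := letters q N M hq hqN Γ hΓne hd
  -- the extreme letters
  have hg3 : g none + 3 ≤ g (some 0) := by
    have h1 : Γ ⊆ Finset.Icc (g none) (g (some 0)) := fun c hc =>
      Finset.mem_Icc.2 (hgmm c hc)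
    have h2 := Finset.card_le_card h1
    rw [Nat.card_Icc] at h2
    omega
  set N1 : ℕ := N + N2 with hN1
  set n : ℕ := N1 + N2 with hn
  set L : ℕ := n + M with hL
  have hnR : (n : ℝ) = N + 2 * N2 := by
    rw [hn, hN1]; push_cast; ring
  have hnm : n ≤ m * M := by
    have h1 : (n : ℝ) ≤ m * M := by
      rw [hnR]
      refine hm.trans ?_
      gcongr
    exact_mod_cast h1
  have hh2 : ∀ x, m * inc x + (g (some 0) - g none) ≤ W := by
    intro x
    have h1 : q * (m * inc x + (g (some 0) - g none)) ≤ q * W := by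
      have h3 : q * (m * inc x) ≤ m * (3 * N) := by
        calc q * (m * inc x) = m * (q * inc x) := by ring
          _ ≤ m * (3 * N) := Nat.mul_le_mul_left _ (hinc1 x).2
      have h4 : q * (g (some 0) - g none) ≤ q * G := by
        apply Nat.mul_le_mul_left
        have := hΓG _ (hgΓ (some 0))
        omega
      rw [Nat.mul_add]
      omega
    exact Nat.le_of_mul_le_mul_left h1 hq
  have hb1H : 1 ≤ H := (hb _ (hgΓ none)).1.trans (hb _ (hgΓ none)).2
  obtain ⟨a, ha0, hsize, ⟨y, V, t, hy, ht, hmod⟩, hshift⟩ := numbers (K := Fin (q + 1)) l hpos p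
    hp hcop e N Q H W (L + 1) hN hQ hWN s hs hdvd g (fun x => b (g x))
    (fun x => hb _ (hgΓ x)) hHp (fun x i => hbox _ (hgΓ none) _ (hgΓ x) i)
    (fun x => hcong _ (hgΓ none) _ (hgΓ x))
  -- sizes
  have hLR : ((L + 1 : ℕ) : ℝ) ≤ Lmax := by
    rw [hL]; push_cast
    rw [hnR]
    linarith
  set B : ℝ := Lmax * (κ * Real.log p) + 2 * W * A * Real.log p + (2 * Lmax / Q + 1) * Ls with hB
  have hLs0 : 0 ≤ Ls := (Finset.sum_nonneg fun i _ => Real.log_natCast_nonneg _).trans hLs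
  have hB0 : 0 ≤ B := by positivity
  set Am : ℕ := ⌊Real.exp B⌋₊ with hAm
  have hAm1 : 1 ≤ Am := by
    rw [hAm, Nat.one_le_floor_iff]
    exact Real.one_le_exp hB0
  have hAmB : Real.log Am ≤ B := by
    have h1 : (Am : ℝ) ≤ Real.exp B := Nat.floor_le (Real.exp_pos _).le
    have h2 := Real.log_le_log (by exact_mod_cast hAm1) h1
    rwa [Real.log_exp] at h2
  have hAbs : ∀ A, tdeg A ≤ L + 1 → wt g (L + 1) A % N < W → |a A| ≤ (Am : ℤ) := by
    intro D h1 h2
    have h3 := hsize D h1 h2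
    have h4 : Real.log |(a D : ℝ)| ≤ B := by
      refine h3.trans ?_
      rw [hB]
      have e1 : ((L + 1 : ℕ) : ℝ) * Real.log H ≤ Lmax * (κ * Real.log p) := by
        have : 0 ≤ Real.log H := Real.log_natCast_nonneg _
        gcongr
      have e2 : (W : ℝ) / N * (Real.log (posP l e) + Real.log (negP l e)) ≤
          2 * W * A * Real.log p := by
        calc (W : ℝ) / N * (Real.log (posP l e) + Real.log (negP l e)) ≤
            (W : ℝ) / N * (A * (N * Real.log p) + A * (N * Real.log p)) := by gcongr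
          _ = 2 * W * A * Real.log p := by field_simp; ring
      have e3 : (2 * ((L + 1 : ℕ) : ℝ) / Q + 1) * ∑ i, Real.log (l i) ≤
          (2 * Lmax / Q + 1) * Ls := by
        gcongr
      push_cast at e1 e3 ⊢
      linarith
    have h5 : (0 : ℝ) < |(a D : ℝ)| := by
      rw [abs_pos]
      exact_mod_cast ha0 D
    have h6 : |(a D : ℝ)| ≤ Real.exp B := by
      rwa [Real.log_le_iff_le_exp h5] at h4
    have h7 : ((a D).natAbs : ℝ) ≤ Real.exp B := by
      have : ((a D).natAbs : ℝ) = |(a D : ℝ)| := by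
        rw [Nat.cast_natAbs, Int.cast_abs]
      rwa [this]
    have h8 : (a D).natAbs ≤ Am := Nat.le_floor h7
    rw [Int.abs_eq_natAbs]
    exact_mod_cast h8
  have hom : omq l e N (g (some 0)) (g none) (b (g (some 0))) (b (g none)) ≠ 1 := by
    refine om_ne_one l hl hinj p hp e N Q H hN5 hQ s hs hne hdvd _ _ _ _ hg3
      (hb _ (hgΓ _)).1 (hb _ (hgΓ _)).2 (hb _ (hgΓ _)).1 (hb _ (hgΓ _)).2 ?_
      (hLs.trans hLsQ) (fun i => hbox _ (hgΓ none) _ (hgΓ (some 0)) i)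
    refine hHκ.trans ?_
    calc κ * Real.log p ≤ 1 * Real.log p := by gcongr
      _ = Real.log p := one_mul _
  have hdet := coreA p N W L N1 N2 n m M hM hN g σ inc hinc (fun x => (hinc1 x).1) 0 (by omega)
    hh2 rfl le_rfl hnm le_rfl hWN a ha0 _ hom
    (fun D h1 h2 => hshift 0 (by omega) D (by omega) h2) y V t hy ht hmod Am hAbs
  have hR2 : 0 < (ix (Fin (q + 1)) N2).card := by
    refine Finset.card_pos.2 ⟨0, ?_⟩
    rw [mem_ix]
    unfold tdeg
    simpa using hN2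
  have hratio := card_ratio (K := Fin (q + 1)) N1 N2 hN2 (by omega)
  have hlog := det_log hp.one_lt hR2 hAm1 ((((N : ℝ) + N2) / N2) ^ (q + 1)) (by
    rw [Fintype.card_fin] at hratio
    rw [hN1] at hratio
    push_cast at hratio
    exact hratio) hdet
  -- the number of rows
  have hRR : Real.log (((ix (Fin (q + 1)) N1).card : ℝ) + (ix (Fin (q + 1)) N2).card) ≤
      Real.log 2 + (q + 1) * Real.log (N + N2) := by
    have h1 := card_ix_le_pow (K := Fin (q + 1)) N1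
    have h2 := card_ix_le_pow (K := Fin (q + 1)) N2
    rw [Fintype.card_fin] at h1 h2
    have h3 : N2 ^ (q + 1) ≤ N1 ^ (q + 1) := Nat.pow_le_pow_left (by omega) _
    have h4 : (ix (Fin (q + 1)) N1).card + (ix (Fin (q + 1)) N2).card ≤ 2 * N1 ^ (q + 1) := by
      omega
    have h5 : ((ix (Fin (q + 1)) N1).card : ℝ) + (ix (Fin (q + 1)) N2).card ≤
        2 * ((N : ℝ) + N2) ^ (q + 1) := by
      have : (((ix (Fin (q + 1)) N1).card + (ix (Fin (q + 1)) N2).card : ℕ) : ℝ) ≤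
        ((2 * N1 ^ (q + 1) : ℕ) : ℝ) := by exact_mod_cast h4
      rw [hN1] at this ⊢
      push_cast at this ⊢
      exact this
    have h6 : (0 : ℝ) < ((ix (Fin (q + 1)) N1).card : ℝ) + (ix (Fin (q + 1)) N2).card := by
      have : (0 : ℝ) < (ix (Fin (q + 1)) N2).card := by exact_mod_cast hR2
      positivity
    refine (Real.log_le_log h6 h5).trans ?_
    rw [Real.log_mul (by norm_num) (by positivity), Real.log_pow]
    push_cast
    exact le_rfl
  have hlog2 : (0 : ℝ) < Real.log 2 := Real.log_pos (by norm_num)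
  have hC0 : (0 : ℝ) ≤ (((N : ℝ) + N2) / N2) ^ (q + 1) + 1 := by positivity
  have hfin2 : ((((N : ℝ) + N2) / N2) ^ (q + 1) + 1) *
      (Real.log (((ix (Fin (q + 1)) N1).card : ℝ) + (ix (Fin (q + 1)) N2).card) +
        ((L + 1 : ℕ) : ℝ) * Real.log 2) ≤ ((((N : ℝ) + N2) / N2) ^ (q + 1) + 1) *
        (Real.log 2 + (q + 1) * Real.log (N + N2) + Lmax * Real.log 2) := by
    apply mul_le_mul_of_nonneg_left _ hC0
    have := mul_le_mul_of_nonneg_right hLR hlog2.le
    linarith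
  linarith

end Pool.Agent.Lib.AbcZ
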