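import Mathlib
import Pool.Agent.Lib.AbcZ.Core

/-!
# The core inequality in logarithmic form
-/

namespace Pool.Agent.Lib.AbcZ

open Finset

theorem card_ix_le (K : Type*) [Fintype K] [DecidableEq K] (n : ℕ) :
    (ix K n).card ≤ n ^ Fintype.card K := by
  unfold ix
  refine (card_filter_le _ _).trans ?_
  rw [Fintype.card_piFinset]
  simp

theorem ix_card_pos (K : Type*) [Fintype K] [DecidableEq K] {n : ℕ} (hn : 0 < n) :
    0 < (ix K n).card := by
  rw [card_pos]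
  refine ⟨fun _ => 0, mem_ix.mpr ?_⟩
  unfold tdeg
  simpa using hn

/-- from the determinant inequality to the inequality between logarithms -/
theorem log_of_core (R1 R2 q B Ba : ℕ) (C : ℝ) (hR2 : 0 < R2) (hq : 0 < q) (hB : 0 < B)
    (hBa : 0 < Ba) (hC : (R1 : ℝ) ≤ C * R2)
    (h : q ^ R2 ≤ (R1 + R2).factorial * B ^ R1 * (B * Ba) ^ R2) :
    Real.log q ≤ (C + 1) * (Real.log (R1 + R2 : ℕ) + Real.log B) + Real.log Ba := by
  have hR2' : (0 : ℝ) < R2 := by exact_mod_cast hR2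
  have hq' : (0 : ℝ) < q := by exact_mod_cast hq
  have hB' : (0 : ℝ) < B := by exact_mod_cast hB
  have hBa' : (0 : ℝ) < Ba := by exact_mod_cast hBa
  have hS1 : (1 : ℝ) ≤ ((R1 + R2 : ℕ) : ℝ) := by
    have : 1 ≤ R1 + R2 := by omega
    exact_mod_cast this
  have hS : (0 : ℝ) < ((R1 + R2 : ℕ) : ℝ) := by linarith
  have h1 : (q : ℝ) ^ R2 ≤ ((R1 + R2 : ℕ) : ℝ) ^ (R1 + R2) * (B : ℝ) ^ R1 * ((B : ℝ) * Ba) ^ R2 := by
    have h2 : q ^ R2 ≤ (R1 + R2) ^ (R1 + R2) * B ^ R1 * (B * Ba) ^ R2 := by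
      refine h.trans ?_
      gcongr
      exact Nat.factorial_le_pow _
    exact_mod_cast h2
  have h2 := Real.log_le_log (by positivity) h1
  rw [Real.log_pow, Real.log_mul (by positivity) (by positivity),
    Real.log_mul (by positivity) (by positivity), Real.log_pow, Real.log_pow, Real.log_pow,
    Real.log_mul (by positivity) (by positivity)] at h2
  have hl1 : 0 ≤ Real.log ((R1 + R2 : ℕ) : ℝ) := Real.log_nonneg hS1
  have hl2 : 0 ≤ Real.log (B : ℝ) := Real.log_nonneg (by exact_mod_cast hB)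
  have h3 : (R2 : ℝ) * Real.log q ≤ R2 * ((C + 1) * (Real.log (R1 + R2 : ℕ) + Real.log B) +
      Real.log Ba) := by
    have h4 : (((R1 + R2 : ℕ) : ℝ)) ≤ (C + 1) * R2 := by
      push_cast
      linarith
    have h5 : ((R1 + R2 : ℕ) : ℝ) * (Real.log (R1 + R2 : ℕ) + Real.log B) ≤
        (C + 1) * R2 * (Real.log (R1 + R2 : ℕ) + Real.log B) :=
      mul_le_mul_of_nonneg_right h4 (by positivity)
    have h6 : (((R1 + R2 : ℕ) : ℝ)) = (R1 : ℝ) + R2 := by push_cast; ring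
    have h7 : ((R1 + R2 : ℕ) : ℝ) * (Real.log (R1 + R2 : ℕ) + Real.log B) =
        ((R1 + R2 : ℕ) : ℝ) * Real.log (R1 + R2 : ℕ) + ((R1 : ℝ) + R2) * Real.log B := by
      rw [← h6]
      ring
    linarith
  exact le_of_mul_le_mul_left h3 hR2'

/-- **The core inequality**, logarithmic form. -/
theorem core_log {K : Type} [Fintype K] [DecidableEq K] (M n m N W L : ℕ) (hM : M.Prime)
    (hN : 0 < N) (g : Option K → ℕ) (σ : Option K → Option K) (inc : Option K → ℕ)
    (hinc : ∀ x, (M * g (σ x)) % N = (M * g x + inc x) % N) (h1 : ∀ x, 1 ≤ inc x)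
    (k1 : K) (hg : g none < g (some k1))
    (h2 : ∀ x, m * inc x + (g (some k1) - g none) ≤ W) (N2 : ℕ) (hN2 : 0 < N2)
    (hn : N + N2 + N2 ≤ n)
    (hnm : n ≤ m * M) (hL : n + M ≤ L) (hWN : W ≤ N) (a : (K → ℕ) → ℤ) (om : ℚ) (hom : om ≠ 1)
    (ha0 : ∀ A, a A ≠ 0)
    (ha : ∀ A, tdeg A ≤ L → wt g (L + 1) A % N + (g (some k1) - g none) < W →
      (a (A + uv (some k1)) : ℚ) = om * a A)
    (p : ℕ) (hp : 0 < p) (y : Option K → ZMod (p ^ N)) (hy : IsUnit (y none))
    (t : K → ZMod (p ^ N)) (ht : ∀ x, y (some x) = y none * (1 + p * t x)) (V : ZMod (p ^ N))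
    (hcong : ∀ A : K → ℕ, tdeg A ≤ L + 1 → wt g (L + 1) A % N < W →
      (a A : ZMod (p ^ N)) = V * (y none ^ (L + 1 - tdeg A) * ∏ x, y (some x) ^ A x))
    (Ba : ℕ) (hBa0 : 0 < Ba) (hBa : ∀ A : K → ℕ, tdeg A ≤ L + 1 → wt g (L + 1) A % N < W →
      |a A| ≤ (Ba : ℤ)) :
    (N : ℝ) * Real.log p ≤ ((((N + N2 : ℕ) : ℝ) / N2) ^ Fintype.card K + 1) *
      (Real.log 2 + Fintype.card K * Real.log ((N + N2 : ℕ) : ℝ) + (L + 1) * Real.log 2) +
        Real.log Ba := by
  have h := core M n m N W L hM hN g σ inc hinc h1 k1 hg h2 N2 hn hnm hL hWN a om hom ha0 ha p y hy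
    t ht V hcong Ba hBa
  have hR := card_ratio (K := K) (N + N2) N2 hN2 (by omega)
  have h3 := log_of_core (ix K (N + N2)).card (ix K N2).card (p ^ N) (2 ^ (L + 1)) Ba
    ((((N + N2 : ℕ) : ℝ) / N2) ^ Fintype.card K) (ix_card_pos K hN2) (by positivity)
    (by positivity) hBa0 hR h
  have h4 : Real.log ((p ^ N : ℕ) : ℝ) = N * Real.log p := by
    push_cast
    rw [Real.log_pow]
  have h5 : Real.log ((2 ^ (L + 1) : ℕ) : ℝ) = (L + 1) * Real.log 2 := by
    push_cast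
    rw [Real.log_pow]
    push_cast
    ring
  rw [h4, h5] at h3
  have hS0 : 0 < (ix K (N + N2)).card + (ix K N2).card := by
    have := ix_card_pos K hN2
    omega
  have h6 : Real.log (((ix K (N + N2)).card + (ix K N2).card : ℕ) : ℝ) ≤
      Real.log 2 + Fintype.card K * Real.log ((N + N2 : ℕ) : ℝ) := by
    have h7 : (ix K (N + N2)).card + (ix K N2).card ≤ 2 * (N + N2) ^ Fintype.card K := by
      have e1 := card_ix_le K (N + N2)
      have e2 := card_ix_le K N2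
      have e3 : N2 ^ Fintype.card K ≤ (N + N2) ^ Fintype.card K :=
        Nat.pow_le_pow_left (by omega) _
      omega
    have h8 : (((ix K (N + N2)).card + (ix K N2).card : ℕ) : ℝ) ≤
        2 * ((N + N2 : ℕ) : ℝ) ^ Fintype.card K := by exact_mod_cast h7
    have h9 : (0 : ℝ) < ((N + N2 : ℕ) : ℝ) := by exact_mod_cast (by omega : 0 < N + N2)
    have h10 := Real.log_le_log (by exact_mod_cast hS0) h8
    rw [Real.log_mul (by norm_num) (by positivity), Real.log_pow] at h10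
    exact h10
  refine h3.trans ?_
  have h11 : (0 : ℝ) ≤ (((N + N2 : ℕ) : ℝ) / N2) ^ Fintype.card K + 1 := by positivity
  have h12 := mul_le_mul_of_nonneg_left
    (add_le_add_left h6 ((L + 1) * Real.log 2)) h11
  linarith

end Pool.Agent.Lib.AbcZ
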