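import Mathlib
import Pool.Agent.Lib.AbcZ.Defs

/-!
# Functions of bounded degree and the cube identity

`DegLT m f`: all differences of order `m` of `f` vanish.
The alternating sum of `f` over the cube of letter replacements vanishes.
-/

namespace Pool.Agent.Lib.AbcZ

open Finset

variable {K : Type*} [Fintype K] [DecidableEq K]

theorem DegLT.zero_fun {R : Type*} [AddCommGroup R] (m : ℕ) : DegLT m (fun _ : K → ℕ => (0 : R)) := by
  induction m with
  | zero => exact fun _ => rfl
  | succ m ih =>
    intro k
    simpa using ih

theorem DegLT.add {R : Type*} [AddCommGroup R] {m : ℕ} {f g : (K → ℕ) → R} (hf : DegLT m f)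
    (hg : DegLT m g) : DegLT m (fun A => f A + g A) := by
  induction m generalizing f g with
  | zero =>
    intro A
    simp only [DegLT] at hf hg
    beta_reduce
    rw [hf A, hg A, add_zero]
  | succ m ih =>
    intro k
    have h := ih (hf k) (hg k)
    have he : (fun A => f (A + uv (some k)) + g (A + uv (some k)) - (f A + g A)) =
        fun A => (f (A + uv (some k)) - f A) + (g (A + uv (some k)) - g A) := by
      funext A
      abel
    rw [he]
    exact h

theorem DegLT.neg {R : Type*} [AddCommGroup R] {m : ℕ} {f : (K → ℕ) → R} (hf : DegLT m f) :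
    DegLT m (fun A => - f A) := by
  induction m generalizing f with
  | zero =>
    intro A
    simp only [DegLT] at hf
    beta_reduce
    rw [hf A, neg_zero]
  | succ m ih =>
    intro k
    have h := ih (hf k)
    have he : (fun A => - f (A + uv (some k)) - - f A) =
        fun A => - (f (A + uv (some k)) - f A) := by
      funext A
      abel
    rw [he]
    exact h

theorem DegLT.sub {R : Type*} [AddCommGroup R] {m : ℕ} {f g : (K → ℕ) → R} (hf : DegLT m f)
    (hg : DegLT m g) : DegLT m (fun A => f A - g A) := by
  have h := hf.add hg.neg
  simpa only [← sub_eq_add_neg] using h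

theorem DegLT.const_mul {R : Type*} [CommRing R] {m : ℕ} {f : (K → ℕ) → R} (hf : DegLT m f)
    (c : R) : DegLT m (fun A => c * f A) := by
  induction m generalizing f with
  | zero =>
    intro A
    simp only [DegLT] at hf
    beta_reduce
    rw [hf A, mul_zero]
  | succ m ih =>
    intro k
    have h := ih (hf k)
    have he : (fun A => c * f (A + uv (some k)) - c * f A) =
        fun A => c * (f (A + uv (some k)) - f A) := by
      funext A
      rw [mul_sub]
    rw [he]
    exact h

theorem DegLT.succ {R : Type*} [AddCommGroup R] {m : ℕ} {f : (K → ℕ) → R}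
    (hf : DegLT m f) : DegLT (m + 1) f := by
  induction m generalizing f with
  | zero =>
    intro k A
    simp only [DegLT] at hf
    beta_reduce
    rw [hf, hf, sub_zero]
  | succ m ih =>
    intro k
    exact ih (hf k)

theorem DegLT.mono {R : Type*} [AddCommGroup R] {m m' : ℕ} (h : m ≤ m') {f : (K → ℕ) → R}
    (hf : DegLT m f) : DegLT m' f := by
  induction h with
  | refl => exact hf
  | step _ ih => exact ih.succ

theorem DegLT.sum {R : Type*} [AddCommGroup R] {ι : Type*} (s : Finset ι) {m : ℕ}
    {f : ι → (K → ℕ) → R} (hf : ∀ i ∈ s, DegLT m (f i)) :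
    DegLT m (fun A => ∑ i ∈ s, f i A) := by
  classical
  induction s using Finset.induction_on with
  | empty => simpa using DegLT.zero_fun m
  | insert a s ha ih =>
    have h1 := hf a (mem_insert_self a s)
    have h2 := ih fun i hi => hf i (mem_insert_of_mem hi)
    have h3 := h1.add h2
    simpa only [sum_insert ha] using h3

/-- the difference of a binomial function in the direction of a letter -/
theorem bin_diff (A α : K → ℕ) (k : K) : bin (A + uv (some k)) α =
    bin A α + if α k = 0 then 0 else bin A (Function.update α k (α k - 1)) := by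
  have h1 : ∀ B β : K → ℕ, bin B β = (B k).choose (β k) * ∏ x ∈ univ.erase k, (B x).choose (β x) := by
    intro B β
    unfold bin
    rw [Finset.mul_prod_erase univ (fun x => (B x).choose (β x)) (mem_univ k)]
  have h2 : ∏ x ∈ univ.erase k, ((A + uv (some k)) x).choose (α x) =
      ∏ x ∈ univ.erase k, (A x).choose (α x) := by
    refine prod_congr rfl fun x hx => ?_
    have hxk : x ≠ k := (mem_erase.mp hx).1
    have : (uv (some k) : K → ℕ) x = 0 := by
      unfold uv
      rw [if_neg]
      intro h
      exact hxk (Option.some.inj h).symm
    rw [Pi.add_apply, this, add_zero]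
  have h3 : (A + uv (some k)) k = A k + 1 := by
    rw [Pi.add_apply]
    unfold uv
    rw [if_pos rfl]
  rw [h1 (A + uv (some k)) α, h2, h3, h1 A α]
  by_cases h0 : α k = 0
  · rw [if_pos h0, h0]
    simp
  · rw [if_neg h0, h1 A (Function.update α k (α k - 1))]
    have h4 : ∏ x ∈ univ.erase k, (A x).choose (Function.update α k (α k - 1) x) =
        ∏ x ∈ univ.erase k, (A x).choose (α x) := by
      refine prod_congr rfl fun x hx => ?_
      rw [Function.update_of_ne (mem_erase.mp hx).1]
    rw [h4, Function.update_self]
    obtain ⟨j, hj⟩ : ∃ j, α k = j + 1 := ⟨α k - 1, by omega⟩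
    rw [hj, Nat.choose_succ_succ]
    simp only [Nat.add_sub_cancel]
    ring

theorem tdeg_update_pred (α : K → ℕ) (k : K) (h : α k ≠ 0) :
    tdeg (Function.update α k (α k - 1)) + 1 = tdeg α := by
  unfold tdeg
  rw [← Finset.add_sum_erase univ (fun x => Function.update α k (α k - 1) x) (mem_univ k),
    ← Finset.add_sum_erase univ α (mem_univ k)]
  have h4 : ∑ x ∈ univ.erase k, Function.update α k (α k - 1) x = ∑ x ∈ univ.erase k, α x := by
    refine sum_congr rfl fun x hx => ?_
    rw [Function.update_of_ne (mem_erase.mp hx).1]
  simp only [Function.update_self]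
  rw [h4]
  omega

theorem degLT_bin {R : Type*} [CommRing R] (α : K → ℕ) :
    DegLT (tdeg α + 1) (fun A => (bin A α : R)) := by
  induction hn : tdeg α generalizing α with
  | zero =>
    intro k A
    have h0 : α k = 0 := by
      unfold tdeg at hn
      exact (Finset.sum_eq_zero_iff.mp hn) k (mem_univ k)
    beta_reduce
    rw [bin_diff A α k, if_pos h0, add_zero, sub_self]
  | succ n ih =>
    intro k
    by_cases h0 : α k = 0
    · have he : (fun A : K → ℕ => ((bin (A + uv (some k)) α : ℕ) : R) - (bin A α : R)) =
          fun _ => 0 := by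
        funext A
        rw [bin_diff A α k, if_pos h0, add_zero, sub_self]
      rw [he]
      exact DegLT.zero_fun _
    · have h1 := tdeg_update_pred α k h0
      have h2 := ih (Function.update α k (α k - 1)) (by omega)
      have he : (fun A : K → ℕ => ((bin (A + uv (some k)) α : ℕ) : R) - (bin A α : R)) =
          fun A => (bin A (Function.update α k (α k - 1)) : R) := by
        funext A
        rw [bin_diff A α k, if_neg h0]
        push_cast
        ring
      rw [he]
      exact h2

theorem DegLT.diff {R : Type*} [AddCommGroup R] {m : ℕ} {f : (K → ℕ) → R} (hf : DegLT (m + 1) f)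
    (x : Option K) : DegLT m (fun A => f (A + uv x) - f A) := by
  cases x with
  | none =>
    have h0 : (uv none : K → ℕ) = 0 := by
      funext k
      unfold uv
      rw [if_neg (by simp)]
      rfl
    simp only [h0, add_zero, sub_self]
    exact DegLT.zero_fun m
  | some k => exact hf k

omit [Fintype K] in
theorem pt_eq_sum {m : ℕ} (x : Fin m → Option K) : (pt x : K → ℕ) = ∑ i, uv (x i) := by
  funext k
  rw [Finset.sum_apply]
  unfold pt uv
  rw [Finset.card_filter]

/-- cube identity for subsets of a finite set, with an offset -/
theorem cube_aux {R : Type*} [AddCommGroup R] {ι : Type*} [DecidableEq ι] (s : Finset ι)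
    (f : (K → ℕ) → R) (hf : DegLT s.card f) (x y : ι → Option K) (B : K → ℕ) :
    ∑ I ∈ s.powerset, (-1 : ℤ) ^ I.card • f (B + ∑ i ∈ s, uv (if i ∈ I then y i else x i)) = 0 := by
  induction s using Finset.induction_on generalizing f B with
  | empty =>
    simp only [card_empty, DegLT] at hf
    simp [hf]
  | insert a s ha ih =>
    rw [card_insert_of_notMem ha] at hf
    rw [Finset.sum_powerset_insert ha, ← Finset.sum_add_distrib]
    have hg : DegLT s.card (fun A => f (A + uv (x a)) - f (A + uv (y a))) := by
      have h := (hf.diff (x a)).sub (hf.diff (y a))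
      have he : (fun A => f (A + uv (x a)) - f (A + uv (y a))) =
          fun A => (f (A + uv (x a)) - f A) - (f (A + uv (y a)) - f A) := by
        funext A
        abel
      rw [he]
      exact h
    have hih := ih _ hg B
    rw [← hih]
    refine sum_congr rfl fun I hI => ?_
    have hIs : I ⊆ s := mem_powerset.mp hI
    have haI : a ∉ I := fun h => ha (hIs h)
    have e1 : B + ∑ i ∈ insert a s, uv (if i ∈ I then y i else x i) =
        B + ∑ i ∈ s, uv (if i ∈ I then y i else x i) + uv (x a) := by
      rw [sum_insert ha, if_neg haI]
      abel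
    have e2 : B + ∑ i ∈ insert a s, uv (if i ∈ insert a I then y i else x i) =
        B + ∑ i ∈ s, uv (if i ∈ I then y i else x i) + uv (y a) := by
      rw [sum_insert ha, if_pos (mem_insert_self a I)]
      have e3 : ∑ i ∈ s, uv (if i ∈ insert a I then y i else x i) =
          ∑ i ∈ s, (uv (if i ∈ I then y i else x i) : K → ℕ) := by
        refine sum_congr rfl fun i hi => ?_
        have hia : i ≠ a := fun h => ha (h ▸ hi)
        by_cases hiI : i ∈ I
        · rw [if_pos hiI, if_pos (mem_insert_of_mem hiI)]
        · rw [if_neg hiI, if_neg]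
          intro h
          rcases mem_insert.mp h with h | h
          · exact hia h
          · exact hiI h
      rw [e3]
      abel
    rw [e1, e2, card_insert_of_notMem haI, pow_succ]
    simp only [mul_neg, mul_one, neg_smul, smul_sub]
    abel

/-- **cube identity** -/
theorem cube {R : Type*} [AddCommGroup R] (m : ℕ) (f : (K → ℕ) → R) (hf : DegLT m f)
    (x y : Fin m → Option K) :
    ∑ I : Finset (Fin m), (-1 : ℤ) ^ I.card • f (pt fun i => if i ∈ I then y i else x i) = 0 := by
  have hf' : DegLT (univ : Finset (Fin m)).card f := by
    rw [card_univ, Fintype.card_fin]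
    exact hf
  have h := cube_aux (univ : Finset (Fin m)) f hf' x y 0
  rw [powerset_univ] at h
  rw [← h]
  refine sum_congr rfl fun I _ => ?_
  rw [pt_eq_sum, zero_add]

end Pool.Agent.Lib.AbcZ
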