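import Mathlib

/-!
# A set of points missing an arc has a large exponential sum
-/

namespace Pool.Agent.Lib.AbcZ

open Finset Complex

theorem normSq_one_add_exp (t : ℝ) :
    ‖(1 + Complex.exp (t * Complex.I))‖ ^ 2 = 2 + 2 * Real.cos t := by
  rw [← Complex.normSq_eq_norm_sq, Complex.exp_mul_I, Complex.normSq_apply]
  simp only [Complex.add_re, Complex.one_re, Complex.add_im, Complex.one_im, Complex.mul_re,
    Complex.mul_im, Complex.I_re, Complex.I_im, Complex.cos_ofReal_re, Complex.cos_ofReal_im,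
    Complex.sin_ofReal_re, Complex.sin_ofReal_im]
  have := Real.sin_sq_add_cos_sq t
  ring_nf
  nlinarith

/-- the kernel inequality: if all power sums are small then the points are everywhere -/
theorem kernel_lower (n : ℕ) (hn : 0 < n) (Γ : Finset ℕ) (z : ℕ → ℂ) (hz : ∀ γ ∈ Γ, ‖z γ‖ = 1)
    (s : ℝ) (hs : ∀ h ∈ Finset.Icc 1 n, ‖∑ γ ∈ Γ, z γ ^ h‖ ≤ s) :
    (n.centralBinom : ℝ) * Γ.card - 4 ^ n * s ≤ ∑ γ ∈ Γ, (‖1 + z γ‖ ^ 2) ^ n := by
  have hs0 : 0 ≤ s := (norm_nonneg _).trans (hs 1 (by rw [mem_Icc]; omega))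
  have e1 : ∀ γ, (((‖1 + z γ‖ ^ 2) ^ n : ℝ) : ℂ) =
      ∑ j ∈ range (n + 1), ∑ k ∈ range (n + 1),
        ((n.choose j : ℂ) * (n.choose k : ℂ)) * (z γ ^ j * (starRingEnd ℂ (z γ)) ^ k) := by
    intro γ
    have h1 : ((‖1 + z γ‖ ^ 2 : ℝ) : ℂ) = (1 + z γ) * (1 + starRingEnd ℂ (z γ)) := by
      rw [← Complex.normSq_eq_norm_sq, Complex.normSq_eq_conj_mul_self, map_add, map_one]
      ring
    rw [Complex.ofReal_pow, h1, mul_pow]
    have h2 : ∀ w : ℂ, (1 + w) ^ n = ∑ j ∈ range (n + 1), (n.choose j : ℂ) * w ^ j := by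
      intro w
      rw [add_comm, add_pow]
      refine Finset.sum_congr rfl fun j _ => ?_
      rw [one_pow]
      ring
    rw [h2, h2, Finset.sum_mul_sum]
    refine Finset.sum_congr rfl fun j _ => Finset.sum_congr rfl fun k _ => ?_
    ring
  -- the sums over `Γ`
  set T : ℕ → ℕ → ℂ := fun j k => ∑ γ ∈ Γ, z γ ^ j * (starRingEnd ℂ (z γ)) ^ k with hT
  have hzz : ∀ γ ∈ Γ, z γ * starRingEnd ℂ (z γ) = 1 := by
    intro γ hγ
    rw [Complex.mul_conj, Complex.normSq_eq_norm_sq, hz γ hγ]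
    simp
  have hdiag : ∀ j, T j j = Γ.card := by
    intro j
    rw [hT]
    simp only
    rw [Finset.sum_congr rfl fun γ hγ => by rw [← mul_pow, hzz γ hγ, one_pow]]
    simp
  have hoff : ∀ j ∈ range (n + 1), ∀ k ∈ range (n + 1), j ≠ k → ‖T j k‖ ≤ s := by
    intro j hj k hk hjk
    rw [mem_range] at hj hk
    rcases lt_or_gt_of_ne hjk with h | h
    · have h1 : T j k = starRingEnd ℂ (∑ γ ∈ Γ, z γ ^ (k - j)) := by
        rw [hT, map_sum]
        refine Finset.sum_congr rfl fun γ hγ => ?_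
        rw [map_pow]
        conv_lhs => rw [show k = j + (k - j) by omega, pow_add]
        rw [← mul_assoc, ← mul_pow, hzz γ hγ, one_pow, one_mul]
      rw [h1, RCLike.norm_conj]
      exact hs _ (by rw [mem_Icc]; omega)
    · have h1 : T j k = ∑ γ ∈ Γ, z γ ^ (j - k) := by
        rw [hT]
        refine Finset.sum_congr rfl fun γ hγ => ?_
        conv_lhs => rw [show j = (j - k) + k by omega, pow_add]
        rw [mul_assoc, ← mul_pow, hzz γ hγ, one_pow, mul_one]
      rw [h1]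
      exact hs _ (by rw [mem_Icc]; omega)
  have e2 : ((∑ γ ∈ Γ, (‖1 + z γ‖ ^ 2) ^ n : ℝ) : ℂ) =
      ∑ j ∈ range (n + 1), ∑ k ∈ range (n + 1),
        ((n.choose j : ℂ) * (n.choose k : ℂ)) * T j k := by
    rw [Complex.ofReal_sum, Finset.sum_congr rfl fun γ _ => e1 γ, Finset.sum_comm]
    refine Finset.sum_congr rfl fun j _ => ?_
    rw [Finset.sum_comm]
    refine Finset.sum_congr rfl fun k _ => ?_
    rw [hT, Finset.mul_sum]
  have e3 : ((∑ γ ∈ Γ, (‖1 + z γ‖ ^ 2) ^ n : ℝ) : ℂ) - (n.centralBinom : ℂ) * Γ.card =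
      ∑ j ∈ range (n + 1), ∑ k ∈ range (n + 1),
        ((n.choose j : ℂ) * (n.choose k : ℂ)) * (if j = k then 0 else T j k) := by
    have h1 : (n.centralBinom : ℂ) * Γ.card =
        ∑ j ∈ range (n + 1), ∑ k ∈ range (n + 1),
          ((n.choose j : ℂ) * (n.choose k : ℂ)) * (if j = k then T j k else 0) := by
      have h2 : (n.centralBinom : ℂ) = ∑ j ∈ range (n + 1), (n.choose j : ℂ) * (n.choose j : ℂ) := by
        have h3 := Nat.sum_range_choose_sq n
        unfold Nat.centralBinom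
        rw [← h3]
        push_cast
        refine Finset.sum_congr rfl fun j _ => ?_
        ring
      rw [h2, Finset.sum_mul]
      refine Finset.sum_congr rfl fun j hj => ?_
      rw [Finset.sum_eq_single_of_mem j hj]
      · rw [if_pos rfl, hdiag]
      · intro k _ hk
        rw [if_neg (Ne.symm hk), mul_zero]
    rw [e2, h1, ← Finset.sum_sub_distrib]
    refine Finset.sum_congr rfl fun j _ => ?_
    rw [← Finset.sum_sub_distrib]
    refine Finset.sum_congr rfl fun k _ => ?_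
    split_ifs
    · ring
    · ring
  have e4 : ‖((∑ γ ∈ Γ, (‖1 + z γ‖ ^ 2) ^ n : ℝ) : ℂ) - (n.centralBinom : ℂ) * Γ.card‖ ≤
      4 ^ n * s := by
    rw [e3]
    refine (norm_sum_le _ _).trans ?_
    have h1 : ∀ j ∈ range (n + 1), ‖∑ k ∈ range (n + 1),
        ((n.choose j : ℂ) * (n.choose k : ℂ)) * (if j = k then 0 else T j k)‖ ≤
        ∑ k ∈ range (n + 1), (n.choose j : ℝ) * (n.choose k : ℝ) * s := by
      intro j hj
      refine (norm_sum_le _ _).trans (Finset.sum_le_sum fun k hk => ?_)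
      rw [norm_mul, norm_mul, Complex.norm_natCast, Complex.norm_natCast]
      apply mul_le_mul_of_nonneg_left _ (by positivity)
      split_ifs with h
      · rw [norm_zero]
        exact hs0
      · exact hoff j hj k hk h
    refine (Finset.sum_le_sum h1).trans (le_of_eq ?_)
    have h2 : ∑ j ∈ range (n + 1), (n.choose j : ℝ) = 2 ^ n := by
      have := Nat.sum_range_choose n
      exact_mod_cast this
    rw [show (4 : ℝ) ^ n = 2 ^ n * 2 ^ n by rw [← mul_pow]; norm_num]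
    rw [← h2, Finset.sum_mul_sum, Finset.sum_mul]
    refine Finset.sum_congr rfl fun j _ => ?_
    rw [Finset.sum_mul]
  have e5 : (n.centralBinom : ℝ) * Γ.card - ∑ γ ∈ Γ, (‖1 + z γ‖ ^ 2) ^ n ≤ 4 ^ n * s := by
    refine le_trans ?_ e4
    have h1 : ((∑ γ ∈ Γ, (‖1 + z γ‖ ^ 2) ^ n : ℝ) : ℂ) - (n.centralBinom : ℂ) * Γ.card =
        (((∑ γ ∈ Γ, (‖1 + z γ‖ ^ 2) ^ n) - (n.centralBinom : ℝ) * Γ.card : ℝ) : ℂ) := by
      push_cast
      ring
    rw [h1, Complex.norm_real, Real.norm_eq_abs, abs_sub_comm]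
    exact le_abs_self _
  linarith

/-- a set of points missing an arc of length `ξ N` has a large exponential sum -/
theorem fejer_arc (ξ : ℝ) (hξ : 0 < ξ) : ∃ h0 : ℕ, 0 < h0 ∧ ∀ (N : ℕ), 0 < N →
    ∀ (Γ : Finset ℕ) (x : ℕ → ℕ) (c : ℕ), c < N →
      (∀ γ ∈ Γ, ξ * N ≤ (((x γ + (N - c)) % N : ℕ) : ℝ)) →
      ∃ h ∈ Finset.Icc 1 h0, (Γ.card : ℝ) / (4 * h0) ≤
        ‖∑ γ ∈ Γ, Complex.exp (2 * Real.pi * Complex.I * (h * x γ : ℕ) / N)‖ := by
  set q : ℝ := (1 + Real.cos (Real.pi * min ξ 1)) / 2 with hq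
  have hm0 : 0 < min ξ 1 := lt_min hξ one_pos
  have hm1 : min ξ 1 ≤ 1 := min_le_right _ _
  have hq0 : 0 ≤ q := by
    have := Real.neg_one_le_cos (Real.pi * min ξ 1)
    rw [hq]
    linarith
  have hq1 : q < 1 := by
    have : Real.cos (Real.pi * min ξ 1) < Real.cos 0 := by
      apply Real.cos_lt_cos_of_nonneg_of_le_pi le_rfl
      · nlinarith [Real.pi_pos]
      · have := Real.pi_pos
        positivity
    rw [Real.cos_zero] at this
    rw [hq]
    linarith
  obtain ⟨n, hn0, hn⟩ : ∃ n : ℕ, 0 < n ∧ (n : ℝ) * q ^ n < 1 / 4 := by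
    have h1 := tendsto_self_mul_const_pow_of_lt_one hq0 hq1
    have h2 := (h1.eventually (gt_mem_nhds (show (0 : ℝ) < 1 / 4 by norm_num))).and
      (Filter.eventually_gt_atTop 0)
    obtain ⟨n, hn, hn'⟩ := h2.exists
    exact ⟨n, hn', hn⟩
  refine ⟨n, hn0, ?_⟩
  intro N hN Γ x c hc hmiss
  have hNR : (0 : ℝ) < N := by exact_mod_cast hN
  have hnR : (0 : ℝ) < n := by exact_mod_cast hn0
  rcases Finset.eq_empty_or_nonempty Γ with rfl | hΓ
  · exact ⟨1, by rw [mem_Icc]; omega, by simp⟩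
  have hcard : (0 : ℝ) < Γ.card := by exact_mod_cast hΓ.card_pos
  have hξ1 : ξ < 1 := by
    obtain ⟨γ, hγ⟩ := hΓ
    have h1 := hmiss γ hγ
    have h2 : (((x γ + (N - c)) % N : ℕ) : ℝ) < N := by exact_mod_cast Nat.mod_lt _ hN
    by_contra hcon
    push Not at hcon
    nlinarith
  rw [min_eq_left hξ1.le] at hq
  by_contra hcon
  push Not at hcon
  set φ : ℝ := 2 * Real.pi * c / N + Real.pi * ξ with hφ
  set t : ℕ → ℝ := fun γ => 2 * Real.pi * x γ / N - φ with ht
  set z : ℕ → ℂ := fun γ => Complex.exp (t γ * Complex.I) with hz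
  have hz1 : ∀ γ, ‖z γ‖ = 1 := fun γ => Complex.norm_exp_ofReal_mul_I _
  have hpow : ∀ h : ℕ, ‖∑ γ ∈ Γ, z γ ^ h‖ =
      ‖∑ γ ∈ Γ, Complex.exp (2 * Real.pi * Complex.I * (h * x γ : ℕ) / N)‖ := by
    intro h
    have h1 : ∀ γ, z γ ^ h = Complex.exp (((-(h * φ) : ℝ) : ℂ) * Complex.I) *
        Complex.exp (2 * Real.pi * Complex.I * (h * x γ : ℕ) / N) := by
      intro γ
      rw [hz, ← Complex.exp_nat_mul, ← Complex.exp_add]
      congr 1
      rw [ht]
      push_cast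
      ring
    rw [Finset.sum_congr rfl fun γ _ => h1 γ, ← Finset.mul_sum, norm_mul,
      Complex.norm_exp_ofReal_mul_I, one_mul]
  have hlow := kernel_lower n hn0 Γ z (fun γ _ => hz1 γ) ((Γ.card : ℝ) / (4 * n)) (by
    intro h hh
    rw [hpow]
    exact (hcon h hh).le)
  have hup : ∑ γ ∈ Γ, (‖1 + z γ‖ ^ 2) ^ n ≤ ∑ _γ ∈ Γ, (4 * q) ^ n := by
    refine Finset.sum_le_sum fun γ hγ => ?_
    apply pow_le_pow_left₀ (by positivity)
    rw [hz, normSq_one_add_exp, hq]
    have h1 := hmiss γ hγ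
    set y : ℕ := (x γ + (N - c)) % N with hy
    have hyN : (y : ℝ) < N := by exact_mod_cast Nat.mod_lt _ hN
    obtain ⟨m, hm⟩ : ∃ m : ℕ, x γ + (N - c) = y + N * m :=
      ⟨(x γ + (N - c)) / N, by rw [hy]; exact (Nat.mod_add_div _ _).symm⟩
    have hm' : (x γ : ℝ) + (N - c) = y + N * m := by
      have : ((x γ + (N - c) : ℕ) : ℝ) = ((y + N * m : ℕ) : ℝ) := by rw [hm]
      rw [Nat.cast_add, Nat.cast_sub hc.le] at this
      push_cast at this
      exact this
    have h2 : t γ = (2 * Real.pi * y / N - Real.pi * ξ) + ((m : ℤ) - 1 : ℤ) * (2 * Real.pi) := by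
      rw [ht, hφ]
      have h3 : (x γ : ℝ) = y + N * m - N + c := by linarith
      simp only
      rw [h3]
      push_cast
      field_simp
      ring
    have h4 : Real.cos (t γ) ≤ Real.cos (Real.pi * ξ) := by
      rw [h2, Real.cos_add_int_mul_two_pi]
      have hpi := Real.pi_pos
      have a1 : Real.pi * ξ ≤ 2 * Real.pi * y / N - Real.pi * ξ := by
        have : 2 * Real.pi * ξ ≤ 2 * Real.pi * y / N := by
          rw [le_div_iff₀ hNR]
          nlinarith
        linarith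
      have a2 : 2 * Real.pi * y / N - Real.pi * ξ ≤ 2 * Real.pi - Real.pi * ξ := by
        have : 2 * Real.pi * y / N ≤ 2 * Real.pi := by
          rw [div_le_iff₀ hNR]
          nlinarith
        linarith
      rcases le_total (2 * Real.pi * y / N - Real.pi * ξ) Real.pi with h5 | h5
      · apply Real.cos_le_cos_of_nonneg_of_le_pi (by positivity) h5 a1
      · rw [← Real.cos_two_pi_sub]
        apply Real.cos_le_cos_of_nonneg_of_le_pi (by positivity)
        · linarith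
        · linarith
    linarith
  rw [Finset.sum_const, nsmul_eq_mul] at hup
  have hcb : (4 : ℝ) ^ n ≤ 2 * n * n.centralBinom := by
    exact_mod_cast Nat.four_pow_le_two_mul_self_mul_centralBinom n hn0
  have h4 : (0 : ℝ) < 4 ^ n := by positivity
  have h6 := hlow.trans hup
  rw [mul_pow] at h6
  -- divide by 4 ^ n
  have h7 : (4 : ℝ) ^ n / (2 * n) * Γ.card ≤ (n.centralBinom : ℝ) * Γ.card := by
    apply mul_le_mul_of_nonneg_right _ hcard.le
    rw [div_le_iff₀ (by positivity)]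
    linarith
  have h8 : (4 : ℝ) ^ n / (2 * n) * Γ.card - 4 ^ n * (Γ.card / (4 * n)) =
      4 ^ n * Γ.card * (1 / (4 * n)) := by
    field_simp
    ring
  have h9 : (4 : ℝ) ^ n * Γ.card * (1 / (4 * n)) ≤ 4 ^ n * Γ.card * q ^ n := by
    calc (4 : ℝ) ^ n * Γ.card * (1 / (4 * n)) =
        4 ^ n / (2 * n) * Γ.card - 4 ^ n * (Γ.card / (4 * n)) := h8.symm
      _ ≤ (n.centralBinom : ℝ) * Γ.card - 4 ^ n * (Γ.card / (4 * n)) := by linarith
      _ ≤ Γ.card * (4 ^ n * q ^ n) := h6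
      _ = _ := by ring
  have h10 : (1 : ℝ) / (4 * n) ≤ q ^ n := le_of_mul_le_mul_left h9 (by positivity)
  rw [div_le_iff₀ (by positivity)] at h10
  nlinarith

end Pool.Agent.Lib.AbcZ
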