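import Mathlib

/-!
# Many primes in `(δ N / 4, δ N]`
-/

set_option autoImplicit false

namespace Pool.Agent.Lib.AbcZ

open Finset Filter Topology

/-- The difference of two values of the Chebyshev function. -/
theorem theta_diff {x : ℝ} (hx : 4 ≤ x) :
    Chebyshev.theta x - Chebyshev.theta (x / 4) ≤
      (((Finset.range (⌊x⌋₊ + 1)).filter (fun M : ℕ => M.Prime ∧ x / 4 < M ∧ (M : ℝ) ≤ x)).card : ℝ)
        * Real.log x := by
  have hx0 : 0 ≤ x := by linarith
  set S := (Finset.range (⌊x⌋₊ + 1)).filter (fun M : ℕ => M.Prime ∧ x / 4 < M ∧ (M : ℝ) ≤ x)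
    with hS
  have h1 : Chebyshev.theta x = ∑ p ∈ (Ioc 0 ⌊x⌋₊).filter Nat.Prime, Real.log p := rfl
  have h2 : Chebyshev.theta (x / 4) = ∑ p ∈ (Ioc 0 ⌊x / 4⌋₊).filter Nat.Prime, Real.log p := rfl
  have hsub : (Ioc 0 ⌊x⌋₊).filter Nat.Prime ⊆ (Ioc 0 ⌊x / 4⌋₊).filter Nat.Prime ∪ S := by
    intro p hp
    rw [mem_filter, mem_Ioc] at hp
    rw [mem_union, mem_filter, mem_Ioc, hS, mem_filter, mem_range]
    by_cases h : p ≤ ⌊x / 4⌋₊
    · left
      exact ⟨⟨hp.1.1, h⟩, hp.2⟩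
    · right
      refine ⟨by omega, hp.2, ?_, (Nat.le_floor_iff hx0).1 hp.1.2⟩
      have h3 : ⌊x / 4⌋₊ < p := by omega
      exact (Nat.floor_lt (by positivity)).1 h3
  have h3 : Chebyshev.theta x ≤ Chebyshev.theta (x / 4) + ∑ p ∈ S, Real.log p := by
    rw [h1, h2]
    calc ∑ p ∈ (Ioc 0 ⌊x⌋₊).filter Nat.Prime, Real.log p
        ≤ ∑ p ∈ (Ioc 0 ⌊x / 4⌋₊).filter Nat.Prime ∪ S, Real.log p :=
          Finset.sum_le_sum_of_subset_of_nonneg hsub fun i _ _ => Real.log_natCast_nonneg i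
      _ ≤ _ := by
          rw [← Finset.sum_union_inter]
          have : 0 ≤ ∑ p ∈ (Ioc 0 ⌊x / 4⌋₊).filter Nat.Prime ∩ S, Real.log p :=
            Finset.sum_nonneg fun i _ => Real.log_natCast_nonneg i
          linarith
  have h4 : ∑ p ∈ S, Real.log p ≤ (S.card : ℝ) * Real.log x := by
    rw [← nsmul_eq_mul]
    refine Finset.sum_le_card_nsmul _ _ _ ?_
    intro p hp
    rw [hS, mem_filter] at hp
    exact Real.log_le_log (by exact_mod_cast hp.2.1.pos) hp.2.2.2
  linarith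

/-- **Many primes** in `(δ N / 4, δ N]`. -/
theorem many_primes (δ : ℝ) (hδ : 0 < δ) (hδ1 : δ ≤ 1) : ∃ c : ℝ, 0 < c ∧ ∃ N0 : ℕ, ∀ N : ℕ,
    N0 ≤ N → c * N / Real.log N ≤
      (((Finset.range (N + 1)).filter
        (fun M : ℕ => M.Prime ∧ δ / 4 * N < M ∧ (M : ℝ) ≤ δ * N)).card : ℝ) := by
  have hl2 : 0 < Real.log 2 := Real.log_pos (by norm_num)
  have h1 : ∀ᶠ x : ℝ in atTop, Real.log x ≤ Real.log 2 / 20 * x ^ (1 / 2 : ℝ) := by
    have h := (isLittleO_log_rpow_atTop (r := (1 / 2 : ℝ)) (by norm_num)).def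
      (c := Real.log 2 / 20) (by positivity)
    filter_upwards [h, eventually_ge_atTop (1 : ℝ)] with x hx hx1
    rw [Real.norm_of_nonneg (Real.log_nonneg hx1), Real.norm_of_nonneg (by positivity)] at hx
    exact hx
  obtain ⟨X0, hX0⟩ := eventually_atTop.1 h1
  obtain ⟨N0, hN0⟩ := exists_nat_ge ((max X0 4) / δ)
  refine ⟨δ * Real.log 2 / 4, by positivity, max N0 4, ?_⟩
  intro N hN
  have hNN0 : N0 ≤ N := (le_max_left _ _).trans hN
  have hN4 : 4 ≤ N := (le_max_right _ _).trans hN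
  set x : ℝ := δ * N with hx
  have hxm : max X0 4 ≤ x := by
    have h2 : (max X0 4) / δ ≤ N := hN0.trans (by exact_mod_cast hNN0)
    rw [div_le_iff₀ hδ] at h2
    rw [hx]; linarith
  have hx4 : 4 ≤ x := (le_max_right _ _).trans hxm
  have hxX : X0 ≤ x := (le_max_left _ _).trans hxm
  have hlog := hX0 x hxX
  have hx0 : 0 < x := by linarith
  have hxN : x ≤ N := by
    rw [hx]
    have : (0 : ℝ) ≤ N := Nat.cast_nonneg _
    nlinarith
  -- lower bound for the difference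
  have hlow := Chebyshev.theta_ge' (x := x) (by linarith)
  have hup := Chebyshev.theta_le_log4_mul_x (x := x / 4) (by positivity)
  have hl4 : Real.log 4 = 2 * Real.log 2 := by
    rw [show (4 : ℝ) = 2 ^ 2 by norm_num, Real.log_pow]; norm_num
  have hs1 : 1 ≤ √x := by
    rw [Real.one_le_sqrt]; linarith
  have hsx : √x * √x = x := Real.mul_self_sqrt hx0.le
  have hsr : x ^ (1 / 2 : ℝ) = √x := (Real.sqrt_eq_rpow x).symm
  rw [hsr] at hlog
  have hlx : 0 ≤ Real.log x := Real.log_nonneg (by linarith)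
  have hlx2 : Real.log 2 ≤ Real.log x := Real.log_le_log (by norm_num) (by linarith)
  have hlx3 : Real.log (x + 2) ≤ 2 * Real.log x := by
    have : Real.log (x + 2) ≤ Real.log (x ^ 2) := Real.log_le_log (by linarith) (by nlinarith)
    rw [Real.log_pow] at this
    push_cast at this
    exact this
  have hdiff : Real.log 2 / 4 * x ≤ Chebyshev.theta x - Chebyshev.theta (x / 4) := by
    have h5 : √x * Real.log x ≤ Real.log 2 / 20 * x := by
      calc √x * Real.log x ≤ √x * (Real.log 2 / 20 * √x) := by gcongr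
        _ = Real.log 2 / 20 * x := by rw [mul_left_comm, hsx]
    have h6 : Real.log x ≤ √x * Real.log x := le_mul_of_one_le_left hlx hs1
    rw [hl4] at hup
    nlinarith
  have hθ := theta_diff hx4
  set S := (Finset.range (N + 1)).filter
    (fun M : ℕ => M.Prime ∧ δ / 4 * N < M ∧ (M : ℝ) ≤ δ * N) with hS
  have hcard : (((Finset.range (⌊x⌋₊ + 1)).filter
      (fun M : ℕ => M.Prime ∧ x / 4 < M ∧ (M : ℝ) ≤ x)).card : ℝ) ≤ S.card := by
    have : (Finset.range (⌊x⌋₊ + 1)).filter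
        (fun M : ℕ => M.Prime ∧ x / 4 < M ∧ (M : ℝ) ≤ x) ⊆ S := by
      intro p hp
      rw [mem_filter, mem_range] at hp
      rw [hS, mem_filter, mem_range]
      refine ⟨?_, hp.2.1, ?_, hp.2.2.2⟩
      · have h7 : (p : ℝ) ≤ N := hp.2.2.2.trans hxN
        have h8 : p ≤ N := by exact_mod_cast h7
        omega
      · have h9 := hp.2.2.1
        rw [hx] at h9
        linarith
    exact_mod_cast Finset.card_le_card this
  have hlN : 0 < Real.log N := Real.log_pos (by
    have : (4 : ℝ) ≤ N := by exact_mod_cast hN4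
    linarith)
  have hlxN : Real.log x ≤ Real.log N := Real.log_le_log hx0 hxN
  rw [div_le_iff₀ hlN]
  calc δ * Real.log 2 / 4 * N = Real.log 2 / 4 * x := by rw [hx]; ring
    _ ≤ _ := hdiff
    _ ≤ _ := hθ
    _ ≤ (S.card : ℝ) * Real.log N := by gcongr

end Pool.Agent.Lib.AbcZ
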