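import Mathlib

/-!
# Second moment for the phases `M γ / N`

For a finite set `Γ` of natural numbers with `h γ < N` the exponential sums
`S_h(M) = ∑_{γ ∈ Γ} e(h M γ / N)` satisfy `∑_{M < N} |S_h(M)|² = N |Γ|`; if an arc of length `ξ N`
is missed by the residues `M γ`, then `∑_{1 ≤ h < H} |S_h(M)| ≥ |Γ| / 4` for `H ≥ 2/ξ²`.
-/

namespace Pool.Agent.Lib.AbcZ

open Finset

/-- `e(x) = exp(2πix)` -/
noncomputable def ex (x : ℝ) : ℂ := Complex.exp ((2 * Real.pi * x : ℝ) * Complex.I)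

theorem ex_add (x y : ℝ) : ex (x + y) = ex x * ex y := by
  unfold ex
  rw [← Complex.exp_add]
  congr 1
  push_cast
  ring

theorem norm_ex (x : ℝ) : ‖ex x‖ = 1 := by
  unfold ex
  exact Complex.norm_exp_ofReal_mul_I _

theorem ex_zero : ex 0 = 1 := by
  unfold ex
  simp

theorem ex_int (n : ℤ) : ex (n : ℝ) = 1 := by
  unfold ex
  have : ((2 * Real.pi * (n : ℝ) : ℝ) * Complex.I : ℂ) = n * (2 * Real.pi * Complex.I) := by
    push_cast
    ring
  rw [this]
  exact Complex.exp_int_mul_two_pi_mul_I n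

theorem ex_add_int (x : ℝ) (n : ℤ) : ex (x + n) = ex x := by
  rw [ex_add, ex_int, mul_one]

theorem ex_nat_mul (n : ℕ) (x : ℝ) : ex (n * x) = ex x ^ n := by
  unfold ex
  rw [← Complex.exp_nat_mul]
  congr 1
  push_cast
  ring

theorem conj_ex (x : ℝ) : (starRingEnd ℂ) (ex x) = ex (-x) := by
  unfold ex
  rw [← Complex.exp_conj]
  congr 1
  rw [map_mul, Complex.conj_ofReal, Complex.conj_I]
  push_cast
  ring

theorem norm_one_sub_ex (x : ℝ) : ‖1 - ex x‖ = 2 * |Real.sin (Real.pi * x)| := by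
  have h1 : (1 - ex x) = -(ex (x / 2)) * (2 * Complex.I * (Real.sin (Real.pi * x) : ℂ)) := by
    have hx : ex x = ex (x / 2) * ex (x / 2) := by
      rw [← ex_add]; congr 1; ring
    have hs : (2 * Complex.I * (Real.sin (Real.pi * x) : ℂ)) = ex (x / 2) - ex (-(x / 2)) := by
      unfold ex
      have e1 : (((2 * Real.pi * (x / 2) : ℝ) : ℂ) * Complex.I) = ((Real.pi * x : ℝ) : ℂ) * Complex.I := by
        push_cast; ring
      have e2 : (((2 * Real.pi * (-(x / 2)) : ℝ) : ℂ) * Complex.I)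
          = -((Real.pi * x : ℝ) : ℂ) * Complex.I := by
        push_cast; ring
      rw [e1, e2, Complex.ofReal_sin, Complex.sin]
      ring_nf
      simp
    have h0 : ex (x / 2) * ex (-(x / 2)) = 1 := by
      rw [← ex_add]; simp [ex_zero]
    rw [hs, hx]
    linear_combination (-1 : ℂ) * h0
  rw [h1, norm_mul, norm_neg, norm_ex, one_mul, norm_mul, norm_mul, Complex.norm_I,
    Complex.norm_real, Real.norm_eq_abs]
  simp

/-- the exponential sum -/
noncomputable def SS (Γ : Finset ℕ) (N M : ℕ) (h : ℕ) : ℂ :=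
  ∑ γ ∈ Γ, ex ((h : ℝ) * (M * γ / N))

theorem ex_eq_one_iff (x : ℝ) : ex x = 1 ↔ ∃ n : ℤ, x = n := by
  unfold ex
  rw [Complex.exp_eq_one_iff]
  constructor
  · rintro ⟨n, hn⟩
    refine ⟨n, ?_⟩
    have h2 : (2 * Real.pi * Complex.I : ℂ) ≠ 0 := by
      simp [Real.pi_ne_zero, Complex.I_ne_zero]
    have h3 : (x : ℂ) * (2 * Real.pi * Complex.I) = n * (2 * Real.pi * Complex.I) := by
      rw [← hn]; push_cast; ring
    have h4 := mul_right_cancel₀ h2 h3
    exact_mod_cast h4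
  · rintro ⟨n, rfl⟩
    exact ⟨n, by push_cast; ring⟩

/-- Parseval -/
theorem moment (Γ : Finset ℕ) (N h : ℕ) (hN : 0 < N) (hh : 0 < h) (hΓ : ∀ γ ∈ Γ, h * γ < N) :
    ∑ M ∈ range N, ‖SS Γ N M h‖ ^ 2 = N * Γ.card := by
  have key : ∀ M : ℕ, ((‖SS Γ N M h‖ ^ 2 : ℝ) : ℂ) =
      ∑ γ ∈ Γ, ∑ γ' ∈ Γ, ex ((h : ℝ) * (((γ : ℝ) - γ') / N)) ^ M := by
    intro M
    have h0 : ((‖SS Γ N M h‖ ^ 2 : ℝ) : ℂ) = SS Γ N M h * (starRingEnd ℂ) (SS Γ N M h) := by
      rw [Complex.mul_conj']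
      push_cast
      rfl
    rw [h0]
    unfold SS
    rw [map_sum, Finset.sum_mul_sum]
    refine Finset.sum_congr rfl fun γ _ => Finset.sum_congr rfl fun γ' _ => ?_
    rw [conj_ex, ← ex_add, ← ex_nat_mul]
    congr 1
    ring
  have hN' : (N : ℝ) ≠ 0 := by positivity
  have hsum : ((∑ M ∈ range N, ‖SS Γ N M h‖ ^ 2 : ℝ) : ℂ) = (N : ℂ) * Γ.card := by
    push_cast
    have : ∀ M ∈ range N, ((‖SS Γ N M h‖ : ℂ)) ^ 2 =
        ∑ γ ∈ Γ, ∑ γ' ∈ Γ, ex ((h : ℝ) * (((γ : ℝ) - γ') / N)) ^ M := by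
      intro M _
      have := key M
      push_cast at this
      exact this
    rw [Finset.sum_congr rfl this, Finset.sum_comm]
    have hin : ∀ γ ∈ Γ, ∑ M ∈ range N, ∑ γ' ∈ Γ, ex ((h : ℝ) * (((γ : ℝ) - γ') / N)) ^ M
        = (N : ℂ) := by
      intro γ hγ
      rw [Finset.sum_comm]
      have hg : ∀ γ' ∈ Γ, ∑ M ∈ range N, ex ((h : ℝ) * (((γ : ℝ) - γ') / N)) ^ M
          = if γ' = γ then (N : ℂ) else 0 := by
        intro γ' hγ'
        split_ifs with hc
        · subst hc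
          simp [ex_zero]
        · set x := ex ((h : ℝ) * (((γ : ℝ) - γ') / N)) with hx
          have hx1 : x ≠ 1 := by
            intro he
            rw [hx, ex_eq_one_iff] at he
            obtain ⟨n, hn⟩ := he
            have h1 : (h : ℝ) * ((γ : ℝ) - γ') = n * N := by
              field_simp at hn
              linarith
            have h2 : (h : ℤ) * ((γ : ℤ) - γ') = n * N := by exact_mod_cast h1
            have h3 : (h : ℤ) * γ < N := by exact_mod_cast hΓ γ hγ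
            have h4 : (h : ℤ) * γ' < N := by exact_mod_cast hΓ γ' hγ'
            have h5 : (0 : ℤ) ≤ (h : ℤ) * γ := by positivity
            have h6 : (0 : ℤ) ≤ (h : ℤ) * γ' := by positivity
            have hNz : (0 : ℤ) < N := by exact_mod_cast hN
            have h7 : n * N < N := by rw [← h2]; nlinarith
            have h8 : -(N : ℤ) < n * N := by rw [← h2]; nlinarith
            have h9 : n < 1 := by nlinarith
            have h10 : -1 < n := by nlinarith
            have h11 : n = 0 := by omega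
            rw [h11, zero_mul] at h2
            have h12 : (γ : ℤ) - γ' = 0 := by
              rcases mul_eq_zero.mp h2 with h | h
              · exfalso; omega
              · exact h
            exact hc (by omega)
          have hxN : x ^ N = 1 := by
            rw [hx, ← ex_nat_mul]
            have : (N : ℝ) * ((h : ℝ) * (((γ : ℝ) - γ') / N)) = (((h : ℤ) * ((γ : ℤ) - γ') : ℤ) : ℝ) := by
              push_cast
              field_simp
            rw [this, ex_int]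
          have := geom_sum_mul x N
          rw [hxN, sub_self] at this
          rcases mul_eq_zero.mp this with h | h
          · exact h
          · exact absurd (sub_eq_zero.mp h) hx1
      rw [Finset.sum_congr rfl hg, Finset.sum_ite_eq' Γ γ]
      simp [hγ]
    rw [← Finset.sum_comm, Finset.sum_comm]
    rw [Finset.sum_congr rfl hin]
    simp [mul_comm]
  exact_mod_cast hsum

/-- Jordan's inequality on `[0,1]` -/
theorem jordan (t a : ℝ) (ha : 0 ≤ a) (h1 : a ≤ t) (h2 : t ≤ 1 - a) :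
    2 * a ≤ |Real.sin (Real.pi * t)| := by
  have hpi := Real.pi_pos
  rcases le_total t (1 / 2) with h | h
  · have h3 : 2 / Real.pi * (Real.pi * t) ≤ Real.sin (Real.pi * t) :=
      Real.mul_le_sin (by nlinarith) (by nlinarith)
    have h4 : 2 / Real.pi * (Real.pi * t) = 2 * t := by field_simp
    rw [h4] at h3
    exact le_trans (by linarith) (le_trans h3 (le_abs_self _))
  · have h3 : 2 / Real.pi * (Real.pi * (1 - t)) ≤ Real.sin (Real.pi * (1 - t)) :=
      Real.mul_le_sin (by nlinarith) (by nlinarith)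
    have h4 : 2 / Real.pi * (Real.pi * (1 - t)) = 2 * (1 - t) := by field_simp
    have h5 : Real.sin (Real.pi * (1 - t)) = Real.sin (Real.pi * t) := by
      rw [show Real.pi * (1 - t) = Real.pi - Real.pi * t by ring, Real.sin_pi_sub]
    rw [h4, h5] at h3
    exact le_trans (by linarith) (le_trans h3 (le_abs_self _))

/-- the geometric sum is small away from the integers -/
theorem geom_small (y ξ : ℝ) (hξ : 0 < ξ) (H : ℕ) (hy : 2 * ξ ≤ ‖1 - ex y‖) :
    ‖∑ j ∈ range H, ex ((j : ℝ) * y)‖ ≤ 1 / ξ := by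
  have h1 : ∑ j ∈ range H, ex ((j : ℝ) * y) = ∑ j ∈ range H, ex y ^ j :=
    Finset.sum_congr rfl fun j _ => ex_nat_mul j y
  rw [h1]
  have h2 := mul_neg_geom_sum (ex y) H
  have h3 : ‖1 - ex y‖ * ‖∑ j ∈ range H, ex y ^ j‖ ≤ 2 := by
    rw [← norm_mul, h2]
    refine le_trans (norm_sub_le _ _) ?_
    rw [norm_one, norm_pow, norm_ex, one_pow]
    norm_num
  rw [le_div_iff₀ hξ]
  have h4 : 0 ≤ ‖∑ j ∈ range H, ex y ^ j‖ := norm_nonneg _
  nlinarith

theorem off_sum (F : ℕ → ℝ) (hF : ∀ h, 0 ≤ F h) (H j : ℕ) (hj : j < H) :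
    ∑ j' ∈ (range H).erase j, F ((j - j') + (j' - j)) ≤ 2 * ∑ h ∈ Ico 1 H, F h := by
  rw [← Finset.sum_filter_add_sum_filter_not ((range H).erase j) (fun j' => j' < j)]
  have h1 : ∑ j' ∈ ((range H).erase j).filter (fun j' => j' < j), F ((j - j') + (j' - j)) ≤
      ∑ h ∈ Ico 1 H, F h := by
    have hinj : Set.InjOn (fun j' => (j - j') + (j' - j))
        (((range H).erase j).filter (fun j' => j' < j) : Finset ℕ) := by
      intro a ha b hb hab
      simp only [coe_filter, mem_erase, mem_range, Set.mem_ofPred_eq] at ha hb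
      simp only at hab
      omega
    rw [← Finset.sum_image (f := F) hinj]
    refine Finset.sum_le_sum_of_subset_of_nonneg ?_ fun _ _ _ => hF _
    intro h hh
    rw [mem_image] at hh
    obtain ⟨a, ha, rfl⟩ := hh
    simp only [mem_filter, mem_erase, mem_range] at ha
    rw [mem_Ico]
    omega
  have h2 : ∑ j' ∈ ((range H).erase j).filter (fun j' => ¬ j' < j), F ((j - j') + (j' - j)) ≤
      ∑ h ∈ Ico 1 H, F h := by
    have hinj : Set.InjOn (fun j' => (j - j') + (j' - j))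
        (((range H).erase j).filter (fun j' => ¬ j' < j) : Finset ℕ) := by
      intro a ha b hb hab
      simp only [coe_filter, mem_erase, mem_range, Set.mem_ofPred_eq] at ha hb
      simp only at hab
      omega
    rw [← Finset.sum_image (f := F) hinj]
    refine Finset.sum_le_sum_of_subset_of_nonneg ?_ fun _ _ _ => hF _
    intro h hh
    rw [mem_image] at hh
    obtain ⟨a, ha, rfl⟩ := hh
    simp only [mem_filter, mem_erase, mem_range] at ha
    rw [mem_Ico]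
    omega
  linarith

/-- a shift of the phases does not change the size of the exponential sums -/
theorem norm_shift (Γ : Finset ℕ) (N M : ℕ) (s : ℝ) (j j' : ℕ) :
    ‖∑ γ ∈ Γ, ex ((((j : ℝ)) - j') * ((M : ℝ) * γ / N - s))‖ = ‖SS Γ N M ((j - j') + (j' - j))‖ := by
  rcases le_total j' j with h | h
  · obtain ⟨d, rfl⟩ := Nat.exists_eq_add_of_le h
    have h1 : (j' + d - j') + (j' - (j' + d)) = d := by omega
    rw [h1]
    have h2 : ∑ γ ∈ Γ, ex ((((j' + d : ℕ) : ℝ) - j') * ((M : ℝ) * γ / N - s)) =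
        ex (-(d * s)) * SS Γ N M d := by
      unfold SS
      rw [Finset.mul_sum]
      refine Finset.sum_congr rfl fun γ _ => ?_
      rw [← ex_add]
      congr 1
      push_cast
      ring
    rw [h2, norm_mul, norm_ex, one_mul]
  · obtain ⟨d, rfl⟩ := Nat.exists_eq_add_of_le h
    have h1 : (j - (j + d)) + (j + d - j) = d := by omega
    rw [h1]
    have h2 : ∑ γ ∈ Γ, ex (((j : ℝ) - ((j + d : ℕ) : ℝ)) * ((M : ℝ) * γ / N - s)) =
        (starRingEnd ℂ) (ex (-(d * s)) * SS Γ N M d) := by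
      unfold SS
      rw [Finset.mul_sum, map_sum]
      refine Finset.sum_congr rfl fun γ _ => ?_
      rw [← ex_add, conj_ex]
      congr 1
      push_cast
      ring
    rw [h2, RCLike.norm_conj, norm_mul, norm_ex, one_mul]

/-- an arc of length `ξ N` missed by the residues of `M γ` makes an exponential sum large -/
theorem missed (Γ : Finset ℕ) (N M c H : ℕ) (ξ : ℝ) (hN : 0 < N) (hξ : 0 < ξ)
    (hH : 2 ≤ H * ξ ^ 2) (hc : c < N)
    (hm : ∀ γ ∈ Γ, ξ * N ≤ (((M * γ + (N - c)) % N : ℕ) : ℝ)) :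
    (Γ.card : ℝ) / 4 ≤ ∑ h ∈ Ico 1 H, ‖SS Γ N M h‖ := by
  have hN' : (0 : ℝ) < N := by exact_mod_cast hN
  set s : ℝ := (c : ℝ) / N + ξ / 2 with hs
  have hy : ∀ γ ∈ Γ, 2 * ξ ≤ ‖1 - ex ((M : ℝ) * γ / N - s)‖ := by
    intro γ hγ
    set r := (M * γ + (N - c)) % N with hr
    set q := (M * γ + (N - c)) / N with hq
    have h1 : N * q + r = M * γ + (N - c) := Nat.div_add_mod _ _
    have h2 : (N : ℝ) * q + r = M * γ + (N - c) := by
      have : ((N * q + r : ℕ) : ℝ) = ((M * γ + (N - c) : ℕ) : ℝ) := by rw [h1]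
      push_cast [Nat.cast_sub hc.le] at this
      exact this
    have h3 : (M : ℝ) * γ / N - s = ((r : ℝ) / N - ξ / 2) + (((q : ℤ) - 1 : ℤ) : ℝ) := by
      rw [hs]
      push_cast
      field_simp
      linarith
    rw [h3, ex_add_int, norm_one_sub_ex]
    have h4 : ξ ≤ (r : ℝ) / N := by
      rw [le_div_iff₀ hN']
      exact hm γ hγ
    have h5 : (r : ℝ) / N ≤ 1 := by
      rw [div_le_one hN']
      exact_mod_cast (Nat.mod_lt _ hN).le
    have h6 := jordan ((r : ℝ) / N - ξ / 2) (ξ / 2) (by linarith) (by linarith) (by linarith)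
    linarith
  have hT : ∑ γ ∈ Γ, ‖∑ j ∈ range H, ex ((j : ℝ) * ((M : ℝ) * γ / N - s))‖ ^ 2 ≤
      Γ.card * (1 / ξ) ^ 2 := by
    rw [← nsmul_eq_mul]
    refine Finset.sum_le_card_nsmul _ _ _ fun γ hγ => ?_
    exact pow_le_pow_left₀ (norm_nonneg _) (geom_small _ ξ hξ H (hy γ hγ)) 2
  have hE : ((∑ γ ∈ Γ, ‖∑ j ∈ range H, ex ((j : ℝ) * ((M : ℝ) * γ / N - s))‖ ^ 2 : ℝ) : ℂ) =
      ∑ j ∈ range H, ∑ j' ∈ range H, ∑ γ ∈ Γ, ex (((j : ℝ) - j') * ((M : ℝ) * γ / N - s)) := by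
    have h1 : ∀ γ ∈ Γ, ((‖∑ j ∈ range H, ex ((j : ℝ) * ((M : ℝ) * γ / N - s))‖ : ℂ)) ^ 2 =
        ∑ j ∈ range H, ∑ j' ∈ range H, ex (((j : ℝ) - j') * ((M : ℝ) * γ / N - s)) := by
      intro γ _
      rw [← Complex.mul_conj', map_sum, Finset.sum_mul_sum]
      refine Finset.sum_congr rfl fun j _ => Finset.sum_congr rfl fun j' _ => ?_
      rw [conj_ex, ← ex_add]
      congr 1
      ring
    push_cast
    rw [Finset.sum_congr rfl h1, Finset.sum_comm]
    refine Finset.sum_congr rfl fun j _ => ?_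
    rw [Finset.sum_comm]
  have hD : ((∑ γ ∈ Γ, ‖∑ j ∈ range H, ex ((j : ℝ) * ((M : ℝ) * γ / N - s))‖ ^ 2 : ℝ) : ℂ) =
      H * Γ.card + ∑ j ∈ range H, ∑ j' ∈ (range H).erase j,
        ∑ γ ∈ Γ, ex (((j : ℝ) - j') * ((M : ℝ) * γ / N - s)) := by
    rw [hE]
    have h1 : ∀ j ∈ range H, ∑ j' ∈ range H, ∑ γ ∈ Γ,
        ex (((j : ℝ) - j') * ((M : ℝ) * γ / N - s)) = (Γ.card : ℂ) +
        ∑ j' ∈ (range H).erase j, ∑ γ ∈ Γ, ex (((j : ℝ) - j') * ((M : ℝ) * γ / N - s)) := by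
      intro j hj
      rw [← Finset.add_sum_erase _ _ hj]
      congr 1
      simp [ex_zero]
    rw [Finset.sum_congr rfl h1, Finset.sum_add_distrib]
    simp
  have hR : ‖∑ j ∈ range H, ∑ j' ∈ (range H).erase j,
        ∑ γ ∈ Γ, ex (((j : ℝ) - j') * ((M : ℝ) * γ / N - s))‖ ≤
      H * (2 * ∑ h ∈ Ico 1 H, ‖SS Γ N M h‖) := by
    refine le_trans (norm_sum_le _ _) ?_
    have hb : ∀ j ∈ range H, ‖∑ j' ∈ (range H).erase j,
        ∑ γ ∈ Γ, ex (((j : ℝ) - j') * ((M : ℝ) * γ / N - s))‖ ≤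
        2 * ∑ h ∈ Ico 1 H, ‖SS Γ N M h‖ := by
      intro j hj
      refine le_trans (norm_sum_le _ _) ?_
      refine le_trans (le_of_eq ?_) (off_sum (fun h => ‖SS Γ N M h‖) (fun _ => norm_nonneg _) H j
        (mem_range.mp hj))
      exact Finset.sum_congr rfl fun j' _ => norm_shift Γ N M s j j'
    have hb2 := Finset.sum_le_card_nsmul (range H) _ _ hb
    rw [nsmul_eq_mul, Finset.card_range] at hb2
    exact hb2
  set R := ∑ j ∈ range H, ∑ j' ∈ (range H).erase j,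
        ∑ γ ∈ Γ, ex (((j : ℝ) - j') * ((M : ℝ) * γ / N - s)) with hRdef
  set T := ∑ γ ∈ Γ, ‖∑ j ∈ range H, ex ((j : ℝ) * ((M : ℝ) * γ / N - s))‖ ^ 2 with hTdef
  have hf : (H : ℝ) * Γ.card = T - R.re := by
    have := congrArg Complex.re hD
    rw [Complex.ofReal_re, Complex.add_re] at this
    have h2 : ((H : ℂ) * (Γ.card : ℂ)).re = (H : ℝ) * Γ.card := by
      rw [← Complex.ofReal_natCast, ← Complex.ofReal_natCast, ← Complex.ofReal_mul,
        Complex.ofReal_re]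
    rw [h2] at this
    linarith
  have hre : -R.re ≤ ‖R‖ := le_trans (neg_le_abs R.re) (Complex.abs_re_le_norm R)
  have hx2 : (1 / ξ) ^ 2 ≤ H / 2 := by
    rw [div_pow, one_pow, div_le_div_iff₀ (by positivity) (by norm_num)]
    linarith
  have hg : (0 : ℝ) ≤ Γ.card := Nat.cast_nonneg _
  have hH0 : (0 : ℝ) < H := by
    by_contra hcon
    have h1 : (H : ℝ) * ξ ^ 2 ≤ 0 := mul_nonpos_of_nonpos_of_nonneg (not_lt.mp hcon) (by positivity)
    linarith
  have h9 : (H : ℝ) * Γ.card ≤ Γ.card * (H / 2) + H * (2 * ∑ h ∈ Ico 1 H, ‖SS Γ N M h‖) := by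
    have := mul_le_mul_of_nonneg_left hx2 hg
    linarith
  have h10 : (H : ℝ) * (Γ.card / 4) ≤ H * ∑ h ∈ Ico 1 H, ‖SS Γ N M h‖ := by linarith
  exact le_of_mul_le_mul_left h10 hH0

open Classical in
/-- few multipliers have a large exponential sum -/
theorem bad_card (Γ : Finset ℕ) (N H : ℕ) (hN : 0 < N) (hΓ : ∀ γ ∈ Γ, H * γ < N) :
    ((((range N).filter fun M => (Γ.card : ℝ) / 4 ≤ ∑ h ∈ Ico 1 H, ‖SS Γ N M h‖).card : ℕ) : ℝ) *
      Γ.card ≤ 16 * H ^ 2 * N := by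
  set Bad := (range N).filter fun M => (Γ.card : ℝ) / 4 ≤ ∑ h ∈ Ico 1 H, ‖SS Γ N M h‖ with hBad
  rcases Nat.eq_zero_or_pos Γ.card with hz | hpos
  · rw [hz]
    simp
    positivity
  have hg : (0 : ℝ) < Γ.card := by exact_mod_cast hpos
  have h1 : (Bad.card : ℝ) * ((Γ.card : ℝ) / 4) ^ 2 ≤
      ∑ M ∈ range N, (∑ h ∈ Ico 1 H, ‖SS Γ N M h‖) ^ 2 := by
    rw [← nsmul_eq_mul]
    refine le_trans (Finset.card_nsmul_le_sum Bad _ _ fun M hM => ?_)
      (Finset.sum_le_sum_of_subset_of_nonneg (Finset.filter_subset _ _) fun _ _ _ => sq_nonneg _)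
    rw [hBad, mem_filter] at hM
    exact pow_le_pow_left₀ (by positivity) hM.2 2
  have h2 : ∑ M ∈ range N, (∑ h ∈ Ico 1 H, ‖SS Γ N M h‖) ^ 2 ≤
      ∑ M ∈ range N, (H : ℝ) * ∑ h ∈ Ico 1 H, ‖SS Γ N M h‖ ^ 2 := by
    refine Finset.sum_le_sum fun M _ => ?_
    refine le_trans sq_sum_le_card_mul_sum_sq ?_
    refine mul_le_mul_of_nonneg_right ?_ (Finset.sum_nonneg fun _ _ => sq_nonneg _)
    rw [Nat.card_Ico]
    exact_mod_cast Nat.sub_le _ _
  have h3 : ∑ M ∈ range N, (H : ℝ) * ∑ h ∈ Ico 1 H, ‖SS Γ N M h‖ ^ 2 =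
      H * ∑ h ∈ Ico 1 H, ∑ M ∈ range N, ‖SS Γ N M h‖ ^ 2 := by
    rw [← Finset.mul_sum, Finset.sum_comm]
  have h4 : ∑ h ∈ Ico 1 H, ∑ M ∈ range N, ‖SS Γ N M h‖ ^ 2 ≤ H * (N * Γ.card) := by
    have h5 : ∀ h ∈ Ico 1 H, ∑ M ∈ range N, ‖SS Γ N M h‖ ^ 2 ≤ (N : ℝ) * Γ.card := by
      intro h hh
      rw [mem_Ico] at hh
      refine le_of_eq (moment Γ N h hN (by omega) fun γ hγ => ?_)
      exact lt_of_le_of_lt (Nat.mul_le_mul_right _ hh.2.le) (hΓ γ hγ)
    refine le_trans (Finset.sum_le_card_nsmul _ _ _ h5) ?_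
    rw [nsmul_eq_mul, Nat.card_Ico]
    refine mul_le_mul_of_nonneg_right ?_ (by positivity)
    exact_mod_cast Nat.sub_le _ _
  have h6 : (Bad.card : ℝ) * ((Γ.card : ℝ) / 4) ^ 2 ≤ H * (H * (N * Γ.card)) := by
    refine le_trans h1 (le_trans h2 ?_)
    rw [h3]
    exact mul_le_mul_of_nonneg_left h4 (Nat.cast_nonneg _)
  have h7 : (Bad.card : ℝ) * Γ.card * (Γ.card) ≤ 16 * H ^ 2 * N * Γ.card := by
    have : (Bad.card : ℝ) * ((Γ.card : ℝ) / 4) ^ 2 = (Bad.card : ℝ) * Γ.card * Γ.card / 16 := by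
      ring
    rw [this] at h6
    have h8 : (Bad.card : ℝ) * Γ.card * Γ.card ≤ 16 * (H * (H * (N * Γ.card))) := by linarith
    calc (Bad.card : ℝ) * Γ.card * Γ.card ≤ 16 * (H * (H * (N * Γ.card))) := h8
      _ = 16 * H ^ 2 * N * Γ.card := by ring
  exact le_of_mul_le_mul_right h7 hg

end Pool.Agent.Lib.AbcZ
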