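import Mathlib

/-!
# A prime with dense phases: exponential sums
-/

namespace Pool.Agent.Lib.AbcZ

open Finset

/-- `e(x) = exp(2 π i x)` -/
noncomputable def ee (x : ℝ) : ℂ := Complex.exp (Complex.I * ((2 * Real.pi * x : ℝ) : ℂ))

theorem ee_add (x y : ℝ) : ee (x + y) = ee x * ee y := by
  unfold ee
  rw [← Complex.exp_add, mul_add]
  push_cast
  ring_nf

theorem ee_zero : ee 0 = 1 := by
  unfold ee
  simp

theorem norm_ee (x : ℝ) : ‖ee x‖ = 1 := by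
  unfold ee
  rw [mul_comm]
  exact Complex.norm_exp_ofReal_mul_I _

theorem ee_int (k : ℤ) : ee k = 1 := by
  unfold ee
  have h := Complex.exp_int_mul_two_pi_mul_I k
  rw [← h]
  congr 1
  push_cast
  ring

theorem ee_nat_mul (j : ℕ) (x : ℝ) : ee (j * x) = ee x ^ j := by
  unfold ee
  rw [← Complex.exp_nat_mul]
  congr 1
  push_cast
  ring

theorem ee_neg (x : ℝ) : ee (-x) = (starRingEnd ℂ) (ee x) := by
  unfold ee
  rw [← Complex.exp_conj, map_mul, Complex.conj_I, Complex.conj_ofReal]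
  congr 1
  push_cast
  ring

/-- `|e(x) - 1| ≥ 4 |x|` for `|x| ≤ 1/2` -/
theorem norm_ee_sub_one {x : ℝ} (hx : |x| ≤ 1 / 2) : 4 * |x| ≤ ‖ee x - 1‖ := by
  unfold ee
  rw [Complex.norm_exp_I_mul_ofReal_sub_one, norm_mul, Real.norm_eq_abs, Real.norm_eq_abs,
    abs_of_pos (by norm_num : (0 : ℝ) < 2)]
  have hpi := Real.pi_pos
  have h1 : |2 * Real.pi * x / 2| ≤ Real.pi / 2 := by
    have e1 : 2 * Real.pi * x / 2 = Real.pi * x := by ring
    rw [e1, abs_mul, abs_of_pos hpi]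
    nlinarith
  have h2 := Real.mul_abs_le_abs_sin h1
  have h3 : 2 / Real.pi * |2 * Real.pi * x / 2| = 2 * |x| := by
    have e1 : 2 * Real.pi * x / 2 = Real.pi * x := by ring
    rw [e1, abs_mul, abs_of_pos hpi]
    field_simp
  rw [h3] at h2
  linarith

/-- geometric sum -/
theorem norm_geom {x : ℝ} (m : ℕ) (hx : |x| ≤ 1 / 2) (hx0 : x ≠ 0) :
    ‖∑ j ∈ range m, ee (j * x)‖ ≤ 1 / (2 * |x|) := by
  have h0 : 0 < |x| := abs_pos.2 hx0
  have h1 := norm_ee_sub_one hx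
  have h2 : (∑ j ∈ range m, ee (j * x)) * (ee x - 1) = ee x ^ m - 1 := by
    simp_rw [ee_nat_mul]
    rw [mul_comm]
    exact mul_geom_sum (ee x) m
  have h3 : ‖ee x ^ m - 1‖ ≤ 2 := by
    refine (norm_sub_le _ _).trans ?_
    rw [norm_pow, norm_ee, one_pow, norm_one]
    norm_num
  have h4 := congrArg norm h2
  rw [norm_mul] at h4
  rw [le_div_iff₀ (by positivity)]
  have h5 : 0 ≤ ‖∑ j ∈ range m, ee (j * x)‖ := norm_nonneg _
  nlinarith [mul_le_mul_of_nonneg_left h1 h5]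

/-- the same, by the distance to the integers -/
theorem norm_geom' {y ξ : ℝ} (m : ℕ) (hξ : 0 < ξ) (h1 : ξ / 2 ≤ y) (h2 : y ≤ 1 - ξ / 2) :
    ‖∑ j ∈ range m, ee (j * y)‖ ≤ 1 / ξ := by
  rcases le_or_gt y (1 / 2) with h | h
  · have hy : 0 < y := by linarith
    have h3 := norm_geom (x := y) m (by rw [abs_of_pos hy]; exact h) hy.ne'
    refine h3.trans ?_
    rw [abs_of_pos hy]
    exact one_div_le_one_div_of_le hξ (by linarith)
  · have hy : 0 < 1 - y := by linarith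
    have e1 : ∀ j : ℕ, ee (j * y) = ee (j * (y - 1)) := by
      intro j
      have : (j : ℝ) * y = j * (y - 1) + ((j : ℤ) : ℝ) := by push_cast; ring
      rw [this, ee_add, ee_int, mul_one]
    rw [Finset.sum_congr rfl fun j _ => e1 j]
    have h3 := norm_geom (x := y - 1) m (by rw [abs_sub_comm, abs_of_pos hy]; linarith) (by linarith)
    refine h3.trans ?_
    rw [abs_sub_comm, abs_of_pos hy]
    exact one_div_le_one_div_of_le hξ (by linarith)

/-- the positive kernel, on average -/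
theorem kernelT_lower (Γ : Finset ℕ) (y : ℕ → ℝ) (m : ℕ) (B : ℝ)
    (hB : ∀ h : ℕ, 1 ≤ h → h < m → ‖∑ γ ∈ Γ, ee (h * y γ)‖ ≤ B) (hB0 : 0 ≤ B) :
    (m : ℝ) * Γ.card - m ^ 2 * B ≤ ∑ γ ∈ Γ, ‖∑ j ∈ range m, ee (j * y γ)‖ ^ 2 := by
  have e1 : ∀ γ, ((‖∑ j ∈ range m, ee (j * y γ)‖ ^ 2 : ℝ) : ℂ) =
      ∑ j ∈ range m, ∑ j' ∈ range m, ee (((j : ℝ) - j') * y γ) := by
    intro γ
    push_cast
    rw [← Complex.mul_conj', map_sum, Finset.sum_mul_sum]
    refine Finset.sum_congr rfl fun j _ => Finset.sum_congr rfl fun j' _ => ?_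
    rw [← ee_neg, ← ee_add]
    congr 1
    ring
  have e2 : ((∑ γ ∈ Γ, ‖∑ j ∈ range m, ee (j * y γ)‖ ^ 2 : ℝ) : ℂ) =
      ∑ j ∈ range m, ∑ j' ∈ range m, ∑ γ ∈ Γ, ee (((j : ℝ) - j') * y γ) := by
    rw [Complex.ofReal_sum, Finset.sum_congr rfl fun γ _ => e1 γ, Finset.sum_comm]
    refine Finset.sum_congr rfl fun j _ => ?_
    rw [Finset.sum_comm]
  have h1 : ∀ j ∈ range m, ∀ j' ∈ range m,
      ‖∑ γ ∈ Γ, ee (((j : ℝ) - j') * y γ) - (if j = j' then (Γ.card : ℂ) else 0)‖ ≤ B := by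
    intro j hj j' hj'
    rw [mem_range] at hj hj'
    rcases lt_trichotomy j j' with h | h | h
    · rw [if_neg h.ne, sub_zero]
      have h2 := hB (j' - j) (by omega) (by omega)
      rw [← Complex.norm_conj, map_sum] at h2
      refine le_trans (le_of_eq ?_) h2
      congr 1
      refine Finset.sum_congr rfl fun γ _ => ?_
      rw [← ee_neg]
      congr 1
      rw [Nat.cast_sub h.le]
      ring
    · subst h
      rw [if_pos rfl]
      have h3 : ∑ γ ∈ Γ, ee (((j : ℝ) - j) * y γ) = (Γ.card : ℂ) := by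
        rw [sub_self]
        simp [ee_zero]
      rw [h3, sub_self, norm_zero]
      exact hB0
    · rw [if_neg h.ne', sub_zero]
      have h2 := hB (j - j') (by omega) (by omega)
      refine le_trans (le_of_eq ?_) h2
      congr 1
      refine Finset.sum_congr rfl fun γ _ => ?_
      congr 1
      rw [Nat.cast_sub h.le]
  have h2 : ‖((∑ γ ∈ Γ, ‖∑ j ∈ range m, ee (j * y γ)‖ ^ 2 : ℝ) : ℂ) - ((m * Γ.card : ℝ) : ℂ)‖ ≤
      m ^ 2 * B := by
    have e3 : ((m * Γ.card : ℝ) : ℂ) =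
        ∑ j ∈ range m, ∑ j' ∈ range m, (if j = j' then (Γ.card : ℂ) else 0) := by
      have : ∀ j ∈ range m, ∑ j' ∈ range m, (if j = j' then (Γ.card : ℂ) else 0) = Γ.card := by
        intro j hj
        rw [Finset.sum_ite_eq, if_pos hj]
      rw [Finset.sum_congr rfl this, Finset.sum_const, card_range, nsmul_eq_mul]
      push_cast
      ring
    rw [e2, e3, ← Finset.sum_sub_distrib]
    refine (norm_sum_le _ _).trans ?_
    have h3 : ∀ j ∈ range m, ‖∑ j' ∈ range m, ∑ γ ∈ Γ, ee (((j : ℝ) - j') * y γ) -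
        ∑ j' ∈ range m, (if j = j' then (Γ.card : ℂ) else 0)‖ ≤ m * B := by
      intro j hj
      rw [← Finset.sum_sub_distrib]
      refine (norm_sum_le _ _).trans ?_
      refine (Finset.sum_le_sum fun j' hj' => h1 j hj j' hj').trans ?_
      rw [Finset.sum_const, card_range, nsmul_eq_mul]
    refine (Finset.sum_le_sum h3).trans ?_
    rw [Finset.sum_const, card_range, nsmul_eq_mul]
    exact le_of_eq (by ring)
  rw [← Complex.ofReal_sub, Complex.norm_real, Real.norm_eq_abs] at h2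
  have h3 := (abs_le.1 h2).1
  linarith

/-- **small exponential sums imply density** -/
theorem dense_of_small (Γ : Finset ℕ) (hΓ : Γ.Nonempty) (N M m : ℕ) (hN : 0 < N) (ξ : ℝ)
    (hξ : 0 < ξ) (hm : 2 / ξ ^ 2 < m)
    (hsmall : ∀ h : ℕ, 1 ≤ h → h < m →
      ‖∑ γ ∈ Γ, ee (((h * M * γ : ℕ) : ℝ) / N)‖ < (Γ.card : ℝ) / (2 * m)) :
    ∀ c : ℕ, c < N → ∃ γ ∈ Γ, (((M * γ + (N - c)) % N : ℕ) : ℝ) < ξ * N := by
  intro c hc
  by_contra hcon
  push Not at hcon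
  have hN' : (0 : ℝ) < N := by exact_mod_cast hN
  have hm0 : (0 : ℝ) < m := lt_trans (by positivity) hm
  have hcard : (0 : ℝ) < Γ.card := by exact_mod_cast Finset.card_pos.2 hΓ
  set y : ℕ → ℝ := fun γ => (((M * γ + (N - c)) % N : ℕ) : ℝ) / N - ξ / 2 with hy
  have h1 : ∀ γ ∈ Γ, ‖∑ j ∈ range m, ee (j * y γ)‖ ≤ 1 / ξ := by
    intro γ hγ
    refine norm_geom' m hξ ?_ ?_
    · have h2 := hcon γ hγ
      have h3 : ξ ≤ (((M * γ + (N - c)) % N : ℕ) : ℝ) / N := by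
        rw [le_div_iff₀ hN']
        exact h2
      show ξ / 2 ≤ (((M * γ + (N - c)) % N : ℕ) : ℝ) / N - ξ / 2
      linarith
    · have h2 : (((M * γ + (N - c)) % N : ℕ) : ℝ) / N ≤ 1 := by
        rw [div_le_one hN']
        exact_mod_cast (Nat.mod_lt _ hN).le
      show (((M * γ + (N - c)) % N : ℕ) : ℝ) / N - ξ / 2 ≤ 1 - ξ / 2
      linarith
  have h2 : ∑ γ ∈ Γ, ‖∑ j ∈ range m, ee (j * y γ)‖ ^ 2 ≤ Γ.card * (1 / ξ ^ 2) := by
    refine (Finset.sum_le_sum fun γ hγ => ?_).trans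
      (le_of_eq (by rw [Finset.sum_const, nsmul_eq_mul]) : ∑ _γ ∈ Γ, (1 / ξ ^ 2) ≤ _)
    have h3 := pow_le_pow_left₀ (norm_nonneg _) (h1 γ hγ) 2
    rwa [div_pow, one_pow] at h3
  have h3 := kernelT_lower Γ y m ((Γ.card : ℝ) / (2 * m)) (by
    intro h hh1 hh2
    have h4 : ∀ γ ∈ Γ, ee (h * y γ) =
        ee (((h * M * γ : ℕ) : ℝ) / N) * ee (h * (((N - c : ℕ) : ℝ) / N - ξ / 2)) := by
      intro γ _
      obtain ⟨D, hD⟩ : ∃ D : ℕ, D = (M * γ + (N - c)) / N := ⟨_, rfl⟩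
      have h5 : (((M * γ + (N - c)) % N : ℕ) : ℝ) =
          ((M : ℝ) * γ + ((N - c : ℕ) : ℝ)) - N * (D : ℝ) := by
        have h6 := Nat.mod_add_div (M * γ + (N - c)) N
        rw [← hD] at h6
        have h7 : (((M * γ + (N - c)) % N : ℕ) : ℝ) + N * (D : ℝ) =
            ((M * γ + (N - c) : ℕ) : ℝ) := by exact_mod_cast h6
        push_cast at h7 ⊢
        linarith
      have h8 : (h : ℝ) * y γ = ((h * M * γ : ℕ) : ℝ) / N + (h * (((N - c : ℕ) : ℝ) / N - ξ / 2)) +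
          ((-((h : ℤ) * (D : ℤ)) : ℤ) : ℝ) := by
        show (h : ℝ) * ((((M * γ + (N - c)) % N : ℕ) : ℝ) / N - ξ / 2) = _
        rw [h5]
        push_cast
        field_simp
        ring
      rw [h8, ee_add, ee_int, mul_one, ee_add]
    rw [Finset.sum_congr rfl h4, ← Finset.sum_mul, norm_mul, norm_ee, mul_one]
    exact (hsmall h hh1 hh2).le) (by positivity)
  have h4 : (m : ℝ) * Γ.card - m ^ 2 * ((Γ.card : ℝ) / (2 * m)) = Γ.card * (m / 2) := by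
    field_simp
    ring
  rw [h4] at h3
  have h5 := le_of_mul_le_mul_left (h3.trans h2) hcard
  have h6 : 2 / ξ ^ 2 = 2 * (1 / ξ ^ 2) := by ring
  rw [h6] at hm
  linarith

/-- the sum of the reciprocal distances -/
theorem sum_inv_dist (Γ : Finset ℕ) (N : ℕ) (hN : 0 < N) (hΓ : ∀ γ ∈ Γ, γ ≤ N) (γ : ℕ)
    (hγ : γ ∈ Γ) : ∑ γ' ∈ Γ.erase γ, 1 / |(γ : ℝ) - γ'| ≤ 2 * (1 + Real.log N) := by
  classical
  have hh : ∑ d ∈ range N, 1 / ((d : ℝ) + 1) ≤ 1 + Real.log N := by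
    have h := harmonic_le_one_add_log N
    refine le_trans (le_of_eq ?_) h
    unfold harmonic
    push_cast
    refine Finset.sum_congr rfl fun d _ => ?_
    rw [one_div]
  have hsplit : ∑ γ' ∈ Γ.erase γ, 1 / |(γ : ℝ) - γ'| =
      ∑ γ' ∈ (Γ.erase γ).filter (fun γ' => γ' < γ), 1 / |(γ : ℝ) - γ'| +
        ∑ γ' ∈ (Γ.erase γ).filter (fun γ' => ¬ γ' < γ), 1 / |(γ : ℝ) - γ'| :=
    (Finset.sum_filter_add_sum_filter_not _ _ _).symm
  have h1 : ∑ γ' ∈ (Γ.erase γ).filter (fun γ' => γ' < γ), 1 / |(γ : ℝ) - γ'| ≤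
      ∑ d ∈ range N, 1 / ((d : ℝ) + 1) := by
    have e1 : ∑ γ' ∈ (Γ.erase γ).filter (fun γ' => γ' < γ), 1 / |(γ : ℝ) - γ'| =
        ∑ d ∈ ((Γ.erase γ).filter (fun γ' => γ' < γ)).image (fun γ' => γ - γ' - 1),
          1 / ((d : ℝ) + 1) := by
      rw [Finset.sum_image]
      · refine Finset.sum_congr rfl fun γ' h => ?_
        have h2 := (mem_filter.1 h).2
        have h3 : ((γ - γ' - 1 : ℕ) : ℝ) + 1 = (γ : ℝ) - γ' := by
          have : γ - γ' - 1 + 1 + γ' = γ := by omega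
          have h4 : ((γ - γ' - 1 + 1 + γ' : ℕ) : ℝ) = γ := by rw [this]
          push_cast at h4
          linarith
        have h4 : (γ' : ℝ) < γ := by exact_mod_cast h2
        rw [h3, abs_of_pos (by linarith)]
      · intro a ha b hb hab
        have ha2 := (mem_filter.1 ha).2
        have hb2 := (mem_filter.1 hb).2
        simp only at hab
        omega
    rw [e1]
    refine Finset.sum_le_sum_of_subset_of_nonneg ?_ fun d _ _ => by positivity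
    intro d hd
    rw [mem_image] at hd
    obtain ⟨γ', h, rfl⟩ := hd
    have h2 := (mem_filter.1 h).2
    have h3 := hΓ γ hγ
    rw [mem_range]
    omega
  have h2 : ∑ γ' ∈ (Γ.erase γ).filter (fun γ' => ¬ γ' < γ), 1 / |(γ : ℝ) - γ'| ≤
      ∑ d ∈ range N, 1 / ((d : ℝ) + 1) := by
    have e1 : ∑ γ' ∈ (Γ.erase γ).filter (fun γ' => ¬ γ' < γ), 1 / |(γ : ℝ) - γ'| =
        ∑ d ∈ ((Γ.erase γ).filter (fun γ' => ¬ γ' < γ)).image (fun γ' => γ' - γ - 1),
          1 / ((d : ℝ) + 1) := by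
      rw [Finset.sum_image]
      · refine Finset.sum_congr rfl fun γ' h => ?_
        have h2 := (mem_filter.1 h).2
        have h2' := (mem_erase.1 (mem_filter.1 h).1).1
        have h5 : γ < γ' := by omega
        have h3 : ((γ' - γ - 1 : ℕ) : ℝ) + 1 = (γ' : ℝ) - γ := by
          have : γ' - γ - 1 + 1 + γ = γ' := by omega
          have h4 : ((γ' - γ - 1 + 1 + γ : ℕ) : ℝ) = γ' := by rw [this]
          push_cast at h4
          linarith
        have h4 : (γ : ℝ) < γ' := by exact_mod_cast h5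
        rw [h3, abs_sub_comm, abs_of_pos (by linarith)]
      · intro a ha b hb hab
        have ha2 := (mem_filter.1 ha).2
        have hb2 := (mem_filter.1 hb).2
        have ha3 := (mem_erase.1 (mem_filter.1 ha).1).1
        have hb3 := (mem_erase.1 (mem_filter.1 hb).1).1
        simp only at hab
        omega
    rw [e1]
    refine Finset.sum_le_sum_of_subset_of_nonneg ?_ fun d _ _ => by positivity
    intro d hd
    rw [mem_image] at hd
    obtain ⟨γ', h, rfl⟩ := hd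
    have h2 := (mem_filter.1 h).2
    have h3 := hΓ γ' (mem_erase.1 (mem_filter.1 h).1).2
    rw [mem_range]
    omega
  rw [hsplit]
  linarith

/-- **second moment** over all `M < X` -/
theorem second_moment (Γ : Finset ℕ) (N X h : ℕ) (hN : 0 < N) (hh : 1 ≤ h)
    (hΓ : ∀ γ ∈ Γ, 2 * h * γ ≤ N) :
    ∑ M ∈ range X, ‖∑ γ ∈ Γ, ee (((h * M * γ : ℕ) : ℝ) / N)‖ ^ 2 ≤
      Γ.card * (X + N * (1 + Real.log N)) := by
  classical
  have hN' : (0 : ℝ) < N := by exact_mod_cast hN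
  have hΓ' : ∀ γ ∈ Γ, γ ≤ N := fun γ hγ => by
    have := hΓ γ hγ
    nlinarith
  have e1 : ∀ M : ℕ, ((‖∑ γ ∈ Γ, ee (((h * M * γ : ℕ) : ℝ) / N)‖ ^ 2 : ℝ) : ℂ) =
      ∑ γ ∈ Γ, ∑ γ' ∈ Γ, ee ((M : ℝ) * (h * ((γ : ℝ) - γ') / N)) := by
    intro M
    push_cast
    rw [← Complex.mul_conj', map_sum, Finset.sum_mul_sum]
    refine Finset.sum_congr rfl fun j _ => Finset.sum_congr rfl fun j' _ => ?_
    rw [← ee_neg, ← ee_add]
    congr 1
    ring
  have e2 : ((∑ M ∈ range X, ‖∑ γ ∈ Γ, ee (((h * M * γ : ℕ) : ℝ) / N)‖ ^ 2 : ℝ) : ℂ) =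
      ∑ γ ∈ Γ, ∑ γ' ∈ Γ, ∑ M ∈ range X, ee ((M : ℝ) * (h * ((γ : ℝ) - γ') / N)) := by
    rw [Complex.ofReal_sum, Finset.sum_congr rfl fun M _ => e1 M, Finset.sum_comm]
    refine Finset.sum_congr rfl fun γ _ => ?_
    rw [Finset.sum_comm]
  have h1 : ∀ γ ∈ Γ, ∀ γ' ∈ Γ, γ' ≠ γ →
      ‖∑ M ∈ range X, ee ((M : ℝ) * (h * ((γ : ℝ) - γ') / N))‖ ≤ N / 2 * (1 / |(γ : ℝ) - γ'|) := by
    intro γ hγ γ' hγ' hne
    have hne' : (γ : ℝ) - γ' ≠ 0 := by
      intro h0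
      apply hne
      have : (γ' : ℝ) = γ := by linarith
      exact_mod_cast this
    have hpos : 0 < |(γ : ℝ) - γ'| := abs_pos.2 hne'
    have hh' : (1 : ℝ) ≤ h := by exact_mod_cast hh
    have habs : |(h : ℝ) * ((γ : ℝ) - γ') / N| = h * |(γ : ℝ) - γ'| / N := by
      rw [abs_div, abs_mul, abs_of_pos hN', abs_of_pos (by linarith : (0 : ℝ) < h)]
    have hle : |(h : ℝ) * ((γ : ℝ) - γ') / N| ≤ 1 / 2 := by
      rw [habs, div_le_div_iff₀ hN' (by norm_num)]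
      have a1 : (2 : ℝ) * h * γ ≤ N := by exact_mod_cast hΓ γ hγ
      have a2 : (2 : ℝ) * h * γ' ≤ N := by exact_mod_cast hΓ γ' hγ'
      have a3 : |(γ : ℝ) - γ'| ≤ max (γ : ℝ) (γ' : ℝ) := by
        rw [abs_le]
        constructor
        · have := le_max_right (γ : ℝ) (γ' : ℝ)
          have := (Nat.cast_nonneg γ : (0 : ℝ) ≤ γ)
          linarith
        · have := le_max_left (γ : ℝ) (γ' : ℝ)
          have := (Nat.cast_nonneg γ' : (0 : ℝ) ≤ γ')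
          linarith
      have a4 : (2 : ℝ) * h * max (γ : ℝ) (γ' : ℝ) ≤ N := by
        rcases max_choice (γ : ℝ) (γ' : ℝ) with h5 | h5 <;> rw [h5] <;> assumption
      nlinarith [mul_le_mul_of_nonneg_left a3 (by linarith : (0 : ℝ) ≤ 2 * h)]
    refine (norm_geom X hle (div_ne_zero (mul_ne_zero (by linarith) hne') hN'.ne')).trans ?_
    rw [habs]
    rw [div_mul_div_comm, mul_one, div_le_div_iff₀ (by positivity) (by positivity)]
    have : 1 * (2 * |(γ : ℝ) - γ'|) ≤ N * (2 * (h * |(γ : ℝ) - γ'| / N)) := by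
      have e3 : (N : ℝ) * (2 * (h * |(γ : ℝ) - γ'| / N)) = 2 * (h * |(γ : ℝ) - γ'|) := by
        field_simp
      rw [e3]
      nlinarith
    exact this
  have h2 : ∀ γ ∈ Γ, ‖∑ γ' ∈ Γ, ∑ M ∈ range X, ee ((M : ℝ) * (h * ((γ : ℝ) - γ') / N))‖ ≤
      X + N * (1 + Real.log N) := by
    intro γ hγ
    rw [← Finset.add_sum_erase _ _ hγ]
    refine (norm_add_le _ _).trans (add_le_add ?_ ?_)
    · refine (norm_sum_le _ _).trans ?_
      rw [Finset.sum_congr rfl fun M _ => norm_ee _]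
      simp
    · refine (norm_sum_le _ _).trans ?_
      refine (Finset.sum_le_sum fun γ' hγ' => h1 γ hγ γ' (mem_erase.1 hγ').2
        (mem_erase.1 hγ').1).trans ?_
      rw [← Finset.mul_sum]
      have h3 := sum_inv_dist Γ N hN hΓ' γ hγ
      nlinarith
  have h3 : (∑ M ∈ range X, ‖∑ γ ∈ Γ, ee (((h * M * γ : ℕ) : ℝ) / N)‖ ^ 2 : ℝ) ≤
      ‖((∑ M ∈ range X, ‖∑ γ ∈ Γ, ee (((h * M * γ : ℕ) : ℝ) / N)‖ ^ 2 : ℝ) : ℂ)‖ := by
    rw [Complex.norm_real]
    exact le_abs_self _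
  refine h3.trans ?_
  rw [e2]
  refine (norm_sum_le _ _).trans ((Finset.sum_le_sum h2).trans ?_)
  rw [Finset.sum_const, nsmul_eq_mul]

/-- **a prime with dense phases**, from the number of primes -/
theorem prime_dense_of_many (δ ξ η : ℝ) (hδ1 : δ ≤ 1) (hξ : 0 < ξ) (hη : 0 < η)
    (hmany : ∃ c : ℝ, 0 < c ∧ ∃ N0 : ℕ, ∀ N : ℕ, N0 ≤ N → c * N / Real.log N ≤
      (((range (N + 1)).filter (fun M : ℕ => M.Prime ∧ δ / 4 * N < M ∧ (M : ℝ) ≤ δ * N)).card : ℝ)) :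
    ∃ C N0 : ℕ, 0 < C ∧ ∀ N : ℕ, N0 ≤ N → ∀ Γ : Finset ℕ, (∀ γ ∈ Γ, C * γ ≤ N) →
      (N : ℝ) ^ η ≤ Γ.card →
      ∃ M : ℕ, M.Prime ∧ δ / 4 * N < M ∧ (M : ℝ) ≤ δ * N ∧
        ∀ c : ℕ, c < N → ∃ γ ∈ Γ, (((M * γ + (N - c)) % N : ℕ) : ℝ) < ξ * N := by
  obtain ⟨c, hc, N1, h1⟩ := hmany
  obtain ⟨m, hm⟩ : ∃ m : ℕ, 2 / ξ ^ 2 < m := exists_nat_gt _
  have hm0' : (0 : ℝ) < m := lt_trans (by positivity) hm
  have hm0 : 0 < m := by exact_mod_cast hm0'
  have hev : ∃ N2 : ℕ, ∀ N : ℕ, N2 ≤ N →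
      4 * (m : ℝ) ^ 3 * ((4 / η) * (3 + 4 / η)) < c * (N : ℝ) ^ (η / 2) := by
    have h2 : Filter.Tendsto (fun N : ℕ => c * (N : ℝ) ^ (η / 2)) Filter.atTop Filter.atTop :=
      Filter.Tendsto.const_mul_atTop hc
        ((tendsto_rpow_atTop (by linarith : 0 < η / 2)).comp tendsto_natCast_atTop_atTop)
    exact Filter.eventually_atTop.1 (h2.eventually_gt_atTop _)
  obtain ⟨N2, h2⟩ := hev
  refine ⟨2 * m, max (max N1 N2) 3, by omega, ?_⟩
  intro N hN Γ hΓ hcard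
  have hNN1 : N1 ≤ N := le_trans (le_trans (le_max_left _ _) (le_max_left _ _)) hN
  have hNN2 : N2 ≤ N := le_trans (le_trans (le_max_right _ _) (le_max_left _ _)) hN
  have hN3 : 3 ≤ N := le_trans (le_max_right _ _) hN
  have hNpos : 0 < N := by omega
  have hN' : (0 : ℝ) < N := by exact_mod_cast hNpos
  have hN1' : (1 : ℝ) ≤ N := by exact_mod_cast hNpos
  have hN3' : (3 : ℝ) ≤ N := by exact_mod_cast hN3
  have hlog : 0 < Real.log N := Real.log_pos (by linarith)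
  have hcardpos : (0 : ℝ) < Γ.card := lt_of_lt_of_le (Real.rpow_pos_of_pos hN' η) hcard
  have hΓne : Γ.Nonempty := Finset.card_pos.1 (by exact_mod_cast hcardpos)
  by_contra hcon
  push Not at hcon
  have h3 : ∀ M ∈ (range (N + 1)).filter
      (fun M : ℕ => M.Prime ∧ δ / 4 * N < M ∧ (M : ℝ) ≤ δ * N),
      ((Γ.card : ℝ) / (2 * m)) ^ 2 ≤
        ∑ h ∈ Ico 1 m, ‖∑ γ ∈ Γ, ee (((h * M * γ : ℕ) : ℝ) / N)‖ ^ 2 := by
    intro M hM
    rw [mem_filter] at hM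
    obtain ⟨c', hc', hcc⟩ := hcon M hM.2.1 hM.2.2.1 hM.2.2.2
    by_contra hlt
    push Not at hlt
    have h4 : ∀ h : ℕ, 1 ≤ h → h < m →
        ‖∑ γ ∈ Γ, ee (((h * M * γ : ℕ) : ℝ) / N)‖ < (Γ.card : ℝ) / (2 * m) := by
      intro h hh1 hh2
      have h5 : ‖∑ γ ∈ Γ, ee (((h * M * γ : ℕ) : ℝ) / N)‖ ^ 2 < ((Γ.card : ℝ) / (2 * m)) ^ 2 :=
        lt_of_le_of_lt (Finset.single_le_sum
          (f := fun h => ‖∑ γ ∈ Γ, ee (((h * M * γ : ℕ) : ℝ) / N)‖ ^ 2)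
          (fun _ _ => by positivity) (mem_Ico.2 ⟨hh1, hh2⟩)) hlt
      exact lt_of_pow_lt_pow_left₀ 2 (by positivity) h5
    obtain ⟨γ, hγ, h6⟩ := dense_of_small Γ hΓne N M m hNpos ξ hξ hm h4 c' hc'
    exact absurd h6 (not_lt.2 (hcc γ hγ))
  have h4 : ∑ M ∈ range (N + 1), ∑ h ∈ Ico 1 m, ‖∑ γ ∈ Γ, ee (((h * M * γ : ℕ) : ℝ) / N)‖ ^ 2 ≤
      m * (Γ.card * ((N + 1 : ℕ) + N * (1 + Real.log N))) := by
    rw [Finset.sum_comm]
    have h5 : ∀ h ∈ Ico 1 m, ∑ M ∈ range (N + 1), ‖∑ γ ∈ Γ, ee (((h * M * γ : ℕ) : ℝ) / N)‖ ^ 2 ≤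
        Γ.card * ((N + 1 : ℕ) + N * (1 + Real.log N)) := by
      intro h hh
      rw [mem_Ico] at hh
      refine second_moment Γ N (N + 1) h hNpos hh.1 fun γ hγ => ?_
      have h6 := hΓ γ hγ
      have h7 : 2 * h * γ ≤ 2 * m * γ := Nat.mul_le_mul_right _ (Nat.mul_le_mul_left _ hh.2.le)
      omega
    refine (Finset.sum_le_sum h5).trans ?_
    rw [Finset.sum_const, Nat.card_Ico, nsmul_eq_mul]
    refine mul_le_mul_of_nonneg_right ?_ (by positivity)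
    exact_mod_cast Nat.sub_le m 1
  have h5 : (((range (N + 1)).filter
      (fun M : ℕ => M.Prime ∧ δ / 4 * N < M ∧ (M : ℝ) ≤ δ * N)).card : ℝ) *
      ((Γ.card : ℝ) / (2 * m)) ^ 2 ≤ m * (Γ.card * ((N + 1 : ℕ) + N * (1 + Real.log N))) := by
    rw [← nsmul_eq_mul, ← Finset.sum_const]
    refine (Finset.sum_le_sum h3).trans (le_trans ?_ h4)
    exact Finset.sum_le_sum_of_subset_of_nonneg (Finset.filter_subset _ _)
      fun _ _ _ => Finset.sum_nonneg fun _ _ => by positivity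
  have h6 := h1 N hNN1
  have h7 : c * N / Real.log N * ((Γ.card : ℝ) / (2 * m)) ^ 2 ≤
      m * (Γ.card * ((N + 1 : ℕ) + N * (1 + Real.log N))) :=
    (mul_le_mul_of_nonneg_right h6 (by positivity)).trans h5
  have h8 : ((N + 1 : ℕ) : ℝ) + N * (1 + Real.log N) ≤ N * (3 + Real.log N) := by
    push_cast
    nlinarith
  -- `c |Γ| ≤ 4 m^3 log N (3 + log N)`
  have h9 : c * Γ.card ≤ 4 * (m : ℝ) ^ 3 * (Real.log N * (3 + Real.log N)) := by
    have h10 : c * N / Real.log N * ((Γ.card : ℝ) / (2 * m)) ^ 2 ≤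
        m * (Γ.card * (N * (3 + Real.log N))) :=
      h7.trans (by gcongr)
    have e1 : c * N / Real.log N * ((Γ.card : ℝ) / (2 * m)) ^ 2 =
        (c * Γ.card) * ((N * Γ.card) / (4 * (m : ℝ) ^ 2 * Real.log N)) := by
      field_simp
      ring
    have e2 : m * (Γ.card * (N * (3 + Real.log N))) =
        (4 * (m : ℝ) ^ 3 * (Real.log N * (3 + Real.log N))) *
          ((N * Γ.card) / (4 * (m : ℝ) ^ 2 * Real.log N)) := by
      field_simp
    rw [e1, e2] at h10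
    exact le_of_mul_le_mul_right h10 (by positivity)
  have hp0 : (0 : ℝ) < (N : ℝ) ^ (η / 4) := Real.rpow_pos_of_pos hN' _
  have hp1 : (1 : ℝ) ≤ (N : ℝ) ^ (η / 4) := Real.one_le_rpow hN1' (by linarith)
  have h11 : Real.log N ≤ 4 / η * (N : ℝ) ^ (η / 4) := by
    have h12 := Real.log_le_rpow_div hN'.le (by linarith : 0 < η / 4)
    refine h12.trans (le_of_eq ?_)
    field_simp
  have h12 : 3 + Real.log N ≤ (3 + 4 / η) * (N : ℝ) ^ (η / 4) := by
    rw [add_mul]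
    linarith
  have h13 : Real.log N * (3 + Real.log N) ≤ (4 / η) * (3 + 4 / η) * (N : ℝ) ^ (η / 2) := by
    have e3 : (N : ℝ) ^ (η / 2) = (N : ℝ) ^ (η / 4) * (N : ℝ) ^ (η / 4) := by
      rw [← Real.rpow_add hN']
      congr 1
      ring
    rw [e3]
    calc Real.log N * (3 + Real.log N)
        ≤ (4 / η * (N : ℝ) ^ (η / 4)) * ((3 + 4 / η) * (N : ℝ) ^ (η / 4)) :=
          mul_le_mul h11 h12 (by linarith) (by positivity)
      _ = (4 / η) * (3 + 4 / η) * ((N : ℝ) ^ (η / 4) * (N : ℝ) ^ (η / 4)) := by ring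
  have h14 : c * (N : ℝ) ^ η ≤
      4 * (m : ℝ) ^ 3 * ((4 / η) * (3 + 4 / η)) * (N : ℝ) ^ (η / 2) := by
    refine (mul_le_mul_of_nonneg_left hcard hc.le).trans (h9.trans ?_)
    rw [mul_assoc (4 * (m : ℝ) ^ 3)]
    exact mul_le_mul_of_nonneg_left h13 (by positivity)
  have e4 : (N : ℝ) ^ η = (N : ℝ) ^ (η / 2) * (N : ℝ) ^ (η / 2) := by
    rw [← Real.rpow_add hN']
    congr 1
    ring
  rw [e4, ← mul_assoc] at h14
  have h15 := le_of_mul_le_mul_right h14 (Real.rpow_pos_of_pos hN' (η / 2))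
  exact absurd (h2 N hNN2) (not_lt.2 h15)

end Pool.Agent.Lib.AbcZ
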