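import Pool.Agent.Lib.AbcZ.PrimeA
import Pool.Agent.Lib.AbcZ.PrimeT

/-!
# S10 of Theorem S: a prime `M` with `M Γ mod N` dense

`exists_prime_dense`: from `many_primes` (Chebyshev: many primes in `(δ N / 4, δ N]`) and `prime_dense_of_many` (second moment).
-/

set_option autoImplicit false

namespace Pool.Agent.Lib.AbcZ

theorem exists_prime_dense (δ ξ η : ℝ) (hδ : 0 < δ) (hδ1 : δ ≤ 1) (hξ : 0 < ξ) (hη : 0 < η) :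
    ∃ C N0 : ℕ, 0 < C ∧ ∀ N : ℕ, N0 ≤ N → ∀ Γ : Finset ℕ, (∀ γ ∈ Γ, C * γ ≤ N) →
      (N : ℝ) ^ η ≤ Γ.card →
      ∃ M : ℕ, M.Prime ∧ δ / 4 * N < M ∧ (M : ℝ) ≤ δ * N ∧
        ∀ c : ℕ, c < N → ∃ γ ∈ Γ, (((M * γ + (N - c)) % N : ℕ) : ℝ) < ξ * N :=
  prime_dense_of_many δ ξ η hδ1 hξ hη (many_primes δ hδ hδ1)

end Pool.Agent.Lib.AbcZ
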