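import Mathlib
import Pool.Agent.Lib.AbcH.Light
import Pool.Agent.Lib.AbcH.MeanF

/-!
# The Ridout form of Theorem S

For coprime `Z1, Z2 > 0` and every divisor `D` of `Z1 - s Z2` (`s = ± 1`):
`log D ≤ δ log max (Z1, Z2) + K rad (Z1 Z2 D) ^ ε`.
-/

set_option autoImplicit false

namespace Pool.Agent.Lib.AbcZ

open Finset Pool.Agent.Lib.AbcH

/-- the statement of Theorem S -/
def ThmSProp : Prop := ∀ (A kappa theta eta : ℝ), 1 ≤ A → 0 < kappa → kappa < 1 →
    0 < theta → 0 < eta →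
    ∃ K : ℝ, 0 < K ∧ ∃ p0 : ℕ, ∀ (p u Z1 Z2 : ℕ) (s : ℤ) (T : ℝ),
      p.Prime → p0 ≤ p → 0 < Z1 → 0 < Z2 → Nat.Coprime Z1 Z2 → (s = 1 ∨ s = -1) →
      (Z1 : ℤ) ≠ s * Z2 → ((p ^ u : ℕ) : ℤ) ∣ (Z1 : ℤ) - s * Z2 →
      Real.log Z1 ≤ A * (u * Real.log p) → Real.log Z2 ≤ A * (u * Real.log p) →
      ∏ q ∈ (Z1 * Z2).primeFactors, (q : ℝ) ≤ T → (p : ℝ) ≤ T → T ^ theta ≤ p →
      (u : ℝ) ≤ K * (p : ℝ) ^ (1 - kappa) * T ^ eta

namespace RidoutAux

theorem prod_le {n : ℕ} {U : Finset ℕ} (hU : U ⊆ n.primeFactors) :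
    ∏ p ∈ U, (p : ℝ) ≤ ((∏ p ∈ n.primeFactors, p : ℕ) : ℝ) := by
  have h1 : ∏ p ∈ U, p ≤ ∏ p ∈ n.primeFactors, p :=
    Finset.prod_le_prod_of_subset_of_one_le' hU fun p hp _ =>
      (Nat.prime_of_mem_primeFactors hp).one_lt.le
  rw [← Nat.cast_prod]
  exact_mod_cast h1

theorem log_eq {D : ℕ} :
    Real.log D = ∑ p ∈ D.primeFactors, (D.factorization p : ℝ) * Real.log p := by
  rw [Real.log_nat_eq_sum_factorization]
  rfl

theorem piece (hE1 : ThmE2 1) (hS : ThmSProp) (δ t : ℝ) (hδ : 0 < δ) (hδ1 : δ ≤ 1) (ht : 0 < t) (ht1 : t ≤ 1 / 4) :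
    ∃ K : ℝ, 0 < K ∧ ∀ (Z1 Z2 D : ℕ) (s : ℤ), 0 < Z1 → 0 < Z2 → Nat.Coprime Z1 Z2 →
      (s = 1 ∨ s = -1) → (Z1 : ℤ) ≠ s * Z2 → 0 < D → (D : ℤ) ∣ (Z1 : ℤ) - s * Z2 →
      δ * max (Real.log Z1) (Real.log Z2) < Real.log D →
      Real.log D ≤ K * ((∏ p ∈ (Z1 * Z2 * D).primeFactors, p : ℕ) : ℝ) ^ (3 * t) := by
  classical
  set j : ℕ := ⌈1 / t⌉₊ with hj
  have hj1 : 1 ≤ j := Nat.one_le_iff_ne_zero.2 (by
    have : 0 < ⌈1 / t⌉₊ := Nat.ceil_pos.2 (by positivity)
    omega)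
  have hj1R : (1 : ℝ) ≤ j := by exact_mod_cast hj1
  have hjt : 1 ≤ t * j := by
    have h1 : 1 / t ≤ j := Nat.le_ceil _
    rw [div_le_iff₀ ht] at h1
    linarith
  have hA1 : (1 : ℝ) ≤ 8 * j / δ := by
    rw [le_div_iff₀ hδ]
    linarith
  have hA2 : (1 : ℝ) ≤ 2 / (t * δ) := by
    rw [le_div_iff₀ (by positivity)]
    nlinarith
  obtain ⟨K1, hK1, hE⟩ := hE1 (8 * j / δ) t hA1 ht
  obtain ⟨K2, hK2, p0, hS'⟩ := hS (2 / (t * δ)) (1 - t) t t hA2 (by linarith) (by linarith) ht ht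
  refine ⟨(1 + K1 * (p0 + 1)) + 2 / t * K2 / t, by positivity, ?_⟩
  intro Z1 Z2 D s hZ1 hZ2 hcop hs hne hD hdvd hlarge
  set r : ℕ := ∏ p ∈ (Z1 * Z2 * D).primeFactors, p with hr
  set h : ℝ := max (Real.log Z1) (Real.log Z2) with hh
  have hrpos : 0 < r := Finset.prod_pos fun p hp => (Nat.prime_of_mem_primeFactors hp).pos
  have hr1 : (1 : ℝ) ≤ r := by exact_mod_cast hrpos
  have hr0 : (0 : ℝ) < r := by linarith
  have hlZ1 : 0 ≤ Real.log (Z1 : ℝ) := Real.log_natCast_nonneg Z1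
  have hlZ2 : 0 ≤ Real.log (Z2 : ℝ) := Real.log_natCast_nonneg Z2
  have hh1 : Real.log Z1 ≤ h := le_max_left _ _
  have hh2 : Real.log Z2 ≤ h := le_max_right _ _
  have hh0 : 0 ≤ h := hlZ1.trans hh1
  have hhs : h ≤ Real.log Z1 + Real.log Z2 := max_le (by linarith) (by linarith)
  have hZ1R : (0 : ℝ) < Z1 := by exact_mod_cast hZ1
  have hZ2R : (0 : ℝ) < Z2 := by exact_mod_cast hZ2
  have hDR : (0 : ℝ) < D := by exact_mod_cast hD
  have hD0 : D ≠ 0 := hD.ne'
  have hZZD : Z1 * Z2 * D ≠ 0 := by positivity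
  have hDsub : D.primeFactors ⊆ (Z1 * Z2 * D).primeFactors :=
    Nat.primeFactors_mono (Nat.dvd_mul_left _ _) hZZD
  -- the size of `D`
  have hDle : (D : ℝ) ≤ Z1 + Z2 := by
    have h1 : (Z1 : ℤ) - s * Z2 ≠ 0 := sub_ne_zero.2 hne
    have h2 := Int.le_of_dvd (abs_pos.2 h1) ((dvd_abs _ _).2 hdvd)
    have h3 : |(Z1 : ℤ) - s * Z2| ≤ Z1 + Z2 := by
      rcases hs with rfl | rfl
      · rw [abs_le]
        constructor <;> omega
      · rw [abs_le]
        constructor <;> omega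
    have h4 : (D : ℤ) ≤ Z1 + Z2 := h2.trans h3
    exact_mod_cast h4
  have hlogD : Real.log D ≤ 1 + h := by
    have hm : (Z1 : ℝ) + Z2 ≤ 2 * Real.exp h := by
      have e1 : (Z1 : ℝ) ≤ Real.exp h := by
        rw [← Real.log_le_iff_le_exp hZ1R]
        exact hh1
      have e2 : (Z2 : ℝ) ≤ Real.exp h := by
        rw [← Real.log_le_iff_le_exp hZ2R]
        exact hh2
      linarith
    have h1 : Real.log D ≤ Real.log (2 * Real.exp h) := Real.log_le_log hDR (hDle.trans hm)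
    rw [Real.log_mul (by norm_num) (Real.exp_pos h).ne', Real.log_exp] at h1
    have := Real.log_two_lt_d9
    linarith
  have hr3t : (1 : ℝ) ≤ (r : ℝ) ^ (3 * t) := Real.one_le_rpow hr1 (by positivity)
  have hrt : (1 : ℝ) ≤ (r : ℝ) ^ t := Real.one_le_rpow hr1 ht.le
  have hr3 : (r : ℝ) ^ (3 * t) = (r : ℝ) ^ t * (r : ℝ) ^ t * (r : ℝ) ^ t := by
    rw [← Real.rpow_add hr0, ← Real.rpow_add hr0]
    congr 1
    ring
  set P : ℝ := (p0 + 1) * (r : ℝ) ^ t with hP
  have hp0 : (0 : ℝ) ≤ p0 := Nat.cast_nonneg _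
  have hP1 : 1 ≤ P := by
    rw [hP]
    nlinarith
  set U1 := D.primeFactors.filter (fun p : ℕ => (p : ℝ) ≤ P) with hU1
  set U2 := D.primeFactors.filter (fun p : ℕ => ¬ (p : ℝ) ≤ P) with hU2
  have hsplit : ∑ p ∈ U1, (D.factorization p : ℝ) * Real.log p +
      ∑ p ∈ U2, (D.factorization p : ℝ) * Real.log p = Real.log D := by
    rw [log_eq, hU1, hU2]
    exact Finset.sum_filter_add_sum_filter_not _ _ _
  have hU1s : U1 ⊆ D.primeFactors := Finset.filter_subset _ _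
  have hU2s : U2 ⊆ D.primeFactors := Finset.filter_subset _ _
  have hUp : ∀ p ∈ D.primeFactors, p.Prime := fun p hp => Nat.prime_of_mem_primeFactors hp
  by_cases hcase : Real.log D ≤ 2 * ∑ p ∈ U1, (D.factorization p : ℝ) * Real.log p
  · -- small primes
    obtain ⟨G, hGU, hGP, hGw⟩ := group (fun p => (D.factorization p : ℝ) * Real.log p)
      ((r : ℝ) ^ t) P hrt hP1 j hj1 U1
      (fun p hp => mul_nonneg (Nat.cast_nonneg _) (Real.log_natCast_nonneg _))
      (fun p hp => (hUp p (hU1s hp)).one_lt.le) (fun p hp => (Finset.mem_filter.1 hp).2) (by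
        refine (prod_le (hU1s.trans hDsub)).trans ?_
        rw [← Real.rpow_natCast, ← Real.rpow_mul hr0.le]
        calc (r : ℝ) = (r : ℝ) ^ (1 : ℝ) := (Real.rpow_one _).symm
          _ ≤ _ := Real.rpow_le_rpow_of_exponent_le hr1 hjt)
    have hGp : ∀ p ∈ G, p.Prime := fun p hp => hUp p (hU1s (hGU hp))
    have hlogM : Real.log D ≤ 2 * (j * Real.log (part G D : ℕ)) := by
      rw [log_part D hGp]
      linarith
    have hlM0 : 0 ≤ Real.log (part G D : ℕ) := Real.log_natCast_nonneg _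
    have hMdvd : part G D ∣ D := part_dvd D hD0 hGp
    have hMpos := part_pos hGp D
    have hhM : h ≤ 2 * j / δ * Real.log (part G D : ℕ) := by
      have h1 : δ * h ≤ 2 * j * Real.log (part G D : ℕ) := by linarith
      rw [div_mul_eq_mul_div, le_div_iff₀ hδ]
      linarith
    have e1 : ∏ p ∈ (part G D).primeFactors, (p : ℝ) ≤ (r : ℝ) ^ t * P := by
      refine le_trans ?_ hGP
      have h3 : ∏ p ∈ (part G D).primeFactors, p ≤ ∏ p ∈ G, p :=
        Finset.prod_le_prod_of_subset_of_one_le' (part_primeFactors D hGp) fun p hp _ =>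
          (hGp p hp).one_lt.le
      rw [← Nat.cast_prod, ← Nat.cast_prod]
      exact_mod_cast h3
    have e0 : (0 : ℝ) ≤ ∏ p ∈ (part G D).primeFactors, (p : ℝ) :=
      Finset.prod_nonneg fun p _ => Nat.cast_nonneg p
    have hres : Real.log Z1 + Real.log Z2 ≤ K1 * (p0 + 1) * (r : ℝ) ^ (3 * t) := by
      have hfin : ∀ X1 X2 : ℕ, (X1 * X2 * part G D).primeFactors ⊆ (Z1 * Z2 * D).primeFactors →
          K1 * (∏ p ∈ (part G D).primeFactors, (p : ℝ)) ^ 1 *
            (∏ p ∈ (X1 * X2 * part G D).primeFactors, (p : ℝ)) ^ t ≤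
          K1 * (p0 + 1) * (r : ℝ) ^ (3 * t) := by
        intro X1 X2 hX
        have e2 : ∏ p ∈ (X1 * X2 * part G D).primeFactors, (p : ℝ) ≤ r := prod_le hX
        have e3 : (0 : ℝ) ≤ ∏ p ∈ (X1 * X2 * part G D).primeFactors, (p : ℝ) :=
          Finset.prod_nonneg fun p _ => Nat.cast_nonneg p
        rw [pow_one]
        calc K1 * (∏ p ∈ (part G D).primeFactors, (p : ℝ)) *
              (∏ p ∈ (X1 * X2 * part G D).primeFactors, (p : ℝ)) ^ t
            ≤ K1 * ((r : ℝ) ^ t * P) * (r : ℝ) ^ t := by gcongr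
          _ = K1 * (p0 + 1) * (r : ℝ) ^ (3 * t) := by rw [hr3, hP]; ring
      rcases hs with rfl | rfl
      · have h1 := hE Z1 Z2 (part G D) hZ1 hZ2 hcop hMpos
          ((Int.natCast_dvd_natCast.2 hMdvd).trans (by simpa using hdvd)) (by
            have h5 : 8 * (j : ℝ) / δ * Real.log (part G D : ℕ) =
              4 * (2 * j / δ * Real.log (part G D : ℕ)) := by ring
            rw [h5]
            linarith)
        exact h1.trans (hfin Z1 Z2
          (Nat.primeFactors_mono (Nat.mul_dvd_mul_left _ hMdvd) hZZD))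
      · have h1 := hE (Z1 ^ 2) (Z2 ^ 2) (part G D) (by positivity) (by positivity)
          (Nat.Coprime.pow 2 2 hcop) hMpos
          ((Int.natCast_dvd_natCast.2 hMdvd).trans (by
            have h6 : (((Z1 ^ 2 : ℕ) : ℤ) - ((Z2 ^ 2 : ℕ) : ℤ)) =
              ((Z1 : ℤ) - -1 * Z2) * ((Z1 : ℤ) - Z2) := by push_cast; ring
            rw [h6]
            exact hdvd.mul_right _)) (by
            have h5 : 8 * (j : ℝ) / δ * Real.log (part G D : ℕ) =
              4 * (2 * j / δ * Real.log (part G D : ℕ)) := by ring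
            rw [h5]
            push_cast
            rw [Real.log_pow, Real.log_pow]
            push_cast
            linarith)
        have h7 : (Z1 ^ 2 * Z2 ^ 2 * part G D).primeFactors ⊆ (Z1 * Z2 * D).primeFactors := by
          have h8 : (Z1 ^ 2 * Z2 ^ 2 * part G D).primeFactors = (Z1 * Z2 * part G D).primeFactors := by
            rw [Nat.primeFactors_mul (by positivity) hMpos.ne',
              Nat.primeFactors_mul (by positivity) (by positivity),
              Nat.primeFactors_pow _ two_ne_zero, Nat.primeFactors_pow _ two_ne_zero,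
              Nat.primeFactors_mul (by positivity) hMpos.ne',
              Nat.primeFactors_mul (by positivity) (by positivity)]
          rw [h8]
          exact Nat.primeFactors_mono (Nat.mul_dvd_mul_left _ hMdvd) hZZD
        have h9 := h1.trans (hfin (Z1 ^ 2) (Z2 ^ 2) h7)
        push_cast at h9
        rw [Real.log_pow, Real.log_pow] at h9
        push_cast at h9
        linarith
    calc Real.log D ≤ 1 + h := hlogD
      _ ≤ 1 + K1 * (p0 + 1) * (r : ℝ) ^ (3 * t) := by linarith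
      _ ≤ (1 + K1 * (p0 + 1)) * (r : ℝ) ^ (3 * t) := by
        rw [add_mul, one_mul]
        linarith
      _ ≤ _ := by
        have : 0 ≤ 2 / t * K2 / t * (r : ℝ) ^ (3 * t) := by positivity
        rw [add_mul]
        linarith
  · -- one large prime
    push Not at hcase
    have hbig : Real.log D < 2 * ∑ p ∈ U2, (D.factorization p : ℝ) * Real.log p := by linarith
    have hlD0 : 0 ≤ Real.log (D : ℝ) := Real.log_natCast_nonneg D
    have hU2ne : U2.Nonempty := by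
      rw [Finset.nonempty_iff_ne_empty]
      intro h0
      rw [h0, Finset.sum_empty] at hbig
      linarith
    have hpP : ∀ p ∈ U2, (p0 + 1 : ℝ) * (r : ℝ) ^ t < p := fun p hp => by
      have := (Finset.mem_filter.1 hp).2
      push Not at this
      exact this
    have hrtp : ∀ p ∈ U2, (r : ℝ) ^ t < p := fun p hp => by
      have := hpP p hp
      nlinarith
    have hpr : ∀ p ∈ U2, (p : ℝ) ≤ r := fun p hp => by
      have h1 := prod_le (n := Z1 * Z2 * D) (U := {p})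
        (by
          rw [Finset.singleton_subset_iff]
          exact hDsub (hU2s hp))
      rwa [Finset.prod_singleton] at h1
    obtain ⟨q0, hq0⟩ := hU2ne
    have hr2 : (1 : ℝ) < r := by
      have h1 := hpr q0 hq0
      have h2 : (1 : ℝ) < q0 := by exact_mod_cast (hUp q0 (hU2s hq0)).one_lt
      linarith
    have hcard : (U2.card : ℝ) * t ≤ 1 := by
      have h1 : ((r : ℝ) ^ t) ^ U2.card ≤ ∏ p ∈ U2, (p : ℝ) := by
        rw [← Finset.prod_const]
        exact Finset.prod_le_prod (fun p _ => by positivity) fun p hp => (hrtp p hp).le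
      have h2 : ((r : ℝ) ^ t) ^ U2.card ≤ (r : ℝ) ^ (1 : ℝ) := by
        rw [Real.rpow_one]
        exact h1.trans (prod_le (hU2s.trans hDsub))
      rw [← Real.rpow_natCast, ← Real.rpow_mul hr0.le] at h2
      have h3 := (Real.rpow_le_rpow_left_iff hr2).1 h2
      linarith
    obtain ⟨p, hpU, hpv⟩ : ∃ p ∈ U2, t / 2 * Real.log D ≤ (D.factorization p : ℝ) * Real.log p := by
      by_contra hcon
      push Not at hcon
      have h1 : ∑ p ∈ U2, (D.factorization p : ℝ) * Real.log p ≤ U2.card • (t / 2 * Real.log D) :=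
        Finset.sum_le_card_nsmul _ _ _ fun p hp => (hcon p hp).le
      rw [nsmul_eq_mul] at h1
      have h2 : (U2.card : ℝ) * (t / 2 * Real.log D) ≤ 1 / 2 * Real.log D := by
        have : (U2.card : ℝ) * (t / 2 * Real.log D) = (U2.card * t) * (1 / 2 * Real.log D) := by ring
        rw [this]
        nlinarith
      linarith
    have hpp := hUp p (hU2s hpU)
    have hp1 : (1 : ℝ) < p := by exact_mod_cast hpp.one_lt
    have hlp : 0 < Real.log (p : ℝ) := Real.log_pos hp1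
    set u := D.factorization p with hu
    have hp0p : p0 ≤ p := by
      have h1 := hpP p hpU
      have h2 : (p0 : ℝ) < p := by nlinarith
      exact_mod_cast h2.le
    have hhu : h ≤ 2 / (t * δ) * (u * Real.log p) := by
      have h1 : δ * h ≤ 2 / t * (u * Real.log p) := by
        have h2 : Real.log D ≤ 2 / t * (u * Real.log p) := by
          rw [div_mul_eq_mul_div, le_div_iff₀ ht]
          linarith
        linarith
      have h3 : 2 / (t * δ) * ((u : ℝ) * Real.log p) = (2 / t * (u * Real.log p)) / δ := by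
        field_simp
      rw [h3, le_div_iff₀ hδ]
      linarith
    have hZsub : (Z1 * Z2).primeFactors ⊆ (Z1 * Z2 * D).primeFactors :=
      Nat.primeFactors_mono (Nat.dvd_mul_right _ _) hZZD
    have hmain := hS' p u Z1 Z2 s (r : ℝ) hpp hp0p hZ1 hZ2 hcop hs hne
      ((Int.natCast_dvd_natCast.2 (Nat.ordProj_dvd D p)).trans hdvd) (hh1.trans hhu)
      (hh2.trans hhu) (prod_le hZsub) (hpr p hpU) (hrtp p hpU).le
    have hu2 : (u : ℝ) ≤ K2 * ((r : ℝ) ^ t * (r : ℝ) ^ t) := by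
      refine hmain.trans ?_
      rw [show 1 - (1 - t) = t by ring, mul_assoc]
      have : (p : ℝ) ^ t ≤ (r : ℝ) ^ t := Real.rpow_le_rpow (by linarith) (hpr p hpU) ht.le
      gcongr
    have hlogr : Real.log p ≤ (r : ℝ) ^ t / t :=
      (Real.log_le_log (by linarith) (hpr p hpU)).trans (Real.log_le_rpow_div hr0.le ht)
    calc Real.log D ≤ 2 / t * (u * Real.log p) := by
          rw [div_mul_eq_mul_div, le_div_iff₀ ht]
          linarith
      _ ≤ 2 / t * (K2 * ((r : ℝ) ^ t * (r : ℝ) ^ t) * ((r : ℝ) ^ t / t)) := by gcongr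
      _ = 2 / t * K2 / t * (r : ℝ) ^ (3 * t) := by rw [hr3]; ring
      _ ≤ _ := by
        have : 0 ≤ (1 + K1 * (p0 + 1)) * (r : ℝ) ^ (3 * t) := by positivity
        rw [add_mul]
        linarith

end RidoutAux

/-- **Ridout form of Theorem S**. -/
theorem ridout (hE1 : ThmE2 1) (hS : ThmSProp) (ε δ : ℝ) (hε : 0 < ε) (hδ : 0 < δ) :
    ∃ K : ℝ, 0 < K ∧ ∀ (Z1 Z2 D : ℕ) (s : ℤ), 0 < Z1 → 0 < Z2 → Nat.Coprime Z1 Z2 →
      (s = 1 ∨ s = -1) → (Z1 : ℤ) ≠ s * Z2 → 0 < D → (D : ℤ) ∣ (Z1 : ℤ) - s * Z2 →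
      Real.log D ≤ δ * Real.log (max Z1 Z2 : ℕ) +
        K * ((∏ p ∈ (Z1 * Z2 * D).primeFactors, p : ℕ) : ℝ) ^ ε := by
  set t : ℝ := min ε 1 / 4 with ht
  have ht0 : 0 < t := by
    rw [ht]
    have : 0 < min ε 1 := lt_min hε one_pos
    positivity
  have ht1 : t ≤ 1 / 4 := by
    rw [ht]
    have : min ε 1 ≤ 1 := min_le_right _ _
    linarith
  have htε : 3 * t ≤ ε := by
    rw [ht]
    have : min ε 1 ≤ ε := min_le_left _ _
    linarith
  have hδ' : 0 < min δ 1 := lt_min hδ one_pos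
  obtain ⟨K, hK, h⟩ := RidoutAux.piece hE1 hS (min δ 1) t hδ' (min_le_right _ _) ht0 ht1
  refine ⟨K, hK, ?_⟩
  intro Z1 Z2 D s hZ1 hZ2 hcop hs hne hD hdvd
  have hr1 : (1 : ℝ) ≤ ((∏ p ∈ (Z1 * Z2 * D).primeFactors, p : ℕ) : ℝ) := by
    have : 0 < ∏ p ∈ (Z1 * Z2 * D).primeFactors, p :=
      Finset.prod_pos fun p hp => (Nat.prime_of_mem_primeFactors hp).pos
    exact_mod_cast this
  have hl1 : Real.log Z1 ≤ Real.log (max Z1 Z2 : ℕ) :=
    Real.log_le_log (by exact_mod_cast hZ1) (by exact_mod_cast le_max_left Z1 Z2)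
  have hl2 : Real.log Z2 ≤ Real.log (max Z1 Z2 : ℕ) :=
    Real.log_le_log (by exact_mod_cast hZ2) (by exact_mod_cast le_max_right Z1 Z2)
  have hl0 : 0 ≤ Real.log (max Z1 Z2 : ℕ) := Real.log_natCast_nonneg _
  have hKr : 0 ≤ K * ((∏ p ∈ (Z1 * Z2 * D).primeFactors, p : ℕ) : ℝ) ^ ε := by positivity
  by_cases hc : min δ 1 * max (Real.log Z1) (Real.log Z2) < Real.log D
  · have h1 := h Z1 Z2 D s hZ1 hZ2 hcop hs hne hD hdvd hc
    have h2 : ((∏ p ∈ (Z1 * Z2 * D).primeFactors, p : ℕ) : ℝ) ^ (3 * t) ≤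
        ((∏ p ∈ (Z1 * Z2 * D).primeFactors, p : ℕ) : ℝ) ^ ε :=
      Real.rpow_le_rpow_of_exponent_le hr1 htε
    have h3 : K * ((∏ p ∈ (Z1 * Z2 * D).primeFactors, p : ℕ) : ℝ) ^ (3 * t) ≤
        K * ((∏ p ∈ (Z1 * Z2 * D).primeFactors, p : ℕ) : ℝ) ^ ε := by gcongr
    have h4 : 0 ≤ δ * Real.log (max Z1 Z2 : ℕ) := by positivity
    linarith
  · push Not at hc
    have h1 : min δ 1 * max (Real.log Z1) (Real.log Z2) ≤ δ * Real.log (max Z1 Z2 : ℕ) := by
      have h2 : max (Real.log (Z1 : ℝ)) (Real.log Z2) ≤ Real.log (max Z1 Z2 : ℕ) := max_le hl1 hl2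
      have h3 : min δ 1 ≤ δ := min_le_left _ _
      calc min δ 1 * max (Real.log Z1) (Real.log Z2) ≤ min δ 1 * Real.log (max Z1 Z2 : ℕ) := by
            gcongr
        _ ≤ _ := by gcongr
    linarith

/-- Every abc-triple, and every divisor `D` of the sum. -/
theorem ridout_sum (hE1 : ThmE2 1) (hS : ThmSProp) (ε δ : ℝ) (hε : 0 < ε) (hδ : 0 < δ) :
    ∃ K : ℝ, 0 < K ∧ ∀ a b c D : ℕ, AbcTriple a b c → D ∣ c →
      Real.log D ≤ δ * Real.log c + K * (rad (a * b * D) : ℝ) ^ ε := by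
  obtain ⟨K, hK, h⟩ := ridout hE1 hS ε δ hε hδ
  refine ⟨K, hK, ?_⟩
  rintro a b c D ⟨ha, hb, rfl, hcop⟩ hD
  have hDpos : 0 < D := Nat.pos_of_dvd_of_pos hD (by omega)
  have h1 := h a b D (-1) ha hb hcop (Or.inr rfl) (by omega) hDpos (by
    have h2 : ((a : ℤ) - -1 * (b : ℤ)) = ((a + b : ℕ) : ℤ) := by push_cast; ring
    rw [h2]
    exact Int.natCast_dvd_natCast.2 hD)
  have h3 : Real.log (max a b : ℕ) ≤ Real.log (a + b : ℕ) := by
    apply Real.log_le_log
    · have : 0 < max a b := lt_of_lt_of_le ha (le_max_left _ _)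
      exact_mod_cast this
    · have : max a b ≤ a + b := max_le (by omega) (by omega)
      exact_mod_cast this
  have h4 : δ * Real.log (max a b : ℕ) ≤ δ * Real.log (a + b : ℕ) := by gcongr
  unfold rad
  linarith

/-- Every abc-triple has `log c ≤ K rad (abc) ^ ε`. -/
theorem subexp_of (hE1 : ThmE2 1) (hS : ThmSProp) (ε : ℝ) (hε : 0 < ε) : ∃ K : ℝ, 0 < K ∧
    ∀ a b c : ℕ, AbcTriple a b c → Real.log c ≤ K * (rad (a * b * c) : ℝ) ^ ε := by
  obtain ⟨K, hK, h⟩ := ridout_sum hE1 hS ε (1 / 2) hε (by norm_num)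
  refine ⟨2 * K, by positivity, ?_⟩
  intro a b c habc
  have := h a b c c habc dvd_rfl
  linarith

end Pool.Agent.Lib.AbcZ
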