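import Mathlib
import Pool.Agent.Lib.AbcH.Main
import Pool.Agent.Lib.Pabc9.FromE
import Pool.Agent.Lib.AbcZ.Cor
import Pool.Agent.Lib.AbcZ.PrimeC
import Pool.Agent.Lib.AbcZ.CoreB

/-!
# Theorem S
-/

namespace Pool.Agent.Lib.AbcZ

open Finset Pool.Agent.AbcE Pool.Agent.Lib.AbcH

/-- **Theorem S**, for `η ≤ 1`. -/
theorem thmS_aux (A κ θ η : ℝ) (hA : 1 ≤ A) (hκ : 0 < κ) (hκ1 : κ < 1) (hθ : 0 < θ)
    (hη0 : 0 < η) (hη1 : η ≤ 1) :
    ∃ K : ℝ, 0 < K ∧ ∃ p0 : ℕ, ∀ (p u Z1 Z2 : ℕ) (s : ℤ) (T : ℝ), p.Prime → p0 ≤ p →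
      0 < Z1 → 0 < Z2 → Nat.Coprime Z1 Z2 → (s = 1 ∨ s = -1) → (Z1 : ℤ) ≠ s * Z2 →
      ((p ^ u : ℕ) : ℤ) ∣ (Z1 : ℤ) - s * Z2 → Real.log Z1 ≤ A * (u * Real.log p) →
      Real.log Z2 ≤ A * (u * Real.log p) → ∏ q ∈ (Z1 * Z2).primeFactors, (q : ℝ) ≤ T →
      (p : ℝ) ≤ T → T ^ θ ≤ p → (u : ℝ) ≤ K * (p : ℝ) ^ (1 - κ) * T ^ η := by
  set ν : ℝ := 1 - κ with hν
  have hν0 : 0 < ν := by rw [hν]; linarith
  have hν1 : ν ≤ 1 := by rw [hν]; linarith
  have hA0 : 0 < A := by linarith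
  set t : ℝ := ν / 16 with ht
  have ht0 : 0 < t := by positivity
  set w : ℝ := ν / (16 * A) with hw
  have hw0 : 0 < w := by positivity
  have hwA : w * A = ν / 16 := by
    rw [hw]; field_simp
  have hw1 : w ≤ 1 / 16 := by
    have : w * 1 ≤ w * A := mul_le_mul_of_nonneg_left hA hw0.le
    linarith
  obtain ⟨m, hm⟩ := exists_nat_ge (8 / t)
  have hm2 : 2 ≤ m * (t / 4) := by
    rw [div_le_iff₀ ht0] at hm
    linarith
  obtain ⟨q0, hq0⟩ := exists_nat_ge (12 * m / w)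
  set q : ℕ := q0 + 1 with hq
  have hqpos : 0 < q := by omega
  have hqR : (0 : ℝ) < q := by exact_mod_cast hqpos
  have hqw : 12 * m ≤ q * w := by
    rw [div_le_iff₀ hw0] at hq0
    rw [hq]; push_cast
    linarith
  obtain ⟨C0, N0, hC0, hdense⟩ := exists_prime_dense t (1 / q) (η / 10) ht0 (by linarith)
    (by positivity) (by positivity)
  obtain ⟨C2, hC2⟩ := exists_nat_ge (4 / w)
  set C : ℕ := C0 + C2 with hC
  have hCR : 4 / w ≤ C := by
    rw [hC]; push_cast
    have : (0 : ℝ) ≤ C0 := Nat.cast_nonneg _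
    linarith
  have hC1 : 1 ≤ C := by omega
  have hCpos : (0 : ℝ) < C := by exact_mod_cast hC1
  obtain ⟨Q0, hQ0⟩ := exists_nat_ge (200 / (ν * θ))
  set Q : ℕ := Q0 + 1 with hQ
  have hQpos : 0 < Q := by omega
  have hQR : (0 : ℝ) < Q := by exact_mod_cast hQpos
  have hQνθ : 200 ≤ Q * (ν * θ) := by
    rw [div_le_iff₀ (by positivity)] at hQ0
    rw [hQ]; push_cast
    have : 0 < ν * θ := by positivity
    linarith
  have hQθ : 200 ≤ Q * θ := by
    have : Q * (ν * θ) ≤ Q * (1 * θ) := by gcongr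
    linarith
  obtain ⟨K2, hK2, hcard⟩ := pow_card_le (Q : ℝ) (η / 2) (by exact_mod_cast hQpos) (by positivity)
  set C1 : ℝ := (1 + 1 / t) ^ (q + 1) with hC1def
  have hC10 : 0 < C1 := by positivity
  set D : ℝ := (C1 + 1) * (2 * q + 7) with hD
  have hD0 : 0 < D := by positivity
  obtain ⟨p0, hp0⟩ := exists_nat_ge (Real.exp (8 * D / ν))
  set K : ℝ := (20 * C * K2) ^ 2 + 1 + N0 + 4 / w + (4 + 1 / θ) * 8 / ν + 2 * q + 100 with hK
  have hK20 : 0 < K2 := by linarith
  refine ⟨K, by positivity, p0, ?_⟩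
  intro p u Z1 Z2 s T hp hpp0 h1 h2 hcop hs hne hdvd hZ1 hZ2 hT hpT hTp
  by_contra hcon
  have hcon := not_le.1 hcon
  set N : ℕ := u with hN
  have hp0R : (0 : ℝ) < p := by exact_mod_cast hp.pos
  have hp2R : (2 : ℝ) ≤ p := by exact_mod_cast hp.two_le
  have hlam0 : 0 < Real.log p := Real.log_pos (by linarith)
  have hT1 : 1 ≤ T := by linarith
  have hT0 : 0 < T := by linarith
  -- the size of `N`
  have hKN : K ≤ N := by
    have e1 : (1 : ℝ) ≤ (p : ℝ) ^ (1 - κ) := Real.one_le_rpow (by linarith) (by linarith)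
    have e2 : (1 : ℝ) ≤ T ^ η := Real.one_le_rpow hT1 hη0.le
    have e3 : K * 1 * 1 ≤ K * (p : ℝ) ^ (1 - κ) * T ^ η := by
      have : 0 < K := by positivity
      gcongr
    linarith
  have hKparts : (20 * C * K2) ^ 2 + 1 ≤ K ∧ (N0 : ℝ) ≤ K ∧ 4 / w ≤ K ∧
      (4 + 1 / θ) * 8 / ν ≤ K ∧ 2 * (q : ℝ) ≤ K ∧ 100 ≤ K := by
    have a1 : 0 ≤ (20 * (C : ℝ) * K2) ^ 2 := by positivity
    have a2 : (0 : ℝ) ≤ N0 := Nat.cast_nonneg _
    have a3 : 0 ≤ 4 / w := by positivity
    have a4 : 0 ≤ (4 + 1 / θ) * 8 / ν := by positivity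
    have a5 : 0 ≤ 2 * (q : ℝ) := by positivity
    refine ⟨?_, ?_, ?_, ?_, ?_, ?_⟩ <;> rw [hK] <;> linarith
  obtain ⟨hKa, hKb, hKc, hKd, hKe, hKf⟩ := hKparts
  have hNN0 : N0 ≤ N := by
    have : (N0 : ℝ) ≤ N := hKb.trans hKN
    exact_mod_cast this
  have hN4w : 4 / w ≤ N := hKc.trans hKN
  have hNθ : (4 + 1 / θ) * 8 / ν ≤ N := hKd.trans hKN
  have hN2q : 2 * q ≤ N := by
    have : (2 * (q : ℝ)) ≤ N := hKe.trans hKN
    exact_mod_cast this
  have hN100 : (100 : ℝ) ≤ N := hKf.trans hKN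
  have hN100' : 100 ≤ N := by exact_mod_cast hN100
  have hNpos : 0 < N := by omega
  have hNR : (0 : ℝ) < N := by exact_mod_cast hNpos
  -- primes
  set S := (Z1 * Z2).primeFactors with hS
  have hS1 : Z1.primeFactors ⊆ S := Nat.primeFactors_mono (Dvd.intro _ rfl) (by positivity)
  have hS2 : Z2.primeFactors ⊆ S := Nat.primeFactors_mono (Dvd.intro_left _ rfl) (by positivity)
  have hSp : ∀ r ∈ S, r.Prime := fun r hr => Nat.prime_of_mem_primeFactors hr
  have hprodS1 : 1 ≤ ∏ r ∈ S, (r : ℝ) := by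
    rw [← Nat.cast_prod]
    exact_mod_cast Nat.succ_le_of_lt (Finset.prod_pos fun r hr => (hSp r hr).pos)
  have hz : ∀ r, Z1.factorization r = 0 ∨ Z2.factorization r = 0 := by
    intro r
    by_contra hc
    push Not at hc
    have a1 : r ∈ Z1.primeFactors := by
      rw [← Nat.support_factorization, Finsupp.mem_support_iff]; exact hc.1
    have a2 : r ∈ Z2.primeFactors := by
      rw [← Nat.support_factorization, Finsupp.mem_support_iff]; exact hc.2
    exact Finset.disjoint_left.1 (Nat.Coprime.disjoint_primeFactors hcop) a1 a2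
  set e : {r // r ∈ S} → ℤ := fun r => (Z1.factorization r : ℤ) - Z2.factorization r with he
  have hpos : ∀ r, (e r).toNat = Z1.factorization r := by
    intro r
    rcases hz r with h | h <;> simp only [he] <;> omega
  have hneg : ∀ r, (-e r).toNat = Z2.factorization r := by
    intro r
    rcases hz r with h | h <;> simp only [he] <;> omega
  have hposP : posP (fun r : {r // r ∈ S} => (r : ℕ)) e = Z1 := by
    unfold posP
    simp only [hpos]
    exact Pool.Agent.Lib.Pabc9.prod_pow_eq h1.ne' hS1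
  have hnegP : negP (fun r : {r // r ∈ S} => (r : ℕ)) e = Z2 := by
    unfold negP
    simp only [hneg]
    exact Pool.Agent.Lib.Pabc9.prod_pow_eq h2.ne' hS2
  have hpdvd : (p : ℤ) ∣ (Z1 : ℤ) - s * Z2 := by
    refine dvd_trans ?_ hdvd
    exact Int.natCast_dvd_natCast.2 (dvd_pow_self p hNpos.ne')
  have hs2 : s * s = 1 := by rcases hs with h | h <;> rw [h] <;> norm_num
  have hcopM : ∀ r : {r // r ∈ S}, (r : ℕ).Coprime p := by
    rintro ⟨r, hr⟩
    have hrp := hSp r hr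
    simp only
    rw [Nat.coprime_primes hrp hp]
    rintro rfl
    have hr12 : r ∣ Z1 * Z2 := Nat.dvd_of_mem_primeFactors hr
    rcases (Nat.Prime.dvd_mul hrp).1 hr12 with h' | h'
    · have h3 : (r : ℤ) ∣ s * (Z2 : ℤ) := by
        have := dvd_sub (Int.natCast_dvd_natCast.2 h') hpdvd
        simpa using this
      have h4 : (r : ℤ) ∣ (Z2 : ℤ) := by
        have h5 := h3.mul_left s
        rw [← mul_assoc, hs2, one_mul] at h5
        exact h5
      have h2' := Int.natCast_dvd_natCast.1 h4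
      exact Nat.not_coprime_of_dvd_of_dvd hrp.one_lt h' h2' hcop
    · have h3 : (r : ℤ) ∣ (Z1 : ℤ) := by
        have := dvd_add hpdvd ((Int.natCast_dvd_natCast.2 h').mul_left s)
        simpa using this
      have h1' := Int.natCast_dvd_natCast.1 h3
      exact Nat.not_coprime_of_dvd_of_dvd hrp.one_lt h1' h' hcop
  -- `H`
  have hx1 : 1 ≤ (p : ℝ) ^ κ := Real.one_le_rpow (by linarith) hκ.le
  set H : ℕ := ⌊(p : ℝ) ^ κ⌋₊ with hH
  have hH1 : 1 ≤ H := by
    rw [hH, Nat.one_le_floor_iff]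
    exact hx1
  have hHle : (H : ℝ) ≤ (p : ℝ) ^ κ := Nat.floor_le (by positivity)
  have hH1R : (1 : ℝ) ≤ H := by exact_mod_cast hH1
  have hHlog : Real.log H ≤ κ * Real.log p := by
    have h3 := Real.log_le_log (by linarith) hHle
    rwa [Real.log_rpow hp0R] at h3
  have hHp : H < p := by
    have h3 : (p : ℝ) ^ κ < (p : ℝ) ^ (1 : ℝ) :=
      Real.rpow_lt_rpow_of_exponent_lt (by linarith) (by linarith)
    rw [Real.rpow_one] at h3
    exact_mod_cast hHle.trans_lt h3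
  -- logarithm of `T`
  have hlogT : θ * Real.log T ≤ Real.log p := by
    have h3 := Real.log_le_log (Real.rpow_pos_of_pos hT0 _) hTp
    rwa [Real.log_rpow hT0] at h3
  have hlogT2 : Real.log T ≤ Real.log p / θ := by
    rw [le_div_iff₀ hθ]
    linarith
  have hlogS : ∑ r : {r // r ∈ S}, Real.log (r : ℕ) ≤ Real.log p / θ := by
    rw [Finset.sum_coe_sort S (fun r : ℕ => Real.log (r : ℕ))]
    have h5 : ∑ r ∈ S, Real.log (r : ℝ) = Real.log (∏ r ∈ S, (r : ℝ)) := by
      rw [Real.log_prod]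
      intro r hr
      have := (hSp r hr).pos
      positivity
    have h6 : Real.log (∏ r ∈ S, (r : ℝ)) ≤ Real.log T := Real.log_le_log (by linarith) hT
    rw [h5]
    linarith
  have hlam : 8 * D ≤ ν * Real.log p := by
    have h3 : Real.exp (8 * D / ν) ≤ p := hp0.trans (by exact_mod_cast hpp0)
    have h4 := Real.log_le_log (Real.exp_pos _) h3
    rw [Real.log_exp, div_le_iff₀ hν0] at h4
    linarith
  -- integer parameters
  set N2 : ℕ := ⌈t * N⌉₊ with hN2
  have hN2a : t * N ≤ N2 := Nat.le_ceil _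
  have hN2b : (N2 : ℝ) < t * N + 1 := Nat.ceil_lt_add_one (by positivity)
  have hN2pos : 0 < N2 := by
    have : (0 : ℝ) < N2 := lt_of_lt_of_le (by positivity) hN2a
    exact_mod_cast this
  have hN2R : (0 : ℝ) < N2 := by exact_mod_cast hN2pos
  set W : ℕ := ⌊w * N⌋₊ with hW
  have hWa : (W : ℝ) ≤ w * N := Nat.floor_le (by positivity)
  have hWb : w * N < W + 1 := Nat.lt_floor_add_one _
  set Lmax : ℕ := ⌈(1 + 3 * ν / 16) * N⌉₊ + 3 with hLmax
  have hLa : (1 + 3 * ν / 16) * N + 3 ≤ Lmax := by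
    rw [hLmax]; push_cast
    have := Nat.le_ceil ((1 + 3 * ν / 16) * (N : ℝ))
    linarith
  have hLb : (Lmax : ℝ) ≤ (1 + 3 * ν / 16) * N + 4 := by
    rw [hLmax]; push_cast
    have := (Nat.ceil_lt_add_one (a := (1 + 3 * ν / 16) * (N : ℝ)) (by positivity)).le
    linarith
  have hνN : ν * N ≤ N := by
    calc ν * N ≤ 1 * N := by gcongr
      _ = N := one_mul _
  have htN : t * N = ν * N / 16 := by rw [ht]; ring
  have hLb2 : (Lmax : ℝ) ≤ 2 * N := by
    have : (1 + 3 * ν / 16) * (N : ℝ) = N + 3 * (ν * N) / 16 := by ring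
    linarith
  have hN4 : 4 ≤ w * N := by
    rw [div_le_iff₀ hw0] at hN4w
    linarith
  refine thmSexp (ι := {r // r ∈ S}) (fun r => (r : ℕ)) (fun r => hSp r r.2)
    Subtype.val_injective e p N hp hcopM s hs (by rw [hposP, hnegP]; exact hne)
    (by rw [hposP, hnegP]; exact hdvd) κ A t (Real.log p / θ) hκ.le hκ1.le hA0.le (by omega)
    q m Q H (N / C) (⌈(N : ℝ) ^ (η / 10)⌉₊ + 3) N2 W Lmax hqpos hN2q hQpos hHp hHlog (by omega)
    ?_ ?_ ?_ ?_ ?_ hN2pos ?_ hlogS ?_ (by rw [hposP]; exact hZ1) (by rw [hnegP]; exact hZ2) ?_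
  · -- the pigeonhole condition
    refine params_count κ η T K K2 p N C _ hκ hκ1 hη0 hη1 hp.two_le hpT hC1 hK2 ?_ hKa ?_
    · rw [Fintype.card_coe]
      push_cast
      refine (hcard S fun r hr => (hSp r hr).one_le).trans ?_
      have : (∏ r ∈ S, (r : ℝ)) ^ (η / 2) ≤ T ^ (η / 2) :=
        Real.rpow_le_rpow (by linarith) hT (by positivity)
      gcongr
    · rw [← hν]
      exact hcon
  · -- density
    intro Γ hΓ hΓc
    obtain ⟨M, hM, hM1, hM2, hd⟩ := hdense N hNN0 Γ (fun γ hγ => by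
      have h3 := hΓ γ hγ
      calc C0 * γ ≤ C * (N / C) := Nat.mul_le_mul (by omega) h3
        _ ≤ N := Nat.mul_div_le _ _) (by
      have h3 : (N : ℝ) ^ (η / 10) ≤ (⌈(N : ℝ) ^ (η / 10)⌉₊ : ℝ) := Nat.le_ceil _
      have h4 : ((⌈(N : ℝ) ^ (η / 10)⌉₊ : ℕ) : ℝ) ≤ Γ.card := by
        exact_mod_cast (by omega : ⌈(N : ℝ) ^ (η / 10)⌉₊ ≤ Γ.card)
      linarith)
    refine ⟨M, hM, hM1, hM2, ?_⟩
    intro c hc
    obtain ⟨γ, hγ, hlt⟩ := hd c hc
    refine ⟨γ, hγ, ?_⟩
    rw [one_div, inv_mul_eq_div, lt_div_iff₀ hqR] at hlt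
    have : ((q * ((M * γ + (N - c)) % N) : ℕ) : ℝ) < N := by
      push_cast
      push_cast at hlt
      linarith
    exact_mod_cast this
  · -- `n ≤ m M`
    have h3 : 2 * (N : ℝ) ≤ m * (t / 4) * N := mul_le_mul_of_nonneg_right hm2 hNR.le
    have h4 : (m : ℝ) * (t / 4 * N) = m * (t / 4) * N := by ring
    rw [h4]
    linarith
  · -- the window
    have h3 : (m : ℝ) * (3 * N) + q * ((N / C : ℕ) : ℝ) ≤ q * W := by
      have e1 : ((N / C : ℕ) : ℝ) ≤ w * N / 4 := by
        have e2 : ((N / C : ℕ) : ℝ) ≤ (N : ℝ) / C := Nat.cast_div_le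
        refine e2.trans ?_
        rw [div_le_iff₀ hCpos]
        rw [div_le_iff₀ hw0] at hCR
        have : (N : ℝ) * 4 ≤ N * (C * w) := mul_le_mul_of_nonneg_left hCR hNR.le
        linarith
      have e2 : (12 * (m : ℝ)) * N ≤ q * w * N := mul_le_mul_of_nonneg_right hqw hNR.le
      have e3 : (q : ℝ) * ((N / C : ℕ) : ℝ) ≤ q * (w * N / 4) :=
        mul_le_mul_of_nonneg_left e1 hqR.le
      have e4 : (q : ℝ) * (w * N / 2) ≤ q * W := by
        apply mul_le_mul_of_nonneg_left _ hqR.le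
        linarith
      have e5 : (q : ℝ) * (w * N / 2) = q * w * N / 4 + q * (w * N / 4) := by ring
      linarith
    exact_mod_cast h3
  · -- `W ≤ N`
    have : (W : ℝ) ≤ N := by
      refine hWa.trans ?_
      have : w * N ≤ 1 / 16 * N := mul_le_mul_of_nonneg_right hw1 hNR.le
      linarith
    exact_mod_cast this
  · -- `Lmax`
    have h3 : (1 + 3 * ν / 16) * (N : ℝ) = N + 3 * (ν * N / 16) := by ring
    linarith
  · -- box condition for `omega ≠ 1`
    rw [div_le_iff₀ hθ]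
    have h3 : (200 : ℝ) * Real.log p ≤ Q * θ * Real.log p :=
      mul_le_mul_of_nonneg_right hQθ hlam0.le
    have h4 : (Q : ℝ) * (1 / 8 * Real.log p) * θ = Q * θ * Real.log p / 8 := by ring
    rw [h4]
    linarith
  · -- the final inequality
    have hratio : ((N : ℝ) + N2) / N2 ≤ 1 + 1 / t := by
      rw [div_le_iff₀ hN2R]
      have : (1 + 1 / t) * (N2 : ℝ) = N2 + N2 / t := by ring
      rw [this]
      have h3 : (N : ℝ) ≤ N2 / t := by
        rw [le_div_iff₀ ht0]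
        linarith
      linarith
    have hratio2 : (((N : ℝ) + N2) / N2) ^ (q + 1) ≤ C1 := by
      rw [hC1def]
      exact pow_le_pow_left₀ (by positivity) hratio _
    have hlogN : Real.log ((N : ℝ) + N2) ≤ 2 * N := by
      have h3 := Real.log_le_sub_one_of_pos (show (0 : ℝ) < (N : ℝ) + N2 by positivity)
      linarith
    have hlog2 : Real.log 2 ≤ 1 := by
      have := Real.log_two_lt_d9
      linarith
    have hlog20 : 0 ≤ Real.log 2 := Real.log_nonneg (by norm_num)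
    have f1 : Real.log 2 + ((q : ℝ) + 1) * Real.log (N + N2) + Lmax * Real.log 2 ≤
        (2 * q + 7) * N := by
      have e1 : ((q : ℝ) + 1) * Real.log (N + N2) ≤ (q + 1) * (2 * N) :=
        mul_le_mul_of_nonneg_left hlogN (by positivity)
      have e2 : (Lmax : ℝ) * Real.log 2 ≤ 2 * N * 1 := by gcongr
      have e3 : (2 * (q : ℝ) + 7) * N = (q + 1) * (2 * N) + 2 * N * 1 + 3 * N := by ring
      rw [e3]
      linarith
    have f2 : ((((N : ℝ) + N2) / N2) ^ (q + 1) + 1) *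
        (Real.log 2 + ((q : ℝ) + 1) * Real.log (N + N2) + Lmax * Real.log 2) ≤ D * N := by
      calc ((((N : ℝ) + N2) / N2) ^ (q + 1) + 1) *
          (Real.log 2 + ((q : ℝ) + 1) * Real.log (N + N2) + Lmax * Real.log 2) ≤
          ((((N : ℝ) + N2) / N2) ^ (q + 1) + 1) * ((2 * q + 7) * N) :=
            mul_le_mul_of_nonneg_left f1 (by positivity)
        _ ≤ (C1 + 1) * ((2 * q + 7) * N) := by
            apply mul_le_mul_of_nonneg_right _ (by positivity)
            linarith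
        _ = D * N := by rw [hD]; ring
    have f3 : (Lmax : ℝ) * (κ * Real.log p) ≤ ((κ + 3 * ν / 16) * N + 4) * Real.log p := by
      have e1 : (Lmax : ℝ) * κ ≤ (κ + 3 * ν / 16) * N + 4 := by
        calc (Lmax : ℝ) * κ ≤ ((1 + 3 * ν / 16) * N + 4) * κ :=
              mul_le_mul_of_nonneg_right hLb hκ.le
          _ = κ * N + κ * (3 * ν / 16 * N) + κ * 4 := by ring
          _ ≤ κ * N + 1 * (3 * ν / 16 * N) + 1 * 4 := by gcongr
          _ = _ := by ring
      calc (Lmax : ℝ) * (κ * Real.log p) = (Lmax : ℝ) * κ * Real.log p := by ring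
        _ ≤ _ := mul_le_mul_of_nonneg_right e1 hlam0.le
    have f4 : 2 * (W : ℝ) * A * Real.log p ≤ (ν / 8 * N) * Real.log p := by
      apply mul_le_mul_of_nonneg_right _ hlam0.le
      calc 2 * (W : ℝ) * A ≤ 2 * (w * N) * A := by gcongr
        _ = 2 * (w * A) * N := by ring
        _ = ν / 8 * N := by rw [hwA]; ring
    have f5 : (2 * (Lmax : ℝ) / Q + 1) * (Real.log p / θ) ≤
        (ν / 32 * N + 1 / θ) * Real.log p := by
      have e1 : 2 * (Lmax : ℝ) / Q / θ ≤ ν / 32 * N := by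
        rw [div_div, div_le_iff₀ (by positivity)]
        have e2 : (200 : ℝ) * N ≤ Q * (ν * θ) * N := mul_le_mul_of_nonneg_right hQνθ hNR.le
        have e3 : ν / 32 * N * (Q * θ) = Q * (ν * θ) * N / 32 := by ring
        rw [e3]
        linarith
      calc (2 * (Lmax : ℝ) / Q + 1) * (Real.log p / θ) =
          (2 * (Lmax : ℝ) / Q / θ + 1 / θ) * Real.log p := by ring
        _ ≤ _ := by
          apply mul_le_mul_of_nonneg_right _ hlam0.le
          linarith
    have f6 : (4 + 1 / θ) * Real.log p ≤ ν / 8 * N * Real.log p := by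
      apply mul_le_mul_of_nonneg_right _ hlam0.le
      rw [div_le_iff₀ hν0] at hNθ
      linarith
    have f7 : D * N ≤ ν / 8 * N * Real.log p := by
      have : 8 * D * N ≤ ν * Real.log p * N := mul_le_mul_of_nonneg_right hlam hNR.le
      linarith
    have f8 : 0 < ν * N * Real.log p := by positivity
    have f9 : κ * N * Real.log p = N * Real.log p - ν * N * Real.log p := by
      rw [hν]; ring
    have g1 : ((κ + 3 * ν / 16) * N + 4) * Real.log p =
        κ * N * Real.log p + 3 / 16 * (ν * N * Real.log p) + 4 * Real.log p := by ring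
    have g2 : (ν / 8 * N) * Real.log p = 1 / 8 * (ν * N * Real.log p) := by ring
    have g3 : (ν / 32 * N + 1 / θ) * Real.log p =
        1 / 32 * (ν * N * Real.log p) + 1 / θ * Real.log p := by ring
    have g4 : (4 + 1 / θ) * Real.log p = 4 * Real.log p + 1 / θ * Real.log p := by ring
    rw [g1] at f3
    rw [g2] at f4 f6 f7
    rw [g3] at f5
    rw [g4] at f6
    linarith

/-- **Theorem S**. -/
theorem thmS : ThmS := by
  intro A κ θ η hA hκ hκ1 hθ hη
  obtain ⟨K, hK, p0, h⟩ := thmS_aux A κ θ (min η 1) hA hκ hκ1 hθ (lt_min hη one_pos)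
    (min_le_right _ _)
  refine ⟨K, hK, p0, ?_⟩
  intro p u Z1 Z2 s T hp hpp0 h1 h2 hcop hs hne hdvd hZ1 hZ2 hT hpT hTp
  refine (h p u Z1 Z2 s T hp hpp0 h1 h2 hcop hs hne hdvd hZ1 hZ2 hT hpT hTp).trans ?_
  have hT1 : 1 ≤ T := le_trans (by exact_mod_cast hp.one_lt.le) hpT
  have : T ^ (min η 1) ≤ T ^ η := Real.rpow_le_rpow_of_exponent_le hT1 (min_le_left _ _)
  gcongr

end Pool.Agent.Lib.AbcZ
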