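import Mathlib
import Pool.Agent.Lib.AbcH.Main3
import Pool.Agent.Lib.AbcZ.ThmS

/-!
# Every abc-triple has `log c ≤ K rad (abc) ^ ε`, for every `ε > 0`
-/

namespace Pool.Agent.Lib.AbcZ

open Pool.Agent.Lib.AbcH Pool.Agent.Lib.AbcO Pool.Agent.Lib.AbcQ

/-- **Every abc-triple** has `log c ≤ K rad (abc) ^ ε`, for every `ε > 0`. -/
theorem subexp (ε : ℝ) (hε : 0 < ε) : ∃ K : ℝ, 0 < K ∧ ∀ a b c : ℕ, AbcTriple a b c →
    Real.log c ≤ K * (rad (a * b * c) : ℝ) ^ ε :=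
  sub_abs thmE1 thmS ε hε

/-- Every abc-triple composed of primes of `r` has `log c ≤ K r ^ ε`. -/
theorem subexp_r (ε : ℝ) (hε : 0 < ε) :
    ∃ K : ℝ, 0 < K ∧ ∀ r : ℕ, 0 < r → high r (K * (r : ℝ) ^ ε) = ∅ :=
  sub_r thmE1 thmS ε hε

end Pool.Agent.Lib.AbcZ
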