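import Mathlib
import Pool.Agent.Lib.AbcT.Last
import Pool.Agent.Lib.AbcZ.Subexp

/-!
# Every elliptic curve over `ℚ` with full rational 2-torsion: `log |D| ≤ K N ^ ε`
-/

open WeierstrassCurve

namespace Pool.Agent.Lib.AbcZ

open Pool.Agent.Lib.AbcT

/-- **Every elliptic curve over `ℚ` with full rational 2-torsion** has a Weierstrass equation with
integer coefficients and `|D| < exp (K N ^ ε)`, `N` the part of the conductor away from 2, for every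
`ε > 0`. -/
theorem szpiro_all (ε : ℝ) (hε : 0 < ε) : ∃ K : ℝ, 0 < K ∧
    ∀ E : WeierstrassCurve ℚ, E.Δ ≠ 0 → FullTwo E →
      DiscLt E (Real.exp (K * (cond E : ℝ) ^ ε)) := by
  obtain ⟨K₀, hK₀, h⟩ := subexp ε hε
  refine ⟨Real.log 16 + 1 + (6 / ε + 6 * K₀) * (2 : ℝ) ^ ε, by positivity, ?_⟩
  intro E hE h2
  obtain ⟨a, b, d, hpar, C, hC⟩ := exists_Ec hE h2
  rw [← cond_smul C hE, ← discLt_smul C, hC, cond_Ec hpar]
  apply discLt_Ec
  have ha := hpar.1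
  have hb := hpar.2.1
  have hd : 0 < d := Nat.pos_of_ne_zero hpar.2.2.2.ne_zero
  set l := lev (a, b, d) with hl
  have hd2 : d ≤ 2 * l := le_two_lev hpar
  have hl1 : 1 ≤ l := by omega
  have hl1' : (1 : ℝ) ≤ l := by exact_mod_cast hl1
  have hab : Real.log ((a + b : ℕ) : ℝ) ≤ K₀ * (2 * l : ℝ) ^ ε := by
    have h3 := h a b (a + b) ⟨ha, hb, rfl, hpar.2.2.1⟩
    refine h3.trans (mul_le_mul_of_nonneg_left ?_ hK₀.le)
    apply Real.rpow_le_rpow (Nat.cast_nonneg _) _ hε.le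
    have h4 : Pool.Agent.Lib.AbcH.rad (a * b * (a + b)) ≤ 2 * l := rad_le_lev hpar
    exact_mod_cast h4
  have hs : (0 : ℝ) < (a : ℝ) + b := by
    have : (0 : ℝ) < a := by exact_mod_cast ha
    positivity
  have hle : 16 * (d : ℝ) ^ 6 * ((a : ℝ) * b * (a + b)) ^ 2 ≤
      16 * (2 * l : ℝ) ^ 6 * ((a : ℝ) + b) ^ 6 := by
    have h5 : (d : ℝ) ≤ 2 * l := by exact_mod_cast hd2
    have h6 : (a : ℝ) * b * (a + b) ≤ ((a : ℝ) + b) ^ 3 := by
      have ha' : (0 : ℝ) ≤ a := Nat.cast_nonneg _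
      have hb' : (0 : ℝ) ≤ b := Nat.cast_nonneg _
      have h7 : (a : ℝ) * b ≤ ((a : ℝ) + b) ^ 2 := by nlinarith
      calc (a : ℝ) * b * (a + b) ≤ ((a : ℝ) + b) ^ 2 * (a + b) :=
            mul_le_mul_of_nonneg_right h7 hs.le
        _ = ((a : ℝ) + b) ^ 3 := by ring
    calc 16 * (d : ℝ) ^ 6 * ((a : ℝ) * b * (a + b)) ^ 2
        ≤ 16 * (2 * l : ℝ) ^ 6 * (((a : ℝ) + b) ^ 3) ^ 2 := by gcongr
      _ = 16 * (2 * l : ℝ) ^ 6 * ((a : ℝ) + b) ^ 6 := by ring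
  refine lt_of_le_of_lt hle ?_
  have hl2 : (0 : ℝ) < 2 * l := by linarith
  have hpos : 0 < 16 * (2 * l : ℝ) ^ 6 * ((a : ℝ) + b) ^ 6 := by positivity
  rw [← Real.log_lt_iff_lt_exp hpos]
  have hlog : Real.log (16 * (2 * l : ℝ) ^ 6 * ((a : ℝ) + b) ^ 6) =
      Real.log 16 + 6 * Real.log (2 * l) + 6 * Real.log ((a : ℝ) + b) := by
    rw [Real.log_mul (by positivity) (by positivity), Real.log_mul (by norm_num) (by positivity),
      Real.log_pow, Real.log_pow]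
    push_cast
    ring
  have h8 : Real.log (2 * l) ≤ (2 * l : ℝ) ^ ε / ε := Real.log_le_rpow_div hl2.le hε
  have h9 : (2 * l : ℝ) ^ ε = (2 : ℝ) ^ ε * (l : ℝ) ^ ε :=
    Real.mul_rpow (by norm_num) (by positivity)
  have h10 : (1 : ℝ) ≤ (l : ℝ) ^ ε := Real.one_le_rpow hl1' hε.le
  have h11 : 0 ≤ Real.log 16 := Real.log_nonneg (by norm_num)
  push_cast at hab
  rw [hlog]
  calc Real.log 16 + 6 * Real.log (2 * l) + 6 * Real.log ((a : ℝ) + b)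
      ≤ Real.log 16 + 6 * ((2 * l : ℝ) ^ ε / ε) + 6 * (K₀ * (2 * l : ℝ) ^ ε) := by
        gcongr
    _ = Real.log 16 + ((6 / ε + 6 * K₀) * (2 : ℝ) ^ ε) * (l : ℝ) ^ ε := by
        rw [h9]; ring
    _ < (Real.log 16 + 1) * (l : ℝ) ^ ε + ((6 / ε + 6 * K₀) * (2 : ℝ) ^ ε) * (l : ℝ) ^ ε := by
        nlinarith
    _ = (Real.log 16 + 1 + (6 / ε + 6 * K₀) * (2 : ℝ) ^ ε) * (l : ℝ) ^ ε := by ring

/-- The same with the conductor of a semistable curve. -/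
theorem szpiro_semi (ε : ℝ) (hε : 0 < ε) : ∃ K : ℝ, 0 < K ∧
    ∀ E : WeierstrassCurve ℚ, E.Δ ≠ 0 → FullTwo E → Semi E →
      DiscLt E (Real.exp (K * (condAll E : ℝ) ^ ε)) := by
  obtain ⟨K, hK, h⟩ := szpiro_all ε hε
  refine ⟨K, hK, fun E hE h2 hs => ?_⟩
  obtain ⟨W, C, hW, hlt⟩ := h E hE h2
  refine ⟨W, C, hW, hlt.trans_le (Real.exp_le_exp.mpr ?_)⟩
  apply mul_le_mul_of_nonneg_left _ hK.le
  apply Real.rpow_le_rpow (Nat.cast_nonneg _) _ hε.le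
  obtain ⟨a, b, d, hpar, C', hC⟩ := exists_Ec hE h2
  rw [← cond_smul C' hE, ← condAll_smul C' hE, hC, cond_Ec hpar]
  rw [← semi_smul C' hE, hC] at hs
  obtain ⟨hd, hsem⟩ := (semi_Ec hpar).mp hs
  subst hd
  rw [condAll_Ec hpar hsem]
  exact_mod_cast lev_le_rad hpar (sixteen_dvd_of_sem hsem)

end Pool.Agent.Lib.AbcZ
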