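import Pool.Agent.Lib.AbcU.Sparse
import Pool.Agent.Lib.AbcZ.Subexp

/-!
# Tails of the number of high solutions, after the bound `log c ≤ K rad ^ ε`
-/

open Finset
open scoped ENNReal

namespace Pool.Agent.Lib.AbcZ

open Pool.Agent.Lib.AbcU
open Pool.Agent.Lib.Pabc2 (N rd ht IsT)

variable {ι : Type*}

/-- The height is at most `K rad ^ ε`. -/
theorem height_eps (ε : ℝ) (hε : 0 < ε) : ∃ K : ℝ, 1 ≤ K ∧ ∀ t : ℕ × ℕ,
    0 < t.1 → 0 < t.2 → Nat.Coprime t.1 t.2 → ht t ≤ K * (rd t : ℝ) ^ ε := by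
  obtain ⟨K, hK, h⟩ := subexp ε hε
  refine ⟨max K 1, le_max_right _ _, fun t h1 h2 h12 => ?_⟩
  have h3 := h t.1 t.2 (t.1 + t.2) ⟨h1, h2, rfl, h12⟩
  have h4 : Real.log (((t.1 + t.2 : ℕ) : ℝ)) = ht t := by
    rw [Nat.cast_add]
    rfl
  have h5 : (Pool.Agent.Lib.AbcH.rad (t.1 * t.2 * (t.1 + t.2)) : ℝ) = (rd t : ℝ) := rfl
  rw [h4, h5] at h3
  exact h3.trans (mul_le_mul_of_nonneg_right (le_max_left _ _) (by positivity))

/-- The radical of a high triple. -/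
theorem rad_ge_all (e : ι → ℕ × ℕ)
    (he : ∀ i, 0 < (e i).1 ∧ 0 < (e i).2 ∧ Nat.Coprime (e i).1 (e i).2) (β : ℝ) (hβ : 0 < β) :
    ∃ c : ℝ, 0 < c ∧ ∀ (x : ℝ), 0 < x → ∀ i ∈ Hi e x, c * x ^ (1 / β) ≤ (rd (e i) : ℝ) := by
  obtain ⟨K, hK, h⟩ := height_eps β hβ
  refine ⟨K ^ (-(1 / β)), by positivity, fun x hx i hi => ?_⟩
  have h1 : x ≤ K * (rd (e i) : ℝ) ^ β := le_trans hi (h (e i) (he i).1 (he i).2.1 (he i).2.2)
  have hr : (0 : ℝ) < rd (e i) := by exact_mod_cast rd_pos' (e i)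
  have h3 : x ^ (1 / β) ≤ (K * (rd (e i) : ℝ) ^ β) ^ (1 / β) :=
    Real.rpow_le_rpow hx.le h1 (by positivity)
  rw [Real.mul_rpow (by linarith) (by positivity), ← Real.rpow_mul hr.le,
    mul_one_div_cancel hβ.ne', Real.rpow_one] at h3
  calc K ^ (-(1 / β)) * x ^ (1 / β) ≤ K ^ (-(1 / β)) * (K ^ (1 / β) * (rd (e i) : ℝ)) :=
        mul_le_mul_of_nonneg_left h3 (by positivity)
    _ = rd (e i) := by
        rw [← mul_assoc, ← Real.rpow_add (by linarith)]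
        simp

open Classical in
/-- The tuples of triples of height at least `x`. -/
theorem tsum_high_all (e : ι → ℕ × ℕ) (hinj : Function.Injective e)
    (he : ∀ i, 0 < (e i).1 ∧ 0 < (e i).2 ∧ Nat.Coprime (e i).1 (e i).2) (k : ℕ) (hk : 1 ≤ k)
    (η : ℝ) (hη0 : 0 < η) : ∃ K : ℝ, 0 ≤ K ∧ ∀ x : ℝ, 0 < x →
      (∑' s : Fin k → ι, if ∀ j, s j ∈ Hi e x then
        ENNReal.ofReal ((L (fun i => rd (e i)) s : ℝ) ^ (-(1 : ℝ))) else 0) ≤
      ENNReal.ofReal (K * x ^ (-η)) := by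
  obtain ⟨R, hRdef⟩ : ∃ R : ι → ℕ, R = fun i => rd (e i) := ⟨_, rfl⟩
  have hR : ∀ i, 1 ≤ R i := fun i => by rw [hRdef]; exact rd_pos' _
  -- the parameters
  obtain ⟨δ, hδ⟩ : ∃ δ : ℝ, δ = 1 / 12 := ⟨_, rfl⟩
  have hδ0 : 0 < δ := by linarith
  obtain ⟨M0, hM0⟩ := Dk_viol e hinj he k (1 / 3 + δ) (by linarith)
  obtain ⟨M, hM⟩ : ∃ M : ℝ, M = max M0 1 := ⟨_, rfl⟩
  have hMpos : 0 < M := by
    have : 1 ≤ M := by rw [hM]; exact le_max_right _ _
    linarith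
  have hD1 : Dk (fun i => rd (e i)) (V e M) k (1 / 3 + δ) ≠ ⊤ :=
    hM0 M (by rw [hM]; exact le_max_left _ _)
  have hD2 : Dk (fun i => rd (e i)) Set.univ k (5 / 6) ≠ ⊤ := Dk_all e hinj he k _ (by norm_num)
  rw [← hRdef] at hD1 hD2
  -- `(2/3 - δ) / β = η`
  obtain ⟨β, hβ⟩ : ∃ β : ℝ, β = (2 / 3 - δ) / η := ⟨_, rfl⟩
  have hβ2 : 0 < β := by
    rw [hβ]
    exact div_pos (by linarith) hη0
  obtain ⟨c, hc, hrad⟩ := rad_ge_all e he β hβ2
  obtain ⟨K1, hK1, hexp⟩ := exp_le_rpow (1 / (6 * M)) η (by positivity) hη0.le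
  refine ⟨c ^ (-(2 / 3 - δ)) * (Dk R (V e M) k (1 / 3 + δ)).toReal +
    K1 * (Dk R Set.univ k (5 / 6)).toReal, by positivity, fun x hx => ?_⟩
  simp only [← hRdef]
  obtain ⟨P, hP⟩ : ∃ P : (Fin k → ι) → Prop, P = fun s => ∀ j, s j ∈ V e M := ⟨_, rfl⟩
  obtain ⟨Q, hQ⟩ : ∃ Q : (Fin k → ι) → Prop, Q = fun s => ¬ P s := ⟨_, rfl⟩
  have hsplit : ∀ s : Fin k → ι, (if ∀ j, s j ∈ Hi e x then
      ENNReal.ofReal ((L R s : ℝ) ^ (-(1 : ℝ))) else 0) ≤
      (if (∀ j, s j ∈ Hi e x) ∧ P s then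
        ENNReal.ofReal ((L R s : ℝ) ^ (-(1 : ℝ))) else 0) +
      (if (∀ j, s j ∈ Hi e x) ∧ Q s then
        ENNReal.ofReal ((L R s : ℝ) ^ (-(1 : ℝ))) else 0) := by
    intro s
    by_cases h1 : ∀ j, s j ∈ Hi e x
    · by_cases h2 : P s
      · rw [if_pos h1, if_pos ⟨h1, h2⟩]
        exact le_self_add
      · have h3 : Q s := by rw [hQ]; exact h2
        rw [if_pos h1, if_pos (c := (∀ j, s j ∈ Hi e x) ∧ Q s) ⟨h1, h3⟩]
        exact le_add_self
    · rw [if_neg h1]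
      exact zero_le
  refine (ENNReal.tsum_le_tsum hsplit).trans ?_
  rw [ENNReal.tsum_add]
  have hA := tsum_shift R hR (Hi e x) (V e M) k (1 / 3 + δ) 1 (c * x ^ (1 / β)) (by linarith)
    (by positivity) P (by
      intro s h1 h2
      rw [hP] at h2
      refine ⟨h2, ?_⟩
      have h3 := hrad x hx (s ⟨0, hk⟩) (h1 _)
      have h4 := le_L R hR s ⟨0, hk⟩
      refine h3.trans ?_
      rw [hRdef] at h4 ⊢
      exact_mod_cast h4)
  have hB := tsum_shift R hR (Hi e x) Set.univ k (5 / 6) 1 (Real.exp (x / M)) (by norm_num)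
    (by positivity) Q (by
      intro s h1 h2
      rw [hQ, hP] at h2
      refine ⟨fun j => Set.mem_univ _, ?_⟩
      push Not at h2
      obtain ⟨j, hj⟩ := h2
      have h3 : ht (e (s j)) < M * Real.log (rd (e (s j))) := by
        unfold V at hj
        rw [Set.mem_ofPred_eq, not_le] at hj
        exact hj
      have h4 : x ≤ ht (e (s j)) := h1 j
      have h5 : x / M ≤ Real.log (rd (e (s j))) := by
        rw [div_le_iff₀ hMpos, mul_comm]
        linarith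
      have h6 : (0 : ℝ) < rd (e (s j)) := by exact_mod_cast rd_pos' _
      have h7 : Real.exp (x / M) ≤ rd (e (s j)) := by
        rw [← Real.exp_log h6]
        exact Real.exp_le_exp.mpr h5
      have h8 := le_L R hR s j
      refine h7.trans ?_
      rw [hRdef] at h8 ⊢
      exact_mod_cast h8)
  refine (add_le_add hA hB).trans ?_
  have e1 : Dk R (V e M) k (1 / 3 + δ) = ENNReal.ofReal (Dk R (V e M) k (1 / 3 + δ)).toReal :=
    (ENNReal.ofReal_toReal hD1).symm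
  have e2 : Dk R Set.univ k (5 / 6) = ENNReal.ofReal (Dk R Set.univ k (5 / 6)).toReal :=
    (ENNReal.ofReal_toReal hD2).symm
  rw [e1, e2, ← ENNReal.ofReal_mul (by positivity), ← ENNReal.ofReal_mul (by positivity),
    ← ENNReal.ofReal_add (by positivity) (by positivity)]
  apply ENNReal.ofReal_le_ofReal
  rw [ENNReal.toReal_ofReal ENNReal.toReal_nonneg, ENNReal.toReal_ofReal ENNReal.toReal_nonneg]
  have h1 : (c * x ^ (1 / β)) ^ (-(1 - (1 / 3 + δ))) = c ^ (-(2 / 3 - δ)) * x ^ (-η) := by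
    rw [Real.mul_rpow hc.le (by positivity), ← Real.rpow_mul hx.le]
    congr 2
    · ring
    · have h0 : 2 / 3 - δ ≠ 0 := by
        have : 0 < 2 / 3 - δ := by linarith
        exact this.ne'
      rw [hβ, one_div_div, show -(1 - (1 / 3 + δ)) = -(2 / 3 - δ) by ring, mul_neg,
        div_mul_cancel₀ _ h0]
  have h2 : Real.exp (x / M) ^ (-(1 - 5 / 6 : ℝ)) ≤ K1 * x ^ (-η) := by
    refine le_trans (le_of_eq ?_) (hexp x hx)
    rw [← Real.exp_mul]
    congr 1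
    field_simp
    norm_num
  have h3 : 0 ≤ (Dk R (V e M) k (1 / 3 + δ)).toReal := ENNReal.toReal_nonneg
  have h4 : 0 ≤ (Dk R Set.univ k (5 / 6)).toReal := ENNReal.toReal_nonneg
  have h5 := mul_le_mul_of_nonneg_right h2 h4
  rw [h1]
  calc c ^ (-(2 / 3 - δ)) * x ^ (-η) * (Dk R (V e M) k (1 / 3 + δ)).toReal +
      Real.exp (x / M) ^ (-(1 - 5 / 6 : ℝ)) * (Dk R Set.univ k (5 / 6)).toReal
      ≤ c ^ (-(2 / 3 - δ)) * x ^ (-η) * (Dk R (V e M) k (1 / 3 + δ)).toReal +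
        K1 * x ^ (-η) * (Dk R Set.univ k (5 / 6)).toReal := by linarith
    _ = _ := by ring

open Classical in
/-- The tuples of high triples with `lcm` at most `Y`. -/
theorem tsum_sparse_all (e : ι → ℕ × ℕ) (hinj : Function.Injective e)
    (he : ∀ i, 0 < (e i).1 ∧ 0 < (e i).2 ∧ Nat.Coprime (e i).1 (e i).2) (k : ℕ) (hk : 1 ≤ k)
    (a t η : ℝ) (ht' : 1 / 3 < t) (hη0 : 0 < η) (ha : 1 / 3 < a) :
    ∃ M K : ℝ, 1 ≤ M ∧ 0 ≤ K ∧ ∀ Y : ℝ, 2 ≤ Y →
      (∑' s : Fin k → ι, if (∀ j, s j ∈ Hi e (M * Real.log Y)) ∧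
          (L (fun i => rd (e i)) s : ℝ) ≤ Y then
        ENNReal.ofReal ((L (fun i => rd (e i)) s : ℝ) ^ (-a) + Y ^ (-t)) else 0) ≤
      ENNReal.ofReal (K * Real.log Y ^ (-η)) := by
  obtain ⟨R, hRdef⟩ : ∃ R : ι → ℕ, R = fun i => rd (e i) := ⟨_, rfl⟩
  have hR : ∀ i, 1 ≤ R i := fun i => by rw [hRdef]; exact rd_pos' _
  obtain ⟨δ, hδ⟩ : ∃ δ : ℝ, δ = min ((a - 1 / 3) / 2) ((t - 1 / 3) / 2) := ⟨_, rfl⟩
  have hδ0 : 0 < δ := by
    rw [hδ]
    exact lt_min (by linarith) (by linarith)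
  have hδa : δ ≤ (a - 1 / 3) / 2 := by rw [hδ]; exact min_le_left _ _
  have hδt : δ ≤ (t - 1 / 3) / 2 := by rw [hδ]; exact min_le_right _ _
  obtain ⟨σ, hσ⟩ : ∃ σ : ℝ, σ = 1 / 3 + δ := ⟨_, rfl⟩
  obtain ⟨M0, hM0⟩ := Dk_viol e hinj he k σ (by linarith)
  obtain ⟨M, hM⟩ : ∃ M : ℝ, M = max M0 1 := ⟨_, rfl⟩
  have hM1 : 1 ≤ M := by rw [hM]; exact le_max_right _ _
  have hD : Dk (fun i => rd (e i)) (V e M) k σ ≠ ⊤ := hM0 M (by rw [hM]; exact le_max_left _ _)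
  rw [← hRdef] at hD
  obtain ⟨D, hDdef⟩ : ∃ D : ℝ, D = (Dk R (V e M) k σ).toReal := ⟨_, rfl⟩
  have hD0 : 0 ≤ D := by rw [hDdef]; exact ENNReal.toReal_nonneg
  have eD : Dk R (V e M) k σ = ENNReal.ofReal D := by
    rw [hDdef]
    exact (ENNReal.ofReal_toReal hD).symm
  obtain ⟨β, hβ⟩ : ∃ β : ℝ, β = (a - σ) / η := ⟨_, rfl⟩
  have haσ : 0 < a - σ := by linarith
  have hβ2 : 0 < β := by
    rw [hβ]
    exact div_pos haσ hη0
  obtain ⟨c, hc, hrad⟩ := rad_ge_all e he β hβ2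
  obtain ⟨K1, hK1, hexp⟩ := exp_le_rpow (t - σ) η (by linarith) hη0.le
  refine ⟨M, c ^ (-(a - σ)) * D + K1 * D, hM1, by positivity, fun Y hY => ?_⟩
  simp only [← hRdef]
  have hY0 : 0 < Y := by linarith
  have hl0 : 0 < Real.log Y := Real.log_pos (by linarith)
  have hlM : Real.log Y ≤ M * Real.log Y := le_mul_of_one_le_left hl0.le hM1
  obtain ⟨P, hP⟩ : ∃ P : (Fin k → ι) → Prop, P = fun s => (L R s : ℝ) ≤ Y := ⟨_, rfl⟩
  obtain ⟨W, hW⟩ : ∃ W : Set ι, W = Hi e (M * Real.log Y) := ⟨_, rfl⟩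
  have hPV : ∀ s : Fin k → ι, (∀ j, s j ∈ W) → P s → ∀ j, s j ∈ V e M := by
    intro s h1 h2 j
    rw [hP] at h2
    have h3 : (rd (e (s j)) : ℝ) ≤ Y := by
      have h4 := le_L R hR s j
      rw [hRdef] at h4 h2
      have h5 : (rd (e (s j)) : ℝ) ≤ (L (fun i => rd (e i)) s : ℝ) := by exact_mod_cast h4
      exact h5.trans h2
    have h6 : (0 : ℝ) < rd (e (s j)) := by exact_mod_cast rd_pos' _
    have h7 := Real.log_le_log h6 h3
    have h8 := h1 j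
    rw [hW] at h8
    have h9 : M * Real.log Y ≤ ht (e (s j)) := h8
    exact (mul_le_mul_of_nonneg_left h7 (by linarith)).trans h9
  have hsplit : ∀ s : Fin k → ι, (if (∀ j, s j ∈ W) ∧ P s then
      ENNReal.ofReal ((L R s : ℝ) ^ (-a) + Y ^ (-t)) else 0) ≤
      (if (∀ j, s j ∈ W) ∧ P s then
        ENNReal.ofReal ((L R s : ℝ) ^ (-a)) else 0) +
      ENNReal.ofReal (Y ^ (-(t - σ))) * (if ∀ j, s j ∈ V e M then
        ENNReal.ofReal ((L R s : ℝ) ^ (-σ)) else 0) := by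
    intro s
    by_cases h1 : (∀ j, s j ∈ W) ∧ P s
    · rw [if_pos h1, if_pos h1, if_pos (hPV s h1.1 h1.2), ENNReal.ofReal_add (by positivity)
        (by positivity), ← ENNReal.ofReal_mul (by positivity)]
      apply add_le_add le_rfl
      apply ENNReal.ofReal_le_ofReal
      have hL : (0 : ℝ) < L R s := by exact_mod_cast L_pos R hR s
      have h2 := h1.2
      rw [hP] at h2
      rw [show -t = -(t - σ) + -σ by ring, Real.rpow_add hY0]
      apply mul_le_mul_of_nonneg_left _ (by positivity)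
      exact Real.rpow_le_rpow_of_nonpos hL h2 (by linarith)
    · rw [if_neg h1]
      exact zero_le
  have hgoal : (∑' s : Fin k → ι, if (∀ j, s j ∈ Hi e (M * Real.log Y)) ∧ (L R s : ℝ) ≤ Y then
        ENNReal.ofReal ((L R s : ℝ) ^ (-a) + Y ^ (-t)) else 0) =
      ∑' s : Fin k → ι, if (∀ j, s j ∈ W) ∧ P s then
        ENNReal.ofReal ((L R s : ℝ) ^ (-a) + Y ^ (-t)) else 0 := by
    apply tsum_congr
    intro s
    rw [hW, hP]
  rw [hgoal]
  refine (ENNReal.tsum_le_tsum hsplit).trans ?_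
  rw [ENNReal.tsum_add, ENNReal.tsum_mul_left]
  have hA := tsum_shift R hR W (V e M) k σ a (c * Real.log Y ^ (1 / β)) (by linarith)
    (by positivity) P (by
      intro s h1 h2
      refine ⟨hPV s h1 h2, ?_⟩
      have h3 := hrad (Real.log Y) hl0 (s ⟨0, hk⟩) (by
        have h4 := h1 ⟨0, hk⟩
        rw [hW] at h4
        exact hlM.trans h4)
      have h4 := le_L R hR s ⟨0, hk⟩
      refine h3.trans ?_
      rw [hRdef] at h4 ⊢
      exact_mod_cast h4)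
  have hB : ENNReal.ofReal (Y ^ (-(t - σ))) * (∑' s : Fin k → ι, if ∀ j, s j ∈ V e M then
        ENNReal.ofReal ((L R s : ℝ) ^ (-σ)) else 0) =
      ENNReal.ofReal (Y ^ (-(t - σ))) * Dk R (V e M) k σ := by
    congr 1
  rw [hB]
  refine (add_le_add hA le_rfl).trans ?_
  rw [eD, ← ENNReal.ofReal_mul (by positivity), ← ENNReal.ofReal_mul (by positivity),
    ← ENNReal.ofReal_add (by positivity) (by positivity)]
  apply ENNReal.ofReal_le_ofReal
  have h1 : (c * Real.log Y ^ (1 / β)) ^ (-(a - σ)) = c ^ (-(a - σ)) * Real.log Y ^ (-η) := by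
    rw [Real.mul_rpow hc.le (by positivity), ← Real.rpow_mul hl0.le]
    congr 2
    rw [hβ, one_div_div, mul_neg, div_mul_cancel₀ _ haσ.ne']
  have h2 : Y ^ (-(t - σ)) ≤ K1 * Real.log Y ^ (-η) := by
    refine le_trans (le_of_eq ?_) (hexp _ hl0)
    rw [Real.rpow_def_of_pos hY0]
    congr 1
    ring
  rw [h1]
  have h3 := mul_le_mul_of_nonneg_right h2 hD0
  calc c ^ (-(a - σ)) * Real.log Y ^ (-η) * D + Y ^ (-(t - σ)) * D
      ≤ c ^ (-(a - σ)) * Real.log Y ^ (-η) * D + K1 * Real.log Y ^ (-η) * D := by linarith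
    _ = _ := by ring

open Classical in
/-- The violators supported on the members of a family. -/
theorem family_all (e : ι → ℕ × ℕ) (hinj : Function.Injective e)
    (he : ∀ i, 0 < (e i).1 ∧ 0 < (e i).2 ∧ Nat.Coprime (e i).1 (e i).2) (k : ℕ) (hk : 1 ≤ k)
    (a t η : ℝ) (ht' : 1 / 3 < t) (hη0 : 0 < η) (ha : 1 / 3 < a) :
    ∃ M K : ℝ, 1 ≤ M ∧ 0 ≤ K ∧ ∀ Y C : ℝ, 2 ≤ Y → 0 ≤ C → ∀ {κ : Type} (I : Finset κ) (r : κ → ℕ),
      (∀ i ∈ I, 1 ≤ r i ∧ (r i : ℝ) ≤ Y) →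
      (∀ d : ℕ, (d : ℝ) ≤ Y → Squarefree d →
        ((I.filter (fun i => d ∣ r i)).card : ℝ) ≤ C * ((d : ℝ) ^ (-a) + Y ^ (-t))) →
      ∑ i ∈ I, (((sol (fun i => rd (e i)) (r i) ∩ Hi e (M * Real.log Y)).ncard : ℝ) ^ k) ≤
        C * K * Real.log Y ^ (-η) := by
  obtain ⟨M, K, hM, hK, h⟩ := tsum_sparse_all e hinj he k hk a t η ht' hη0 ha
  refine ⟨M, K, hM, hK, ?_⟩
  intro Y C hY hC κ I r hr hd
  obtain ⟨R, hRdef⟩ : ∃ R : ι → ℕ, R = fun i => rd (e i) := ⟨_, rfl⟩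
  have hR : ∀ i, 1 ≤ R i := fun i => by rw [hRdef]; exact rd_pos' _
  have hRs : ∀ i, Squarefree (R i) := fun i => by rw [hRdef]; exact squarefree_rd _
  have hD1 : Dk R Set.univ 1 1 ≠ ⊤ := by
    rw [hRdef]
    exact Dk_all e hinj he 1 1 (by norm_num)
  have hf := finite_R_le R hR (σ := 1) (by norm_num) hD1
  have hY0 : 0 < Y := by linarith
  have h1 := h Y hY
  rw [← hRdef] at h1 ⊢
  have h2 := sum_pow_le R hf (Hi e (M * Real.log Y)) I r (fun i hi => (hr i hi).1) k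
    (fun s => if (L R s : ℝ) ≤ Y then ENNReal.ofReal (C * ((L R s : ℝ) ^ (-a) + Y ^ (-t))) else 0)
    (by
      intro s _
      by_cases hL : (L R s : ℝ) ≤ Y
      · rw [if_pos hL]
        have h3 := hd (L R s) hL (squarefree_L R hRs s)
        rw [← ENNReal.ofReal_natCast]
        exact ENNReal.ofReal_le_ofReal h3
      · rw [if_neg hL]
        have h3 : I.filter (fun i => L R s ∣ r i) = ∅ := by
          apply Finset.filter_eq_empty_iff.mpr
          intro i hi hdvd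
          apply hL
          have h4 := Nat.le_of_dvd (hr i hi).1 hdvd
          have h5 : (L R s : ℝ) ≤ r i := by exact_mod_cast h4
          exact h5.trans (hr i hi).2
        rw [h3]
        simp)
  have h3 : (∑' s : Fin k → ι, if ∀ j, s j ∈ Hi e (M * Real.log Y) then
      (if (L R s : ℝ) ≤ Y then ENNReal.ofReal (C * ((L R s : ℝ) ^ (-a) + Y ^ (-t))) else 0)
      else 0) = ENNReal.ofReal C * ∑' s : Fin k → ι,
        if (∀ j, s j ∈ Hi e (M * Real.log Y)) ∧ (L R s : ℝ) ≤ Y then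
          ENNReal.ofReal ((L R s : ℝ) ^ (-a) + Y ^ (-t)) else 0 := by
    rw [← ENNReal.tsum_mul_left]
    apply tsum_congr
    intro s
    by_cases g1 : ∀ j, s j ∈ Hi e (M * Real.log Y)
    · by_cases g2 : (L R s : ℝ) ≤ Y
      · rw [if_pos g1, if_pos g2, if_pos ⟨g1, g2⟩, ENNReal.ofReal_mul hC]
      · rw [if_pos g1, if_neg g2, if_neg (fun g => g2 g.2), mul_zero]
    · rw [if_neg g1, if_neg (fun g => g1 g.1), mul_zero]
  rw [h3] at h2
  have h4 : ENNReal.ofReal (∑ i ∈ I,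
      (((sol R (r i) ∩ Hi e (M * Real.log Y)).ncard : ℝ) ^ k)) ≤
      ENNReal.ofReal (C * K * Real.log Y ^ (-η)) := by
    rw [ENNReal.ofReal_sum_of_nonneg (fun i _ => by positivity)]
    have h5 : ∀ i ∈ I, ENNReal.ofReal (((sol R (r i) ∩ Hi e (M * Real.log Y)).ncard : ℝ) ^ k) =
        (((sol R (r i) ∩ Hi e (M * Real.log Y)).ncard ^ k : ℕ) : ℝ≥0∞) := by
      intro i _
      rw [← ENNReal.ofReal_natCast]
      congr 1
      push_cast
      rfl
    rw [Finset.sum_congr rfl h5]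
    refine h2.trans ?_
    rw [mul_assoc, ENNReal.ofReal_mul hC]
    gcongr
  have h6 : 0 ≤ C * K * Real.log Y ^ (-η) := by
    have : 0 ≤ Real.log Y := Real.log_nonneg (by linarith)
    positivity
  exact (ENNReal.ofReal_le_ofReal_iff h6).mp h4

end Pool.Agent.Lib.AbcZ
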